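import Pool.Agent.Y677.KU.Sqrt

set_option autoImplicit false

/-!
# Short intervals with real end points
-/

open Finset Filter Topology

namespace Pool.Agent.Y677.KU

open Pool.Agent.TH977.PW (N)
open Pool.Agent.Y677.RSZ (InProg Outside)

/-- the integers of the open interval `(x, x + y)` -/
def RI (x y : ℝ) : Set ℕ := {m | x < m ∧ (m : ℝ) < x + y}

/-- from real to integer end points -/
theorem real_int (θ θ' : ℝ) (hθ : 0 < θ') (h : θ' < θ) (X₀ : ℕ) : ∃ x₀ : ℝ, 3 ≤ x₀ ∧ ∀ x : ℝ, x₀ ≤ x →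
    ∀ y : ℝ, x ^ θ ≤ y → y ≤ x / 2 → ∃ a y' : ℕ, X₀ ≤ a ∧ (a : ℝ) ^ θ' ≤ y' ∧ y' ≤ a ∧ y / 2 ≤ y' ∧
      (y' : ℝ) ≤ 2 * y ∧ Real.log a ≤ Real.log x ∧ Real.log x ≤ 2 * Real.log a ∧ 1 ≤ Real.log a ∧
      ∀ m : ℕ, m ∈ RI x y ↔ a < m ∧ m ≤ a + y' := by
  have h1 := (tendsto_rpow_atTop (show 0 < θ - θ' by linarith)).eventually_ge_atTop 2
  have h2 := (tendsto_rpow_atTop (show 0 < θ by linarith)).eventually_ge_atTop 2
  obtain ⟨x₀, hx₀⟩ := eventually_atTop.1 (h1.and (h2.and (eventually_ge_atTop (X₀ + 16 : ℝ))))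
  refine ⟨max x₀ 3, le_max_right _ _, fun x hx y hy hyx => ?_⟩
  obtain ⟨g1, g2, g3⟩ := hx₀ x ((le_max_left _ _).trans hx)
  have hX0 : (0 : ℝ) ≤ X₀ := Nat.cast_nonneg _
  have hx16 : 16 ≤ x := by linarith
  have hx0 : 0 < x := by linarith
  have hy2 : 2 ≤ y := g2.trans hy
  have ha1 : (⌊x⌋₊ : ℝ) ≤ x := Nat.floor_le hx0.le
  have ha2 : x < ⌊x⌋₊ + 1 := Nat.lt_floor_add_one x
  have hb1 : x + y ≤ (⌈x + y⌉₊ : ℝ) := Nat.le_ceil _
  have hb2 : (⌈x + y⌉₊ : ℝ) < x + y + 1 := Nat.ceil_lt_add_one (by linarith)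
  obtain ⟨a, ha⟩ : ∃ a : ℕ, a = ⌊x⌋₊ := ⟨_, rfl⟩
  obtain ⟨b, hb⟩ : ∃ b : ℕ, b = ⌈x + y⌉₊ := ⟨_, rfl⟩
  rw [← ha] at ha1 ha2
  rw [← hb] at hb1 hb2
  have hab : a + 1 ≤ b := by
    have : (a : ℝ) + 1 ≤ b := by linarith
    exact_mod_cast this
  have hy' : ((b - 1 - a : ℕ) : ℝ) = b - 1 - a := by
    rw [Nat.cast_sub (by omega), Nat.cast_sub (by omega)]
    simp
  have ha15 : (15 : ℝ) ≤ a := by linarith
  have ha0 : (0 : ℝ) < a := by linarith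
  have hsq : x ≤ (a : ℝ) ^ 2 := by nlinarith
  refine ⟨a, b - 1 - a, ?_, ?_, ?_, ?_, ?_, ?_, ?_, ?_, ?_⟩
  · have : (X₀ : ℝ) ≤ a := by linarith
    exact_mod_cast this
  · rw [hy']
    have e1 : (a : ℝ) ^ θ' ≤ x ^ θ' := Real.rpow_le_rpow ha0.le ha1 hθ.le
    have e2 : x ^ θ' * x ^ (θ - θ') = x ^ θ := by
      rw [← Real.rpow_add hx0]
      congr 1
      ring
    have e3 : 1 ≤ x ^ θ' := Real.one_le_rpow (by linarith) hθ.le
    nlinarith
  · have : ((b - 1 - a : ℕ) : ℝ) ≤ a := by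
      rw [hy']
      linarith
    exact_mod_cast this
  · rw [hy']; linarith
  · rw [hy']; linarith
  · exact Real.log_le_log ha0 ha1
  · calc Real.log x ≤ Real.log ((a : ℝ) ^ 2) := Real.log_le_log hx0 hsq
      _ = 2 * Real.log a := by rw [Real.log_pow]; norm_num
  · rw [Real.le_log_iff_exp_le ha0]
    linarith [Real.exp_one_lt_d9]
  · intro m
    unfold RI
    rw [Set.mem_setOf_eq, Nat.add_sub_cancel' (by omega)]
    constructor
    · rintro ⟨h3, h4⟩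
      refine ⟨?_, ?_⟩
      · rw [ha]; exact (Nat.floor_lt hx0.le).2 h3
      · have : m < b := by rw [hb]; exact Nat.lt_ceil.2 h4
        omega
    · rintro ⟨h3, h4⟩
      refine ⟨?_, ?_⟩
      · rw [ha] at h3; exact (Nat.floor_lt hx0.le).1 h3
      · have : m < b := by omega
        rw [hb] at this
        exact Nat.lt_ceil.1 this

/-- counting in intervals with real end points -/
lemma ncard_RI (x y : ℝ) (a y' : ℕ) (h : ∀ m : ℕ, m ∈ RI x y ↔ a < m ∧ m ≤ a + y') (A : Set ℕ) :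
    (A ∩ RI x y).ncard = N A a (a + y') := by
  classical
  unfold Pool.Agent.TH977.PW.N
  rw [← Set.ncard_coe_finset]
  congr 1
  ext m
  simp only [Set.mem_inter_iff, coe_filter, mem_Ioc, Set.mem_setOf_eq, h m]
  tauto

end Pool.Agent.Y677.KU
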