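import Pool.Agent.Y677.KU.PolyFin
import Pool.Agent.Y677.RSZ.FinEx

set_option autoImplicit false

/-!
# Narrow progressions of almost primes with an explicit number of prime factors, one polynomial
-/

open Polynomial Finset Filter Topology

namespace Pool.Agent.Y677.KU

open Pool.Agent.W123.RU Pool.Agent.W123.RU.Poly
open Pool.Agent.TH977.PW (N Rough Few N_mono)
open Pool.Agent.Y677.RSZ (InProg Outside narrow exists_prog)

/-- the choice of the parameter -/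
lemma choose_zeta (g : ℕ) (hg : 1 ≤ g) (θ : ℝ) (hθ : 0 < θ) (hθ1 : θ ≤ 1) (r s : ℕ)
    (h1 : 4 * (g : ℝ) < θ * (3 * r + 1)) (h2 : (g : ℝ) < θ * r - (r - 1) / s) (h3 : 2 < θ * s) :
    2 ≤ r ∧ ∃ ζ : ℝ, 1 / 4 ≤ ζ ∧ ζ < 1 / 2 ∧ 1 / (s : ℝ) < θ * ζ ∧
      (g : ℝ) < θ * (ζ + r * (1 - ζ)) := by
  have hgr : (1 : ℝ) ≤ g := by exact_mod_cast hg
  have hs0 : (0 : ℝ) < s := by
    by_contra hcon
    rw [not_lt] at hcon
    nlinarith
  have hr1 : (1 : ℝ) < r := by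
    by_contra hcon
    rw [not_lt] at hcon
    nlinarith
  have hr2 : 2 ≤ r := by
    have : 1 < r := by exact_mod_cast hr1
    omega
  refine ⟨hr2, ?_⟩
  set w : ℝ := (r - g / θ) / (r - 1) with hw
  have hr0 : (0 : ℝ) < (r : ℝ) - 1 := by linarith
  have hgθ : (g : ℝ) / θ * θ = g := div_mul_cancel₀ _ hθ.ne'
  have a1 : 1 / 4 < w := by
    rw [hw, lt_div_iff₀ hr0]
    have : 4 * ((g : ℝ) / θ) < 3 * r + 1 := by
      have h4 : 4 * ((g : ℝ) / θ) = 4 * g / θ := by ring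
      rw [h4, div_lt_iff₀ hθ]
      linarith
    linarith
  have a2 : 1 / (s * θ) < w := by
    rw [hw, lt_div_iff₀ hr0]
    have h4 : (g : ℝ) / θ < r - (r - 1) / (s * θ) := by
      rw [div_lt_iff₀ hθ]
      have h5 : (r - (r - 1) / (s * θ)) * θ = θ * r - (r - 1) / s := by
        field_simp
      rw [h5]
      exact h2
    have h6 : 1 / (s * θ) * ((r : ℝ) - 1) = (r - 1) / (s * θ) := by ring
    rw [h6]
    linarith
  have a3 : 1 / (s * θ) < 1 / 2 := by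
    apply one_div_lt_one_div_of_lt (by norm_num)
    linarith
  obtain ⟨ζ, b1, b2⟩ := exists_between (max_lt (lt_min (show (1 : ℝ) / 4 < 1 / 2 by norm_num) a1)
    (lt_min a3 a2))
  have c1 := (le_max_left _ _).trans_lt b1
  have c2 := (le_max_right _ _).trans_lt b1
  have c3 := b2.trans_le (min_le_left _ _)
  have c4 := b2.trans_le (min_le_right _ _)
  refine ⟨ζ, c1.le, c3, ?_, ?_⟩
  · rw [div_lt_iff₀ (by positivity)] at c2
    rw [div_lt_iff₀ hs0]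
    linarith
  · rw [hw, lt_div_iff₀ hr0] at c4
    have h5 : (g : ℝ) / θ < ζ + r * (1 - ζ) := by linarith
    rw [div_lt_iff₀ hθ] at h5
    linarith

/-- **Almost prime values with explicit numbers of prime factors, in the form used for progressions.** -/
theorem kuhn_rough (f : ℤ[X]) (hf : Poly.Sys (fun _ : Fin 1 => f)) (θ : ℝ) (hθ : 0 < θ)
    (hθ1 : θ ≤ 1) (r s : ℕ) (h1 : 4 * (f.natDegree : ℝ) < θ * (3 * r + 1))
    (h2 : (f.natDegree : ℝ) < θ * r - (r - 1) / s) (h3 : 2 < θ * s) (Al : Set ℕ)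
    (hAl : ∀ m : ℕ, Rough (fun _ : Fin 1 => f) s m → Few (fun _ : Fin 1 => f) r m → m ∈ Al) :
    ∃ κ : ℝ, 0 < κ ∧ ∀ᶠ X : ℕ in atTop, ∀ Y : ℕ, (X : ℝ) ^ θ ≤ Y → Y ≤ X →
      κ * Y / Real.log X ^ 1 ≤ N Al X (X + Y) := by
  classical
  obtain ⟨hr2, ζ, z1, z2, z3, z4⟩ := choose_zeta f.natDegree (hf.deg 0) θ hθ hθ1 r s h1 h2 h3
  obtain ⟨κ, hκ, h⟩ := kuhn_poly f hf θ ζ hθ z1 z2 r z4 (by omega)
  refine ⟨κ, hκ, ?_⟩
  have hs0 : (0 : ℝ) < s := by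
    by_contra hcon
    rw [not_lt] at hcon
    nlinarith
  have hXr : Tendsto (fun X : ℕ => (X : ℝ)) atTop atTop := tendsto_natCast_atTop_atTop
  have e1 := ((tendsto_rpow_atTop (show 0 < θ * ζ - 1 / s by linarith)).comp
    hXr).eventually_gt_atTop ((2 : ℝ) ^ (1 / (s : ℝ)))
  filter_upwards [h, e1, eventually_ge_atTop 3] with X hX e1 hX3 Y hXY hYX
  simp only [Function.comp] at e1
  rw [pow_one]
  refine (hX Y hXY hYX).trans ?_
  have hX3r : (3 : ℝ) ≤ X := by exact_mod_cast hX3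
  have hX0 : (0 : ℝ) < X := by linarith
  have hsub : ((Ioc X (X + Y)).filter (fun n =>
        (∀ p : ℕ, p.Prime → p ∣ G f n → (Y : ℝ) ^ ζ ≤ p) ∧
        (G f n).primeFactorsList.length ≤ r)).card ≤ N Al X (X + Y) := by
    apply Pool.Agent.TH977.PW.card_le_N _ _ _ _ id (Function.injective_id.injOn)
    intro m hm
    rw [mem_filter, mem_Ioc] at hm
    refine ⟨hm.1.1, hm.1.2, hAl m ?_ ?_⟩
    · intro i p hp hd
      have h4 := hm.2.1 p hp ((dvd_G f p m).2 hd)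
      have h5 : (m : ℝ) ≤ 2 * X := by
        have : m ≤ 2 * X := by omega
        exact_mod_cast this
      calc (m : ℝ) ^ (1 / (s : ℝ)) ≤ (2 * X) ^ (1 / (s : ℝ)) :=
            Real.rpow_le_rpow (Nat.cast_nonneg _) h5 (by positivity)
        _ = (2 : ℝ) ^ (1 / (s : ℝ)) * (X : ℝ) ^ (1 / (s : ℝ)) :=
            Real.mul_rpow (by norm_num) hX0.le
        _ < (X : ℝ) ^ (θ * ζ - 1 / s) * (X : ℝ) ^ (1 / (s : ℝ)) :=
            mul_lt_mul_of_pos_right e1 (by positivity)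
        _ = (X : ℝ) ^ (θ * ζ) := by rw [← Real.rpow_add hX0, sub_add_cancel]
        _ = ((X : ℝ) ^ θ) ^ ζ := by rw [Real.rpow_mul hX0.le]
        _ ≤ (Y : ℝ) ^ ζ := Real.rpow_le_rpow (by positivity) hXY (by linarith)
        _ ≤ p := h4
    · intro i
      exact hm.2.2
  exact_mod_cast hsub

/-- **Narrow progressions with explicit numbers of prime factors, one polynomial.** -/
theorem narrow_explicit (f : ℤ[X]) (hf : Poly.Sys (fun _ : Fin 1 => f)) (r s : ℕ) (hs : 2 ≤ s)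
    (R Al : Set ℕ) (hAR : Al ⊆ R) (hR : ∀ m ∈ R, Rough (fun _ : Fin 1 => f) s m)
    (hAl : ∀ m : ℕ, Rough (fun _ : Fin 1 => f) s m → Few (fun _ : Fin 1 => f) r m → m ∈ Al) :
    (∀ θ : ℝ, 0 < θ → θ ≤ 1 → 4 * (f.natDegree : ℝ) < θ * (3 * r + 1) →
      (f.natDegree : ℝ) < θ * r - (r - 1) / s → 2 < θ * s →
      (∃ κ : ℝ, 0 < κ ∧ ∀ᶠ X : ℕ in atTop, ∀ Y : ℕ, (X : ℝ) ^ θ ≤ Y → Y ≤ X →
        κ * Y / Real.log X ≤ N Al X (X + Y)) ∧
      ∀ l : ℕ, ∃ B : ℕ, ∀ᶠ X : ℕ in atTop, ∀ Y : ℕ, (X : ℝ) ^ θ ≤ Y → Y ≤ X →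
        ∃ u d : ℕ, 1 ≤ d ∧ (d : ℝ) ≤ Real.log X ^ B ∧
          ∀ i < l, u + i * d ∈ Al ∧ X < u + i * d ∧ u + i * d ≤ X + Y) ∧
    ∀ θ : ℝ, 0 < θ → ∀ l : ℕ, 2 ≤ l → ∀ ε : ℝ, 0 < ε → ∃ B : ℕ, ∀ᶠ X : ℕ in atTop, ∀ Y : ℕ,
      (X : ℝ) ^ θ ≤ Y → Y ≤ X → ∀ A : Set ℕ, A ⊆ R →
        (N (Outside A l (Real.log X ^ B) X (X + Y)) X (X + Y) : ℝ) ≤ ε * Y / Real.log X := by
  have hB : ∀ θ : ℝ, 0 < θ → ∀ l : ℕ, 2 ≤ l → ∀ ε : ℝ, 0 < ε → ∃ B : ℕ, ∀ᶠ X : ℕ in atTop,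
      ∀ Y : ℕ, (X : ℝ) ^ θ ≤ Y → Y ≤ X → ∀ A : Set ℕ, A ⊆ R →
        (N (Outside A l (Real.log X ^ B) X (X + Y)) X (X + Y) : ℝ) ≤ ε * Y / Real.log X ^ 1 := by
    intro θ hθ l hl ε hε
    obtain ⟨B, hB⟩ := narrow (fun _ : Fin 1 => f) hf θ hθ s hs l hl ε hε
    refine ⟨B, ?_⟩
    filter_upwards [hB] with X hX Y hXY hYX A hA
    have h4 := hX Y hXY hYX A (fun m hm => hR m (hA hm))
    rwa [Fintype.card_fin] at h4
  refine ⟨fun θ hθ hθ1 h1 h2 h3 => ?_, fun θ hθ l hl ε hε => by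
    simpa only [pow_one] using hB θ hθ l hl ε hε⟩
  have hlow := kuhn_rough f hf θ hθ hθ1 r s h1 h2 h3 Al hAl
  exact ⟨by simpa only [pow_one] using hlow, exists_prog hAR 1 hlow (hB θ hθ)⟩

end Pool.Agent.Y677.KU
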