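import Pool.Agent.Y677.KU.LinFin
import Pool.Agent.Y677.KU.NarrowEx
import Pool.Agent.Y843.HS.Top

set_option autoImplicit false

/-!
# Narrow progressions of numbers with few prime factors inside residue classes, uniformly in the modulus
-/

open Finset Filter Topology

namespace Pool.Agent.Y677.KU

open Pool.Agent.TH977.PW (N)
open Pool.Agent.Y677.RSZ (InProg Outside prog_of_count)
open Pool.Agent.W123.RP Pool.Agent.H373R2.T7
open Pool.Agent.Y843.HS (Pr VV)

/-- the arguments of a residue class in an interval -/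
lemma args (x y q a : ℕ) (hq : 1 ≤ q) (hqx : q ≤ x) :
    ∃ a0 M L : ℕ, a0 < q ∧ a0 = a % q ∧
      (∀ m : ℕ, m ∈ Ioc M (M + L) ↔ x < a0 + q * m ∧ a0 + q * m ≤ x + y) ∧
      (y : ℝ) / q - 1 ≤ L ∧ (L : ℝ) ≤ y / q + 1 ∧ a0 + q * (M + L) ≤ x + y := by
  have ha0 : a % q < q := Nat.mod_lt _ hq
  set a0 := a % q with ha
  set M := (x - a0) / q with hM
  set M' := (x + y - a0) / q with hM'
  have hMM : M ≤ M' := Nat.div_le_div_right (by omega)
  have hq0 : (0 : ℝ) < q := by exact_mod_cast hq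
  have h1 := Nat.div_add_mod (x - a0) q
  have h2 := Nat.mod_lt (x - a0) hq
  have h3 := Nat.div_add_mod (x + y - a0) q
  have h4 := Nat.mod_lt (x + y - a0) hq
  rw [← hM] at h1
  rw [← hM'] at h3
  refine ⟨a0, M, M' - M, ha0, rfl, ?_, ?_, ?_, ?_⟩
  · intro m
    rw [mem_Ioc, Nat.add_sub_cancel' hMM]
    constructor
    · rintro ⟨h5, h6⟩
      have h7 : q * (M + 1) ≤ q * m := Nat.mul_le_mul_left q h5
      have h8 : q * m ≤ q * M' := Nat.mul_le_mul_left q h6
      rw [Nat.mul_add, Nat.mul_one] at h7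
      constructor
      · omega
      · omega
    · rintro ⟨h5, h6⟩
      constructor
      · by_contra hcon
        rw [not_lt] at hcon
        have h7 : q * m ≤ q * M := Nat.mul_le_mul_left q hcon
        omega
      · by_contra hcon
        rw [not_le] at hcon
        have h7 : q * (M' + 1) ≤ q * m := Nat.mul_le_mul_left q hcon
        rw [Nat.mul_add, Nat.mul_one] at h7
        omega
  · have h5 : y + q * M ≤ q * M' + q := by omega
    have h6 : (y : ℝ) + q * M ≤ q * M' + q := by exact_mod_cast h5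
    rw [Nat.cast_sub hMM, sub_le_iff_le_add, div_le_iff₀ hq0]
    linarith
  · have h5 : q * M' ≤ y + q * M + q := by omega
    have h6 : (q : ℝ) * M' ≤ y + q * M + q := by exact_mod_cast h5
    rw [Nat.cast_sub hMM]
    have h7 : (M' : ℝ) - M - 1 ≤ y / q := by
      rw [le_div_iff₀ hq0]
      linarith
    linarith
  · rw [Nat.add_sub_cancel' hMM]
    omega

/-- the elements of a set in an interval and the arguments -/
lemma card_args (x y q a0 M L : ℕ) (hq : 1 ≤ q)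
    (h : ∀ m : ℕ, m ∈ Ioc M (M + L) ↔ x < a0 + q * m ∧ a0 + q * m ≤ x + y)
    (T : Set ℕ) (hT : ∀ n ∈ T, n % q = a0) [DecidablePred (fun m => a0 + q * m ∈ T)] :
    N T x (x + y) = ((Ioc M (M + L)).filter (fun m => a0 + q * m ∈ T)).card := by
  classical
  unfold Pool.Agent.TH977.PW.N
  symm
  apply card_bij (fun m _ => a0 + q * m)
  · intro m hm
    rw [mem_filter] at hm
    rw [mem_filter, mem_Ioc]
    exact ⟨(h m).1 hm.1, hm.2⟩
  · intro m _ m' _ he
    have he' : a0 + q * m = a0 + q * m' := he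
    exact Nat.eq_of_mul_eq_mul_left hq (by omega)
  · intro n hn
    rw [mem_filter, mem_Ioc] at hn
    have h1 := hT n hn.2
    have h2 := Nat.div_add_mod n q
    rw [h1] at h2
    have h3 : a0 + q * (n / q) = n := by omega
    refine ⟨n / q, ?_, h3⟩
    rw [mem_filter, h (n / q), h3]
    exact ⟨hn.1, hn.2⟩

/-- **Lower bound** -/
theorem lin_lower (r s : ℕ) (θ : ℝ) (hθ : 0 < θ) (hθ1 : θ ≤ 1) (h1 : 4 < θ * (3 * r + 1))
    (h2 : 1 < θ * r - (r - 1) / s) (h3 : 2 < θ * s) :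
    ∃ κ : ℝ, 0 < κ ∧ ∀ᶠ x : ℕ in atTop, ∀ q a y : ℕ, 1 ≤ q → Nat.Coprime a q →
      (q : ℝ) * (x : ℝ) ^ θ ≤ y → y ≤ x → κ * y / (Nat.totient q * Real.log x) ≤
        N {n | n ≡ a [MOD q] ∧ (∀ p : ℕ, p.Prime → p ∣ n → (n : ℝ) ^ (1 / (s : ℝ)) < (p : ℝ)) ∧
          n.primeFactorsList.length ≤ r} x (x + y) := by
  classical
  have hs0 : (0 : ℝ) < s := by
    by_contra hcon
    rw [not_lt] at hcon
    nlinarith
  have hr1 : (1 : ℝ) < r := by
    by_contra hcon
    rw [not_lt] at hcon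
    nlinarith
  have hr2 : 2 ≤ r := by
    have : 1 < r := by exact_mod_cast hr1
    omega
  -- a smaller exponent
  obtain ⟨θ', t0, t1, t2, t3, t4⟩ : ∃ θ' : ℝ, 0 < θ' ∧ θ' < θ ∧ 4 < θ' * (3 * r + 1) ∧
      1 < θ' * r - (r - 1) / s ∧ 2 < θ' * s := by
    have a1 : 4 / (3 * (r : ℝ) + 1) < θ := by
      rw [div_lt_iff₀ (by linarith)]
      exact h1
    have a2 : (1 + ((r : ℝ) - 1) / s) / r < θ := by
      rw [div_lt_iff₀ (by linarith)]
      linarith
    have a3 : 2 / (s : ℝ) < θ := by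
      rw [div_lt_iff₀ hs0]
      exact h3
    obtain ⟨θ', b1, b2⟩ := exists_between (max_lt hθ (max_lt a1 (max_lt a2 a3)))
    have c0 := (le_max_left _ _).trans_lt b1
    have c1 := (le_max_right _ _).trans_lt b1
    have c2 := (le_max_left _ _).trans_lt c1
    have c3 := (le_max_right _ _).trans_lt c1
    have c4 := (le_max_left _ _).trans_lt c3
    have c5 := (le_max_right _ _).trans_lt c3
    rw [div_lt_iff₀ (by linarith)] at c2 c4
    rw [div_lt_iff₀ hs0] at c5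
    exact ⟨θ', c0, b2, c2, by linarith, c5⟩
  obtain ⟨_, ζ, z1, z2, z3, z4⟩ := choose_zeta 1 le_rfl θ' t0 (by linarith) r s
    (by push_cast; linarith) (by push_cast; linarith) t4
  push_cast at z4
  obtain ⟨κ, hκ, h⟩ := kuhn_lin θ' ζ t0 z1 z2 r z4 (by omega)
  refine ⟨κ / 2, by positivity, ?_⟩
  have hXr : Tendsto (fun X : ℕ => (X : ℝ)) atTop atTop := tendsto_natCast_atTop_atTop
  have e1 := ((tendsto_rpow_atTop (show 0 < θ' * ζ - 1 / s by linarith)).comp
    hXr).eventually_gt_atTop ((2 : ℝ) ^ (1 / (s : ℝ)))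
  have e2 := ((tendsto_rpow_atTop (show 0 < θ - θ' by linarith)).comp hXr).eventually_ge_atTop 2
  have e3 := ((tendsto_rpow_atTop hθ).comp hXr).eventually_ge_atTop 2
  filter_upwards [h, e1, e2, e3, eventually_ge_atTop 3] with x hx e1 e2 e3 hx3 q a y hq1 haq hqy hyx
  simp only [Function.comp] at e1 e2 e3
  have hx3r : (3 : ℝ) ≤ x := by exact_mod_cast hx3
  have hx0 : (0 : ℝ) < x := by linarith
  have hq0 : (0 : ℝ) < q := by exact_mod_cast hq1
  have hqx : q ≤ x := by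
    have h4 : (q : ℝ) ≤ x := by
      calc (q : ℝ) = q * 1 := (mul_one _).symm
        _ ≤ q * (x : ℝ) ^ θ := mul_le_mul_of_nonneg_left (by linarith) hq0.le
        _ ≤ y := hqy
        _ ≤ x := by exact_mod_cast hyx
    exact_mod_cast h4
  obtain ⟨a0, M, L, ha0, ha0e, hm, hL1, hL2, hsz⟩ := args x y q a hq1 hqx
  have hyq : (x : ℝ) ^ θ ≤ y / q := by
    rw [le_div_iff₀ hq0]
    linarith
  have hLy : (y : ℝ) / q / 2 ≤ L := by linarith
  have hLx : (x : ℝ) ^ θ' ≤ L := by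
    have h5 : (x : ℝ) ^ θ = (x : ℝ) ^ (θ - θ') * (x : ℝ) ^ θ' := by
      rw [← Real.rpow_add hx0, sub_add_cancel]
    have h6 : 0 < (x : ℝ) ^ θ' := by positivity
    nlinarith
  have ha0q : Nat.Coprime a0 q := by
    rw [ha0e]
    exact (Nat.mod_modEq a q).gcd_eq.trans haq
  have h6 := hx q a0 M L hq1 ha0q hLx (by omega)
  rw [card_args x y q a0 M L hq1 hm _ (by
    rintro n ⟨h7, _⟩
    rw [ha0e]
    exact h7)]
  have hφ0 : (0 : ℝ) < Nat.totient q := by exact_mod_cast Nat.totient_pos.2 (by omega)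
  have hlx : 0 < Real.log x := Real.log_pos (by linarith)
  have h7 : κ / 2 * y / (Nat.totient q * Real.log x) ≤
      κ * (q / Nat.totient q) * L / Real.log x := by
    calc κ / 2 * y / (Nat.totient q * Real.log x) =
          κ * (q / Nat.totient q) * ((y : ℝ) / q / 2) / Real.log x := by
          field_simp
      _ ≤ κ * (q / Nat.totient q) * L / Real.log x := by
          gcongr
  refine h7.trans (h6.trans ?_)
  have h8 : ((Ioc M (M + L)).filter (fun m =>
        (∀ p : ℕ, p.Prime → p ∣ a0 + q * m → (L : ℝ) ^ ζ ≤ p) ∧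
        (a0 + q * m).primeFactorsList.length ≤ r)).card ≤
      ((Ioc M (M + L)).filter (fun m => a0 + q * m ∈ {n | n ≡ a [MOD q] ∧
        (∀ p : ℕ, p.Prime → p ∣ n → (n : ℝ) ^ (1 / (s : ℝ)) < (p : ℝ)) ∧
          n.primeFactorsList.length ≤ r})).card := by
    apply card_le_card
    intro m hmm
    rw [mem_filter] at hmm ⊢
    refine ⟨hmm.1, ?_, ?_, hmm.2.2⟩
    · show (a0 + q * m) % q = a % q
      rw [Nat.add_mul_mod_self_left, ← ha0e, Nat.mod_eq_of_lt ha0]
    · intro p hp hd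
      have h4 := hmm.2.1 p hp hd
      have h5 : ((a0 + q * m : ℕ) : ℝ) ≤ 2 * x := by
        have h9 := ((hm m).1 hmm.1).2
        have : a0 + q * m ≤ 2 * x := by omega
        exact_mod_cast this
      calc ((a0 + q * m : ℕ) : ℝ) ^ (1 / (s : ℝ)) ≤ (2 * x) ^ (1 / (s : ℝ)) :=
            Real.rpow_le_rpow (Nat.cast_nonneg _) h5 (by positivity)
        _ = (2 : ℝ) ^ (1 / (s : ℝ)) * (x : ℝ) ^ (1 / (s : ℝ)) :=
            Real.mul_rpow (by norm_num) hx0.le
        _ < (x : ℝ) ^ (θ' * ζ - 1 / s) * (x : ℝ) ^ (1 / (s : ℝ)) :=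
            mul_lt_mul_of_pos_right e1 (by positivity)
        _ = (x : ℝ) ^ (θ' * ζ) := by rw [← Real.rpow_add hx0, sub_add_cancel]
        _ = ((x : ℝ) ^ θ') ^ ζ := by rw [Real.rpow_mul hx0.le]
        _ ≤ (L : ℝ) ^ ζ := Real.rpow_le_rpow (by positivity) hLx (by linarith)
        _ ≤ p := h4
  exact_mod_cast h8

/-- the class of the arguments of the multiples of `p` -/
def Zc (a q p : ℕ) : Finset ℕ := (range p).filter (fun c => p ∣ a + q * c)

lemma Zc_card (a q p : ℕ) (hp : p.Prime) (haq : Nat.Coprime a q) :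
    (Zc a q p).card = if p ∣ q then 0 else 1 := by
  split_ifs with h
  · rw [card_eq_zero]
    unfold Zc
    apply filter_eq_empty_iff.2
    intro m _ hd
    have h4 : p ∣ a := (Nat.dvd_add_left (h.mul_right m)).1 hd
    have h5 : p ∣ Nat.gcd a q := Nat.dvd_gcd h4 h
    rw [haq] at h5
    exact hp.one_lt.ne' (Nat.dvd_one.1 h5)
  · obtain ⟨r0, hr0, hr⟩ := class_lin a q p hp.pos ((Nat.Prime.coprime_iff_not_dvd hp).2 h).symm
    rw [card_eq_one]
    refine ⟨r0, ?_⟩
    unfold Zc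
    ext c
    rw [mem_filter, mem_range, mem_singleton, hr c]
    constructor
    · rintro ⟨h1, h2⟩
      rw [← h2, Nat.mod_eq_of_lt h1]
    · rintro rfl
      exact ⟨hr0, Nat.mod_eq_of_lt hr0⟩

lemma VV_eq (a q z : ℕ) (haq : Nat.Coprime a q) : VV (Zc a q) 0 z = Wq (Pr 0 z) q := by
  unfold VV Wq
  apply prod_congr rfl
  intro p hp
  have hpp : p.Prime := (mem_filter.1 hp).2
  rw [Zc_card a q p hpp haq]
  unfold hq
  split_ifs <;> simp

open Classical in
/-- **All but few elements of every set of rough numbers in a residue class are in narrow progressions** -/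
theorem lin_hered (s : ℕ) (hs : 1 ≤ s) (θ : ℝ) (hθ : 0 < θ) (l : ℕ) (hl : 2 ≤ l) (ε : ℝ) (hε : 0 < ε) :
    ∃ B : ℕ, ∀ᶠ x : ℕ in atTop, ∀ q a y : ℕ, 1 ≤ q → Nat.Coprime a q →
      (q : ℝ) * (x : ℝ) ^ θ ≤ y → y ≤ x → ∀ A : Set ℕ, (∀ n ∈ A, n ≡ a [MOD q]) →
        (∀ n ∈ A, ∀ p : ℕ, p.Prime → p ∣ n → (n : ℝ) ^ (1 / (s : ℝ)) < (p : ℝ)) →
        (N (Outside A l (q * Real.log x ^ B) x (x + y)) x (x + y) : ℝ) ≤
          ε * y / (Nat.totient q * Real.log x) := by
  obtain ⟨c, C, hc, hC, hV⟩ := Vz_bounds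
  have hs1 : (1 : ℝ) ≤ s := by exact_mod_cast hs
  have hs0 : (0 : ℝ) < s := by linarith
  obtain ⟨κ, hκ⟩ : ∃ κ : ℝ, κ = 1 / (2 * s) := ⟨_, rfl⟩
  have hκ0 : 0 < κ := by rw [hκ]; positivity
  have hκ1 : κ ≤ 1 := by
    rw [hκ, div_le_one (by positivity)]
    linarith
  obtain ⟨δ, hδ⟩ : ∃ δ : ℝ, δ = ε * κ * θ / (8 * C) := ⟨_, rfl⟩
  have hδ0 : 0 < δ := by rw [hδ]; positivity
  obtain ⟨B, X₀, hfin⟩ := Pool.Agent.Y843.HS.fin l 1 κ δ hκ0 hδ0
  refine ⟨2 * B, ?_⟩
  have hXr : Tendsto (fun X : ℕ => (X : ℝ)) atTop atTop := tendsto_natCast_atTop_atTop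
  have e1 := ((tendsto_rpow_atTop hθ).comp hXr).eventually_ge_atTop ((X₀ : ℝ) + 4)
  have e2 := ((tendsto_rpow_atTop (show 0 < θ * κ / 4 by positivity)).comp hXr).eventually_ge_atTop 2
  have e4 := (Real.tendsto_log_atTop.comp hXr).eventually_ge_atTop 2
  filter_upwards [e1, e2, e4, eventually_ge_atTop 3] with x e1 e2 e4 hx3 q a y hq1 haq hqy hyx A hA1 hA2
  simp only [Function.comp] at e1 e2 e4
  have hx3r : (3 : ℝ) ≤ x := by exact_mod_cast hx3
  have hx0 : (0 : ℝ) < x := by linarith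
  have hq0 : (0 : ℝ) < q := by exact_mod_cast hq1
  have hq1r : (1 : ℝ) ≤ q := by exact_mod_cast hq1
  have hX00 : (0 : ℝ) ≤ X₀ := Nat.cast_nonneg _
  have hyxr : (y : ℝ) ≤ x := by exact_mod_cast hyx
  have hy0 : (0 : ℝ) ≤ y := Nat.cast_nonneg _
  have hqx : q ≤ x := by
    have h4 : (q : ℝ) ≤ x := by
      calc (q : ℝ) = q * 1 := (mul_one _).symm
        _ ≤ q * (x : ℝ) ^ θ := mul_le_mul_of_nonneg_left (by linarith) hq0.le
        _ ≤ y := hqy
        _ ≤ x := hyxr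
    exact_mod_cast h4
  obtain ⟨a0, M, L, ha0, ha0e, hm, hL1, hL2, hsz⟩ := args x y q a hq1 hqx
  have hyq : (x : ℝ) ^ θ ≤ y / q := by
    rw [le_div_iff₀ hq0]
    linarith
  have hLy : (x : ℝ) ^ θ / 2 ≤ L := by linarith
  have hLy2 : (L : ℝ) ≤ 2 * (y / q) := by linarith
  have hL2r : (2 : ℝ) ≤ L := by linarith
  have hL0 : (0 : ℝ) < L := by linarith
  have hLx : (L : ℝ) ≤ 2 * x := by
    have h5 : (y : ℝ) / q ≤ y := div_le_self hy0 hq1r
    linarith
  have ha0q : Nat.Coprime a0 q := by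
    rw [ha0e]
    exact (Nat.mod_modEq a q).gcd_eq.trans haq
  have hφ0 : (0 : ℝ) < Nat.totient q := by exact_mod_cast Nat.totient_pos.2 (by omega)
  have hlx : 0 < Real.log x := by linarith
  by_contra hcon
  rw [not_le] at hcon
  set O : Set ℕ := Outside A l (q * Real.log x ^ (2 * B)) x (x + y) with hO
  have hOA : ∀ n ∈ O, n ∈ A := fun n hn => hn.1
  set S : Finset ℕ := (Ioc M (M + L)).filter (fun m => a0 + q * m ∈ O) with hS
  have hSN : (N O x (x + y) : ℝ) = S.card := by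
    rw [card_args x y q a0 M L hq1 hm O (by
      intro n hn
      rw [ha0e]
      exact hA1 n (hOA n hn))]
  have hX₀L : X₀ ≤ L := by
    have : (X₀ : ℝ) ≤ L := by linarith
    exact_mod_cast this
  obtain ⟨u, d, hd1, hd2, hud⟩ := hfin L M hX₀L (Zc a0 q) (by
    intro p hp _
    have h1 := Zc_card a0 q p hp ha0q
    have h2 := hp.two_le
    refine ⟨?_, ?_, ?_⟩
    · rw [h1]
      split_ifs <;> omega
    · rw [h1]
      split_ifs <;> omega
    · intro c hc
      unfold Zc at hc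
      exact mem_range.1 (mem_filter.1 hc).1) S (filter_subset _ _) (by
    intro m hmS p hp hpL hmem
    rw [hS, mem_filter] at hmS
    unfold Zc at hmem
    rw [mem_filter] at hmem
    have h1 : p ∣ a0 + q * m := by
      have h2 : (a0 + q * m) ≡ (a0 + q * (m % p)) [MOD p] :=
        Nat.ModEq.add_left _ (Nat.ModEq.mul_left _ (Nat.mod_modEq m p).symm)
      exact (Nat.ModEq.dvd_iff h2 dvd_rfl).2 hmem.2
    have h2 := hA2 _ (hOA _ hmS.2) p hp h1
    have h3 := ((hm m).1 hmS.1).1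
    have h4 : (x : ℝ) ≤ ((a0 + q * m : ℕ) : ℝ) := by exact_mod_cast h3.le
    have h5 : (L : ℝ) ^ κ ≤ ((a0 + q * m : ℕ) : ℝ) ^ (1 / (s : ℝ)) := by
      have e5 : (2 * (x : ℝ)) ^ (1 / (2 : ℝ)) ≤ x := by
        rw [← Real.sqrt_eq_rpow, Real.sqrt_le_left (by linarith)]
        nlinarith
      have e6 : κ = 1 / 2 * (1 / s) := by
        rw [hκ]
        field_simp
      calc (L : ℝ) ^ κ ≤ (2 * x) ^ κ := Real.rpow_le_rpow hL0.le hLx hκ0.le
        _ = ((2 * (x : ℝ)) ^ (1 / (2 : ℝ))) ^ (1 / (s : ℝ)) := by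
            rw [e6, Real.rpow_mul (by positivity)]
        _ ≤ (x : ℝ) ^ (1 / (s : ℝ)) := Real.rpow_le_rpow (by positivity) e5 (by positivity)
        _ ≤ _ := Real.rpow_le_rpow hx0.le h4 (by positivity)
    linarith) (by
    rw [VV_eq a0 q _ ha0q, ← hSN]
    refine le_trans ?_ hcon.le
    set z : ℕ := ⌊(L : ℝ) ^ κ⌋₊ with hz
    have hPr : ∀ p ∈ Pr 0 z, p.Prime := fun p hp => (mem_filter.1 hp).2
    have h1 := Wq_upper (Pr 0 z) hPr q hq1
    have h2 : ∏ p ∈ Pr 0 z, (1 - 1 / (p : ℝ)) = Vz z := by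
      unfold Vz
      apply prod_congr _ (fun _ _ => rfl)
      unfold Pool.Agent.Y843.HS.Pr pz
      ext p
      rw [mem_filter, mem_filter, mem_Ioc, mem_Icc]
      constructor
      · rintro ⟨⟨h3, h4⟩, h5⟩
        exact ⟨⟨h3, h4⟩, h5⟩
      · rintro ⟨⟨h3, h4⟩, h5⟩
        exact ⟨⟨h3, h4⟩, h5⟩
    rw [h2] at h1
    have h3 : (x : ℝ) ^ (θ / 2) ≤ L := by
      have e5 : (2 : ℝ) ≤ (x : ℝ) ^ (θ / 2) := by
        refine e2.trans ?_
        apply Real.rpow_le_rpow_of_exponent_le (by linarith)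
        nlinarith
      have e6 : (x : ℝ) ^ θ = (x : ℝ) ^ (θ / 2) * (x : ℝ) ^ (θ / 2) := by
        rw [← Real.rpow_add hx0, add_halves]
      nlinarith
    have h4 : (x : ℝ) ^ (θ * κ / 2) ≤ (L : ℝ) ^ κ := by
      calc (x : ℝ) ^ (θ * κ / 2) = ((x : ℝ) ^ (θ / 2)) ^ κ := by
            rw [← Real.rpow_mul hx0.le]
            congr 1
            ring
        _ ≤ (L : ℝ) ^ κ := Real.rpow_le_rpow (by positivity) h3 hκ0.le
    have h5 : (x : ℝ) ^ (θ * κ / 4) ≤ z := by
      have e5 : (x : ℝ) ^ (θ * κ / 2) = (x : ℝ) ^ (θ * κ / 4) * (x : ℝ) ^ (θ * κ / 4) := by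
        rw [← Real.rpow_add hx0]
        congr 1
        ring
      have e6 : (L : ℝ) ^ κ < z + 1 := Nat.lt_floor_add_one _
      nlinarith
    have hz2r : (2 : ℝ) ≤ z := e2.trans h5
    have hz2 : 2 ≤ z := by exact_mod_cast hz2r
    have h6 : θ * κ / 4 * Real.log x ≤ Real.log z := by
      rw [← Real.log_rpow hx0]
      exact Real.log_le_log (by positivity) h5
    have h7 := (hV z hz2).2
    have h8 : Vz z ≤ C / (θ * κ / 4 * Real.log x) :=
      h7.trans (div_le_div_of_nonneg_left hC.le (by positivity) h6)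
    have h9 : Wq (Pr 0 z) q ≤ C / (θ * κ / 4 * Real.log x) * (q / Nat.totient q) := by
      have e5 := mul_le_mul_of_nonneg_right (h1.trans h8)
        (show (0 : ℝ) ≤ q / Nat.totient q by positivity)
      refine le_trans (le_of_eq ?_) e5
      field_simp
    calc δ * L * Wq (Pr 0 z) q ≤ δ * (2 * (y / q)) *
          (C / (θ * κ / 4 * Real.log x) * (q / Nat.totient q)) := by
          have e5 : 0 ≤ Wq (Pr 0 z) q := by
            unfold Wq
            apply Finset.prod_nonneg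
            intro p hp
            unfold hq
            split_ifs
            · norm_num
            · have := (fac01 p (hPr p hp)).1
              linarith
          exact mul_le_mul (mul_le_mul_of_nonneg_left hLy2 hδ0.le) h9 e5 (by positivity)
      _ = ε * y / (Nat.totient q * Real.log x) := by
          rw [hδ]
          field_simp
          ring)
  have hmem : ∀ i < l, a0 + q * (u + i * d) ∈ O ∧ x < a0 + q * (u + i * d) ∧
      a0 + q * (u + i * d) ≤ x + y := by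
    intro i hi
    have h1 := hud i hi
    rw [hS, mem_filter] at h1
    exact ⟨h1.2, ((hm _).1 h1.1).1, ((hm _).1 h1.1).2⟩
  have h0 := hmem 0 (by omega)
  refine h0.1.2 ⟨a0 + q * u, q * d, Nat.mul_pos hq1 hd1, ?_, ?_, 0, by omega, by ring⟩
  · push_cast
    apply mul_le_mul_of_nonneg_left _ hq0.le
    refine hd2.trans ?_
    have h1 : Real.log L ≤ Real.log x ^ 2 := by
      have h2 : Real.log L ≤ 2 * Real.log x := by
        rw [← Real.log_rpow hx0, Real.rpow_two]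
        apply Real.log_le_log hL0
        nlinarith
      nlinarith
    rw [pow_mul]
    exact pow_le_pow_left₀ (Real.log_nonneg (by linarith)) h1 B
  · intro i hi
    have h1 := hmem i hi
    have h2 : a0 + q * (u + i * d) = a0 + q * u + i * (q * d) := by ring
    rw [h2] at h1
    exact ⟨hOA _ h1.1, h1.2⟩

/-- **Existence of narrow progressions in residue classes** -/
theorem lin_exists (r s : ℕ) (hs : 1 ≤ s) (θ : ℝ) (hθ : 0 < θ) (hθ1 : θ ≤ 1)
    (h1 : 4 < θ * (3 * r + 1)) (h2 : 1 < θ * r - (r - 1) / s) (h3 : 2 < θ * s) (l : ℕ) :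
    ∃ B : ℕ, ∀ᶠ x : ℕ in atTop, ∀ q a y : ℕ, 1 ≤ q → Nat.Coprime a q →
      (q : ℝ) * (x : ℝ) ^ θ ≤ y → y ≤ x →
      ∃ u d : ℕ, 1 ≤ d ∧ (d : ℝ) ≤ q * Real.log x ^ B ∧ ∀ i < l, u + i * d ∈ {n | n ≡ a [MOD q] ∧
        (∀ p : ℕ, p.Prime → p ∣ n → (n : ℝ) ^ (1 / (s : ℝ)) < (p : ℝ)) ∧
          n.primeFactorsList.length ≤ r} ∧ x < u + i * d ∧ u + i * d ≤ x + y := by
  obtain ⟨κ, hκ, hlow⟩ := lin_lower r s θ hθ hθ1 h1 h2 h3
  obtain ⟨B, hB⟩ := lin_hered s hs θ hθ (l + 2) (by omega) (κ / 2) (by positivity)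
  refine ⟨B, ?_⟩
  filter_upwards [hlow, hB, eventually_ge_atTop 3] with x g1 g2 hx3 q a y hq1 haq hqy hyx
  have hx3r : (3 : ℝ) ≤ x := by exact_mod_cast hx3
  have hx0 : (0 : ℝ) < x := by linarith
  have hlog : 0 < Real.log x := Real.log_pos (by linarith)
  have hq0 : (0 : ℝ) < q := by exact_mod_cast hq1
  have hφ0 : (0 : ℝ) < Nat.totient q := by exact_mod_cast Nat.totient_pos.2 (by omega)
  have hy0 : (0 : ℝ) < y := lt_of_lt_of_le (by positivity) hqy
  obtain ⟨u, d, h4, h5, h6⟩ := prog_of_count _ (l + 2) (q * Real.log x ^ B) x (x + y)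
    (κ / 2 * y / (Nat.totient q * Real.log x)) (lt_of_lt_of_le (by
      apply div_lt_div_of_pos_right _ (by positivity)
      nlinarith) (g1 q a y hq1 haq hqy hyx)) (g2 q a y hq1 haq hqy hyx _
        (fun n hn => hn.1) (fun n hn => hn.2.1))
  exact ⟨u, d, h4, h5, fun i hi => h6 i (by omega)⟩

end Pool.Agent.Y677.KU
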