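import Pool.Agent.Y677.KU.TwoE

set_option autoImplicit false

/-!
# Kuhn's weighted linear sieve with the weight `1 / (m + 1)`, primes beyond the level

As `kuhn`, with at most `m` prime factors in `[Y ^ ζ, Y ^ β)`; the conditions are
`log (β / (τ - β)) < m log ((τ - ζ) / ζ)` and `ζ ≤ 3 (τ - β)`.
-/

open Finset Filter

namespace Pool.Agent.Y677.KU

open Pool.Agent.W23.DC Pool.Agent.Y882

open Classical in
/-- **Kuhn's weighted linear sieve, weight `1 / (m + 1)`, primes beyond the level.** -/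
theorem kuhnw (κ m : ℕ) (hm : 1 ≤ m) (τ ζ β δ : ℝ) (hζ : 0 < ζ) (h2 : 2 * ζ < τ) (h4 : τ ≤ 4 * ζ)
    (hτ : τ ≤ 1) (hζβ : ζ ≤ β) (hβτ : β < τ) (hζ3 : ζ ≤ 3 * (τ - β))
    (hLL : Real.log β - Real.log (τ - β) < m * (Real.log (τ - ζ) - Real.log ζ)) (hδ : 0 < δ) :
    ∃ ε₁ η₁ c₀ : ℝ, 0 < ε₁ ∧ ε₁ ≤ ζ ∧ 0 < η₁ ∧ 0 < c₀ ∧ ∃ Y0 : ℕ, ∀ Y : ℕ, Y0 ≤ Y →
      ∀ (S : Finset ℕ) (G : ℕ → ℕ) (X0 : ℝ) (h : ℕ → ℝ), 0 ≤ X0 → Cond κ Y ε₁ β η₁ h →
      c₀ * X0 * ∏ p ∈ PZ Y ε₁, (1 - h p) - 6 * Real.log Y *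
        ∑ T ∈ (PZ Y β).powerset.filter (fun T => ((∏ p ∈ T, p : ℕ) : ℝ) ≤ (Y : ℝ) ^ (τ + δ)),
          Er S G X0 h T ≤
      ((S.filter (fun n => (∀ p ∈ PZ Y ζ, ¬ p ∣ G n) ∧
        ((pr Y ζ β).filter (fun q => q ∣ G n)).card ≤ m)).card : ℝ) := by
  obtain ⟨A0, F, f, hSF⟩ := Pool.Agent.W366.DC.SFX
  have hA0 := hSF.pos
  have hτ0 : 0 < τ := by linarith
  have hβ0 : 0 < β := by linarith
  have hζτ : ζ < τ := by linarith
  set s : ℝ := τ / ζ with hs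
  have hs2 : 2 < s := by rw [hs, lt_div_iff₀ hζ]; exact h2
  have hs4 : s ≤ 4 := by rw [hs, div_le_iff₀ hζ]; exact h4
  have hfs : f s = A0 * Real.log (s - 1) / s := hSF.f4 s hs2.le hs4
  have hf : 0 < f s := by
    rw [hfs]
    have h5 : 0 < Real.log (s - 1) := Real.log_pos (by linarith)
    positivity
  have hs1 : s - 1 = (τ - ζ) / ζ := by
    rw [hs]
    field_simp
  have hlogs : Real.log (s - 1) = Real.log (τ - ζ) - Real.log ζ := by
    rw [hs1, Real.log_div (by linarith) hζ.ne']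
  -- the main constant
  set Lb : ℝ := Real.log β - Real.log (τ - β) with hLb
  set Lz : ℝ := Real.log (τ - ζ) - Real.log ζ with hLz
  have hm1 : (1 : ℝ) ≤ m := by exact_mod_cast hm
  obtain ⟨w, hw⟩ : ∃ w : ℝ, w = 1 / ((m : ℝ) + 1) := ⟨_, rfl⟩
  have hw0 : 0 < w := by rw [hw]; positivity
  have hw2 : w ≤ 1 / 2 := by
    rw [hw]
    exact one_div_le_one_div_of_le (by norm_num) (by linarith)
  have hwm : w * (m + 1) = 1 := by
    rw [hw]
    field_simp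
  set c₁ : ℝ := A0 * ζ / τ * (w * (m * Lz - Lb)) with hc₁
  have hc₁0 : 0 < c₁ := by
    rw [hc₁]
    have : 0 < w * (m * Lz - Lb) := mul_pos hw0 (by linarith)
    positivity
  have hfc : f s = A0 * ζ / τ * Lz := by
    rw [hfs, hlogs, hs]
    field_simp
  have hlogβζ : 0 ≤ Real.log (β / ζ) := Real.log_nonneg (by rw [le_div_iff₀ hζ]; linarith)
  set η : ℝ := c₁ / (12 * (2 + Real.log (β / ζ))) with hη
  have hη0 : 0 < η := by rw [hη]; positivity
  have hηb : 3 * η * (2 + Real.log (β / ζ)) = c₁ / 4 := by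
    rw [hη]
    field_simp
    norm_num
  -- the second sieve
  obtain ⟨ζ', hζ'⟩ : ∃ ζ' : ℝ, ζ' = min (τ - β) ζ := ⟨_, rfl⟩
  have hζ'0 : 0 < ζ' := by
    rw [hζ']
    exact lt_min (by linarith) hζ
  have hζ'ζ : ζ' ≤ ζ := by rw [hζ']; exact min_le_right _ _
  have hζ'β : ζ' ≤ τ - β := by rw [hζ']; exact min_le_left _ _
  have hζ'3 : ζ ≤ 3 * ζ' := by
    rw [hζ', mul_min_of_nonneg _ _ (by norm_num)]
    exact le_min hζ3 (by linarith)
  obtain ⟨τ', hτ'⟩ : ∃ τ' : ℝ, τ' = min (3 * ζ') (ζ' + τ / 2) := ⟨_, rfl⟩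
  have hτ'2 : 2 * ζ' < τ' := by
    rw [hτ']
    exact lt_min (by linarith) (by linarith)
  have hτ'3 : τ' ≤ 3 * ζ' := by rw [hτ']; exact min_le_left _ _
  have hτ'1 : τ' ≤ 1 := by
    have : τ' ≤ ζ' + τ / 2 := by rw [hτ']; exact min_le_right _ _
    linarith
  have hf' : 0 < f (τ' / ζ') := by
    have h5 : 2 < τ' / ζ' := by rw [lt_div_iff₀ hζ'0]; exact hτ'2
    have h6 : τ' / ζ' ≤ 3 := by rw [div_le_iff₀ hζ'0]; exact hτ'3
    rw [hSF.f4 _ h5.le (by linarith)]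
    have h7 : 0 < Real.log (τ' / ζ' - 1) := Real.log_pos (by linarith)
    have h8 : 0 < τ' / ζ' := by linarith
    positivity
  obtain ⟨εa, hεa0, hεaζ, HA⟩ := twoE κ τ ζ δ ζ η hζ h2 hτ hδ hζ hη0 hSF hf
  obtain ⟨εb, hεb0, hεbζ, HB⟩ := twoE κ τ' ζ' δ ζ' η hζ'0 hτ'2 hτ'1 hδ hζ'0 hη0 hSF hf'
  obtain ⟨ε₁, hε₁⟩ : ∃ ε₁ : ℝ, ε₁ = min εa εb := ⟨_, rfl⟩
  have hε0 : 0 < ε₁ := by rw [hε₁]; exact lt_min hεa0 hεb0
  have hεa : ε₁ ≤ εa := by rw [hε₁]; exact min_le_left _ _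
  have hεb : ε₁ ≤ εb := by rw [hε₁]; exact min_le_right _ _
  have hεζ : ε₁ ≤ ζ := hεa.trans hεaζ
  obtain ⟨ηa, hηa, Ya, HYa⟩ := HA ε₁ hε0 hεa
  obtain ⟨ηb, hηb', Yb, HYb⟩ := HB ε₁ hε0 hεb
  obtain ⟨η₁, hη₁e⟩ : ∃ η₁ : ℝ, η₁ = min ηa ηb := ⟨_, rfl⟩
  have hη₁ : 0 < η₁ := by rw [hη₁e]; exact lt_min hηa hηb'
  have hη₁a : η₁ ≤ ηa := by rw [hη₁e]; exact min_le_left _ _
  have hη₁b : η₁ ≤ ηb := by rw [hη₁e]; exact min_le_right _ _
  obtain ⟨Y1, hY1⟩ : ∃ Y1 : ℕ, Y1 = max Ya Yb := ⟨_, rfl⟩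
  have hlogε : 0 ≤ Real.log (1 / ε₁) := Real.log_nonneg (by
    rw [le_div_iff₀ hε0]; linarith)
  set κ' : ℝ := c₁ / (2 * A0 * ζ * (2 * Real.log (1 / ε₁) + 2)) with hκ'
  have hκ0 : 0 < κ' := by rw [hκ']; positivity
  have hκb : A0 * ζ * (κ' * (2 * Real.log (1 / ε₁) + 2)) = c₁ / 2 := by
    rw [hκ']
    field_simp
  obtain ⟨η₂, hη₂, HMI⟩ := Pool.Agent.W505.DC.MI ε₁ (κ' * ζ' ^ 2) κ' (1 / ζ') hε0 (by linarith)
    (by positivity) hκ0 (by positivity)
  refine ⟨ε₁, min (min η₁ η₂) 1, ε₁ / ζ * (c₁ / 2), hε0, hεζ, lt_min (lt_min hη₁ hη₂) one_pos,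
    by positivity, max Y1 2, ?_⟩
  intro Y hY S G X0 h hX0 hC
  have hYY1 : Y1 ≤ Y := (le_max_left _ _).trans hY
  have hY2 : 2 ≤ Y := (le_max_right _ _).trans hY
  have hY2r : (2 : ℝ) ≤ Y := by exact_mod_cast hY2
  have hlY : 0 < Real.log Y := Real.log_pos (by linarith)
  have hCζ : Cond κ Y ε₁ ζ ηa h :=
    Cond_mono hC hζβ (((min_le_left _ _).trans (min_le_left _ _)).trans hη₁a)
  have hCζ' : Cond κ Y ε₁ ζ' ηb h :=
    Cond_mono hC (hζ'ζ.trans hζβ) (((min_le_left _ _).trans (min_le_left _ _)).trans hη₁b)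
  have hMβ : Mer (pr Y ε₁ β) (tt Y) h ε₁ β η₂ :=
    Mer_mono hC.mer le_rfl ((min_le_left _ _).trans (min_le_right _ _))
  have hM1 : Mer (pr Y ε₁ β) (tt Y) h ε₁ β 1 := Mer_mono hC.mer le_rfl (min_le_right _ _)
  have hnn : ∀ p ∈ pr Y ε₁ β, 0 ≤ h p := by
    intro p hp
    rw [mem_pr'] at hp
    exact hC.nn p (mem_PZ.2 ⟨hp.1, hp.2.1, hp.2.2.2⟩)
  rw [hY1] at hYY1
  obtain ⟨⟨c, hc1, hc2, hc3, hc4⟩, HU⟩ := HYa Y ((le_max_left _ _).trans hYY1)
  obtain ⟨-, HU'⟩ := HYb Y ((le_max_right _ _).trans hYY1)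
  have hPp : ∀ p ∈ PZ Y ζ, p.Prime := fun p hp => (mem_PZ.1 hp).2.1
  set V : ℝ := ∏ p ∈ PZ Y ε₁, (1 - h p) with hV
  have hV0 : 0 ≤ V := prod_nonneg fun p hp => by
    have := hC.le1 p hp
    linarith
  set Q : Finset ℕ := pr Y ζ β with hQ
  set D : ℝ := (Y : ℝ) ^ (τ + δ) with hD
  -- the first term
  have hS1 := sift_lower (PZ Y ζ) hPp c (5 * Real.log Y) D hc1 hc2 hc3 S G X0 h
  have hS1' : X0 * (ε₁ / ζ * (f s - η) * V) ≤ X0 * VV (PZ Y ζ) c h :=
    mul_le_mul_of_nonneg_left (hc4 h hCζ) hX0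
  -- the terms for the primes in Q
  have hSq : ∀ q ∈ Q, ((S.filter (fun n => q ∣ G n ∧ ∀ p ∈ PZ Y ζ, ¬ p ∣ G n)).card : ℝ) ≤
      X0 * (h q * (ε₁ / ζ * (A0 * ζ * (1 / (τ - tt Y q)) + 3 * η) * V)) +
        ∑ T ∈ (PZ Y ζ).powerset.filter (fun T => ((∏ p ∈ T, p : ℕ) : ℝ) * q ≤ D),
          Er S G X0 h (insert q T) := by
    intro q hq
    rw [hQ, mem_pr'] at hq
    obtain ⟨hq1, hq2, hq3, hq4⟩ := hq
    have hσ0 : 0 < τ - tt Y q := by linarith
    have hqP : q ∉ PZ Y ζ := by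
      rw [mem_PZ]
      rintro ⟨-, -, h5⟩
      linarith
    have hqn : 0 ≤ h q := hC.nn q (mem_PZ.2 ⟨hq1, hq2, hq4⟩)
    rcases le_or_gt ζ (τ - tt Y q) with hcase | hcase
    · obtain ⟨cq, u1, u2, u3, u4⟩ := HU (τ - tt Y q) hcase (by linarith)
      have h5 := sift_upper (PZ Y ζ) hPp q hq2 hqP cq D u1 (by
        intro T hT hne
        have h6 := u2 T hT hne
        rw [tt_mul_log Y hY2 q hq2.pos, hD]
        calc ((∏ p ∈ T, p : ℕ) : ℝ) * (Y : ℝ) ^ (tt Y q)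
            ≤ (Y : ℝ) ^ (τ - tt Y q + δ) * (Y : ℝ) ^ (tt Y q) :=
              mul_le_mul_of_nonneg_right h6 (by positivity)
          _ = (Y : ℝ) ^ (τ + δ) := by
              rw [← Real.rpow_add (by linarith)]
              congr 1
              ring) u3 S G X0 h
      refine h5.trans (add_le_add_left ?_ _)
      apply mul_le_mul_of_nonneg_left _ hX0
      apply mul_le_mul_of_nonneg_left _ hqn
      refine (u4 h hCζ).trans ?_
      apply mul_le_mul_of_nonneg_right _ hV0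
      apply mul_le_mul_of_nonneg_left _ (by positivity)
      rw [hSF.F3 _ (by rw [le_div_iff₀ hζ]; linarith) (by rw [div_le_iff₀ hζ]; linarith)]
      have h9 : A0 / ((τ - tt Y q) / ζ) = A0 * ζ * (1 / (τ - tt Y q)) := by
        have h10 : τ - tt Y q ≠ 0 := hσ0.ne'
        field_simp
      rw [h9]
      linarith
    · have hPp' : ∀ p ∈ PZ Y ζ', p.Prime := fun p hp => (mem_PZ.1 hp).2.1
      have hsubP : PZ Y ζ' ⊆ PZ Y ζ := PZ_mono Y hζ'ζ
      have hqP' : q ∉ PZ Y ζ' := fun h5 => hqP (hsubP h5)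
      obtain ⟨cq, u1, u2, u3, u4⟩ := HU' (τ - tt Y q) (by linarith) (by linarith)
      have h5 := sift_upper (PZ Y ζ') hPp' q hq2 hqP' cq D u1 (by
        intro T hT hne
        have h6 := u2 T hT hne
        rw [tt_mul_log Y hY2 q hq2.pos, hD]
        calc ((∏ p ∈ T, p : ℕ) : ℝ) * (Y : ℝ) ^ (tt Y q)
            ≤ (Y : ℝ) ^ (τ - tt Y q + δ) * (Y : ℝ) ^ (tt Y q) :=
              mul_le_mul_of_nonneg_right h6 (by positivity)
          _ = (Y : ℝ) ^ (τ + δ) := by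
              rw [← Real.rpow_add (by linarith)]
              congr 1
              ring) u3 S G X0 h
      have h6 : ((S.filter (fun n => q ∣ G n ∧ ∀ p ∈ PZ Y ζ, ¬ p ∣ G n)).card : ℝ) ≤
          ((S.filter (fun n => q ∣ G n ∧ ∀ p ∈ PZ Y ζ', ¬ p ∣ G n)).card : ℝ) := by
        apply Nat.cast_le.2
        apply card_le_card
        intro n hn
        rw [mem_filter] at hn ⊢
        exact ⟨hn.1, hn.2.1, fun p hp => hn.2.2 p (hsubP hp)⟩
      refine h6.trans (h5.trans (add_le_add ?_ ?_))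
      · apply mul_le_mul_of_nonneg_left _ hX0
        apply mul_le_mul_of_nonneg_left _ hqn
        refine (u4 h hCζ').trans ?_
        apply mul_le_mul_of_nonneg_right _ hV0
        rw [hSF.F3 _ (by rw [le_div_iff₀ hζ'0]; linarith) (by rw [div_le_iff₀ hζ'0]; linarith)]
        have h9 : ε₁ / ζ' * (A0 / ((τ - tt Y q) / ζ') + η) =
            ε₁ * (A0 * (1 / (τ - tt Y q)) + η / ζ') := by
          have h10 : τ - tt Y q ≠ 0 := hσ0.ne'
          field_simp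
        have h11 : ε₁ / ζ * (A0 * ζ * (1 / (τ - tt Y q)) + 3 * η) =
            ε₁ * (A0 * (1 / (τ - tt Y q)) + 3 * η / ζ) := by
          have h10 : τ - tt Y q ≠ 0 := hσ0.ne'
          field_simp
        rw [h9, h11]
        apply mul_le_mul_of_nonneg_left _ hε0.le
        apply add_le_add_right
        rw [div_le_div_iff₀ hζ'0 hζ]
        nlinarith
      · apply sum_le_sum_of_subset_of_nonneg
        · intro T hT
          rw [mem_filter, mem_powerset] at hT ⊢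
          exact ⟨hT.1.trans hsubP, hT.2⟩
        · intro T _ _
          exact abs_nonneg _
  -- the sum of the main terms over Q
  have hQe : (pr Y ε₁ β).filter (fun p => ζ ≤ tt Y p ∧ tt Y p < β) = Q := by
    ext p
    rw [mem_filter, hQ, mem_pr', mem_pr']
    constructor
    · rintro ⟨⟨h3, h4, h5, h6⟩, h7⟩
      exact ⟨h3, h4, h7.1, h6⟩
    · rintro ⟨h3, h4, h5, h6⟩
      exact ⟨⟨h3, h4, hεζ.trans h5, h6⟩, h5, h6⟩
  have hsumh : ∑ q ∈ Q, h q ≤ Real.log (β / ζ) + 1 := by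
    have h5 := hM1 ζ β hεζ hζβ le_rfl
    rw [hQe] at h5
    linarith [(abs_le.1 h5).2]
  have hsumI : ∑ q ∈ Q, h q * (1 / (τ - tt Y q)) ≤
      1 / τ * Lb + 1 / τ * Lz + κ' * (2 * Real.log (1 / ε₁) + 2) := by
    have h5 := HMI (pr Y ε₁ β) (tt Y) h β (by linarith) hnn hMβ ζ β (fun x => 1 / (τ - x)) hεζ hζβ
      le_rfl (by
        apply ContinuousOn.div continuousOn_const (continuousOn_const.sub continuousOn_id)
        intro x hx
        have h6 := hx.2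
        have h7 : τ - x ≠ 0 := by linarith
        exact h7) (by
        intro x hx
        have h6 : ζ' ≤ τ - x := by linarith [hx.2]
        rw [abs_of_pos (one_div_pos.2 (by linarith))]
        exact one_div_le_one_div_of_le hζ'0 h6) (by
        intro x hx y hy hxy
        have h6 : ζ' ≤ τ - x := by linarith [hx.2]
        have h7 : ζ' ≤ τ - y := by linarith [hy.2]
        have h8 : 1 / (τ - x) - 1 / (τ - y) = (x - y) / ((τ - x) * (τ - y)) := by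
          have h9 : τ - x ≠ 0 := by linarith
          have h10 : τ - y ≠ 0 := by linarith
          field_simp
          ring
        rw [h8, abs_div, abs_of_pos (show 0 < (τ - x) * (τ - y) by
          apply mul_pos <;> linarith), div_le_iff₀ (by apply mul_pos <;> linarith)]
        refine hxy.trans ?_
        apply mul_le_mul_of_nonneg_left _ hκ0.le
        rw [sq]
        exact mul_le_mul h6 h7 hζ'0.le (by linarith))
    rw [hQe, integral_kuhn τ ζ β hζ hζβ hβτ] at h5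
    have h6 := (abs_le.1 h5).2
    have h7 : 1 / τ * (Real.log ζ - Real.log (τ - ζ)) = - (1 / τ * Lz) := by
      rw [hLz]
      ring
    rw [h7] at h6
    linarith
  have hmain : ∑ q ∈ Q, h q * (A0 * ζ * (1 / (τ - tt Y q)) + 3 * η) ≤
      A0 * ζ / τ * (Lb + Lz) + c₁ / 2 + 3 * η * (Real.log (β / ζ) + 1) := by
    have h5 : ∑ q ∈ Q, h q * (A0 * ζ * (1 / (τ - tt Y q)) + 3 * η) =
        A0 * ζ * ∑ q ∈ Q, h q * (1 / (τ - tt Y q)) + 3 * η * ∑ q ∈ Q, h q := by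
      rw [mul_sum, mul_sum, ← sum_add_distrib]
      apply sum_congr rfl
      intro q hq
      ring
    rw [h5]
    have h6 : A0 * ζ * ∑ q ∈ Q, h q * (1 / (τ - tt Y q)) ≤
        A0 * ζ * (1 / τ * Lb + 1 / τ * Lz + κ' * (2 * Real.log (1 / ε₁) + 2)) :=
      mul_le_mul_of_nonneg_left hsumI (by positivity)
    have h7 : 3 * η * ∑ q ∈ Q, h q ≤ 3 * η * (Real.log (β / ζ) + 1) :=
      mul_le_mul_of_nonneg_left hsumh (by positivity)
    have h8 : A0 * ζ * (1 / τ * Lb + 1 / τ * Lz + κ' * (2 * Real.log (1 / ε₁) + 2)) =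
        A0 * ζ / τ * (Lb + Lz) + A0 * ζ * (κ' * (2 * Real.log (1 / ε₁) + 2)) := by
      field_simp
    rw [h8, hκb] at h6
    linarith
  -- the errors
  set 𝒯 : Finset (Finset ℕ) :=
    (PZ Y β).powerset.filter (fun T => ((∏ p ∈ T, p : ℕ) : ℝ) ≤ D) with h𝒯
  have hEr0 : ∀ T, 0 ≤ Er S G X0 h T := fun T => abs_nonneg _
  have herr1 : ∑ T ∈ (PZ Y ζ).powerset.filter (fun T => ((∏ p ∈ T, p : ℕ) : ℝ) ≤ D),
      Er S G X0 h T ≤ ∑ T ∈ 𝒯, Er S G X0 h T := by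
    apply sum_le_sum_of_subset_of_nonneg
    · intro T hT
      rw [mem_filter, mem_powerset] at hT
      rw [h𝒯, mem_filter, mem_powerset]
      exact ⟨hT.1.trans (PZ_mono Y hζβ), hT.2⟩
    · intro T _ _
      exact hEr0 T
  have herr2 : ∑ q ∈ Q, ∑ T ∈ (PZ Y ζ).powerset.filter
      (fun T => ((∏ p ∈ T, p : ℕ) : ℝ) * q ≤ D), Er S G X0 h (insert q T) ≤
      ∑ T ∈ 𝒯, Er S G X0 h T := by
    rw [sum_sigma']
    have hinj : Set.InjOn (fun x : (Σ _ : ℕ, Finset ℕ) => insert x.1 x.2)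
        (Q.sigma (fun q => (PZ Y ζ).powerset.filter
          (fun T => ((∏ p ∈ T, p : ℕ) : ℝ) * q ≤ D)) : Finset (Σ _ : ℕ, Finset ℕ)) := by
      rintro ⟨q, T⟩ hx ⟨q', T'⟩ hx' heq
      rw [mem_coe, mem_sigma, mem_filter, mem_powerset] at hx hx'
      simp only at hx hx' heq
      have hout : ∀ a ∈ Q, a ∉ PZ Y ζ := by
        intro a ha h5
        rw [hQ, mem_pr'] at ha
        rw [mem_PZ] at h5
        linarith [h5.2.2, ha.2.2.1]
      have hqT : q ∉ T := fun h5 => hout q hx.1 (hx.2.1 h5)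
      have hqT' : q' ∉ T' := fun h5 => hout q' hx'.1 (hx'.2.1 h5)
      have h5 : q ∈ insert q' T' := by
        rw [← heq]
        exact mem_insert_self _ _
      rw [mem_insert] at h5
      have h6 : q = q' := by
        rcases h5 with h5 | h5
        · exact h5
        · exact absurd (hx'.2.1 h5) (hout q hx.1)
      subst h6
      have h7 : T = T' := by
        rw [← erase_insert hqT, heq, erase_insert hqT']
      rw [h7]
    rw [← sum_image (f := fun T => Er S G X0 h T) hinj]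
    apply sum_le_sum_of_subset_of_nonneg
    · intro U hU
      rw [mem_image] at hU
      obtain ⟨⟨q, T⟩, hx, rfl⟩ := hU
      rw [mem_sigma, mem_filter, mem_powerset] at hx
      simp only at hx ⊢
      obtain ⟨hq, hT, hle⟩ := hx
      rw [hQ, mem_pr'] at hq
      have hqT : q ∉ T := by
        intro h5
        have := hT h5
        rw [mem_PZ] at this
        linarith [this.2.2, hq.2.2.1]
      rw [h𝒯, mem_filter, mem_powerset]
      constructor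
      · intro p hp
        rw [mem_insert] at hp
        rcases hp with rfl | hp
        · exact mem_PZ.2 ⟨hq.1, hq.2.1, hq.2.2.2⟩
        · exact PZ_mono Y hζβ (hT hp)
      · rw [prod_insert hqT]
        push_cast at hle ⊢
        linarith
    · intro T _ _
      exact hEr0 T
  -- conclusion
  refine le_trans ?_ (kuhn_point_m m (PZ Y ζ) Q S G)
  rw [← hw]
  have hsum : ∑ q ∈ Q, ((S.filter (fun n => q ∣ G n ∧ ∀ p ∈ PZ Y ζ, ¬ p ∣ G n)).card : ℝ) ≤
      X0 * (ε₁ / ζ * V * ∑ q ∈ Q, h q * (A0 * ζ * (1 / (τ - tt Y q)) + 3 * η)) +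
        ∑ T ∈ 𝒯, Er S G X0 h T := by
    refine (sum_le_sum hSq).trans ?_
    rw [sum_add_distrib]
    apply add_le_add (le_of_eq ?_) herr2
    rw [mul_sum, mul_sum]
    apply sum_congr rfl
    intro q _
    ring
  have hE0 : 0 ≤ ∑ T ∈ 𝒯, Er S G X0 h T := sum_nonneg fun T _ => hEr0 T
  have hlog1 : 1 / 2 ≤ Real.log Y := by
    have h5 : Real.log 2 ≤ Real.log Y := Real.log_le_log (by norm_num) hY2r
    linarith [Real.log_two_gt_d9]
  have hbr : c₁ / 2 ≤ (f s - η) - w * (A0 * ζ / τ * (Lb + Lz) + c₁ / 2 +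
      3 * η * (Real.log (β / ζ) + 1)) := by
    have h5 : f s - w * (A0 * ζ / τ * (Lb + Lz)) = c₁ := by
      have h51 : A0 * ζ / τ * Lz = A0 * ζ / τ * Lz * (w * (m + 1)) := by rw [hwm, mul_one]
      rw [hfc, hc₁]
      linear_combination h51
    have h6 : η + w * (3 * η * (Real.log (β / ζ) + 1)) ≤ c₁ / 4 := by
      rw [← hηb]
      have h61 : 0 ≤ 3 * η * (Real.log (β / ζ) + 1) := by positivity
      have h62 : w * (3 * η * (Real.log (β / ζ) + 1)) ≤ 1 * (3 * η * (Real.log (β / ζ) + 1)) :=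
        mul_le_mul_of_nonneg_right (by linarith) h61
      linarith
    have h7 : w * (c₁ / 2) ≤ c₁ / 4 := by nlinarith
    linarith
  have hXV : 0 ≤ X0 * (ε₁ / ζ * V) := mul_nonneg hX0 (mul_nonneg (by positivity) hV0)
  have h10 : X0 * (ε₁ / ζ * V) * (c₁ / 2) ≤ X0 * (ε₁ / ζ * V) * ((f s - η) -
      w * ∑ q ∈ Q, h q * (A0 * ζ * (1 / (τ - tt Y q)) + 3 * η)) := by
    apply mul_le_mul_of_nonneg_left _ hXV
    have h13 := mul_le_mul_of_nonneg_left hmain hw0.le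
    linarith
  have h11 : 5 * Real.log Y * ∑ T ∈ (PZ Y ζ).powerset.filter
      (fun T => ((∏ p ∈ T, p : ℕ) : ℝ) ≤ D), Er S G X0 h T ≤
      5 * Real.log Y * ∑ T ∈ 𝒯, Er S G X0 h T :=
    mul_le_mul_of_nonneg_left herr1 (by positivity)
  have h12 : w * ∑ T ∈ 𝒯, Er S G X0 h T ≤ Real.log Y * ∑ T ∈ 𝒯, Er S G X0 h T :=
    mul_le_mul_of_nonneg_right (by linarith) hE0
  have h14 := mul_le_mul_of_nonneg_left hsum hw0.le
  linarith

end Pool.Agent.Y677.KU
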