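import Pool.Agent.Y677.KU.ApFam

set_option autoImplicit false

/-!
# Almost prime values of polynomials at the integers of a residue class in a short interval
-/

open Polynomial Finset Filter Topology

namespace Pool.Agent.Y677.KU

open Pool.Agent.H474R2.PG (rho)
open Pool.Agent.W123.RU Pool.Agent.W123.RU.Poly
open Pool.Agent.W123.RP Pool.Agent.H373R2.T7
open Pool.Agent.TH977.PW (N)
open Pool.Agent.Y677.RSZ (InProg Outside prog_of_count)

/-- the integers of the class whose values have only large prime factors -/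
def Rc (f : ℤ[X]) (a q s : ℕ) : Set ℕ := {n | n ≡ a [MOD q] ∧ ∀ p : ℕ, p.Prime →
  (p : ℤ) ∣ f.eval (n : ℤ) → (n : ℝ) ^ (1 / (s : ℝ)) < (p : ℝ)}

/-- the integers of `Rc` with at most `r` prime factors of the value -/
def Pc (f : ℤ[X]) (a q r s : ℕ) : Set ℕ := {n | n ∈ Rc f a q s ∧
  (f.eval (n : ℤ)).natAbs.primeFactorsList.length ≤ r}

lemma cop_mod (f : ℤ[X]) (a q : ℕ) (h : Cop f a q) : Cop f (a % q) q := by
  intro p hp hpq hd
  apply h p hp hpq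
  rw [per1 f p a]
  rw [per1 f p (a % q), Nat.mod_mod_of_dvd a hpq] at hd
  exact hd

/-- a smaller exponent with the same properties -/
lemma smaller (g : ℝ) (hg : 1 ≤ g) (r s : ℕ) (θ : ℝ) (hθ : 0 < θ) (hθ1 : θ ≤ 1) (h1 : 4 * g < θ * (3 * r + 1))
    (h2 : g < θ * r - (r - 1) / s) (h3 : 2 < θ * s) : ∃ θ' : ℝ, 0 < θ' ∧ θ' < θ ∧
      4 * g < θ' * (3 * r + 1) ∧ g < θ' * r - (r - 1) / s ∧ 2 < θ' * s := by
  have hs0 : (0 : ℝ) < s := by
    by_contra hcon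
    rw [not_lt] at hcon
    nlinarith
  have hr0 : (0 : ℝ) ≤ r := Nat.cast_nonneg r
  have hr1 : (0 : ℝ) < r := by
    rcases hr0.lt_or_eq with h | h
    · exact h
    · rw [← h] at h1
      exfalso
      linarith
  have a1 : 4 * g / (3 * (r : ℝ) + 1) < θ := by
    rw [div_lt_iff₀ (by linarith)]
    exact h1
  have a2 : (g + ((r : ℝ) - 1) / s) / r < θ := by
    rw [div_lt_iff₀ hr1]
    linarith
  have a3 : 2 / (s : ℝ) < θ := by
    rw [div_lt_iff₀ hs0]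
    exact h3
  obtain ⟨θ', b1, b2⟩ := exists_between (max_lt hθ (max_lt a1 (max_lt a2 a3)))
  have c0 := (le_max_left _ _).trans_lt b1
  have c1 := (le_max_right _ _).trans_lt b1
  have c2 := (le_max_left _ _).trans_lt c1
  have c3 := (le_max_right _ _).trans_lt c1
  have c4 := (le_max_left _ _).trans_lt c3
  have c5 := (le_max_right _ _).trans_lt c3
  rw [div_lt_iff₀ (by linarith)] at c2
  rw [div_lt_iff₀ hr1] at c4
  rw [div_lt_iff₀ hs0] at c5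
  exact ⟨θ', c0, b2, c2, by linarith, c5⟩

/-- the data of a class in an interval -/
lemma cls_data (θ θ' : ℝ) (hθ : 0 < θ) (ht : 0 < θ') (h : θ' < θ) : ∀ᶠ x : ℕ in atTop,
    ∀ q a y : ℕ, 1 ≤ q → (q : ℝ) * (x : ℝ) ^ θ ≤ y → y ≤ x →
      ∃ M L : ℕ, (∀ m : ℕ, m ∈ Ioc M (M + L) ↔ x < a % q + q * m ∧ a % q + q * m ≤ x + y) ∧
        (y : ℝ) / q / 2 ≤ L ∧ (L : ℝ) ≤ 2 * (y / q) ∧ (x : ℝ) ^ θ' ≤ L ∧
        x < a % q + q * (M + 1) ∧ a % q + q * (M + L) ≤ 4 * x ∧ a % q < q := by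
  have hXr : Tendsto (fun X : ℕ => (X : ℝ)) atTop atTop := tendsto_natCast_atTop_atTop
  have e2 := ((tendsto_rpow_atTop (show 0 < θ - θ' by linarith)).comp hXr).eventually_ge_atTop 2
  have e3 := ((tendsto_rpow_atTop hθ).comp hXr).eventually_ge_atTop 2
  filter_upwards [e2, e3, eventually_ge_atTop 3] with x e2 e3 hx3 q a y hq1 hqy hyx
  simp only [Function.comp] at e2 e3
  have hx3r : (3 : ℝ) ≤ x := by exact_mod_cast hx3
  have hx0 : (0 : ℝ) < x := by linarith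
  have hq0 : (0 : ℝ) < q := by exact_mod_cast hq1
  have hqx : q ≤ x := by
    have h4 : (q : ℝ) ≤ x := by
      calc (q : ℝ) = q * 1 := (mul_one _).symm
        _ ≤ q * (x : ℝ) ^ θ := mul_le_mul_of_nonneg_left (by linarith) hq0.le
        _ ≤ y := hqy
        _ ≤ x := by exact_mod_cast hyx
    exact_mod_cast h4
  obtain ⟨a0, M, L, ha0, ha0e, hm, hL1, hL2, hsz⟩ := args x y q a hq1 hqx
  rw [ha0e] at hm hsz
  have hyq : (x : ℝ) ^ θ ≤ y / q := by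
    rw [le_div_iff₀ hq0]
    linarith
  have hLx : (x : ℝ) ^ θ' ≤ L := by
    have h5 : (x : ℝ) ^ θ = (x : ℝ) ^ (θ - θ') * (x : ℝ) ^ θ' := by
      rw [← Real.rpow_add hx0, sub_add_cancel]
    have h6 : 1 ≤ (x : ℝ) ^ θ' := Real.one_le_rpow (by linarith) ht.le
    nlinarith
  have hL1' : 1 ≤ L := by
    have h6 : 1 ≤ (x : ℝ) ^ θ' := Real.one_le_rpow (by linarith) ht.le
    exact_mod_cast h6.trans hLx
  exact ⟨M, L, hm, by linarith, by linarith, hLx,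
    ((hm (M + 1)).1 (mem_Ioc.2 ⟨by omega, by omega⟩)).1, by omega, by rw [← ha0e]; exact ha0⟩

lemma N_cls (x y q a M L : ℕ) (hq : 1 ≤ q)
    (h : ∀ m : ℕ, m ∈ Ioc M (M + L) ↔ x < a % q + q * m ∧ a % q + q * m ≤ x + y)
    (T : Set ℕ) (hT : ∀ n ∈ T, n ≡ a [MOD q]) :
    N T x (x + y) = N {m | a % q + q * m ∈ T} M (M + L) := by
  classical
  rw [card_args x y q (a % q) M L hq h T (fun n hn => hT n hn)]
  unfold Pool.Agent.TH977.PW.N
  congr 1

/-- **Lower bound in residue classes** -/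
theorem cls_lower (f : ℤ[X]) (hf : Poly.Sys (fun _ : Fin 1 => f)) (θ : ℝ) (hθ : 0 < θ)
    (hθ1 : θ ≤ 1) (r s : ℕ) (h1 : 4 * (f.natDegree : ℝ) < θ * (3 * r + 1))
    (h2 : (f.natDegree : ℝ) < θ * r - (r - 1) / s) (h3 : 2 < θ * s) :
    ∃ κ : ℝ, 0 < κ ∧ ∀ᶠ x : ℕ in atTop, ∀ q a y : ℕ, 1 ≤ q → Cop f a q →
      (q : ℝ) * (x : ℝ) ^ θ ≤ y → y ≤ x →
      κ * (y / q) * Vf f q x ≤ N (Pc f a q r s) x (x + y) := by
  obtain ⟨θ', t0, t1, t2, t3, t4⟩ := smaller f.natDegree (by exact_mod_cast hf.deg 0) r s θ hθ hθ1 h1 h2 h3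
  obtain ⟨κ, hκ, h⟩ := lower_ap f hf θ' t0 (by linarith) r s t2 t3 t4
  refine ⟨κ / 2, by positivity, ?_⟩
  filter_upwards [h, cls_data θ θ' hθ t0 t1] with x hx hd q a y hq1 hcop hqy hyx
  obtain ⟨M, L, k1, k2, k3, k4, k5, k6, k7⟩ := hd q a y hq1 hqy hyx
  have h4 := hx q (a % q) M L hq1 (cop_mod f a q hcop) k4 k5 k6
  rw [N_cls x y q a M L hq1 k1 _ (fun n hn => hn.1.1)]
  have h5 : N (Pa f (a % q) q r s) M (M + L) ≤ N {m | a % q + q * m ∈ Pc f a q r s} M (M + L) := by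
    apply Pool.Agent.TH977.PW.N_mono
    intro m _ _ hm
    refine ⟨⟨?_, hm.1⟩, hm.2⟩
    show (a % q + q * m) % q = a % q
    rw [Nat.add_mul_mod_self_left, Nat.mod_mod]
  refine le_trans ?_ (h4.trans (Nat.cast_le.2 h5))
  have hV := (Vf_pos f hf q x).le
  calc κ / 2 * (y / q) * Vf f q x = κ * ((y : ℝ) / q / 2) * Vf f q x := by ring
    _ ≤ κ * L * Vf f q x :=
        mul_le_mul_of_nonneg_right (mul_le_mul_of_nonneg_left k2 hκ.le) hV

/-- **The hereditary statement in residue classes** -/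
theorem cls_hered (f : ℤ[X]) (hf : Poly.Sys (fun _ : Fin 1 => f)) (s : ℕ) (hs : 1 ≤ s) (θ : ℝ)
    (hθ : 0 < θ) (l : ℕ) (hl : 2 ≤ l) (ε : ℝ) (hε : 0 < ε) :
    ∃ B : ℕ, ∀ᶠ x : ℕ in atTop, ∀ q a y : ℕ, 1 ≤ q → Cop f a q →
      (q : ℝ) * (x : ℝ) ^ θ ≤ y → y ≤ x → ∀ A : Set ℕ, A ⊆ Rc f a q s →
        (N (Outside A l (q * Real.log x ^ B) x (x + y)) x (x + y) : ℝ) ≤
          ε * (y / q) * Vf f q x := by
  obtain ⟨B, h⟩ := hered_ap f hf s hs (θ / 2) (by linarith) l hl (ε / 2) (by positivity)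
  refine ⟨B, ?_⟩
  filter_upwards [h, cls_data θ (θ / 2) hθ (by linarith) (by linarith)] with x hx hd q a y hq1 hcop
    hqy hyx A hA
  obtain ⟨M, L, k1, k2, k3, k4, k5, k6, k7⟩ := hd q a y hq1 hqy hyx
  have h4 := hx q (a % q) M L hq1 (cop_mod f a q hcop) k4 k5 k6 {m | a % q + q * m ∈ A}
    (fun m hm => (hA hm).2)
  have hq0 : (0 : ℝ) < q := by exact_mod_cast hq1
  rw [N_cls x y q a M L hq1 k1 _ (fun n hn => (hA hn.1).1)]
  have h5 : N {m | a % q + q * m ∈ Outside A l (q * Real.log x ^ B) x (x + y)} M (M + L) ≤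
      N (Outside {m | a % q + q * m ∈ A} l (Real.log x ^ B) M (M + L)) M (M + L) := by
    apply Pool.Agent.TH977.PW.N_mono
    intro m _ _ hm
    obtain ⟨g1, g2⟩ := hm
    refine ⟨g1, ?_⟩
    rintro ⟨u, d, g3, g4, g5, i, hi, g6⟩
    apply g2
    refine ⟨a % q + q * u, q * d, Nat.mul_pos hq1 g3, ?_, ?_, i, hi, ?_⟩
    · push_cast
      exact mul_le_mul_of_nonneg_left g4 hq0.le
    · intro j hj
      obtain ⟨g7, g8, g9⟩ := g5 j hj
      have g10 : a % q + q * u + j * (q * d) = a % q + q * (u + j * d) := by ring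
      rw [g10]
      exact ⟨g7, (k1 _).1 (mem_Ioc.2 ⟨g8, g9⟩)⟩
    · rw [g6]
      ring
  refine (Nat.cast_le.2 h5).trans (h4.trans ?_)
  have hV := (Vf_pos f hf q x).le
  calc ε / 2 * L * Vf f q x ≤ ε / 2 * (2 * (y / q)) * Vf f q x :=
        mul_le_mul_of_nonneg_right (mul_le_mul_of_nonneg_left k3 (by linarith)) hV
    _ = ε * (y / q) * Vf f q x := by ring

/-- **Existence of narrow progressions in residue classes** -/
theorem cls_exists (f : ℤ[X]) (hf : Poly.Sys (fun _ : Fin 1 => f)) (θ : ℝ) (hθ : 0 < θ)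
    (hθ1 : θ ≤ 1) (r s : ℕ) (hs : 1 ≤ s) (h1 : 4 * (f.natDegree : ℝ) < θ * (3 * r + 1))
    (h2 : (f.natDegree : ℝ) < θ * r - (r - 1) / s) (h3 : 2 < θ * s) (l : ℕ) :
    ∃ B : ℕ, ∀ᶠ x : ℕ in atTop, ∀ q a y : ℕ, 1 ≤ q → Cop f a q →
      (q : ℝ) * (x : ℝ) ^ θ ≤ y → y ≤ x → ∃ u d : ℕ, 1 ≤ d ∧ (d : ℝ) ≤ q * Real.log x ^ B ∧
        ∀ i < l, u + i * d ∈ Pc f a q r s ∧ x < u + i * d ∧ u + i * d ≤ x + y := by
  obtain ⟨κ, hκ, hlow⟩ := cls_lower f hf θ hθ hθ1 r s h1 h2 h3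
  obtain ⟨B, hB⟩ := cls_hered f hf s hs θ hθ (l + 2) (by omega) (κ / 2) (by positivity)
  refine ⟨B, ?_⟩
  filter_upwards [hlow, hB, eventually_ge_atTop 3] with x g1 g2 hx3 q a y hq1 hcop hqy hyx
  have hx3r : (3 : ℝ) ≤ x := by exact_mod_cast hx3
  have hx0 : (0 : ℝ) < x := by linarith
  have hq0 : (0 : ℝ) < q := by exact_mod_cast hq1
  have hy0 : (0 : ℝ) < y := lt_of_lt_of_le (by positivity) hqy
  have hV := Vf_pos f hf q x
  have hyV : 0 < (y : ℝ) / q * Vf f q x := by positivity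
  obtain ⟨u, d, h4, h5, h6⟩ := prog_of_count _ (l + 2) (q * Real.log x ^ B) x (x + y)
    (κ / 2 * (y / q) * Vf f q x) (lt_of_lt_of_le (by
      calc κ / 2 * (y / q) * Vf f q x = κ / 2 * ((y : ℝ) / q * Vf f q x) := by ring
        _ < κ * ((y : ℝ) / q * Vf f q x) := by nlinarith
        _ = κ * (y / q) * Vf f q x := by ring) (g1 q a y hq1 hcop hqy hyx))
    (g2 q a y hq1 hcop hqy hyx (Pc f a q r s) (fun n hn => hn.1))
  exact ⟨u, d, h4, h5, fun i hi => h6 i (by omega)⟩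

end Pool.Agent.Y677.KU
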