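import Pool.Agent.Y175.PW.Quad
import Pool.Agent.Y175.PW.Cubic
import Pool.Agent.Y677.KU.ApCls
import Pool.Agent.TH464.PW.Quad

set_option autoImplicit false

/-!
# Almost prime values in residue classes: the form used in the hand-ins
-/

open Polynomial Finset Filter Topology

namespace Pool.Agent.Y677.KU

open Pool.Agent.H474R2.PG (rho)
open Pool.Agent.W123.RU Pool.Agent.W123.RU.Poly
open Pool.Agent.W123.RP Pool.Agent.H373R2.T7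
open Pool.Agent.TH977.PW (N)
open Pool.Agent.Y677.RSZ (InProg Outside)

open Classical in
/-- the sieve product in an explicit form -/
lemma Vf_eq (f : ℤ[X]) (q x : ℕ) (D : ℕ → ℕ → Prop) (h : ∀ p c : ℕ, D p c ↔ (p : ℤ) ∣ f.eval (c : ℤ)) :
    Vf f q x = ∏ p ∈ (Icc 1 x).filter (fun p => p.Prime ∧ ¬ p ∣ q),
      (1 - (((range p).filter (fun c => D p c)).card : ℝ) / p) := by
  unfold Vf
  have h1 : (Icc 1 x).filter (fun p => p.Prime ∧ ¬ p ∣ q) = (pz x).filter (fun p => ¬ p ∣ q) := by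
    ext p
    rw [mem_filter, mem_filter, mem_pz, mem_Icc]
    constructor
    · rintro ⟨⟨_, h3⟩, h4, h5⟩
      exact ⟨⟨h3, h4⟩, h5⟩
    · rintro ⟨⟨h3, h4⟩, h5⟩
      exact ⟨⟨h4.one_le, h3⟩, h4, h5⟩
  rw [h1, prod_filter]
  apply prod_congr rfl
  intro p _
  unfold hf
  by_cases h2 : p ∣ q
  · rw [if_pos h2, if_neg (fun h => h h2), sub_zero]
  · rw [if_neg h2, if_pos h2]
    congr 3
    unfold rho
    congr 1
    apply filter_congr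
    intro c _
    exact (h p c).symm

/-- **All parts for one polynomial** -/
theorem cls_all (f : ℤ[X]) (hf : Poly.Sys (fun _ : Fin 1 => f)) (g : ℕ) (hg : f.natDegree = g)
    (r s : ℕ) (hs : 2 ≤ s) (R P : ℕ → ℕ → Set ℕ) (V : ℕ → ℕ → ℝ) (C : ℕ → ℕ → Prop)
    (hR : ∀ q a, R q a = Rc f a q s) (hP : ∀ q a, P q a = Pc f a q r s)
    (hV : ∀ q x, V q x = Vf f q x) (hC : ∀ q a, C q a → Cop f a q) :
    ((∃ v : ℝ, 0 < v ∧ ∀ q x : ℕ, 3 ≤ x → v / Real.log x ≤ V q x) ∧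
      ∀ k : ℕ, ∃ Cv : ℝ, 0 < Cv ∧ ∀ q x : ℕ, 1 ≤ q → q.primeFactors.card ≤ k → 3 ≤ x →
        V q x ≤ Cv / Real.log x) ∧
    (∀ θ : ℝ, 0 < θ → θ ≤ 1 → 4 * (g : ℝ) < θ * (3 * r + 1) → (g : ℝ) < θ * r - (r - 1) / s →
      2 < θ * s →
      (∃ κ : ℝ, 0 < κ ∧ ∀ᶠ x : ℕ in atTop, ∀ q a y : ℕ, 1 ≤ q → C q a →
        (q : ℝ) * (x : ℝ) ^ θ ≤ y → y ≤ x → κ * (y / q) * V q x ≤ N (P q a) x (x + y)) ∧
      ∀ l : ℕ, ∃ B : ℕ, ∀ᶠ x : ℕ in atTop, ∀ q a y : ℕ, 1 ≤ q → C q a →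
        (q : ℝ) * (x : ℝ) ^ θ ≤ y → y ≤ x → ∃ u d : ℕ, 1 ≤ d ∧ (d : ℝ) ≤ q * Real.log x ^ B ∧
          ∀ i < l, u + i * d ∈ P q a ∧ x < u + i * d ∧ u + i * d ≤ x + y) ∧
    ∀ θ : ℝ, 0 < θ → ∀ l : ℕ, 2 ≤ l → ∀ ε : ℝ, 0 < ε → ∃ B : ℕ, ∀ᶠ x : ℕ in atTop, ∀ q a y : ℕ,
      1 ≤ q → C q a → (q : ℝ) * (x : ℝ) ^ θ ≤ y → y ≤ x → ∀ A : Set ℕ, A ⊆ R q a →
        (N (Outside A l (q * Real.log x ^ B) x (x + y)) x (x + y) : ℝ) ≤ ε * (y / q) * V q x := by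
  refine ⟨⟨?_, fun k => ?_⟩, fun θ hθ hθ1 h1 h2 h3 => ⟨?_, fun l => ?_⟩, fun θ hθ l hl ε hε => ?_⟩
  · obtain ⟨v, Cv, hv, _, h⟩ := V1_bounds f hf
    refine ⟨v, hv, fun q x hx => ?_⟩
    rw [hV]
    exact (h x hx).1.trans (Vf_ge_one f q x)
  · obtain ⟨Cv, hCv, h⟩ := Vf_upper f hf k
    refine ⟨Cv, hCv, fun q x hq hk hx => ?_⟩
    rw [hV]
    exact h q x hq hk hx
  · obtain ⟨κ, hκ, h⟩ := cls_lower f hf θ hθ hθ1 r s (by rwa [hg]) (by rwa [hg]) h3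
    refine ⟨κ, hκ, ?_⟩
    filter_upwards [h] with x hx q a y hq hc hqy hyx
    rw [hV, hP]
    exact hx q a y hq (hC q a hc) hqy hyx
  · obtain ⟨B, h⟩ := cls_exists f hf θ hθ hθ1 r s (by omega) (by rwa [hg]) (by rwa [hg]) h3 l
    refine ⟨B, ?_⟩
    filter_upwards [h] with x hx q a y hq hc hqy hyx
    rw [hP]
    exact hx q a y hq (hC q a hc) hqy hyx
  · obtain ⟨B, h⟩ := cls_hered f hf s (by omega) θ hθ l hl ε hε
    refine ⟨B, ?_⟩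
    filter_upwards [h] with x hx q a y hq hc hqy hyx A hA
    rw [hV]
    exact hx q a y hq (hC q a hc) hqy hyx A (by rwa [← hR])

/-- the system of one quadratic polynomial -/
lemma quad_sys (a b c : ℤ) (ha : 0 < a)
    (hg : ∀ p : ℕ, p.Prime → ¬ ((p : ℤ) ∣ a ∧ (p : ℤ) ∣ b ∧ (p : ℤ) ∣ c))
    (hD : ¬ IsSquare (b ^ 2 - 4 * a * c)) (hpar : ¬ (Even (a + b) ∧ Even c)) :
    Poly.Sys (fun _ : Fin 1 => Pool.Agent.TH464.PW.quad a b c) where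
  irr := fun _ => Pool.Agent.TH464.PW.quad_irr a b c ha.ne' hg hD
  deg := fun _ => by rw [Pool.Agent.TH464.PW.quad_deg a b c ha.ne']; norm_num
  lead := fun _ => by rw [Pool.Agent.TH464.PW.quad_lead a b c ha.ne']; exact ha
  inj := Function.injective_of_subsingleton _
  adm := fun p hp => by
    obtain ⟨m, hm⟩ := Pool.Agent.TH464.PW.quad_adm a b c hg hpar p hp
    exact ⟨m, fun _ => hm⟩

/-- the condition on the class -/
lemma cop_of (f : ℤ[X]) (a q : ℕ) (v : ℤ) (hv : f.eval (a : ℤ) = v) (h : IsCoprime v (q : ℤ)) :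
    Cop f a q := by
  intro p hp hpq hd
  rw [hv] at hd
  have h1 : (p : ℤ) ∣ q := by exact_mod_cast hpq
  have h2 := h.isUnit_of_dvd' hd h1
  have h3 := Int.isUnit_iff.1 h2
  have h4 := hp.two_le
  omega

end Pool.Agent.Y677.KU
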