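import Pool.Agent.Y677.KU.ApNarrow

set_option autoImplicit false

/-!
# Families `f (a + Q m)`, `m` in a short interval, `Q` with boundedly many prime factors
-/

open Polynomial Finset Filter Topology

namespace Pool.Agent.Y677.KU

open Pool.Agent.H474R2.PG (rho)
open Pool.Agent.W123.RU Pool.Agent.W123.RU.Poly
open Pool.Agent.W123.RP Pool.Agent.H373R2.T7
open Pool.Agent.TH977.PW (N)
open Pool.Agent.Y677.RSZ (InProg Outside prog_of_count)

/-- all factors are bounded from below -/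
lemma fac_lb (f : ℤ[X]) (hs : Poly.Sys (fun _ : Fin 1 => f)) : ∃ c : ℝ, 0 < c ∧ c ≤ 1 ∧
    ∀ p : ℕ, p.Prime → c ≤ 1 - hh f p := by
  obtain ⟨K, hK1, hKb⟩ := rho_bd f (hs.irr 0).ne_zero
  have hK1r : (1 : ℝ) ≤ K := by exact_mod_cast hK1
  refine ⟨1 / (2 * K), by positivity, ?_, fun p hp => ?_⟩
  · rw [div_le_one (by positivity)]
    linarith
  · have hp0 : (0 : ℝ) < p := by exact_mod_cast hp.pos
    unfold hh
    by_cases h : p ≤ 2 * K
    · have h1 : (rho f p : ℝ) + 1 ≤ p := by exact_mod_cast rho_lt f hs p hp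
      have h2 : (p : ℝ) ≤ 2 * K := by exact_mod_cast h
      have h3 : (rho f p : ℝ) / p ≤ (p - 1) / p := div_le_div_of_nonneg_right (by linarith) hp0.le
      have h4 : ((p : ℝ) - 1) / p = 1 - 1 / p := by field_simp
      have h5 : 1 / (2 * (K : ℝ)) ≤ 1 / p := one_div_le_one_div_of_le hp0 h2
      linarith
    · rw [not_le] at h
      have h2 : 2 * (K : ℝ) ≤ p := by exact_mod_cast h.le
      have h1 : (rho f p : ℝ) ≤ K := by exact_mod_cast hKb p hp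
      have h3 : (rho f p : ℝ) / p ≤ 1 / 2 := by
        rw [div_le_div_iff₀ hp0 (by norm_num)]
        linarith
      have h4 : 1 / (2 * (K : ℝ)) ≤ 1 / 2 := one_div_le_one_div_of_le (by norm_num) (by linarith)
      linarith

/-- upper bound for the sieve product -/
lemma Vf_upper (f : ℤ[X]) (hs : Poly.Sys (fun _ : Fin 1 => f)) (k : ℕ) : ∃ C : ℝ, 0 < C ∧
    ∀ q z : ℕ, 1 ≤ q → q.primeFactors.card ≤ k → 3 ≤ z → Vf f q z ≤ C / Real.log z := by
  obtain ⟨c, hc, hc1, hfac⟩ := fac_lb f hs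
  obtain ⟨v, Cv, hv, hCv, hV⟩ := V1_bounds f hs
  refine ⟨Cv / c ^ k, by positivity, fun q z hq1 hk hz => ?_⟩
  have h1 : Vf f q z * ∏ p ∈ (pz z).filter (fun p => p ∣ q), (1 - hh f p) = Vf f 1 z := by
    rw [Vf_one]
    unfold Vf
    rw [prod_filter, ← prod_mul_distrib]
    apply prod_congr rfl
    intro p _
    unfold hf hh
    split_ifs <;> simp
  have h2 : c ^ k ≤ ∏ p ∈ (pz z).filter (fun p => p ∣ q), (1 - hh f p) := by
    have h3 : ((pz z).filter (fun p => p ∣ q)).card ≤ k := by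
      refine (card_le_card ?_).trans hk
      intro p hp
      rw [mem_filter] at hp
      exact Nat.mem_primeFactors.2 ⟨(mem_pz.1 hp.1).2, hp.2, by omega⟩
    calc c ^ k ≤ c ^ ((pz z).filter (fun p => p ∣ q)).card := pow_le_pow_of_le_one hc.le hc1 h3
      _ = ∏ p ∈ (pz z).filter (fun p => p ∣ q), c := by rw [prod_const]
      _ ≤ _ := Finset.prod_le_prod (fun p _ => hc.le)
          (fun p hp => hfac p (mem_pz.1 (mem_filter.1 hp).1).2)
  have h3 := (hV z hz).2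
  have h4 : Vf f q z * c ^ k ≤ Cv / Real.log z := by
    calc Vf f q z * c ^ k ≤ Vf f q z * ∏ p ∈ (pz z).filter (fun p => p ∣ q), (1 - hh f p) :=
          mul_le_mul_of_nonneg_left h2 (Vf_pos f hs q z).le
      _ = Vf f 1 z := h1
      _ ≤ _ := h3
  rw [← le_div_iff₀ (by positivity)] at h4
  refine h4.trans (le_of_eq ?_)
  rw [div_div, div_div, mul_comm]

/-- the size of the modulus -/
lemma fam_size (θ : ℝ) (hθ : 0 < θ) : ∀ᶠ X : ℕ in atTop, ∀ Q Y : ℕ, 1 ≤ Q →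
    ((Q : ℝ) * X) ^ θ ≤ Y → Y ≤ X → X ≤ Q * X ∧ Real.log ((Q * X : ℕ) : ℝ) ≤ 1 / θ * Real.log X ∧
      3 ≤ X ∧ 1 ≤ Real.log X ∧ (1 / θ * Real.log X) ≤ Real.log X ^ 2 := by
  have hXr : Tendsto (fun X : ℕ => (X : ℝ)) atTop atTop := tendsto_natCast_atTop_atTop
  have e4 := (Real.tendsto_log_atTop.comp hXr).eventually_ge_atTop (1 / θ + 1)
  filter_upwards [e4, eventually_ge_atTop 3] with X e4 hX3 Q Y hQ hY hYX
  simp only [Function.comp] at e4
  have hX3r : (3 : ℝ) ≤ X := by exact_mod_cast hX3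
  have hX0 : (0 : ℝ) < X := by linarith
  have hQ1 : (1 : ℝ) ≤ Q := by exact_mod_cast hQ
  have hθ1 : 0 < 1 / θ := by positivity
  refine ⟨Nat.le_mul_of_pos_left X hQ, ?_, hX3, by linarith, by nlinarith⟩
  push_cast
  have h1 : ((Q : ℝ) * X) ^ θ ≤ X := hY.trans (by exact_mod_cast hYX)
  have h2 : θ * Real.log (Q * X) ≤ Real.log X := by
    rw [← Real.log_rpow (by positivity)]
    exact Real.log_le_log (by positivity) h1
  rw [div_mul_eq_mul_div, le_div_iff₀ hθ, one_mul]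
  linarith

/-- **Lower bound for a family** -/
theorem fam_lower (f : ℤ[X]) (hf : Poly.Sys (fun _ : Fin 1 => f)) (θ : ℝ) (hθ : 0 < θ)
    (hθ1 : θ ≤ 1) (r s : ℕ) (h1 : 4 * (f.natDegree : ℝ) < θ * (3 * r + 1))
    (h2 : (f.natDegree : ℝ) < θ * r - (r - 1) / s) (h3 : 2 < θ * s) :
    ∃ κ : ℝ, 0 < κ ∧ ∀ᶠ X : ℕ in atTop, ∀ Q a Y : ℕ, 1 ≤ Q → a ≤ Q → Cop f a Q →
      ((Q : ℝ) * X) ^ θ ≤ Y → Y ≤ X → κ * Y / Real.log X ≤ N (Pa f a Q r s) X (X + Y) := by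
  obtain ⟨κ, hκ, h⟩ := lower_ap f hf θ hθ hθ1 r s h1 h2 h3
  obtain ⟨v, Cv, hv, hCv, hV⟩ := V1_bounds f hf
  obtain ⟨x₀, hx₀⟩ := eventually_atTop.1 h
  refine ⟨κ * v * θ, by positivity, ?_⟩
  filter_upwards [fam_size θ hθ, eventually_ge_atTop x₀] with X hX hXx Q a Y hQ ha hcop hY hYX
  obtain ⟨g1, g2, g3, g4, g5⟩ := hX Q Y hQ hY hYX
  have h4 := hx₀ (Q * X) (hXx.trans g1) Q a X Y hQ hcop (by push_cast; exact hY)
    (by rw [Nat.mul_add]; omega) (by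
      have : Q * Y ≤ Q * X := Nat.mul_le_mul_left Q hYX
      have : Q * 1 ≤ Q * X := Nat.mul_le_mul_left Q (by omega)
      rw [Nat.mul_add]
      omega)
  refine le_trans ?_ h4
  have h5 : v / Real.log ((Q * X : ℕ) : ℝ) ≤ Vf f Q (Q * X) :=
    (hV (Q * X) (g3.trans g1)).1.trans (Vf_ge_one f Q (Q * X))
  have hl0 : 0 < Real.log ((Q * X : ℕ) : ℝ) := by
    have : (1 : ℝ) < ((Q * X : ℕ) : ℝ) := by exact_mod_cast (by omega : 1 < Q * X)
    exact Real.log_pos this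
  have h6 : v * θ / Real.log X ≤ v / Real.log ((Q * X : ℕ) : ℝ) := by
    rw [div_le_div_iff₀ (by linarith) hl0]
    calc v * θ * Real.log ((Q * X : ℕ) : ℝ) ≤ v * θ * (1 / θ * Real.log X) :=
          mul_le_mul_of_nonneg_left g2 (by positivity)
      _ = v * Real.log X := by field_simp
  calc κ * v * θ * Y / Real.log X = κ * Y * (v * θ / Real.log X) := by ring
    _ ≤ κ * Y * Vf f Q (Q * X) := mul_le_mul_of_nonneg_left (h6.trans h5) (by positivity)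

/-- **The hereditary statement for a family** -/
theorem fam_hered (f : ℤ[X]) (hf : Poly.Sys (fun _ : Fin 1 => f)) (k s : ℕ) (hs : 1 ≤ s) (θ : ℝ)
    (hθ : 0 < θ) (l : ℕ) (hl : 2 ≤ l) (ε : ℝ) (hε : 0 < ε) :
    ∃ B : ℕ, ∀ᶠ X : ℕ in atTop, ∀ Q a Y : ℕ, 1 ≤ Q → Q.primeFactors.card ≤ k → a ≤ Q → Cop f a Q →
      ((Q : ℝ) * X) ^ θ ≤ Y → Y ≤ X → ∀ A : Set ℕ, A ⊆ Ra f a Q s →
        (N (Outside A l (Real.log X ^ B) X (X + Y)) X (X + Y) : ℝ) ≤ ε * Y / Real.log X := by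
  obtain ⟨C, hC, hV⟩ := Vf_upper f hf k
  obtain ⟨B, h⟩ := hered_ap f hf s hs θ hθ l hl (ε / C) (by positivity)
  obtain ⟨x₀, hx₀⟩ := eventually_atTop.1 h
  refine ⟨2 * B, ?_⟩
  filter_upwards [fam_size θ hθ, eventually_ge_atTop x₀] with X hX hXx Q a Y hQ hk ha hcop hY hYX A hA
  obtain ⟨g1, g2, g3, g4, g5⟩ := hX Q Y hQ hY hYX
  have h4 := hx₀ (Q * X) (hXx.trans g1) Q a X Y hQ hcop (by push_cast; exact hY)
    (by rw [Nat.mul_add]; omega) (by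
      have : Q * Y ≤ Q * X := Nat.mul_le_mul_left Q hYX
      have : Q * 1 ≤ Q * X := Nat.mul_le_mul_left Q (by omega)
      rw [Nat.mul_add]
      omega) A hA
  have hX3r : (3 : ℝ) ≤ X := by exact_mod_cast g3
  have hlog : Real.log X ≤ Real.log ((Q * X : ℕ) : ℝ) :=
    Real.log_le_log (by linarith) (by exact_mod_cast g1)
  have hl0 : 0 < Real.log ((Q * X : ℕ) : ℝ) := by linarith
  have hO : N (Outside A l (Real.log X ^ (2 * B)) X (X + Y)) X (X + Y) ≤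
      N (Outside A l (Real.log ((Q * X : ℕ) : ℝ) ^ B) X (X + Y)) X (X + Y) := by
    refine Pool.Agent.TH977.PW.N_mono _ _ _ _ fun m _ _ hm => ?_
    obtain ⟨k1, k2⟩ := hm
    refine ⟨k1, fun ⟨u, d, k3, k4, k5, k6⟩ => k2 ⟨u, d, k3, k4.trans ?_, k5, k6⟩⟩
    rw [pow_mul]
    exact pow_le_pow_left₀ hl0.le (g2.trans g5) B
  refine (Nat.cast_le.2 hO).trans (h4.trans ?_)
  have h5 := hV Q (Q * X) hQ hk (g3.trans g1)
  calc ε / C * Y * Vf f Q (Q * X) ≤ ε / C * Y * (C / Real.log ((Q * X : ℕ) : ℝ)) :=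
        mul_le_mul_of_nonneg_left h5 (by positivity)
    _ = ε * Y / Real.log ((Q * X : ℕ) : ℝ) := by field_simp
    _ ≤ ε * Y / Real.log X :=
        div_le_div_of_nonneg_left (by positivity) (by linarith) hlog

/-- **Existence of narrow progressions for a family** -/
theorem fam_exists (f : ℤ[X]) (hf : Poly.Sys (fun _ : Fin 1 => f)) (k : ℕ) (θ : ℝ) (hθ : 0 < θ)
    (hθ1 : θ ≤ 1) (r s : ℕ) (hs : 1 ≤ s) (h1 : 4 * (f.natDegree : ℝ) < θ * (3 * r + 1))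
    (h2 : (f.natDegree : ℝ) < θ * r - (r - 1) / s) (h3 : 2 < θ * s) (l : ℕ) :
    ∃ B : ℕ, ∀ᶠ X : ℕ in atTop, ∀ Q a Y : ℕ, 1 ≤ Q → Q.primeFactors.card ≤ k → a ≤ Q → Cop f a Q →
      ((Q : ℝ) * X) ^ θ ≤ Y → Y ≤ X → ∃ u d : ℕ, 1 ≤ d ∧ (d : ℝ) ≤ Real.log X ^ B ∧
        ∀ i < l, u + i * d ∈ Pa f a Q r s ∧ X < u + i * d ∧ u + i * d ≤ X + Y := by
  obtain ⟨κ, hκ, hlow⟩ := fam_lower f hf θ hθ hθ1 r s h1 h2 h3
  obtain ⟨B, hB⟩ := fam_hered f hf k s hs θ hθ (l + 2) (by omega) (κ / 2) (by positivity)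
  refine ⟨B, ?_⟩
  filter_upwards [hlow, hB, fam_size θ hθ] with X g1 g2 hX Q a Y hQ hk ha hcop hY hYX
  obtain ⟨_, _, g3, g4, _⟩ := hX Q Y hQ hY hYX
  have hX3r : (3 : ℝ) ≤ X := by exact_mod_cast g3
  have hQ0 : (0 : ℝ) < Q := by exact_mod_cast (by omega : 0 < Q)
  have hY0 : (0 : ℝ) < Y := lt_of_lt_of_le (by positivity) hY
  have hYl : 0 < (Y : ℝ) / Real.log X := by positivity
  obtain ⟨u, d, h4, h5, h6⟩ := prog_of_count _ (l + 2) (Real.log X ^ B) X (X + Y)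
    (κ / 2 * Y / Real.log X) (lt_of_lt_of_le (by
      apply div_lt_div_of_pos_right _ (by linarith)
      nlinarith) (g1 Q a Y hQ ha hcop hY hYX))
    (g2 Q a Y hQ hk ha hcop hY hYX (Pa f a Q r s) (fun n hn => hn.1))
  exact ⟨u, d, h4, h5, fun i hi => h6 i (by omega)⟩

end Pool.Agent.Y677.KU
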