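import Pool.Agent.Y677.KU.ApV

set_option autoImplicit false

/-!
# Almost prime values of irreducible polynomials on arithmetic progressions, uniformly in the modulus
-/

open Polynomial Finset Filter Topology

namespace Pool.Agent.Y677.KU

open Pool.Agent.W23.DC Pool.Agent.Y882
open Pool.Agent.H474R2.PG (rho)
open Pool.Agent.W123.RU Pool.Agent.W123.RU.Poly
open Pool.Agent.W123.RP Pool.Agent.H373R2.T7

open Classical in
/-- few values are divisible by the square of a medium prime -/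
theorem sq_fc (f : ℤ[X]) (hf : Irreducible f) (hd : 0 < f.natDegree) (ζ β c : ℝ) (hζ : 0 < ζ)
    (hβ : β < 1) (hc : 0 < c) :
    ∀ᶠ L : ℕ in atTop, ∀ q a X : ℕ, Cop f a q →
      (((Ioc X (X + L)).filter (fun n => ∃ p ∈ pr L ζ β, p ^ 2 ∣ G (fc f a q) n)).card : ℝ) ≤
        c * L / Real.log L := by
  obtain ⟨N0, hN0⟩ := rho_sq_le f hf hd
  obtain ⟨K, hK1, hK⟩ := rho_bd f hf.ne_zero
  have e1 := log_sq_le (3 * (2 * K)) c ζ hc hζ
  have e2 := log_sq_le (2 * K) c (1 - β) hc (by linarith)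
  have e3 : ∀ᶠ L : ℕ in atTop, (N0 : ℝ) + 1 ≤ (L : ℝ) ^ ζ :=
    (tendsto_natCast_atTop_atTop (R := ℝ)).eventually
      ((tendsto_rpow_atTop hζ).eventually_ge_atTop _)
  filter_upwards [e1, e2, e3, eventually_ge_atTop 3] with L e1 e2 e3 hL3 q a X hcop
  have hL3r : (3 : ℝ) ≤ L := by exact_mod_cast hL3
  have hL0 : (0 : ℝ) < L := by linarith
  have hl1 : 1 ≤ Real.log L := by
    rw [Real.le_log_iff_exp_le (by linarith)]
    linarith [Real.exp_one_lt_d9]
  have hl0 : 0 < Real.log L := by linarith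
  -- each prime
  have hp : ∀ p ∈ pr L ζ β, p.Prime ∧ (L : ℝ) ^ ζ ≤ p ∧ (p : ℝ) < (L : ℝ) ^ β ∧
      (((Ioc X (X + L)).filter (fun n => p ^ 2 ∣ G (fc f a q) n)).card : ℝ) ≤
        K * (L / (L : ℝ) ^ ζ * (1 / p)) + K := by
    intro p hp
    rw [mem_pr'] at hp
    obtain ⟨hq1, hqp, hq3, hq4⟩ := hp
    have hq5 := tt_mul_log L (by omega) p hqp.pos
    have hL1 : (1 : ℝ) < L := by linarith
    have hq6 : (L : ℝ) ^ ζ ≤ p := by
      rw [hq5]
      exact Real.rpow_le_rpow_of_exponent_le hL1.le hq3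
    have hq7 : (p : ℝ) < (L : ℝ) ^ β := by
      rw [hq5]
      exact Real.rpow_lt_rpow_of_exponent_lt hL1 hq4
    refine ⟨hqp, hq6, hq7, ?_⟩
    have hNq : N0 < p := by
      have : (N0 : ℝ) < p := by linarith
      exact_mod_cast this
    have hq0 : (0 : ℝ) < p := by exact_mod_cast hqp.pos
    have hr : (rho (fc f a q) (p ^ 2) : ℝ) ≤ K := by
      by_cases hpq : p ∣ q
      · have h2 : rho (fc f a q) (p ^ 2) = 0 := by
          unfold rho
          rw [card_eq_zero]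
          apply filter_eq_empty_iff.2
          intro m _ hdv
          rw [fc_eval] at hdv
          apply not_dvd_fc f a q p m hcop hqp hpq
          refine dvd_trans ?_ hdv
          exact_mod_cast dvd_pow_self p two_ne_zero
        rw [h2, Nat.cast_zero]
        exact Nat.cast_nonneg _
      · rw [rho_fc_cop f a q (p ^ 2) (pow_pos hqp.pos 2)
          (Nat.Coprime.pow_right 2 ((Nat.Prime.coprime_iff_not_dvd hqp).2 hpq).symm)]
        exact_mod_cast (hN0 p hqp hNq).trans (hK p hqp)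
    have h1 := cnt_bound (fc f a q) X L (p ^ 2) (pow_pos hqp.pos 2)
    have h2 : ((Ioc X (X + L)).filter (fun n => p ^ 2 ∣ G (fc f a q) n)) =
        (Ioc X (X + L)).filter (fun n : ℕ => ((p ^ 2 : ℕ) : ℤ) ∣ (fc f a q).eval (n : ℤ)) := by
      apply filter_congr
      intro n _
      exact dvd_G (fc f a q) _ n
    rw [h2]
    have h3 := (abs_le.1 h1).2
    have h4 : (L : ℝ) * ((rho (fc f a q) (p ^ 2) : ℝ) / ((p ^ 2 : ℕ) : ℝ)) ≤
        K * (L / (L : ℝ) ^ ζ * (1 / p)) := by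
      push_cast
      calc (L : ℝ) * ((rho (fc f a q) (p ^ 2) : ℝ) / (p : ℝ) ^ 2) ≤ L * (K / (p : ℝ) ^ 2) := by gcongr
        _ = (K : ℝ) * ((L : ℝ) / p * (1 / p)) := by
            field_simp
        _ ≤ (K : ℝ) * (L / (L : ℝ) ^ ζ * (1 / p)) := by
            gcongr
    have h5 : (((Ioc X (X + L)).filter (fun n : ℕ =>
        ((p ^ 2 : ℕ) : ℤ) ∣ (fc f a q).eval (n : ℤ))).card : ℝ) ≤
        L * ((rho (fc f a q) (p ^ 2) : ℝ) / ((p ^ 2 : ℕ) : ℝ)) + rho (fc f a q) (p ^ 2) := by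
      linarith
    exact h5.trans (add_le_add h4 hr)
  have hcover : (Ioc X (X + L)).filter (fun n => ∃ p ∈ pr L ζ β, p ^ 2 ∣ G (fc f a q) n) ⊆
      (pr L ζ β).biUnion (fun p => (Ioc X (X + L)).filter (fun n => p ^ 2 ∣ G (fc f a q) n)) := by
    intro n hn
    rw [mem_filter] at hn
    obtain ⟨h1, p, h2, h3⟩ := hn
    rw [mem_biUnion]
    exact ⟨p, h2, mem_filter.2 ⟨h1, h3⟩⟩
  have h1 : (((Ioc X (X + L)).filter (fun n => ∃ p ∈ pr L ζ β, p ^ 2 ∣ G (fc f a q) n)).card : ℝ) ≤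
      ∑ p ∈ pr L ζ β, (K * (L / (L : ℝ) ^ ζ * (1 / p)) + K) := by
    have h2 := (card_le_card hcover).trans card_biUnion_le
    have h3 : (((Ioc X (X + L)).filter (fun n => ∃ p ∈ pr L ζ β, p ^ 2 ∣ G (fc f a q) n)).card : ℝ) ≤
        ∑ p ∈ pr L ζ β, (((Ioc X (X + L)).filter (fun n => p ^ 2 ∣ G (fc f a q) n)).card : ℝ) := by
      exact_mod_cast h2
    exact h3.trans (sum_le_sum fun p hpm => (hp p hpm).2.2.2)
  refine h1.trans ?_
  rw [sum_add_distrib, ← mul_sum, ← mul_sum, sum_const, nsmul_eq_mul]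
  have h2 : ∑ p ∈ pr L ζ β, 1 / (p : ℝ) ≤ 3 * Real.log L := by
    have h3 : ∑ p ∈ pr L ζ β, 1 / (p : ℝ) ≤ ∑ n ∈ Ico 1 (L + 1), 1 / (n : ℝ) := by
      apply sum_le_sum_of_subset_of_nonneg
      · intro p hpm
        have := (mem_pr'.1 hpm).1
        rw [mem_Ico]
        omega
      · intro n _ _
        positivity
    have h4 := harm_le 1 (L + 1) le_rfl (by omega)
    have h5 : Real.log ((L + 1 : ℕ) : ℝ) ≤ 2 * Real.log L := by
      rw [← Real.log_rpow hL0]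
      apply Real.log_le_log (by positivity)
      push_cast
      rw [Real.rpow_two]
      nlinarith
    linarith
  have h3 : ((pr L ζ β).card : ℝ) ≤ (L : ℝ) ^ β := by
    have h4 : (pr L ζ β).card ≤ (Icc 1 ⌊(L : ℝ) ^ β⌋₊).card := by
      apply card_le_card
      intro p hpm
      have h5 := hp p hpm
      rw [mem_Icc]
      exact ⟨h5.1.one_le, Nat.le_floor h5.2.2.1.le⟩
    rw [Nat.card_Icc, Nat.add_sub_cancel] at h4
    have h5 : ((pr L ζ β).card : ℝ) ≤ (⌊(L : ℝ) ^ β⌋₊ : ℝ) := by exact_mod_cast h4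
    exact h5.trans (Nat.floor_le (by positivity))
  have hK0 : (0 : ℝ) ≤ K := Nat.cast_nonneg _
  have hLζ : 0 < (L : ℝ) ^ ζ := by positivity
  have h4 : K * (L / (L : ℝ) ^ ζ * ∑ p ∈ pr L ζ β, 1 / (p : ℝ)) ≤ c / 2 * L / Real.log L := by
    calc (K : ℝ) * (L / (L : ℝ) ^ ζ * ∑ p ∈ pr L ζ β, 1 / (p : ℝ)) ≤
          (K : ℝ) * (L / (L : ℝ) ^ ζ * (3 * Real.log L)) := by gcongr
      _ = (3 * (2 * K) * Real.log L ^ 2) * (L / (2 * (L : ℝ) ^ ζ * Real.log L)) := by
          field_simp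
      _ ≤ (c * (L : ℝ) ^ ζ) * (L / (2 * (L : ℝ) ^ ζ * Real.log L)) := by gcongr
      _ = _ := by field_simp
  have h5 : ((pr L ζ β).card : ℝ) * K ≤ c / 2 * L / Real.log L := by
    have h6 : (L : ℝ) ^ (1 - β) = L / (L : ℝ) ^ β := by
      rw [Real.rpow_sub hL0, Real.rpow_one]
    rw [h6] at e2
    have hLβ : 0 < (L : ℝ) ^ β := by positivity
    rw [le_div_iff₀ hl0]
    calc ((pr L ζ β).card : ℝ) * K * Real.log L ≤ (L : ℝ) ^ β * K * Real.log L := by gcongr
      _ ≤ (L : ℝ) ^ β * K * Real.log L ^ 2 := by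
          apply mul_le_mul_of_nonneg_left _ (by positivity)
          nlinarith
      _ = (2 * K * Real.log L ^ 2) * ((L : ℝ) ^ β / 2) := by ring
      _ ≤ (c * (L / (L : ℝ) ^ β)) * ((L : ℝ) ^ β / 2) := by gcongr
      _ = _ := by field_simp
  have h6 : c * L / Real.log L = c / 2 * L / Real.log L + c / 2 * L / Real.log L := by
    field_simp
    ring
  rw [h6]
  exact add_le_add h4 h5

open Classical in
/-- **Almost prime values on arithmetic progressions.** -/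
theorem kuhn_ap (f : ℤ[X]) (hs : Poly.Sys (fun _ : Fin 1 => f)) (θ ζ : ℝ) (hθ : 0 < θ)
    (hζ4 : 1 / 4 ≤ ζ) (hζ2 : ζ < 1 / 2) (r : ℕ)
    (hr : (f.natDegree : ℝ) < θ * (ζ + r * (1 - ζ))) (hr1 : 1 ≤ r) :
    ∃ κ : ℝ, 0 < κ ∧ ∀ᶠ x : ℕ in atTop, ∀ q a M L : ℕ, 1 ≤ q → Cop f a q →
      (x : ℝ) ^ θ ≤ L → x < a + q * (M + 1) → a + q * (M + L) ≤ 4 * x →
      κ * L * Vf f q x ≤ (((Ioc M (M + L)).filter (fun m =>
        (∀ p : ℕ, p.Prime → p ∣ G f (a + q * m) → (L : ℝ) ^ ζ ≤ p) ∧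
        (G f (a + q * m)).primeFactorsList.length ≤ r)).card : ℝ) := by
  have hrr : (1 : ℝ) ≤ r := by exact_mod_cast hr1
  obtain ⟨g, hg⟩ : ∃ g, g = f.natDegree := ⟨_, rfl⟩
  have hg0 : (0 : ℝ) < g := by
    rw [hg]
    exact_mod_cast hs.deg 0
  rw [← hg] at hr
  -- the second parameter
  obtain ⟨β, hβ1, hβ2, hβ3⟩ : ∃ β : ℝ, ζ ≤ β ∧ ζ + β < 1 ∧ (g : ℝ) < θ * (ζ + r * β) := by
    have h1 : ((g : ℝ) / θ - ζ) / r < 1 - ζ := by
      rw [div_lt_iff₀ (by linarith)]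
      have : (g : ℝ) / θ < ζ + r * (1 - ζ) := by
        rw [div_lt_iff₀ hθ]
        linarith
      linarith
    obtain ⟨β, h2, h3⟩ := exists_between (max_lt h1 (show ζ < 1 - ζ by linarith))
    refine ⟨β, ((le_max_right _ _).trans_lt h2).le, by linarith, ?_⟩
    have h4 := (le_max_left _ _).trans_lt h2
    rw [div_lt_iff₀ (by linarith)] at h4
    have h5 : (g : ℝ) / θ < ζ + r * β := by linarith
    rw [div_lt_iff₀ hθ] at h5
    linarith
  have hζ0 : 0 < ζ := by linarith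
  have hβ0 : 0 < β := by linarith
  obtain ⟨c, hc, hlow⟩ := lower_fc f hs ζ β (2 / θ) hζ4 hζ2 hβ1 hβ2
  obtain ⟨v, Cv, hv, hCv, hV⟩ := V1_bounds f hs
  have hsq := sq_fc f (hs.irr 0) (hs.deg 0) ζ β (c * v / 2) (by linarith) (by linarith) (by positivity)
  obtain ⟨C, hC1, hC⟩ := size_bound f
  rw [← hg] at hC
  obtain ⟨n₀, hn₀⟩ := ne_zero_ev f (hs.irr 0).ne_zero
  obtain ⟨L0, hL0⟩ := eventually_atTop.1 (hlow.and (hsq.and (eventually_ge_atTop 3)))
  obtain ⟨Cr, hCr, hratio⟩ := Vf_ratio f hs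
  refine ⟨c / (2 * (2 * Cr + 1)), by positivity, ?_⟩
  have hXr : Tendsto (fun X : ℕ => (X : ℝ)) atTop atTop := tendsto_natCast_atTop_atTop
  have e1 := ((tendsto_rpow_atTop hθ).comp hXr).eventually_ge_atTop ((L0 : ℝ) + 3)
  have e2 := ((tendsto_rpow_atTop (show 0 < θ * (ζ + r * β) - g by linarith)).comp
    hXr).eventually_gt_atTop (C * 4 ^ g)
  filter_upwards [e1, e2, eventually_ge_atTop (n₀ + 4)] with X e1 e2 e3 q a M Y hq1 hcop hXY hlo hhi
  simp only [Function.comp] at e1 e2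
  have hX4 : 4 ≤ X := by omega
  have hX4r : (4 : ℝ) ≤ X := by exact_mod_cast hX4
  have hX0 : (0 : ℝ) < X := by linarith
  have hYr : (L0 : ℝ) + 3 ≤ Y := e1.trans hXY
  have hYL : L0 ≤ Y := by
    have : (L0 : ℝ) ≤ Y := by linarith
    exact_mod_cast this
  obtain ⟨f1, f2, hY3⟩ := hL0 Y hYL
  have hY3r : (3 : ℝ) ≤ Y := by exact_mod_cast hY3
  have hY0 : (0 : ℝ) < Y := by linarith
  have hY1 : (1 : ℝ) < Y := by linarith
  have hq4 : q ≤ 4 * X := by
    have : q * 1 ≤ q * (M + Y) := Nat.mul_le_mul_left q (by omega)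
    omega
  have hY4 : Y ≤ 4 * X := by
    have : 1 * (M + Y) ≤ q * (M + Y) := Nat.mul_le_mul_right _ hq1
    omega
  have hqY : (q : ℝ) ≤ (Y : ℝ) ^ (2 / θ) := by
    calc (q : ℝ) ≤ 4 * X := by exact_mod_cast hq4
      _ ≤ (X : ℝ) ^ (2 : ℝ) := by
          rw [Real.rpow_two]
          nlinarith
      _ = ((X : ℝ) ^ θ) ^ (2 / θ) := by
          rw [← Real.rpow_mul hX0.le, mul_div_cancel₀ _ hθ.ne']
      _ ≤ (Y : ℝ) ^ (2 / θ) := Real.rpow_le_rpow (by positivity) hXY (by positivity)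
  have g1 := f1 q a hq1 hqY hcop M
  have g2 := f2 q a M hcop
  have hlY : 0 < Real.log Y := Real.log_pos hY1
  have hlX0 : 0 < Real.log X := Real.log_pos (by linarith)
  -- the product at the level X
  have hVX : Vf f q X ≤ (2 * Cr + 1) * Vf f q Y := by
    rcases le_total Y X with h | h
    · have h1 := Vf_anti f q Y X h
      have h2 := (Vf_pos f hs q Y).le
      nlinarith
    · have h1 := hratio q X Y (by omega) h 2 (by
        have h3 : (Y : ℝ) ≤ X ^ 2 := by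
          have : (Y : ℝ) ≤ 4 * X := by exact_mod_cast hY4
          nlinarith
        calc Real.log Y ≤ Real.log ((X : ℝ) ^ 2) := Real.log_le_log hY0 h3
          _ = 2 * Real.log X := by rw [Real.log_pow]; norm_num)
      have h2 := (Vf_pos f hs q Y).le
      linarith
  have hsub : (Ioc M (M + Y)).filter (fun m => (∀ p ∈ PZ Y ζ, ¬ p ∣ G (fc f a q) m) ∧
        ((pr Y ζ β).filter (fun p => p ∣ G (fc f a q) m)).card ≤ 1) ⊆
      (Ioc M (M + Y)).filter (fun m =>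
        (∀ p : ℕ, p.Prime → p ∣ G f (a + q * m) → (Y : ℝ) ^ ζ ≤ p) ∧
        (G f (a + q * m)).primeFactorsList.length ≤ r) ∪
      (Ioc M (M + Y)).filter (fun m => ∃ p ∈ pr Y ζ β, p ^ 2 ∣ G (fc f a q) m) := by
    intro n hn
    simp only [G_fc] at hn ⊢
    rw [mem_filter, mem_Ioc] at hn
    obtain ⟨⟨hn1, hn2⟩, hn3, hn4⟩ := hn
    rw [mem_union, mem_filter, mem_filter, mem_Ioc]
    obtain ⟨m, hm⟩ : ∃ m, m = a + q * n := ⟨_, rfl⟩
    rw [← hm] at hn3 hn4 ⊢
    have hmX : X < m := by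
      have : q * (M + 1) ≤ q * n := Nat.mul_le_mul_left q (by omega)
      omega
    have hm4 : m ≤ 4 * X := by
      have : q * n ≤ q * (M + Y) := Nat.mul_le_mul_left q hn2
      omega
    by_cases hsq' : ∃ p ∈ pr Y ζ β, p ^ 2 ∣ G f m
    · right
      exact ⟨⟨hn1, hn2⟩, hsq'⟩
    · left
      have hbig : ∀ p : ℕ, p.Prime → p ∣ G f m → (Y : ℝ) ^ ζ ≤ p := by
        intro p hp hpn
        by_cases hpY : p ≤ Y
        · by_contra hcon
          rw [not_le] at hcon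
          apply hn3 p _ hpn
          rw [mem_PZ]
          refine ⟨⟨hp.one_le, hpY⟩, hp, ?_⟩
          rw [tt_mul_log Y (by omega) p hp.pos] at hcon
          exact (Real.rpow_lt_rpow_left_iff hY1).1 hcon
        · rw [not_le] at hpY
          calc (Y : ℝ) ^ ζ ≤ (Y : ℝ) ^ (1 : ℝ) :=
                Real.rpow_le_rpow_of_exponent_le hY1.le (by linarith)
            _ = Y := Real.rpow_one _
            _ ≤ p := by exact_mod_cast hpY.le
      refine ⟨⟨hn1, hn2⟩, hbig, ?_⟩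
      by_contra hlen
      rw [not_le] at hlen
      have hmem : ∀ p : ℕ, p.Prime → p ∣ G f m → (p : ℝ) < (Y : ℝ) ^ β → p ∈ pr Y ζ β := by
        intro p hp hpn hpb
        have h1 := hbig p hp hpn
        rw [mem_pr']
        have hqe := tt_mul_log Y (by omega) p hp.pos
        rw [hqe] at h1 hpb
        have h2 := (Real.rpow_le_rpow_left_iff hY1).1 h1
        have h3 := (Real.rpow_lt_rpow_left_iff hY1).1 hpb
        refine ⟨⟨hp.one_le, ?_⟩, hp, h2, h3⟩
        have h4 : (p : ℝ) ≤ Y := by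
          rw [hqe]
          calc (Y : ℝ) ^ (tt Y p) ≤ (Y : ℝ) ^ (1 : ℝ) :=
                Real.rpow_le_rpow_of_exponent_le hY1.le (by linarith)
            _ = Y := Real.rpow_one _
        exact_mod_cast h4
      have h1 := struct (G f m) r (hn₀ m (by omega)) ((Y : ℝ) ^ ζ) ((Y : ℝ) ^ β)
        (Real.one_le_rpow hY1.le (by linarith)) (Real.rpow_le_rpow_of_exponent_le hY1.le hβ1)
        hbig (by
          intro p p' hp hp' hpn hpn' hpb hpb'
          have h5 : p ∈ (pr Y ζ β).filter (fun p => p ∣ G f m) :=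
            mem_filter.2 ⟨hmem p hp hpn hpb, hpn⟩
          have h6 : p' ∈ (pr Y ζ β).filter (fun p => p ∣ G f m) :=
            mem_filter.2 ⟨hmem p' hp' hpn' hpb', hpn'⟩
          exact card_le_one.1 hn4 p h5 p' h6) (by
          intro p hp hpb hpn
          exact hsq' ⟨p, hmem p hp (dvd_trans (dvd_pow_self p two_ne_zero) hpn) hpb, hpn⟩) hlen
      have h2 := hC m (by omega)
      have h3 : (m : ℝ) ≤ 4 * X := by exact_mod_cast hm4
      have h4 : (G f m : ℝ) ≤ C * 4 ^ g * (X : ℝ) ^ (g : ℝ) := by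
        calc (G f m : ℝ) ≤ C * (m : ℝ) ^ g := h2
          _ ≤ C * (4 * X) ^ g := by gcongr
          _ = C * 4 ^ g * (X : ℝ) ^ g := by rw [mul_pow]; ring
          _ = _ := by rw [Real.rpow_natCast]
      have h5 : (X : ℝ) ^ (θ * (ζ + r * β)) ≤ (Y : ℝ) ^ ζ * ((Y : ℝ) ^ β) ^ r := by
        rw [← Real.rpow_natCast, ← Real.rpow_mul hY0.le, ← Real.rpow_add hY0, Real.rpow_mul hX0.le,
          mul_comm β]
        exact Real.rpow_le_rpow (by positivity) hXY (by positivity)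
      have h6 : C * 4 ^ g * (X : ℝ) ^ (g : ℝ) < (X : ℝ) ^ (θ * (ζ + r * β)) := by
        have h7 : (X : ℝ) ^ (θ * (ζ + r * β)) =
            (X : ℝ) ^ (θ * (ζ + r * β) - g) * (X : ℝ) ^ (g : ℝ) := by
          rw [← Real.rpow_add hX0, sub_add_cancel]
        rw [h7]
        exact mul_lt_mul_of_pos_right e2 (by positivity)
      linarith
  have h1 := (card_le_card hsub).trans (card_union_le _ _)
  have h2 : (((Ioc M (M + Y)).filter (fun m => (∀ p ∈ PZ Y ζ, ¬ p ∣ G (fc f a q) m) ∧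
        ((pr Y ζ β).filter (fun p => p ∣ G (fc f a q) m)).card ≤ 1)).card : ℝ) ≤
      (((Ioc M (M + Y)).filter (fun m =>
        (∀ p : ℕ, p.Prime → p ∣ G f (a + q * m) → (Y : ℝ) ^ ζ ≤ p) ∧
        (G f (a + q * m)).primeFactorsList.length ≤ r)).card : ℝ) +
      (((Ioc M (M + Y)).filter (fun m => ∃ p ∈ pr Y ζ β, p ^ 2 ∣ G (fc f a q) m)).card : ℝ) := by
    exact_mod_cast h1
  have h3 : c * v / 2 * Y / Real.log Y ≤ c / 2 * Y * Vf f q Y := by
    calc c * v / 2 * Y / Real.log Y = c / 2 * Y * (v / Real.log Y) := by ring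
      _ ≤ _ := mul_le_mul_of_nonneg_left ((hV Y hY3).1.trans (Vf_ge_one f q Y)) (by positivity)
  have h4 : c / (2 * (2 * Cr + 1)) * Y * Vf f q X ≤ c / 2 * Y * Vf f q Y := by
    calc c / (2 * (2 * Cr + 1)) * Y * Vf f q X ≤
          c / (2 * (2 * Cr + 1)) * Y * ((2 * Cr + 1) * Vf f q Y) :=
          mul_le_mul_of_nonneg_left hVX (by positivity)
      _ = _ := by
          field_simp
  have h5 : c * Y * Vf f q Y = c / 2 * Y * Vf f q Y + c / 2 * Y * Vf f q Y := by ring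
  linarith

end Pool.Agent.Y677.KU
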