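import Pool.Agent.Y677.KU.ApFin
import Pool.Agent.Y677.KU.LinNarrow

set_option autoImplicit false

/-!
# Narrow progressions of arguments of almost prime values on arithmetic progressions, uniformly in the modulus
-/

open Polynomial Finset Filter Topology

namespace Pool.Agent.Y677.KU

open Pool.Agent.H474R2.PG (rho)
open Pool.Agent.W123.RU Pool.Agent.W123.RU.Poly
open Pool.Agent.W123.RP Pool.Agent.H373R2.T7
open Pool.Agent.TH977.PW (N)
open Pool.Agent.Y677.RSZ (InProg Outside prog_of_count)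
open Pool.Agent.Y843.HS (Pr VV)

/-- all prime factors of `f (a + q m)` are larger than `(a + q m) ^ (1 / s)` -/
def Ra (f : ℤ[X]) (a q s : ℕ) : Set ℕ := {m | ∀ p : ℕ, p.Prime →
  (p : ℤ) ∣ f.eval ((a + q * m : ℕ) : ℤ) → ((a + q * m : ℕ) : ℝ) ^ (1 / (s : ℝ)) < (p : ℝ)}

/-- the arguments in `Ra` with at most `r` prime factors of the value -/
def Pa (f : ℤ[X]) (a q r s : ℕ) : Set ℕ := {m | m ∈ Ra f a q s ∧
  (f.eval ((a + q * m : ℕ) : ℤ)).natAbs.primeFactorsList.length ≤ r}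

/-- **Lower bound** -/
theorem lower_ap (f : ℤ[X]) (hf : Poly.Sys (fun _ : Fin 1 => f)) (θ : ℝ) (hθ : 0 < θ)
    (hθ1 : θ ≤ 1) (r s : ℕ) (h1 : 4 * (f.natDegree : ℝ) < θ * (3 * r + 1))
    (h2 : (f.natDegree : ℝ) < θ * r - (r - 1) / s) (h3 : 2 < θ * s) :
    ∃ κ : ℝ, 0 < κ ∧ ∀ᶠ x : ℕ in atTop, ∀ q a M L : ℕ, 1 ≤ q → Cop f a q →
      (x : ℝ) ^ θ ≤ L → x < a + q * (M + 1) → a + q * (M + L) ≤ 4 * x →
      κ * L * Vf f q x ≤ N (Pa f a q r s) M (M + L) := by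
  classical
  obtain ⟨hr2, ζ, z1, z2, z3, z4⟩ := choose_zeta f.natDegree (hf.deg 0) θ hθ hθ1 r s h1 h2 h3
  obtain ⟨κ, hκ, h⟩ := kuhn_ap f hf θ ζ hθ z1 z2 r z4 (by omega)
  refine ⟨κ, hκ, ?_⟩
  have hs0 : (0 : ℝ) < s := by
    by_contra hcon
    rw [not_lt] at hcon
    nlinarith
  have hXr : Tendsto (fun X : ℕ => (X : ℝ)) atTop atTop := tendsto_natCast_atTop_atTop
  have e1 := ((tendsto_rpow_atTop (show 0 < θ * ζ - 1 / s by linarith)).comp
    hXr).eventually_gt_atTop ((4 : ℝ) ^ (1 / (s : ℝ)))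
  filter_upwards [h, e1, eventually_ge_atTop 3] with X hX e1 hX3 q a M L hq1 hcop hL hlo hhi
  simp only [Function.comp] at e1
  refine (hX q a M L hq1 hcop hL hlo hhi).trans ?_
  have hX3r : (3 : ℝ) ≤ X := by exact_mod_cast hX3
  have hX0 : (0 : ℝ) < X := by linarith
  have hsub : ((Ioc M (M + L)).filter (fun m =>
        (∀ p : ℕ, p.Prime → p ∣ G f (a + q * m) → (L : ℝ) ^ ζ ≤ p) ∧
        (G f (a + q * m)).primeFactorsList.length ≤ r)).card ≤ N (Pa f a q r s) M (M + L) := by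
    apply Pool.Agent.TH977.PW.card_le_N _ _ _ _ id (Function.injective_id.injOn)
    intro m hm
    rw [mem_filter, mem_Ioc] at hm
    refine ⟨hm.1.1, hm.1.2, ?_, hm.2.2⟩
    intro p hp hd
    have h4 := hm.2.1 p hp ((dvd_G f p (a + q * m)).2 hd)
    have h5 : ((a + q * m : ℕ) : ℝ) ≤ 4 * X := by
      have h6 : q * m ≤ q * (M + L) := Nat.mul_le_mul_left q hm.1.2
      have : a + q * m ≤ 4 * X := by omega
      exact_mod_cast this
    calc ((a + q * m : ℕ) : ℝ) ^ (1 / (s : ℝ)) ≤ (4 * X) ^ (1 / (s : ℝ)) :=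
          Real.rpow_le_rpow (Nat.cast_nonneg _) h5 (by positivity)
      _ = (4 : ℝ) ^ (1 / (s : ℝ)) * (X : ℝ) ^ (1 / (s : ℝ)) :=
          Real.mul_rpow (by norm_num) hX0.le
      _ < (X : ℝ) ^ (θ * ζ - 1 / s) * (X : ℝ) ^ (1 / (s : ℝ)) :=
          mul_lt_mul_of_pos_right e1 (by positivity)
      _ = (X : ℝ) ^ (θ * ζ) := by rw [← Real.rpow_add hX0, sub_add_cancel]
      _ = ((X : ℝ) ^ θ) ^ ζ := by rw [Real.rpow_mul hX0.le]
      _ ≤ (L : ℝ) ^ ζ := Real.rpow_le_rpow (by positivity) hL (by linarith)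
      _ ≤ p := h4
  exact_mod_cast hsub

/-- the classes of the arguments of the multiples of `p` -/
def Zf (f : ℤ[X]) (a q p : ℕ) : Finset ℕ :=
  (range p).filter (fun c : ℕ => (p : ℤ) ∣ f.eval ((a + q * c : ℕ) : ℤ))

lemma Zf_card (f : ℤ[X]) (a q p : ℕ) : (Zf f a q p).card = rho (fc f a q) p := by
  unfold Zf rho
  congr 1
  apply filter_congr
  intro c _
  rw [fc_eval]

lemma VV_Vf (f : ℤ[X]) (a q z : ℕ) (hc : Cop f a q) : VV (Zf f a q) 0 z = Vf f q z := by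
  unfold VV Vf
  have h2 : Pr 0 z = pz z := by
    unfold Pool.Agent.Y843.HS.Pr pz
    ext p
    rw [mem_filter, mem_filter, mem_Ioc, mem_Icc]
    constructor
    · rintro ⟨⟨h3, h4⟩, h5⟩
      exact ⟨⟨h3, h4⟩, h5⟩
    · rintro ⟨⟨h3, h4⟩, h5⟩
      exact ⟨⟨h3, h4⟩, h5⟩
  rw [h2]
  apply prod_congr rfl
  intro p hp
  rw [Zf_card, ← hh_fc f a q p hc (mem_pz.1 hp).2]
  rfl

open Classical in
/-- **All but few elements of every set of arguments of rough values are in narrow progressions** -/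
theorem hered_ap (f : ℤ[X]) (hf : Poly.Sys (fun _ : Fin 1 => f)) (s : ℕ) (hs : 1 ≤ s) (θ : ℝ)
    (hθ : 0 < θ) (l : ℕ) (hl : 2 ≤ l) (ε : ℝ) (hε : 0 < ε) :
    ∃ B : ℕ, ∀ᶠ x : ℕ in atTop, ∀ q a M L : ℕ, 1 ≤ q → Cop f a q →
      (x : ℝ) ^ θ ≤ L → x < a + q * (M + 1) → a + q * (M + L) ≤ 4 * x →
      ∀ A : Set ℕ, A ⊆ Ra f a q s →
        (N (Outside A l (Real.log x ^ B) M (M + L)) M (M + L) : ℝ) ≤ ε * L * Vf f q x := by
  obtain ⟨K, hK1, hKb⟩ := rho_bd f (hf.irr 0).ne_zero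
  obtain ⟨Cr, hCr, hratio⟩ := Vf_ratio f hf
  have hs1 : (1 : ℝ) ≤ s := by exact_mod_cast hs
  have hs0 : (0 : ℝ) < s := by linarith
  obtain ⟨κ, hκ⟩ : ∃ κ : ℝ, κ = 1 / (2 * s) := ⟨_, rfl⟩
  have hκ0 : 0 < κ := by rw [hκ]; positivity
  have hκ1 : κ ≤ 1 / 2 := by
    rw [hκ]
    apply one_div_le_one_div_of_le (by norm_num)
    linarith
  obtain ⟨δ, hδ⟩ : ∃ δ : ℝ, δ = ε / (Cr * (4 / (θ * κ))) := ⟨_, rfl⟩
  have hδ0 : 0 < δ := by rw [hδ]; positivity
  obtain ⟨B, X₀, hfin⟩ := Pool.Agent.Y843.HS.fin l K κ δ hκ0 hδ0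
  refine ⟨2 * B, ?_⟩
  have hXr : Tendsto (fun X : ℕ => (X : ℝ)) atTop atTop := tendsto_natCast_atTop_atTop
  have e1 := ((tendsto_rpow_atTop hθ).comp hXr).eventually_ge_atTop ((X₀ : ℝ) + 4)
  have e2 := ((tendsto_rpow_atTop (show 0 < θ * κ / 4 by positivity)).comp hXr).eventually_ge_atTop 3
  have e4 := (Real.tendsto_log_atTop.comp hXr).eventually_ge_atTop 2
  filter_upwards [e1, e2, e4, eventually_ge_atTop 4] with x e1 e2 e4 hx4 q a M L hq1 hcop hL hlo hhi A hA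
  simp only [Function.comp] at e1 e2 e4
  have hx4r : (4 : ℝ) ≤ x := by exact_mod_cast hx4
  have hx0 : (0 : ℝ) < x := by linarith
  have hX00 : (0 : ℝ) ≤ X₀ := Nat.cast_nonneg _
  have hL2r : (2 : ℝ) ≤ L := by linarith
  have hL0 : (0 : ℝ) < L := by linarith
  have hLx : (L : ℝ) ≤ 4 * x := by
    have h5 : 1 * (M + L) ≤ q * (M + L) := Nat.mul_le_mul_right _ hq1
    have h6 : L ≤ 4 * x := by omega
    exact_mod_cast h6
  have hlx : 0 < Real.log x := by linarith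
  have e5 : (4 * (x : ℝ)) ^ (1 / (2 : ℝ)) ≤ x := by
    rw [← Real.sqrt_eq_rpow, Real.sqrt_le_left (by linarith)]
    nlinarith
  by_contra hcon
  rw [not_le] at hcon
  set O : Set ℕ := Outside A l (Real.log x ^ (2 * B)) M (M + L) with hO
  have hOA : ∀ n ∈ O, n ∈ A := fun n hn => hn.1
  set S : Finset ℕ := (Ioc M (M + L)).filter (fun m => m ∈ O) with hS
  have hSN : (N O M (M + L) : ℝ) = S.card := by
    unfold Pool.Agent.TH977.PW.N
    rw [hS]
  have hX₀L : X₀ ≤ L := by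
    have : (X₀ : ℝ) ≤ L := by linarith
    exact_mod_cast this
  obtain ⟨u, d, hd1, hd2, hud⟩ := hfin L M hX₀L (Zf f a q) (by
    intro p hp _
    have h1 := rho_fc_le f a q p hcop hp
    rw [Zf_card]
    refine ⟨h1.trans (hKb p hp), h1.trans_lt (rho_lt f hf p hp), ?_⟩
    intro c hc
    unfold Zf at hc
    exact mem_range.1 (mem_filter.1 hc).1) S (filter_subset _ _) (by
    intro m hmS p hp hpL hmem
    rw [hS, mem_filter, mem_Ioc] at hmS
    unfold Zf at hmem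
    rw [mem_filter] at hmem
    have h1 : (p : ℤ) ∣ f.eval ((a + q * m : ℕ) : ℤ) := by
      rw [← fc_eval, per1 (fc f a q) p m, fc_eval]
      exact hmem.2
    have h2 := hA (hOA _ hmS.2) p hp h1
    have h3 : x < a + q * m := by
      have : q * (M + 1) ≤ q * m := Nat.mul_le_mul_left q (by omega)
      omega
    have h4 : (x : ℝ) ≤ ((a + q * m : ℕ) : ℝ) := by exact_mod_cast h3.le
    have h5 : (L : ℝ) ^ κ ≤ ((a + q * m : ℕ) : ℝ) ^ (1 / (s : ℝ)) := by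
      have e6 : κ = 1 / 2 * (1 / s) := by
        rw [hκ]
        field_simp
      calc (L : ℝ) ^ κ ≤ (4 * x) ^ κ := Real.rpow_le_rpow hL0.le hLx hκ0.le
        _ = ((4 * (x : ℝ)) ^ (1 / (2 : ℝ))) ^ (1 / (s : ℝ)) := by
            rw [e6, Real.rpow_mul (by positivity)]
        _ ≤ (x : ℝ) ^ (1 / (s : ℝ)) := Real.rpow_le_rpow (by positivity) e5 (by positivity)
        _ ≤ _ := Real.rpow_le_rpow hx0.le h4 (by positivity)
    linarith) (by
    rw [VV_Vf f a q _ hcop, ← hSN]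
    refine le_trans ?_ hcon.le
    set z : ℕ := ⌊(L : ℝ) ^ κ⌋₊ with hz
    have h4 : (x : ℝ) ^ (θ * κ) ≤ (L : ℝ) ^ κ := by
      calc (x : ℝ) ^ (θ * κ) = ((x : ℝ) ^ θ) ^ κ := by
            rw [← Real.rpow_mul hx0.le]
        _ ≤ (L : ℝ) ^ κ := Real.rpow_le_rpow (by positivity) hL hκ0.le
    have h5 : (x : ℝ) ^ (θ * κ / 4) ≤ z := by
      have e5 : (x : ℝ) ^ (θ * κ) = (x : ℝ) ^ (θ * κ / 4) * (x : ℝ) ^ (θ * κ * 3 / 4) := by
        rw [← Real.rpow_add hx0]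
        congr 1
        ring
      have e6 : (L : ℝ) ^ κ < z + 1 := Nat.lt_floor_add_one _
      have e7 : (x : ℝ) ^ (θ * κ / 4) ≤ (x : ℝ) ^ (θ * κ * 3 / 4) := by
        apply Real.rpow_le_rpow_of_exponent_le (by linarith)
        have : 0 < θ * κ := by positivity
        linarith
      nlinarith
    have hz3r : (3 : ℝ) ≤ z := e2.trans h5
    have hz3 : 3 ≤ z := by exact_mod_cast hz3r
    have h6 : θ * κ / 4 * Real.log x ≤ Real.log z := by
      rw [← Real.log_rpow hx0]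
      exact Real.log_le_log (by positivity) h5
    have hzx : z ≤ x := by
      have e6 : (z : ℝ) ≤ (L : ℝ) ^ κ := Nat.floor_le (by positivity)
      have e7 : (L : ℝ) ^ κ ≤ (4 * x) ^ κ := Real.rpow_le_rpow hL0.le hLx hκ0.le
      have e8 : (4 * (x : ℝ)) ^ κ ≤ (4 * (x : ℝ)) ^ (1 / (2 : ℝ)) :=
        Real.rpow_le_rpow_of_exponent_le (by linarith) hκ1
      have : (z : ℝ) ≤ x := by linarith
      exact_mod_cast this
    have h7 := hratio q z x hz3 hzx (4 / (θ * κ)) (by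
      rw [div_mul_eq_mul_div, le_div_iff₀ (by positivity)]
      linarith)
    calc δ * L * Vf f q z ≤ δ * L * (Cr * (4 / (θ * κ)) * Vf f q x) :=
          mul_le_mul_of_nonneg_left h7 (by positivity)
      _ = ε * L * Vf f q x := by
          rw [hδ]
          field_simp)
  have hmem : ∀ i < l, u + i * d ∈ O ∧ M < u + i * d ∧ u + i * d ≤ M + L := by
    intro i hi
    have h1 := hud i hi
    rw [hS, mem_filter, mem_Ioc] at h1
    exact ⟨h1.2, h1.1.1, h1.1.2⟩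
  have h0 := hmem 0 (by omega)
  refine h0.1.2 ⟨u, d, hd1, ?_, ?_, 0, by omega, by ring⟩
  · refine hd2.trans ?_
    have h1 : Real.log L ≤ Real.log x ^ 2 := by
      have h2 : Real.log L ≤ 2 * Real.log x := by
        rw [← Real.log_rpow hx0, Real.rpow_two]
        apply Real.log_le_log hL0
        nlinarith
      nlinarith
    rw [pow_mul]
    exact pow_le_pow_left₀ (Real.log_nonneg (by linarith)) h1 B
  · intro i hi
    have h1 := hmem i hi
    exact ⟨hOA _ h1.1, h1.2⟩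

/-- **Existence of narrow progressions** -/
theorem exists_ap (f : ℤ[X]) (hf : Poly.Sys (fun _ : Fin 1 => f)) (θ : ℝ) (hθ : 0 < θ)
    (hθ1 : θ ≤ 1) (r s : ℕ) (hs : 1 ≤ s) (h1 : 4 * (f.natDegree : ℝ) < θ * (3 * r + 1))
    (h2 : (f.natDegree : ℝ) < θ * r - (r - 1) / s) (h3 : 2 < θ * s) (l : ℕ) :
    ∃ B : ℕ, ∀ᶠ x : ℕ in atTop, ∀ q a M L : ℕ, 1 ≤ q → Cop f a q →
      (x : ℝ) ^ θ ≤ L → x < a + q * (M + 1) → a + q * (M + L) ≤ 4 * x →
      ∃ u d : ℕ, 1 ≤ d ∧ (d : ℝ) ≤ Real.log x ^ B ∧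
        ∀ i < l, u + i * d ∈ Pa f a q r s ∧ M < u + i * d ∧ u + i * d ≤ M + L := by
  obtain ⟨κ, hκ, hlow⟩ := lower_ap f hf θ hθ hθ1 r s h1 h2 h3
  obtain ⟨B, hB⟩ := hered_ap f hf s hs θ hθ (l + 2) (by omega) (κ / 2) (by positivity)
  refine ⟨B, ?_⟩
  filter_upwards [hlow, hB, eventually_ge_atTop 3] with x g1 g2 hx3 q a M L hq1 hcop hL hlo hhi
  have hx3r : (3 : ℝ) ≤ x := by exact_mod_cast hx3
  have hx0 : (0 : ℝ) < x := by linarith
  have hL0 : (0 : ℝ) < L := lt_of_lt_of_le (by positivity) hL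
  have hV := Vf_pos f hf q x
  have hLV : 0 < (L : ℝ) * Vf f q x := by positivity
  obtain ⟨u, d, h4, h5, h6⟩ := prog_of_count _ (l + 2) (Real.log x ^ B) M (M + L)
    (κ / 2 * L * Vf f q x) (lt_of_lt_of_le (by nlinarith) (g1 q a M L hq1 hcop hL hlo hhi))
    (g2 q a M L hq1 hcop hL hlo hhi (Pa f a q r s) (fun n hn => hn.1))
  exact ⟨u, d, h4, h5, fun i hi => h6 i (by omega)⟩

end Pool.Agent.Y677.KU
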