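import Pool.Agent.Y677.KU.LinFin

set_option autoImplicit false

/-!
# Values of an irreducible polynomial on arithmetic progressions: local densities, uniformly in the modulus
-/

open Polynomial Finset Filter Topology

namespace Pool.Agent.Y677.KU

open Pool.Agent.W23.DC Pool.Agent.Y882
open Pool.Agent.H474R2.PG (rho)
open Pool.Agent.W123.RU Pool.Agent.W123.RU.Poly

/-- the polynomial `f (a + q X)` -/
noncomputable def fc (f : ℤ[X]) (a q : ℕ) : ℤ[X] := f.comp (C (q : ℤ) * X + C (a : ℤ))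

lemma fc_eval (f : ℤ[X]) (a q m : ℕ) : (fc f a q).eval (m : ℤ) = f.eval ((a + q * m : ℕ) : ℤ) := by
  unfold fc
  rw [eval_comp]
  congr 1
  simp only [eval_add, eval_mul, eval_C, eval_X]
  push_cast
  ring

lemma G_fc (f : ℤ[X]) (a q m : ℕ) : G (fc f a q) m = G f (a + q * m) := by
  unfold G
  rw [fc_eval]

/-- the densities: `0` for the divisors of `q` -/
noncomputable def hf (f : ℤ[X]) (q p : ℕ) : ℝ := if p ∣ q then 0 else (rho f p : ℝ) / p

/-- no prime divisor of `q` divides a value -/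
def Cop (f : ℤ[X]) (a q : ℕ) : Prop := ∀ p : ℕ, p.Prime → p ∣ q → ¬ (p : ℤ) ∣ f.eval (a : ℤ)

lemma not_dvd_fc (f : ℤ[X]) (a q p m : ℕ) (hc : Cop f a q) (hp : p.Prime) (hpq : p ∣ q) :
    ¬ (p : ℤ) ∣ f.eval ((a + q * m : ℕ) : ℤ) := by
  intro h
  apply hc p hp hpq
  have h1 := (per1 f p (a + q * m)).1 h
  have h2 : (a + q * m) % p = a % p := by
    obtain ⟨k, hk⟩ := hpq
    rw [hk, mul_assoc, Nat.add_mul_mod_self_left]
  rw [h2] at h1
  exact (per1 f p a).2 h1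

lemma rho_fc_dvd (f : ℤ[X]) (a q p : ℕ) (hc : Cop f a q) (hp : p.Prime) (hpq : p ∣ q) :
    rho (fc f a q) p = 0 := by
  unfold rho
  rw [card_eq_zero]
  apply filter_eq_empty_iff.2
  intro m _ h
  rw [fc_eval] at h
  exact not_dvd_fc f a q p m hc hp hpq h

lemma rho_fc_cop (f : ℤ[X]) (a q d : ℕ) (hd : 0 < d) (hqd : Nat.Coprime q d) :
    rho (fc f a q) d = rho f d := by
  classical
  have hinj : Set.InjOn (fun m : ℕ => (a + q * m) % d) (range d) := by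
    intro m hm n hn h
    rw [coe_range, Set.mem_Iio] at hm hn
    have h1 : a + q * m ≡ a + q * n [MOD d] := h
    have h2 : q * m ≡ q * n [MOD d] := Nat.ModEq.add_left_cancel' a h1
    have h3 : m ≡ n [MOD d] := Nat.ModEq.cancel_left_of_coprime hqd.symm h2
    unfold Nat.ModEq at h3
    rwa [Nat.mod_eq_of_lt hm, Nat.mod_eq_of_lt hn] at h3
  have himg : (range d).image (fun m : ℕ => (a + q * m) % d) = range d := by
    apply Finset.eq_of_subset_of_card_le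
    · intro m hm
      rw [mem_image] at hm
      obtain ⟨n, _, rfl⟩ := hm
      exact mem_range.2 (Nat.mod_lt _ hd)
    · rw [card_image_of_injOn hinj]
  unfold rho
  have h1 : (range d).filter (fun r : ℕ => (d : ℤ) ∣ f.eval (r : ℤ)) =
      ((range d).filter (fun m : ℕ => (d : ℤ) ∣ (fc f a q).eval (m : ℤ))).image
        (fun m : ℕ => (a + q * m) % d) := by
    ext r
    rw [mem_filter, mem_image]
    constructor
    · rintro ⟨h2, h3⟩
      rw [← himg, mem_image] at h2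
      obtain ⟨m, h4, h5⟩ := h2
      refine ⟨m, mem_filter.2 ⟨h4, ?_⟩, h5⟩
      rw [fc_eval, per1 f d (a + q * m)]
      rw [h5]
      exact h3
    · rintro ⟨m, h4, rfl⟩
      rw [mem_filter, fc_eval, per1 f d (a + q * m)] at h4
      exact ⟨mem_range.2 (Nat.mod_lt _ hd), h4.2⟩
  rw [h1, card_image_of_injOn]
  exact hinj.mono (by
    intro m hm
    exact (mem_filter.1 hm).1)

lemma hh_fc (f : ℤ[X]) (a q p : ℕ) (hc : Cop f a q) (hp : p.Prime) : hh (fc f a q) p = hf f q p := by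
  unfold hh hf
  split_ifs with h
  · rw [rho_fc_dvd f a q p hc hp h]
    simp
  · rw [rho_fc_cop f a q p hp.pos ((Nat.Prime.coprime_iff_not_dvd hp).2 h).symm]

lemma rho_fc_le (f : ℤ[X]) (a q p : ℕ) (hc : Cop f a q) (hp : p.Prime) :
    rho (fc f a q) p ≤ rho f p := by
  by_cases h : p ∣ q
  · rw [rho_fc_dvd f a q p hc hp h]
    exact Nat.zero_le _
  · rw [rho_fc_cop f a q p hp.pos ((Nat.Prime.coprime_iff_not_dvd hp).2 h).symm]

/-- the sum of the errors, uniformly -/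
lemma er_sumK (K : ℕ) (η : ℝ) (hη : 0 < η) :
    ∃ C : ℝ, 1 ≤ C ∧ ∀ (f : ℤ[X]), (∀ p : ℕ, p.Prime → rho f p ≤ K) →
      ∀ (X L : ℕ) (P : Finset ℕ) (D : ℝ), (∀ p ∈ P, p.Prime) → 1 ≤ D →
      ∑ T ∈ P.powerset.filter (fun T => ((∏ p ∈ T, p : ℕ) : ℝ) ≤ D),
        Er (Ioc X (X + L)) (G f) L (hh f) T ≤ C * D ^ (1 + η) := by
  obtain ⟨C, hC1, hC⟩ := Pool.Agent.Y882.PX.pow_card_le K η hη
  refine ⟨C, hC1, fun f hK X L P D hP hD => ?_⟩
  have h1 : ∀ T ∈ P.powerset.filter (fun T => ((∏ p ∈ T, p : ℕ) : ℝ) ≤ D),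
      Er (Ioc X (X + L)) (G f) L (hh f) T ≤ C * D ^ η := by
    intro T hT
    rw [mem_filter, mem_powerset] at hT
    have hTp : ∀ p ∈ T, p.Prime := fun p hp => hP p (hT.1 hp)
    refine (er_le f X L T hTp K hK).trans ((hC T hTp).trans ?_)
    apply mul_le_mul_of_nonneg_left _ (by linarith)
    exact Real.rpow_le_rpow (Nat.cast_nonneg _) hT.2 hη.le
  refine (sum_le_sum h1).trans ?_
  rw [sum_const, nsmul_eq_mul]
  have h2 := card_T_le P D hP hD
  have hC0 : 0 ≤ C * D ^ η := by positivity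
  calc _ ≤ D * (C * D ^ η) := mul_le_mul_of_nonneg_right h2 hC0
    _ = C * D ^ (1 + η) := by
        rw [Real.rpow_add (by linarith), Real.rpow_one]
        ring

/-- **Mertens' formula in windows, primes not dividing `q`** -/
theorem mer_fc (f : ℤ[X]) (hf : Irreducible f) (hd : 0 < f.natDegree) (ε₁ β η lam : ℝ)
    (hε₁ : 0 < ε₁) (hβ : β ≤ 1) (hη : 0 < η) :
    ∃ Y0 : ℕ, ∀ Y : ℕ, Y0 ≤ Y → ∀ q : ℕ, 1 ≤ q → (q : ℝ) ≤ (Y : ℝ) ^ lam →
      Mer (pr Y ε₁ β) (tt Y) (KU.hf f q) ε₁ β η := by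
  obtain ⟨K, hK1, hKb⟩ := rho_bd f hf.ne_zero
  obtain ⟨Y1, hM⟩ := mer_of_avg (fun p => (rho f p : ℝ)) (avg_rho f hf hd) ε₁ β (η / 2) hε₁ hβ
    (by linarith)
  have ev : ∀ᶠ Y : ℕ in atTop, |lam| / ε₁ * (2 * K / η) + 1 ≤ (Y : ℝ) ^ ε₁ :=
    (tendsto_natCast_atTop_atTop (R := ℝ)).eventually
      ((tendsto_rpow_atTop hε₁).eventually_ge_atTop _)
  obtain ⟨Y2, hY2⟩ := eventually_atTop.1 (ev.and (eventually_ge_atTop 2))
  refine ⟨max Y1 Y2, fun Y hY q hq1 hqY => ?_⟩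
  obtain ⟨e1, e2⟩ := hY2 Y ((le_max_right _ _).trans hY)
  intro a b ha hab hb
  have h1 := hM Y ((le_max_left _ _).trans hY) a b ha hab hb
  simp only at h1
  set F := (pr Y ε₁ β).filter (fun p => a ≤ tt Y p ∧ tt Y p < b) with hF
  have hK0 : (0 : ℝ) ≤ K := Nat.cast_nonneg _
  have hpY : ∀ p ∈ F, p.Prime ∧ (Y : ℝ) ^ ε₁ ≤ p := by
    intro p hp
    rw [hF, mem_filter, mem_pr'] at hp
    refine ⟨hp.1.2.1, ?_⟩
    rw [tt_mul_log Y e2 p hp.1.2.1.pos]
    have hY1 : (1 : ℝ) < Y := by exact_mod_cast e2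
    exact Real.rpow_le_rpow_of_exponent_le hY1.le hp.1.2.2.1
  have hdiff : ∑ p ∈ F, (rho f p : ℝ) / p - ∑ p ∈ F, KU.hf f q p =
      ∑ p ∈ F.filter (fun p => p ∣ q), (rho f p : ℝ) / p := by
    have h9 : ∑ p ∈ F.filter (fun p => p ∣ q), (rho f p : ℝ) / p =
        ∑ p ∈ F, (if p ∣ q then (rho f p : ℝ) / p else 0) := sum_filter _ _
    rw [h9, ← sum_sub_distrib]
    apply sum_congr rfl
    intro p _
    unfold KU.hf
    split_ifs <;> simp
  have hYe : 0 < (Y : ℝ) ^ ε₁ := by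
    have : (0 : ℝ) < Y := by exact_mod_cast (by omega : 0 < Y)
    positivity
  have h2 : ∑ p ∈ F.filter (fun p => p ∣ q), (rho f p : ℝ) / p ≤ η / 2 := by
    have h3 : ∑ p ∈ F.filter (fun p => p ∣ q), (rho f p : ℝ) / p ≤
        ∑ p ∈ F.filter (fun p => p ∣ q), K / (Y : ℝ) ^ ε₁ := by
      apply sum_le_sum
      intro p hp
      have h10 := hpY p (mem_filter.1 hp).1
      exact div_le_div₀ hK0 (by exact_mod_cast hKb p h10.1) hYe h10.2
    rw [sum_const, nsmul_eq_mul] at h3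
    have h4 := few_large Y q e2 hq1 ε₁ lam hε₁ hqY (F.filter (fun p => p ∣ q)) (by
      intro p hp
      rw [mem_filter] at hp
      exact ⟨hp.2, (hpY p hp.1).1, (hpY p hp.1).2⟩)
    have h5 : lam / ε₁ ≤ |lam| / ε₁ := div_le_div_of_nonneg_right (le_abs_self _) hε₁.le
    refine h3.trans ?_
    rw [mul_div_assoc', div_le_iff₀ hYe]
    have h6 : |lam| / ε₁ * (2 * K / η) ≤ (Y : ℝ) ^ ε₁ := by linarith
    calc ((F.filter (fun p => p ∣ q)).card : ℝ) * K ≤ |lam| / ε₁ * K :=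
          mul_le_mul_of_nonneg_right (h4.trans h5) hK0
      _ = η / 2 * (|lam| / ε₁ * (2 * K / η)) := by field_simp
      _ ≤ η / 2 * (Y : ℝ) ^ ε₁ := mul_le_mul_of_nonneg_left h6 (by linarith)
  have h3 : 0 ≤ ∑ p ∈ F.filter (fun p => p ∣ q), (rho f p : ℝ) / p := sum_nonneg fun p _ => by positivity
  have h4 := abs_le.1 h1
  rw [abs_le]
  constructor <;> linarith [h4.1, h4.2]

end Pool.Agent.Y677.KU
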