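import Pool.Agent.Y677.KU.ApU

set_option autoImplicit false

/-!
# Values of an irreducible polynomial on arithmetic progressions: the sieve product and Kuhn's weights
-/

open Polynomial Finset Filter Topology

namespace Pool.Agent.Y677.KU

open Pool.Agent.W23.DC Pool.Agent.Y882
open Pool.Agent.H474R2.PG (rho)
open Pool.Agent.W123.RU Pool.Agent.W123.RU.Poly
open Pool.Agent.W123.RP Pool.Agent.H373R2.T7

/-- the sieve product over the primes up to `z` that do not divide `q` -/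
noncomputable def Vf (f : ℤ[X]) (q z : ℕ) : ℝ := ∏ p ∈ pz z, (1 - hf f q p)

lemma rho_le_self (f : ℤ[X]) (p : ℕ) : rho f p ≤ p := by
  unfold rho
  refine (card_filter_le _ _).trans ?_
  rw [card_range]

lemma hh_01 (f : ℤ[X]) (p : ℕ) (hp : p.Prime) : 0 ≤ hh f p ∧ hh f p ≤ 1 := by
  have hp0 : (0 : ℝ) < p := by exact_mod_cast hp.pos
  unfold hh
  refine ⟨by positivity, ?_⟩
  rw [div_le_one hp0]
  exact_mod_cast rho_le_self f p

lemma hf_01 (f : ℤ[X]) (q p : ℕ) (hp : p.Prime) : 0 ≤ hf f q p ∧ hf f q p ≤ hh f p := by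
  have h := hh_01 f p hp
  unfold hf
  split_ifs
  · exact ⟨le_rfl, h.1⟩
  · exact ⟨h.1, le_rfl⟩

lemma fac_hf (f : ℤ[X]) (q p : ℕ) (hp : p.Prime) : 0 ≤ 1 - hf f q p ∧ 1 - hf f q p ≤ 1 := by
  have h1 := hf_01 f q p hp
  have h2 := hh_01 f p hp
  constructor <;> linarith [h1.1, h1.2, h2.1, h2.2]

/-- the root set is not everything -/
lemma rho_lt (f : ℤ[X]) (hf : Poly.Sys (fun _ : Fin 1 => f)) (p : ℕ) (hp : p.Prime) : rho f p < p := by
  obtain ⟨m, hm⟩ := hf.adm p hp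
  have hm0 := hm 0
  have h1 : ¬ (p : ℤ) ∣ f.eval ((m % p : ℕ) : ℤ) := fun h => hm0 ((per1 f p m).2 h)
  unfold rho
  have h2 : (range p).filter (fun a : ℕ => (p : ℤ) ∣ f.eval (a : ℤ)) ⊆ (range p).erase (m % p) := by
    intro a ha
    rw [mem_filter] at ha
    rw [mem_erase]
    refine ⟨?_, ha.1⟩
    rintro rfl
    exact h1 ha.2
  refine (card_le_card h2).trans_lt ?_
  rw [card_erase_of_mem (mem_range.2 (Nat.mod_lt _ hp.pos)), card_range]
  have := hp.pos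
  omega

lemma fac_pos (f : ℤ[X]) (hs : Poly.Sys (fun _ : Fin 1 => f)) (p : ℕ) (hp : p.Prime) :
    0 < 1 - hh f p := by
  have hp0 : (0 : ℝ) < p := by exact_mod_cast hp.pos
  have h : hh f p < 1 := by
    unfold hh
    rw [div_lt_one hp0]
    exact_mod_cast rho_lt f hs p hp
  linarith

lemma Vf_pos (f : ℤ[X]) (hs : Poly.Sys (fun _ : Fin 1 => f)) (q z : ℕ) : 0 < Vf f q z := by
  unfold Vf
  apply Finset.prod_pos
  intro p hp
  have hpp := (mem_pz.1 hp).2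
  have h1 := fac_pos f hs p hpp
  have h2 := (hf_01 f q p hpp).2
  linarith

lemma pz_mono {z z' : ℕ} (h : z ≤ z') : pz z ⊆ pz z' := by
  intro p hp
  rw [mem_pz] at hp ⊢
  exact ⟨hp.1.trans h, hp.2⟩

/-- a product over more primes is smaller -/
lemma prod_anti (f : ℤ[X]) (q : ℕ) (S T : Finset ℕ) (hST : S ⊆ T) (hT : ∀ p ∈ T, p.Prime) :
    ∏ p ∈ T, (1 - hf f q p) ≤ ∏ p ∈ S, (1 - hf f q p) := by
  rw [← prod_sdiff hST]
  have h1 : ∏ p ∈ T \ S, (1 - hf f q p) ≤ 1 := by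
    apply Finset.prod_le_one
    · intro p hp
      exact (fac_hf f q p (hT p (mem_sdiff.1 hp).1)).1
    · intro p hp
      exact (fac_hf f q p (hT p (mem_sdiff.1 hp).1)).2
  have h2 : 0 ≤ ∏ p ∈ S, (1 - hf f q p) := by
    apply Finset.prod_nonneg
    intro p hp
    exact (fac_hf f q p (hT p (hST hp))).1
  calc _ ≤ 1 * ∏ p ∈ S, (1 - hf f q p) := mul_le_mul_of_nonneg_right h1 h2
    _ = _ := one_mul _

lemma Vf_anti (f : ℤ[X]) (q z z' : ℕ) (h : z ≤ z') : Vf f q z' ≤ Vf f q z :=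
  prod_anti f q _ _ (pz_mono h) (fun _ hp => (mem_pz.1 hp).2)

lemma Vf_one (f : ℤ[X]) (z : ℕ) : Vf f 1 z = ∏ p ∈ pz z, (1 - hh f p) := by
  unfold Vf
  apply prod_congr rfl
  intro p hp
  unfold hf
  rw [if_neg (fun h => (mem_pz.1 hp).2.one_lt.ne' (Nat.dvd_one.1 h))]
  rfl

/-- two-sided bounds, no modulus -/
lemma V1_bounds (f : ℤ[X]) (hf : Poly.Sys (fun _ : Fin 1 => f)) : ∃ v Cv : ℝ, 0 < v ∧ 0 < Cv ∧
    ∀ z : ℕ, 3 ≤ z → v / Real.log z ≤ Vf f 1 z ∧ Vf f 1 z ≤ Cv / Real.log z := by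
  classical
  obtain ⟨v, Cv, hv, hCv, hV⟩ := V_bounds (fun _ : Fin 1 => f) hf
  refine ⟨v, Cv, hv, hCv, fun z hz => ?_⟩
  have h1 := hV z hz
  rw [Fintype.card_fin, pow_one] at h1
  have hnu : ∀ p : ℕ, nuB (Q (fun _ : Fin 1 => f)) p = rho f p := by
    intro p
    unfold nuB rho
    congr 1
    apply filter_congr
    intro r _
    unfold Q
    simp
  have h2 : Vq (Q (fun _ : Fin 1 => f)) z = Vf f 1 z := by
    rw [Vf_one]
    unfold Vq
    apply prod_congr rfl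
    intro p _
    rw [hnu]
    rfl
  rwa [h2] at h1

/-- lower bound, all moduli -/
lemma Vf_ge_one (f : ℤ[X]) (q z : ℕ) : Vf f 1 z ≤ Vf f q z := by
  rw [Vf_one]
  unfold Vf
  apply Finset.prod_le_prod
  · intro p hp
    have := hh_01 f p (mem_pz.1 hp).2
    linarith [this.2]
  · intro p hp
    have := hf_01 f q p (mem_pz.1 hp).2
    linarith [this.2]

/-- change of level -/
lemma Vf_ratio (f : ℤ[X]) (hs : Poly.Sys (fun _ : Fin 1 => f)) : ∃ C : ℝ, 0 < C ∧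
    ∀ q z x : ℕ, 3 ≤ z → z ≤ x → ∀ A : ℝ, Real.log x ≤ A * Real.log z →
      Vf f q z ≤ C * A * Vf f q x := by
  obtain ⟨v, Cv, hv, hCv, hV⟩ := V1_bounds f hs
  refine ⟨Cv / v, by positivity, fun q z x hz hzx A hA => ?_⟩
  have hz3 : (3 : ℝ) ≤ z := by exact_mod_cast hz
  have hlz : 0 < Real.log z := Real.log_pos (by linarith)
  have hlx : Real.log z ≤ Real.log x := Real.log_le_log (by linarith) (by exact_mod_cast hzx)
  have hlx0 : 0 < Real.log x := by linarith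
  have hA0 : 0 ≤ A := by
    by_contra hcon
    rw [not_le] at hcon
    nlinarith
  have h1 : Vf f q x = (∏ p ∈ pz x \ pz z, (1 - hf f q p)) * Vf f q z := by
    unfold Vf
    rw [prod_sdiff (pz_mono hzx)]
  have h2 : Vf f 1 x = (∏ p ∈ pz x \ pz z, (1 - hh f p)) * Vf f 1 z := by
    rw [Vf_one, Vf_one, prod_sdiff (pz_mono hzx)]
  have h3 : ∏ p ∈ pz x \ pz z, (1 - hh f p) ≤ ∏ p ∈ pz x \ pz z, (1 - hf f q p) := by
    apply Finset.prod_le_prod
    · intro p hp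
      have := hh_01 f p (mem_pz.1 (mem_sdiff.1 hp).1).2
      linarith [this.2]
    · intro p hp
      have := hf_01 f q p (mem_pz.1 (mem_sdiff.1 hp).1).2
      linarith [this.2]
  have h4 := (hV x (hz.trans hzx)).1
  have h5 := (hV z hz).2
  have h6 : v / Real.log x ≤ (∏ p ∈ pz x \ pz z, (1 - hf f q p)) * (Cv / Real.log z) := by
    have h7 : 0 ≤ ∏ p ∈ pz x \ pz z, (1 - hf f q p) := Finset.prod_nonneg fun p hp =>
      (fac_hf f q p (mem_pz.1 (mem_sdiff.1 hp).1).2).1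
    calc v / Real.log x ≤ Vf f 1 x := h4
      _ = (∏ p ∈ pz x \ pz z, (1 - hh f p)) * Vf f 1 z := h2
      _ ≤ (∏ p ∈ pz x \ pz z, (1 - hf f q p)) * Vf f 1 z :=
          mul_le_mul_of_nonneg_right h3 (Vf_pos f hs 1 z).le
      _ ≤ _ := mul_le_mul_of_nonneg_left h5 h7
  have h7 : 1 ≤ Cv / v * A * ∏ p ∈ pz x \ pz z, (1 - hf f q p) := by
    have h8 : 0 ≤ ∏ p ∈ pz x \ pz z, (1 - hf f q p) := Finset.prod_nonneg fun p hp =>
      (fac_hf f q p (mem_pz.1 (mem_sdiff.1 hp).1).2).1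
    rw [div_le_iff₀ hlx0] at h6
    have h9 : v * Real.log z ≤ (∏ p ∈ pz x \ pz z, (1 - hf f q p)) * Cv * (A * Real.log z) := by
      calc v * Real.log z ≤ ((∏ p ∈ pz x \ pz z, (1 - hf f q p)) * (Cv / Real.log z) * Real.log x) *
            Real.log z := mul_le_mul_of_nonneg_right h6 hlz.le
        _ = (∏ p ∈ pz x \ pz z, (1 - hf f q p)) * Cv * Real.log x := by
            field_simp
        _ ≤ _ := mul_le_mul_of_nonneg_left hA (by positivity)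
    have h10 : v ≤ (∏ p ∈ pz x \ pz z, (1 - hf f q p)) * Cv * A := by
      have h11 : v * Real.log z ≤ (∏ p ∈ pz x \ pz z, (1 - hf f q p)) * Cv * A * Real.log z := by
        linarith
      exact le_of_mul_le_mul_right h11 hlz
    calc (1 : ℝ) = v / v := (div_self hv.ne').symm
      _ ≤ ((∏ p ∈ pz x \ pz z, (1 - hf f q p)) * Cv * A) / v := div_le_div_of_nonneg_right h10 hv.le
      _ = _ := by ring
  calc Vf f q z = 1 * Vf f q z := (one_mul _).symm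
    _ ≤ (Cv / v * A * ∏ p ∈ pz x \ pz z, (1 - hf f q p)) * Vf f q z :=
        mul_le_mul_of_nonneg_right h7 (Vf_pos f hs q z).le
    _ = Cv / v * A * Vf f q x := by rw [h1]; ring

open Classical in
/-- **Kuhn's weights for one polynomial on arithmetic progressions** -/
theorem lower_fc (f : ℤ[X]) (hs : Poly.Sys (fun _ : Fin 1 => f)) (ζ β lam : ℝ) (h4 : 1 / 4 ≤ ζ)
    (h2 : ζ < 1 / 2) (hζβ : ζ ≤ β) (hβ : ζ + β < 1) :
    ∃ c : ℝ, 0 < c ∧ ∀ᶠ L : ℕ in atTop, ∀ q a : ℕ, 1 ≤ q → (q : ℝ) ≤ (L : ℝ) ^ lam → Cop f a q →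
      ∀ M : ℕ, c * L * Vf f q L ≤
      (((Ioc M (M + L)).filter (fun n => (∀ p ∈ PZ L ζ, ¬ p ∣ G (fc f a q) n) ∧
        ((pr L ζ β).filter (fun p => p ∣ G (fc f a q) n)).card ≤ 1)).card : ℝ) := by
  have hf0 : f ≠ 0 := (hs.irr 0).ne_zero
  obtain ⟨τ, hτ1, hτ2⟩ : ∃ τ : ℝ, max (2 * ζ) (ζ + β) < τ ∧ τ < 1 :=
    exists_between (max_lt (by linarith) hβ)
  have hτa : 2 * ζ < τ := (le_max_left _ _).trans_lt hτ1
  have hτb : ζ + β < τ := (le_max_right _ _).trans_lt hτ1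
  obtain ⟨δ, hδ0, hδ⟩ : ∃ δ : ℝ, 0 < δ ∧ τ + δ = 1 - δ := ⟨(1 - τ) / 2, by linarith, by ring⟩
  have hδ1 : δ < 1 := by linarith
  obtain ⟨K, hK1, hKb⟩ := rho_bd f hf0
  obtain ⟨ε₁, η₁, c₀, hε₁, hε₁ζ, hη₁, hc₀, Y0, hkuhn⟩ := kuhn K τ ζ β δ (by linarith) hτa
    (by linarith) hτ2.le hζβ hτb hδ0
  obtain ⟨Y1, hM⟩ := mer_fc f (hs.irr 0) (hs.deg 0) ε₁ β η₁ lam hε₁ (by linarith) hη₁
  obtain ⟨C, hC1, hC⟩ := er_sumK K δ hδ0
  obtain ⟨v, Cv, hv, hCv, hV⟩ := V1_bounds f hs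
  refine ⟨c₀ / 2, by positivity, ?_⟩
  have ev := log_sq_le (12 * C) (c₀ * v) (δ ^ 2) (by positivity) (by positivity)
  filter_upwards [ev, eventually_ge_atTop (max (max Y0 Y1) 3)] with L e1 e2 q a hq1 hqL hcop X
  have hL3 : 3 ≤ L := (le_max_right _ _).trans e2
  have hLY0 : Y0 ≤ L := (le_max_left _ _).trans ((le_max_left _ _).trans e2)
  have hLY1 : Y1 ≤ L := (le_max_right _ _).trans ((le_max_left _ _).trans e2)
  have hL3r : (3 : ℝ) ≤ L := by exact_mod_cast hL3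
  have hL0 : (0 : ℝ) < L := by linarith
  have hl0 : 0 < Real.log L := Real.log_pos (by linarith)
  have hKb' : ∀ p : ℕ, p.Prime → rho (fc f a q) p ≤ K := fun p hp =>
    (rho_fc_le f a q p hcop hp).trans (hKb p hp)
  have hM' : Mer (pr L ε₁ β) (tt L) (hh (fc f a q)) ε₁ β η₁ := by
    intro a' b' g1 g2 g3
    have g4 := hM L hLY1 q hq1 hqL a' b' g1 g2 g3
    have g5 : ∑ p ∈ (pr L ε₁ β).filter (fun p => a' ≤ tt L p ∧ tt L p < b'), hh (fc f a q) p =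
        ∑ p ∈ (pr L ε₁ β).filter (fun p => a' ≤ tt L p ∧ tt L p < b'), hf f q p :=
      sum_congr rfl fun p hp => hh_fc f a q p hcop (mem_pr'.1 (mem_filter.1 hp).1).2.1
    rw [g5]
    exact g4
  have hcond : Cond K L ε₁ β η₁ (hh (fc f a q)) := cond_hh (fc f a q) K hKb' L ε₁ β η₁ hM'
  have h5 := hkuhn L hLY0 (Ioc X (X + L)) (G (fc f a q)) L (hh (fc f a q)) (Nat.cast_nonneg _) hcond
  refine le_trans ?_ h5
  have h6 : Vf f q L ≤ ∏ p ∈ PZ L ε₁, (1 - hh (fc f a q) p) := by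
    have g1 : ∏ p ∈ PZ L ε₁, (1 - hh (fc f a q) p) = ∏ p ∈ PZ L ε₁, (1 - hf f q p) :=
      prod_congr rfl fun p hp => by rw [hh_fc f a q p hcop (mem_PZ.1 hp).2.1]
    rw [g1]
    apply prod_anti
    · intro p hp
      rw [mem_PZ] at hp
      exact mem_pz.2 ⟨hp.1.2, hp.2.1⟩
    · intro p hp
      exact (mem_pz.1 hp).2
  have h6' : v / Real.log L ≤ Vf f q L := (hV L hL3).1.trans (Vf_ge_one f q L)
  have h7 := hC (fc f a q) hKb' X L (PZ L β) ((L : ℝ) ^ (τ + δ)) (fun p hp => (mem_PZ.1 hp).2.1)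
    (Real.one_le_rpow (by linarith) (by linarith))
  have h8 : ((L : ℝ) ^ (τ + δ)) ^ (1 + δ) = L / (L : ℝ) ^ (δ ^ 2) := by
    rw [hδ, ← Real.rpow_mul hL0.le, show (1 - δ) * (1 + δ) = 1 - δ ^ 2 by ring,
      Real.rpow_sub hL0, Real.rpow_one]
  rw [h8] at h7
  have h9 : c₀ * L * Vf f q L ≤ c₀ * L * ∏ p ∈ PZ L ε₁, (1 - hh (fc f a q) p) :=
    mul_le_mul_of_nonneg_left h6 (by positivity)
  have h10 : 6 * Real.log L * ∑ T ∈ (PZ L β).powerset.filter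
      (fun T => ((∏ p ∈ T, p : ℕ) : ℝ) ≤ (L : ℝ) ^ (τ + δ)),
        Er (Ioc X (X + L)) (G (fc f a q)) L (hh (fc f a q)) T ≤
          6 * Real.log L * (C * (L / (L : ℝ) ^ (δ ^ 2))) :=
    mul_le_mul_of_nonneg_left h7 (by positivity)
  have h11 : 6 * Real.log L * (C * (L / (L : ℝ) ^ (δ ^ 2))) ≤ c₀ * v / 2 * L / Real.log L := by
    have hp : 0 < (L : ℝ) ^ (δ ^ 2) := by positivity
    rw [le_div_iff₀ hl0]
    calc 6 * Real.log L * (C * (L / (L : ℝ) ^ (δ ^ 2))) * Real.log L =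
          (12 * C * Real.log L ^ 2) * (L / 2 / (L : ℝ) ^ (δ ^ 2)) := by
          field_simp
          ring
      _ ≤ (c₀ * v * (L : ℝ) ^ (δ ^ 2)) * (L / 2 / (L : ℝ) ^ (δ ^ 2)) :=
          mul_le_mul_of_nonneg_right e1 (by positivity)
      _ = _ := by
          field_simp
  have h12 : c₀ * v / 2 * L / Real.log L ≤ c₀ / 2 * L * Vf f q L := by
    calc c₀ * v / 2 * L / Real.log L = c₀ / 2 * L * (v / Real.log L) := by ring
      _ ≤ _ := mul_le_mul_of_nonneg_left h6' (by positivity)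
  linarith

end Pool.Agent.Y677.KU
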