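import Pool.Agent.Y677.KU.Two

set_option autoImplicit false

/-!
# From universal weights to sifted sets: Kuhn's weights
-/

open Finset Filter

namespace Pool.Agent.Y677.KU

open Pool.Agent.W23.DC Pool.Agent.Y882

open Classical in
/-- the error term of the sieve problem -/
noncomputable def Er (S : Finset ℕ) (G : ℕ → ℕ) (X0 : ℝ) (h : ℕ → ℝ) (T : Finset ℕ) : ℝ :=
  |((S.filter (fun n => (∏ p ∈ T, p) ∣ G n)).card : ℝ) - X0 * ∏ p ∈ T, h p|

lemma mem_PZ {Y p : ℕ} {ζ : ℝ} : p ∈ PZ Y ζ ↔ (1 ≤ p ∧ p ≤ Y) ∧ p.Prime ∧ tt Y p < ζ := by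
  unfold PZ
  rw [mem_filter, mem_Icc]

lemma mem_pr' {Y p : ℕ} {u v : ℝ} :
    p ∈ pr Y u v ↔ (1 ≤ p ∧ p ≤ Y) ∧ p.Prime ∧ u ≤ tt Y p ∧ tt Y p < v := by
  unfold pr
  rw [mem_filter, mem_Icc]

open Classical in
lemma ind_prod (T : Finset ℕ) (hT : ∀ p ∈ T, p.Prime) (N : ℕ) :
    ∏ p ∈ T, (if p ∣ N then (1 : ℝ) else 0) = if (∏ p ∈ T, p) ∣ N then 1 else 0 := by
  rw [prod_ind]
  congr 1
  apply propext
  constructor
  · intro h
    exact Finset.prod_primes_dvd N (fun p hp => (hT p hp).prime) h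
  · intro h p hp
    exact (dvd_prod_of_mem (fun p => p) hp).trans h

open Classical in
/-- the sum of the weights over a set -/
lemma sum_VV (P : Finset ℕ) (hP : ∀ p ∈ P, p.Prime) (c : Finset ℕ → ℝ) (S : Finset ℕ) (G : ℕ → ℕ) :
    ∑ n ∈ S, VV P c (fun p => if p ∣ G n then 1 else 0) =
      ∑ T ∈ P.powerset, c T * ((S.filter (fun n => (∏ p ∈ T, p) ∣ G n)).card : ℝ) := by
  unfold VV
  rw [sum_comm]
  apply sum_congr rfl
  intro T hT
  rw [← mul_sum]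
  congr 1
  rw [card_filter]
  push_cast
  apply sum_congr rfl
  intro n _
  rw [ind_prod T (fun p hp => hP p (mem_powerset.1 hT hp))]

open Classical in
/-- lower bound for a sifted set -/
lemma sift_lower (P : Finset ℕ) (hP : ∀ p ∈ P, p.Prime) (c : Finset ℕ → ℝ) (C D : ℝ)
    (hc : ∀ T, |c T| ≤ C) (hD : ∀ T ⊆ P, c T ≠ 0 → ((∏ p ∈ T, p : ℕ) : ℝ) ≤ D)
    (hpt : ∀ N : ℕ, VV P c (fun p => if p ∣ N then 1 else 0) ≤ (if ∀ p ∈ P, ¬ p ∣ N then 1 else 0))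
    (S : Finset ℕ) (G : ℕ → ℕ) (X0 : ℝ) (h : ℕ → ℝ) :
    X0 * VV P c h - C * ∑ T ∈ P.powerset.filter (fun T => ((∏ p ∈ T, p : ℕ) : ℝ) ≤ D),
      Er S G X0 h T ≤ ((S.filter (fun n => ∀ p ∈ P, ¬ p ∣ G n)).card : ℝ) := by
  have h1 : ∑ n ∈ S, VV P c (fun p => if p ∣ G n then 1 else 0) ≤
      ((S.filter (fun n => ∀ p ∈ P, ¬ p ∣ G n)).card : ℝ) := by
    rw [card_filter]
    push_cast
    apply sum_le_sum
    intro n _
    exact hpt (G n)
  rw [sum_VV P hP] at h1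
  refine le_trans ?_ h1
  have h2 : ∀ T ∈ P.powerset, c T * (X0 * ∏ p ∈ T, h p) - C *
      (if ((∏ p ∈ T, p : ℕ) : ℝ) ≤ D then Er S G X0 h T else 0) ≤
      c T * ((S.filter (fun n => (∏ p ∈ T, p) ∣ G n)).card : ℝ) := by
    intro T hT
    by_cases hc0 : c T = 0
    · rw [hc0, zero_mul, zero_mul]
      have hC : 0 ≤ C := (abs_nonneg _).trans (hc T)
      have hE : 0 ≤ Er S G X0 h T := abs_nonneg _
      split_ifs
      · nlinarith
      · simp
    · rw [if_pos (hD T (mem_powerset.1 hT) hc0)]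
      have h3 : |c T * (((S.filter (fun n => (∏ p ∈ T, p) ∣ G n)).card : ℝ) - X0 * ∏ p ∈ T, h p)| ≤
          C * Er S G X0 h T := by
        rw [abs_mul]
        exact mul_le_mul_of_nonneg_right (hc T) (abs_nonneg _)
      have h4 := (abs_le.1 h3).1
      linarith
  have h5 := sum_le_sum h2
  refine le_trans (le_of_eq ?_) h5
  rw [sum_sub_distrib, ← mul_sum, sum_filter]
  congr 1
  unfold VV
  rw [mul_sum]
  apply sum_congr rfl
  intro T _
  ring

open Classical in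
/-- upper bound for the multiples of `q` in a sifted set -/
lemma sift_upper (P : Finset ℕ) (hP : ∀ p ∈ P, p.Prime) (q : ℕ) (hq : q.Prime) (hqP : q ∉ P)
    (c : Finset ℕ → ℝ) (D : ℝ)
    (hc : ∀ T, |c T| ≤ 1) (hD : ∀ T ⊆ P, c T ≠ 0 → ((∏ p ∈ T, p : ℕ) : ℝ) * q ≤ D)
    (hpt : ∀ N : ℕ, (if ∀ p ∈ P, ¬ p ∣ N then 1 else 0) ≤ VV P c (fun p => if p ∣ N then 1 else 0))
    (S : Finset ℕ) (G : ℕ → ℕ) (X0 : ℝ) (h : ℕ → ℝ) :
    ((S.filter (fun n => q ∣ G n ∧ ∀ p ∈ P, ¬ p ∣ G n)).card : ℝ) ≤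
    X0 * (h q * VV P c h) + ∑ T ∈ P.powerset.filter (fun T => ((∏ p ∈ T, p : ℕ) : ℝ) * q ≤ D),
      Er S G X0 h (insert q T) := by
  have h0 : S.filter (fun n => q ∣ G n ∧ ∀ p ∈ P, ¬ p ∣ G n) =
      (S.filter (fun n => q ∣ G n)).filter (fun n => ∀ p ∈ P, ¬ p ∣ G n) := by
    rw [filter_filter]
  have h1 : ((S.filter (fun n => q ∣ G n ∧ ∀ p ∈ P, ¬ p ∣ G n)).card : ℝ) ≤
      ∑ n ∈ S.filter (fun n => q ∣ G n), VV P c (fun p => if p ∣ G n then 1 else 0) := by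
    rw [h0, card_filter]
    push_cast
    apply sum_le_sum
    intro n _
    exact hpt (G n)
  rw [sum_VV P hP] at h1
  refine h1.trans ?_
  have hins : ∀ T ⊆ P, ∀ N : ℕ, ((q ∣ N ∧ (∏ p ∈ T, p) ∣ N) ↔ (∏ p ∈ insert q T, p) ∣ N) := by
    intro T hT N
    have hqT : q ∉ T := fun h => hqP (hT h)
    rw [prod_insert hqT]
    constructor
    · rintro ⟨h2, h3⟩
      apply Nat.Coprime.mul_dvd_of_dvd_of_dvd _ h2 h3
      apply Nat.Coprime.prod_right
      intro p hp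
      exact (Nat.coprime_primes hq (hP p (hT hp))).2 (fun h => hqT (h ▸ hp))
    · intro h2
      exact ⟨(Dvd.intro _ rfl).trans h2, (Dvd.intro_left _ rfl).trans h2⟩
  have h2 : ∀ T ∈ P.powerset,
      c T * (((S.filter (fun n => q ∣ G n)).filter (fun n => (∏ p ∈ T, p) ∣ G n)).card : ℝ) ≤
      c T * (X0 * (h q * ∏ p ∈ T, h p)) +
      (if ((∏ p ∈ T, p : ℕ) : ℝ) * q ≤ D then Er S G X0 h (insert q T) else 0) := by
    intro T hT
    rw [mem_powerset] at hT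
    have hqT : q ∉ T := fun h => hqP (hT h)
    have e1 : (S.filter (fun n => q ∣ G n)).filter (fun n => (∏ p ∈ T, p) ∣ G n) =
        S.filter (fun n => (∏ p ∈ insert q T, p) ∣ G n) := by
      rw [filter_filter]
      apply filter_congr
      intro n _
      exact hins T hT (G n)
    rw [e1]
    by_cases hc0 : c T = 0
    · rw [hc0, zero_mul, zero_mul]
      have hE : 0 ≤ Er S G X0 h (insert q T) := abs_nonneg _
      split_ifs
      · linarith
      · simp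
    · rw [if_pos (hD T hT hc0)]
      have h3 : |c T * (((S.filter (fun n => (∏ p ∈ insert q T, p) ∣ G n)).card : ℝ) -
          X0 * ∏ p ∈ insert q T, h p)| ≤ 1 * Er S G X0 h (insert q T) := by
        rw [abs_mul]
        exact mul_le_mul_of_nonneg_right (hc T) (abs_nonneg _)
      have h4 := (abs_le.1 h3).2
      have e2 : ∏ p ∈ insert q T, h p = h q * ∏ p ∈ T, h p := prod_insert hqT
      rw [e2] at h4
      linarith
  refine (sum_le_sum h2).trans (le_of_eq ?_)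
  rw [sum_add_distrib, sum_filter]
  congr 1
  unfold VV
  rw [mul_sum, mul_sum]
  apply sum_congr rfl
  intro T _
  ring

open Classical in
/-- Kuhn's weights, pointwise -/
lemma kuhn_point (P Q : Finset ℕ) (S : Finset ℕ) (G : ℕ → ℕ) :
    ((S.filter (fun n => ∀ p ∈ P, ¬ p ∣ G n)).card : ℝ) -
      1 / 2 * ∑ q ∈ Q, ((S.filter (fun n => q ∣ G n ∧ ∀ p ∈ P, ¬ p ∣ G n)).card : ℝ) ≤
    ((S.filter (fun n => (∀ p ∈ P, ¬ p ∣ G n) ∧ (Q.filter (fun q => q ∣ G n)).card ≤ 1)).card : ℝ) := by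
  have h1 : ∑ q ∈ Q, ((S.filter (fun n => q ∣ G n ∧ ∀ p ∈ P, ¬ p ∣ G n)).card : ℝ) =
      ∑ n ∈ S, (if ∀ p ∈ P, ¬ p ∣ G n then ((Q.filter (fun q => q ∣ G n)).card : ℝ) else 0) := by
    have : ∀ q ∈ Q, ((S.filter (fun n => q ∣ G n ∧ ∀ p ∈ P, ¬ p ∣ G n)).card : ℝ) =
        ∑ n ∈ S, if q ∣ G n ∧ ∀ p ∈ P, ¬ p ∣ G n then (1 : ℝ) else 0 := by
      intro q _
      rw [card_filter]
      push_cast
      rfl
    rw [sum_congr rfl this, sum_comm]
    apply sum_congr rfl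
    intro n _
    split_ifs with h
    · rw [card_filter]
      push_cast
      apply sum_congr rfl
      intro q _
      by_cases hq : q ∣ G n
      · rw [if_pos ⟨hq, h⟩, if_pos hq]
      · rw [if_neg (fun h2 => hq h2.1), if_neg hq]
    · apply sum_eq_zero
      intro q _
      rw [if_neg (fun h2 => h h2.2)]
  rw [h1, card_filter, card_filter]
  push_cast
  rw [mul_sum, ← sum_sub_distrib]
  apply sum_le_sum
  intro n _
  by_cases h : ∀ p ∈ P, ¬ p ∣ G n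
  · rw [if_pos h, if_pos h]
    by_cases h2 : (Q.filter (fun q => q ∣ G n)).card ≤ 1
    · rw [if_pos ⟨h, h2⟩]
      have : (0 : ℝ) ≤ ((Q.filter (fun q => q ∣ G n)).card : ℝ) := Nat.cast_nonneg _
      linarith
    · rw [if_neg (fun h3 => h2 h3.2)]
      have h3 : 2 ≤ (Q.filter (fun q => q ∣ G n)).card := by omega
      have h4 : (2 : ℝ) ≤ ((Q.filter (fun q => q ∣ G n)).card : ℝ) := by exact_mod_cast h3
      linarith
  · rw [if_neg h, if_neg h, if_neg (fun h2 => h h2.1)]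
    simp

lemma tt_mul_log (Y : ℕ) (hY : 2 ≤ Y) (q : ℕ) (hq : 0 < q) : (q : ℝ) = (Y : ℝ) ^ (tt Y q) := by
  have hY2 : (2 : ℝ) ≤ Y := by exact_mod_cast hY
  have hlY : 0 < Real.log Y := Real.log_pos (by linarith)
  have hq0 : (0 : ℝ) < q := by exact_mod_cast hq
  unfold tt
  rw [Real.rpow_def_of_pos (by linarith), mul_div_cancel₀ _ hlY.ne', Real.exp_log hq0]

end Pool.Agent.Y677.KU
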