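import Pool.Agent.Y677.KU.Count

set_option autoImplicit false

/-!
# Kuhn's weighted linear sieve

For a sifting problem of dimension one with level of distribution `Y ^ (τ + δ)`: many elements have no
prime factor below `Y ^ ζ` and at most one prime factor in `[Y ^ ζ, Y ^ β)`, if `ζ + β < τ`,
`2 ζ < τ ≤ 4 ζ`.
-/

open Finset Filter

namespace Pool.Agent.Y677.KU

open Pool.Agent.W23.DC Pool.Agent.Y882

lemma integral_kuhn (τ ζ β : ℝ) (hζ : 0 < ζ) (hζβ : ζ ≤ β) (hβτ : β < τ) :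
    ∫ x in ζ..β, (1 / (τ - x)) / x =
      1 / τ * (Real.log β - Real.log (τ - β)) - 1 / τ * (Real.log ζ - Real.log (τ - ζ)) := by
  have hτ : 0 < τ := by linarith
  have hmem : ∀ x ∈ Set.uIcc ζ β, 0 < x ∧ 0 < τ - x := by
    intro x hx
    rw [Set.uIcc_of_le hζβ] at hx
    exact ⟨lt_of_lt_of_le hζ hx.1, by linarith [hx.2]⟩
  apply intervalIntegral.integral_eq_sub_of_hasDerivAt
    (f := fun x => 1 / τ * (Real.log x - Real.log (τ - x)))
  · intro x hx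
    obtain ⟨h1, h2⟩ := hmem x hx
    have d1 : HasDerivAt (fun x : ℝ => Real.log x) (x⁻¹) x := Real.hasDerivAt_log h1.ne'
    have d2 : HasDerivAt (fun x : ℝ => τ - x) (-1) x := by
      simpa using (hasDerivAt_id x).const_sub τ
    have d3 : HasDerivAt (fun x : ℝ => Real.log (τ - x)) (-1 / (τ - x)) x := d2.log h2.ne'
    have d4 := (d1.sub d3).const_mul (1 / τ)
    refine d4.congr_deriv ?_
    have h3 : τ ≠ 0 := hτ.ne'
    have h4 : x ≠ 0 := h1.ne'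
    have h5 : τ - x ≠ 0 := h2.ne'
    field_simp
    ring
  · apply ContinuousOn.intervalIntegrable
    apply ContinuousOn.div
    · apply ContinuousOn.div continuousOn_const (continuousOn_const.sub continuousOn_id)
      intro x hx
      exact (hmem x hx).2.ne'
    · exact continuousOn_id
    · intro x hx
      exact (hmem x hx).1.ne'

lemma PZ_mono (Y : ℕ) {ζ β : ℝ} (h : ζ ≤ β) : PZ Y ζ ⊆ PZ Y β := by
  intro p hp
  rw [mem_PZ] at hp ⊢
  exact ⟨hp.1, hp.2.1, hp.2.2.trans_le h⟩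

lemma Mer_mono {Y : ℕ} {h : ℕ → ℝ} {ε₁ ζ β η η' : ℝ} (hM : Mer (pr Y ε₁ β) (tt Y) h ε₁ β η)
    (hζβ : ζ ≤ β) (hη : η ≤ η') : Mer (pr Y ε₁ ζ) (tt Y) h ε₁ ζ η' := by
  classical
  intro a b ha hab hb
  have h1 := hM a b ha hab (hb.trans hζβ)
  have h2 : (pr Y ε₁ ζ).filter (fun p => a ≤ tt Y p ∧ tt Y p < b) =
      (pr Y ε₁ β).filter (fun p => a ≤ tt Y p ∧ tt Y p < b) := by
    ext p
    rw [mem_filter, mem_filter, mem_pr', mem_pr']
    constructor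
    · rintro ⟨⟨h3, h4, h5, h6⟩, h7⟩
      exact ⟨⟨h3, h4, h5, h6.trans_le hζβ⟩, h7⟩
    · rintro ⟨⟨h3, h4, h5, h6⟩, h7⟩
      exact ⟨⟨h3, h4, h5, h7.2.trans_le hb⟩, h7⟩
  rw [h2]
  exact h1.trans hη

lemma Cond_mono {κ Y : ℕ} {h : ℕ → ℝ} {ε₁ ζ β η η' : ℝ} (hC : Cond κ Y ε₁ β η h)
    (hζβ : ζ ≤ β) (hη : η ≤ η') : Cond κ Y ε₁ ζ η' h where
  nn := fun p hp => hC.nn p (PZ_mono Y hζβ hp)
  le1 := hC.le1
  leκ := hC.leκ
  mer := Mer_mono hC.mer hζβ hη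

open Classical in
/-- **Kuhn's weighted linear sieve.** -/
theorem kuhn (κ : ℕ) (τ ζ β δ : ℝ) (hζ : 0 < ζ) (h2 : 2 * ζ < τ) (h4 : τ ≤ 4 * ζ) (hτ : τ ≤ 1)
    (hζβ : ζ ≤ β) (hβ : ζ + β < τ) (hδ : 0 < δ) :
    ∃ ε₁ η₁ c₀ : ℝ, 0 < ε₁ ∧ ε₁ ≤ ζ ∧ 0 < η₁ ∧ 0 < c₀ ∧ ∃ Y0 : ℕ, ∀ Y : ℕ, Y0 ≤ Y →
      ∀ (S : Finset ℕ) (G : ℕ → ℕ) (X0 : ℝ) (h : ℕ → ℝ), 0 ≤ X0 → Cond κ Y ε₁ β η₁ h →
      c₀ * X0 * ∏ p ∈ PZ Y ε₁, (1 - h p) - 6 * Real.log Y *
        ∑ T ∈ (PZ Y β).powerset.filter (fun T => ((∏ p ∈ T, p : ℕ) : ℝ) ≤ (Y : ℝ) ^ (τ + δ)),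
          Er S G X0 h T ≤
      ((S.filter (fun n => (∀ p ∈ PZ Y ζ, ¬ p ∣ G n) ∧
        ((pr Y ζ β).filter (fun q => q ∣ G n)).card ≤ 1)).card : ℝ) := by
  obtain ⟨A0, F, f, hSF⟩ := Pool.Agent.W366.DC.SFX
  have hA0 := hSF.pos
  have hτ0 : 0 < τ := by linarith
  have hβ0 : 0 < β := by linarith
  have hβτ : β < τ := by linarith
  have hζτ : ζ < τ := by linarith
  set s : ℝ := τ / ζ with hs
  have hs2 : 2 < s := by rw [hs, lt_div_iff₀ hζ]; exact h2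
  have hs4 : s ≤ 4 := by rw [hs, div_le_iff₀ hζ]; exact h4
  have hfs : f s = A0 * Real.log (s - 1) / s := hSF.f4 s hs2.le hs4
  have hf : 0 < f s := by
    rw [hfs]
    have h5 : 0 < Real.log (s - 1) := Real.log_pos (by linarith)
    positivity
  have hs1 : s - 1 = (τ - ζ) / ζ := by
    rw [hs]
    field_simp
  have hlogs : Real.log (s - 1) = Real.log (τ - ζ) - Real.log ζ := by
    rw [hs1, Real.log_div (by linarith) hζ.ne']
  -- the main constant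
  set Lb : ℝ := Real.log β - Real.log (τ - β) with hLb
  set Lz : ℝ := Real.log (τ - ζ) - Real.log ζ with hLz
  have hLL : Lb < Lz := by
    rw [hLb, hLz, ← Real.log_div hβ0.ne' (by linarith), ← Real.log_div (by linarith) hζ.ne']
    apply Real.log_lt_log
    · exact div_pos hβ0 (by linarith)
    · rw [div_lt_div_iff₀ (by linarith) hζ]
      nlinarith
  set c₁ : ℝ := A0 * ζ / τ * ((Lz - Lb) / 2) with hc₁
  have hc₁0 : 0 < c₁ := by
    rw [hc₁]
    have : 0 < (Lz - Lb) / 2 := by linarith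
    positivity
  have hfc : f s = A0 * ζ / τ * Lz := by
    rw [hfs, hlogs, hs]
    field_simp
  have hlogβζ : 0 ≤ Real.log (β / ζ) := Real.log_nonneg (by rw [le_div_iff₀ hζ]; linarith)
  set η : ℝ := c₁ / (4 * (2 + Real.log (β / ζ))) with hη
  have hη0 : 0 < η := by rw [hη]; positivity
  have hηb : η * (2 + Real.log (β / ζ)) = c₁ / 4 := by
    rw [hη]
    field_simp
  obtain ⟨ε₁, η₁, hε0, hεζ, -, hη₁, Y1, HY⟩ := two κ τ ζ δ ζ η hζ h2 hτ hδ hζ hη0 hSF hf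
  have hlogε : 0 ≤ Real.log (1 / ε₁) := Real.log_nonneg (by
    rw [le_div_iff₀ hε0]; linarith)
  set κ' : ℝ := c₁ / (2 * A0 * ζ * (2 * Real.log (1 / ε₁) + 2)) with hκ'
  have hκ0 : 0 < κ' := by rw [hκ']; positivity
  have hκb : A0 * ζ * (κ' * (2 * Real.log (1 / ε₁) + 2)) = c₁ / 2 := by
    rw [hκ']
    field_simp
  obtain ⟨η₂, hη₂, HMI⟩ := Pool.Agent.W505.DC.MI ε₁ (κ' * ζ ^ 2) κ' (1 / ζ) hε0 (by linarith)
    (by positivity) hκ0 (by positivity)
  refine ⟨ε₁, min (min η₁ η₂) 1, ε₁ / ζ * (c₁ / 2), hε0, hεζ, lt_min (lt_min hη₁ hη₂) one_pos,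
    by positivity, max Y1 2, ?_⟩
  intro Y hY S G X0 h hX0 hC
  have hYY1 : Y1 ≤ Y := (le_max_left _ _).trans hY
  have hY2 : 2 ≤ Y := (le_max_right _ _).trans hY
  have hY2r : (2 : ℝ) ≤ Y := by exact_mod_cast hY2
  have hlY : 0 < Real.log Y := Real.log_pos (by linarith)
  have hCζ : Cond κ Y ε₁ ζ η₁ h :=
    Cond_mono hC hζβ ((min_le_left _ _).trans (min_le_left _ _))
  have hMβ : Mer (pr Y ε₁ β) (tt Y) h ε₁ β η₂ :=
    Mer_mono hC.mer le_rfl ((min_le_left _ _).trans (min_le_right _ _))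
  have hM1 : Mer (pr Y ε₁ β) (tt Y) h ε₁ β 1 := Mer_mono hC.mer le_rfl (min_le_right _ _)
  have hnn : ∀ p ∈ pr Y ε₁ β, 0 ≤ h p := by
    intro p hp
    rw [mem_pr'] at hp
    exact hC.nn p (mem_PZ.2 ⟨hp.1, hp.2.1, hp.2.2.2⟩)
  obtain ⟨⟨c, hc1, hc2, hc3, hc4⟩, HU⟩ := HY Y hYY1
  have hPp : ∀ p ∈ PZ Y ζ, p.Prime := fun p hp => (mem_PZ.1 hp).2.1
  set V : ℝ := ∏ p ∈ PZ Y ε₁, (1 - h p) with hV
  have hV0 : 0 ≤ V := prod_nonneg fun p hp => by
    have := hC.le1 p hp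
    linarith
  set Q : Finset ℕ := pr Y ζ β with hQ
  set D : ℝ := (Y : ℝ) ^ (τ + δ) with hD
  -- the first term
  have hS1 := sift_lower (PZ Y ζ) hPp c (5 * Real.log Y) D hc1 hc2 hc3 S G X0 h
  have hS1' : X0 * (ε₁ / ζ * (f s - η) * V) ≤ X0 * VV (PZ Y ζ) c h :=
    mul_le_mul_of_nonneg_left (hc4 h hCζ) hX0
  -- the terms for the primes in Q
  have hSq : ∀ q ∈ Q, ((S.filter (fun n => q ∣ G n ∧ ∀ p ∈ PZ Y ζ, ¬ p ∣ G n)).card : ℝ) ≤
      X0 * (h q * (ε₁ / ζ * (F ((τ - tt Y q) / ζ) + η) * V)) +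
        ∑ T ∈ (PZ Y ζ).powerset.filter (fun T => ((∏ p ∈ T, p : ℕ) : ℝ) * q ≤ D),
          Er S G X0 h (insert q T) := by
    intro q hq
    rw [hQ, mem_pr'] at hq
    obtain ⟨hq1, hq2, hq3, hq4⟩ := hq
    obtain ⟨cq, u1, u2, u3, u4⟩ := HU (τ - tt Y q) (by linarith) (by linarith)
    have hqP : q ∉ PZ Y ζ := by
      rw [mem_PZ]
      rintro ⟨-, -, h5⟩
      linarith
    have h5 := sift_upper (PZ Y ζ) hPp q hq2 hqP cq D u1 (by
      intro T hT hne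
      have h6 := u2 T hT hne
      rw [tt_mul_log Y hY2 q hq2.pos, hD]
      calc ((∏ p ∈ T, p : ℕ) : ℝ) * (Y : ℝ) ^ (tt Y q)
          ≤ (Y : ℝ) ^ (τ - tt Y q + δ) * (Y : ℝ) ^ (tt Y q) :=
            mul_le_mul_of_nonneg_right h6 (by positivity)
        _ = (Y : ℝ) ^ (τ + δ) := by
            rw [← Real.rpow_add (by linarith)]
            congr 1
            ring) u3 S G X0 h
    refine h5.trans (add_le_add_left ?_ _)
    apply mul_le_mul_of_nonneg_left _ hX0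
    apply mul_le_mul_of_nonneg_left (u4 h hCζ)
    exact hC.nn q (mem_PZ.2 ⟨hq1, hq2, hq4⟩)
  -- the sum of the main terms over Q
  have hQe : (pr Y ε₁ β).filter (fun p => ζ ≤ tt Y p ∧ tt Y p < β) = Q := by
    ext p
    rw [mem_filter, hQ, mem_pr', mem_pr']
    constructor
    · rintro ⟨⟨h3, h4, h5, h6⟩, h7⟩
      exact ⟨h3, h4, h7.1, h6⟩
    · rintro ⟨h3, h4, h5, h6⟩
      exact ⟨⟨h3, h4, hεζ.trans h5, h6⟩, h5, h6⟩
  have hsumh : ∑ q ∈ Q, h q ≤ Real.log (β / ζ) + 1 := by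
    have h5 := hM1 ζ β hεζ hζβ le_rfl
    rw [hQe] at h5
    linarith [(abs_le.1 h5).2]
  have hsumI : ∑ q ∈ Q, h q * (1 / (τ - tt Y q)) ≤
      1 / τ * Lb + 1 / τ * Lz + κ' * (2 * Real.log (1 / ε₁) + 2) := by
    have h5 := HMI (pr Y ε₁ β) (tt Y) h β (by linarith) hnn hMβ ζ β (fun x => 1 / (τ - x)) hεζ hζβ
      le_rfl (by
        apply ContinuousOn.div continuousOn_const (continuousOn_const.sub continuousOn_id)
        intro x hx
        have h6 := hx.2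
        have h7 : τ - x ≠ 0 := by linarith
        exact h7) (by
        intro x hx
        have h6 : ζ ≤ τ - x := by linarith [hx.2]
        rw [abs_of_pos (one_div_pos.2 (by linarith))]
        exact one_div_le_one_div_of_le hζ h6) (by
        intro x hx y hy hxy
        have h6 : ζ ≤ τ - x := by linarith [hx.2]
        have h7 : ζ ≤ τ - y := by linarith [hy.2]
        have h8 : 1 / (τ - x) - 1 / (τ - y) = (x - y) / ((τ - x) * (τ - y)) := by
          have h9 : τ - x ≠ 0 := by linarith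
          have h10 : τ - y ≠ 0 := by linarith
          field_simp
          ring
        rw [h8, abs_div, abs_of_pos (show 0 < (τ - x) * (τ - y) by
          apply mul_pos <;> linarith), div_le_iff₀ (by apply mul_pos <;> linarith)]
        refine hxy.trans ?_
        apply mul_le_mul_of_nonneg_left _ hκ0.le
        rw [sq]
        exact mul_le_mul h6 h7 hζ.le (by linarith))
    rw [hQe, integral_kuhn τ ζ β hζ hζβ hβτ] at h5
    have h6 := (abs_le.1 h5).2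
    have h7 : 1 / τ * (Real.log ζ - Real.log (τ - ζ)) = - (1 / τ * Lz) := by
      rw [hLz]
      ring
    rw [h7] at h6
    linarith
  have hFq : ∀ q ∈ Q, F ((τ - tt Y q) / ζ) = A0 * ζ * (1 / (τ - tt Y q)) := by
    intro q hq
    rw [hQ, mem_pr'] at hq
    obtain ⟨hq1, hq2, hq3, hq4⟩ := hq
    rw [hSF.F3 _ (by rw [le_div_iff₀ hζ]; linarith) (by rw [div_le_iff₀ hζ]; linarith)]
    have h9 : τ - tt Y q ≠ 0 := by linarith
    field_simp
  have hmain : ∑ q ∈ Q, h q * (F ((τ - tt Y q) / ζ) + η) ≤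
      A0 * ζ / τ * (Lb + Lz) + c₁ / 2 + η * (Real.log (β / ζ) + 1) := by
    have h5 : ∑ q ∈ Q, h q * (F ((τ - tt Y q) / ζ) + η) =
        A0 * ζ * ∑ q ∈ Q, h q * (1 / (τ - tt Y q)) + η * ∑ q ∈ Q, h q := by
      rw [mul_sum, mul_sum, ← sum_add_distrib]
      apply sum_congr rfl
      intro q hq
      rw [hFq q hq]
      ring
    rw [h5]
    have h6 : A0 * ζ * ∑ q ∈ Q, h q * (1 / (τ - tt Y q)) ≤
        A0 * ζ * (1 / τ * Lb + 1 / τ * Lz + κ' * (2 * Real.log (1 / ε₁) + 2)) :=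
      mul_le_mul_of_nonneg_left hsumI (by positivity)
    have h7 : η * ∑ q ∈ Q, h q ≤ η * (Real.log (β / ζ) + 1) :=
      mul_le_mul_of_nonneg_left hsumh hη0.le
    have h8 : A0 * ζ * (1 / τ * Lb + 1 / τ * Lz + κ' * (2 * Real.log (1 / ε₁) + 2)) =
        A0 * ζ / τ * (Lb + Lz) + A0 * ζ * (κ' * (2 * Real.log (1 / ε₁) + 2)) := by
      field_simp
    rw [h8, hκb] at h6
    linarith
  -- the errors
  set 𝒯 : Finset (Finset ℕ) :=
    (PZ Y β).powerset.filter (fun T => ((∏ p ∈ T, p : ℕ) : ℝ) ≤ D) with h𝒯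
  have hEr0 : ∀ T, 0 ≤ Er S G X0 h T := fun T => abs_nonneg _
  have herr1 : ∑ T ∈ (PZ Y ζ).powerset.filter (fun T => ((∏ p ∈ T, p : ℕ) : ℝ) ≤ D),
      Er S G X0 h T ≤ ∑ T ∈ 𝒯, Er S G X0 h T := by
    apply sum_le_sum_of_subset_of_nonneg
    · intro T hT
      rw [mem_filter, mem_powerset] at hT
      rw [h𝒯, mem_filter, mem_powerset]
      exact ⟨hT.1.trans (PZ_mono Y hζβ), hT.2⟩
    · intro T _ _
      exact hEr0 T
  have herr2 : ∑ q ∈ Q, ∑ T ∈ (PZ Y ζ).powerset.filter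
      (fun T => ((∏ p ∈ T, p : ℕ) : ℝ) * q ≤ D), Er S G X0 h (insert q T) ≤
      ∑ T ∈ 𝒯, Er S G X0 h T := by
    rw [sum_sigma']
    have hinj : Set.InjOn (fun x : (Σ _ : ℕ, Finset ℕ) => insert x.1 x.2)
        (Q.sigma (fun q => (PZ Y ζ).powerset.filter
          (fun T => ((∏ p ∈ T, p : ℕ) : ℝ) * q ≤ D)) : Finset (Σ _ : ℕ, Finset ℕ)) := by
      rintro ⟨q, T⟩ hx ⟨q', T'⟩ hx' heq
      rw [mem_coe, mem_sigma, mem_filter, mem_powerset] at hx hx'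
      simp only at hx hx' heq
      have hout : ∀ a ∈ Q, a ∉ PZ Y ζ := by
        intro a ha h5
        rw [hQ, mem_pr'] at ha
        rw [mem_PZ] at h5
        linarith [h5.2.2, ha.2.2.1]
      have hqT : q ∉ T := fun h5 => hout q hx.1 (hx.2.1 h5)
      have hqT' : q' ∉ T' := fun h5 => hout q' hx'.1 (hx'.2.1 h5)
      have h5 : q ∈ insert q' T' := by
        rw [← heq]
        exact mem_insert_self _ _
      rw [mem_insert] at h5
      have h6 : q = q' := by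
        rcases h5 with h5 | h5
        · exact h5
        · exact absurd (hx'.2.1 h5) (hout q hx.1)
      subst h6
      have h7 : T = T' := by
        rw [← erase_insert hqT, heq, erase_insert hqT']
      rw [h7]
    rw [← sum_image (f := fun T => Er S G X0 h T) hinj]
    apply sum_le_sum_of_subset_of_nonneg
    · intro U hU
      rw [mem_image] at hU
      obtain ⟨⟨q, T⟩, hx, rfl⟩ := hU
      rw [mem_sigma, mem_filter, mem_powerset] at hx
      simp only at hx ⊢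
      obtain ⟨hq, hT, hle⟩ := hx
      rw [hQ, mem_pr'] at hq
      have hqT : q ∉ T := by
        intro h5
        have := hT h5
        rw [mem_PZ] at this
        linarith [this.2.2, hq.2.2.1]
      rw [h𝒯, mem_filter, mem_powerset]
      constructor
      · intro p hp
        rw [mem_insert] at hp
        rcases hp with rfl | hp
        · exact mem_PZ.2 ⟨hq.1, hq.2.1, hq.2.2.2⟩
        · exact PZ_mono Y hζβ (hT hp)
      · rw [prod_insert hqT]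
        push_cast at hle ⊢
        linarith
    · intro T _ _
      exact hEr0 T
  -- conclusion
  refine le_trans ?_ (kuhn_point (PZ Y ζ) Q S G)
  have hsum : ∑ q ∈ Q, ((S.filter (fun n => q ∣ G n ∧ ∀ p ∈ PZ Y ζ, ¬ p ∣ G n)).card : ℝ) ≤
      X0 * (ε₁ / ζ * V * ∑ q ∈ Q, h q * (F ((τ - tt Y q) / ζ) + η)) + ∑ T ∈ 𝒯, Er S G X0 h T := by
    refine (sum_le_sum hSq).trans ?_
    rw [sum_add_distrib]
    apply add_le_add (le_of_eq ?_) herr2
    rw [mul_sum, mul_sum]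
    apply sum_congr rfl
    intro q _
    ring
  have hE0 : 0 ≤ ∑ T ∈ 𝒯, Er S G X0 h T := sum_nonneg fun T _ => hEr0 T
  have hlog1 : 1 / 2 ≤ Real.log Y := by
    have h5 : Real.log 2 ≤ Real.log Y := Real.log_le_log (by norm_num) hY2r
    linarith [Real.log_two_gt_d9]
  have hbr : c₁ / 2 ≤ (f s - η) - 1 / 2 * (A0 * ζ / τ * (Lb + Lz) + c₁ / 2 +
      η * (Real.log (β / ζ) + 1)) := by
    have h5 : f s - 1 / 2 * (A0 * ζ / τ * (Lb + Lz)) = c₁ := by
      rw [hfc, hc₁]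
      ring
    have h6 : η + 1 / 2 * (η * (Real.log (β / ζ) + 1)) ≤ c₁ / 4 := by
      rw [← hηb]
      nlinarith
    linarith
  have hXV : 0 ≤ X0 * (ε₁ / ζ * V) := mul_nonneg hX0 (mul_nonneg (by positivity) hV0)
  have h10 : X0 * (ε₁ / ζ * V) * (c₁ / 2) ≤ X0 * (ε₁ / ζ * V) * ((f s - η) -
      1 / 2 * ∑ q ∈ Q, h q * (F ((τ - tt Y q) / ζ) + η)) := by
    apply mul_le_mul_of_nonneg_left _ hXV
    linarith
  have h11 : 5 * Real.log Y * ∑ T ∈ (PZ Y ζ).powerset.filter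
      (fun T => ((∏ p ∈ T, p : ℕ) : ℝ) ≤ D), Er S G X0 h T ≤
      5 * Real.log Y * ∑ T ∈ 𝒯, Er S G X0 h T :=
    mul_le_mul_of_nonneg_left herr1 (by positivity)
  have h12 : 1 / 2 * ∑ T ∈ 𝒯, Er S G X0 h T ≤ Real.log Y * ∑ T ∈ 𝒯, Er S G X0 h T :=
    mul_le_mul_of_nonneg_right hlog1 hE0
  nlinarith

end Pool.Agent.Y677.KU
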