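import Pool.Agent.Y677.KU.Kuhn

set_option autoImplicit false

/-!
# Kuhn's weighted linear sieve with the weight `1 / (m + 1)`

As `kuhn`, with at most `m` prime factors in `[Y ^ ζ, Y ^ β)`; the condition is
`log (β / (τ - β)) < m log ((τ - ζ) / ζ)`.
-/

open Finset Filter

namespace Pool.Agent.Y677.KU

open Pool.Agent.W23.DC Pool.Agent.Y882

open Classical in
/-- Kuhn's weights, pointwise -/
lemma kuhn_point_m (m : ℕ) (P Q : Finset ℕ) (S : Finset ℕ) (G : ℕ → ℕ) :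
    ((S.filter (fun n => ∀ p ∈ P, ¬ p ∣ G n)).card : ℝ) -
      1 / ((m : ℝ) + 1) * ∑ q ∈ Q, ((S.filter (fun n => q ∣ G n ∧ ∀ p ∈ P, ¬ p ∣ G n)).card : ℝ) ≤
    ((S.filter (fun n => (∀ p ∈ P, ¬ p ∣ G n) ∧ (Q.filter (fun q => q ∣ G n)).card ≤ m)).card : ℝ) := by
  have hm0 : (0 : ℝ) ≤ m := Nat.cast_nonneg m
  have h1 : ∑ q ∈ Q, ((S.filter (fun n => q ∣ G n ∧ ∀ p ∈ P, ¬ p ∣ G n)).card : ℝ) =
      ∑ n ∈ S, (if ∀ p ∈ P, ¬ p ∣ G n then ((Q.filter (fun q => q ∣ G n)).card : ℝ) else 0) := by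
    have : ∀ q ∈ Q, ((S.filter (fun n => q ∣ G n ∧ ∀ p ∈ P, ¬ p ∣ G n)).card : ℝ) =
        ∑ n ∈ S, if q ∣ G n ∧ ∀ p ∈ P, ¬ p ∣ G n then (1 : ℝ) else 0 := by
      intro q _
      rw [card_filter]
      push_cast
      rfl
    rw [sum_congr rfl this, sum_comm]
    apply sum_congr rfl
    intro n _
    split_ifs with h
    · rw [card_filter]
      push_cast
      apply sum_congr rfl
      intro q _
      by_cases hq : q ∣ G n
      · rw [if_pos ⟨hq, h⟩, if_pos hq]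
      · rw [if_neg (fun h2 => hq h2.1), if_neg hq]
    · apply sum_eq_zero
      intro q _
      rw [if_neg (fun h2 => h h2.2)]
  rw [h1, card_filter, card_filter]
  push_cast
  rw [mul_sum, ← sum_sub_distrib]
  apply sum_le_sum
  intro n _
  by_cases h : ∀ p ∈ P, ¬ p ∣ G n
  · rw [if_pos h, if_pos h]
    by_cases h2 : (Q.filter (fun q => q ∣ G n)).card ≤ m
    · rw [if_pos ⟨h, h2⟩]
      have : (0 : ℝ) ≤ 1 / ((m : ℝ) + 1) * ((Q.filter (fun q => q ∣ G n)).card : ℝ) := by positivity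
      linarith
    · rw [if_neg (fun h3 => h2 h3.2)]
      have h3 : m + 1 ≤ (Q.filter (fun q => q ∣ G n)).card := by omega
      have h4 : (m : ℝ) + 1 ≤ ((Q.filter (fun q => q ∣ G n)).card : ℝ) := by exact_mod_cast h3
      have h5 : 1 ≤ 1 / ((m : ℝ) + 1) * ((Q.filter (fun q => q ∣ G n)).card : ℝ) := by
        rw [one_div, ← div_eq_inv_mul, le_div_iff₀ (by linarith)]
        linarith
      linarith
  · rw [if_neg h, if_neg h, if_neg (fun h2 => h h2.1)]
    simp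

end Pool.Agent.Y677.KU
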