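import Pool.Agent.Y882.LSW

set_option autoImplicit false

/-!
# The linear sieve on rough numbers with its functions

Lower bound weights of one level and upper bound weights of all levels, with the functions `F`, `f` of the
linear sieve.
-/

open Finset

namespace Pool.Agent.Y677.KU

open Pool.Agent.W23.DC Pool.Agent.Y882

open Classical in
theorem lc_upper (P : Finset ℕ) (t : ℕ → ℝ) (hs : Siz P t) (k : ℕ) (τ ζ : ℝ)
    (hτ : 0 ≤ τ) (hζ : ∀ p ∈ P, t p < ζ) (N : ℕ) :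
    (if ∀ p ∈ P, ¬ p ∣ N then 1 else 0) ≤
      VV P (lc P t k true τ ζ) (fun p => if p ∣ N then 1 else 0) := by
  have key : VV P (lc P t k true τ ζ) (fun p => if p ∣ N then 1 else 0) =
      LL P t (fun e => if e ∣ N then 1 else 0) k true τ ζ 1 := by
    rw [lc_sum P t hs k true τ ζ hτ (fun h => by simp at h)]
    unfold VV
    apply sum_congr rfl
    intro T hT
    rw [prod_ind]
    congr 1
    have h1 : (∀ p ∈ T, p ∣ N) ↔ (∏ p ∈ T, p) ∣ N := by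
      constructor
      · intro h
        exact Finset.prod_primes_dvd N
          (fun p hp => (hs.pr p (mem_powerset.1 hT hp)).prime) h
      · intro h p hp
        exact (dvd_prod_of_mem (fun p => p) hp).trans h
    by_cases h2 : ∀ p ∈ T, p ∣ N
    · rw [if_pos h2, if_pos (h1.1 h2)]
    · rw [if_neg h2, if_neg (fun h => h2 (h1.2 h))]
  have hone : ∀ p ∈ P, t p < ζ → ¬ p ∣ 1 := by
    intro p hp _ h
    have := (hs.pr p hp).one_lt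
    have := Nat.le_of_dvd one_pos h
    omega
  have h1 := Pool.Agent.W52.DC.PT P t hs N k τ ζ 1 hone
  have h2 : (1 ∣ N ∧ ∀ p ∈ P, t p < ζ → ¬ p ∣ N) ↔ ∀ p ∈ P, ¬ p ∣ N := by
    constructor
    · intro h p hp
      exact h.2 p hp (hζ p hp)
    · intro h
      exact ⟨one_dvd N, fun p hp _ => h p hp⟩
  rw [key]
  by_cases h3 : ∀ p ∈ P, ¬ p ∣ N
  · rw [if_pos h3]
    rw [if_pos (h2.2 h3)] at h1
    exact h1.1
  · rw [if_neg h3]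
    rw [if_neg (fun h => h3 (h2.1 h))] at h1
    exact h1.1

lemma mem_pr {Y p : ℕ} {u v : ℝ} (hp : p ∈ pr Y u v) :
    p.Prime ∧ u ≤ tt Y p ∧ tt Y p < v ∧ 1 ≤ p ∧ p ≤ Y := by
  unfold pr at hp
  rw [mem_filter, mem_Icc] at hp
  exact ⟨hp.2.1, hp.2.2.1, hp.2.2.2, hp.1.1, hp.1.2⟩

lemma siz_pr (Y : ℕ) (hY : 2 ≤ Y) (u v : ℝ) (hu : 0 < u) : Siz (pr Y u v) (tt Y) := by
  have hY2 : (2 : ℝ) ≤ Y := by exact_mod_cast hY
  have hlY : 0 < Real.log Y := Real.log_pos (by linarith)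
  refine ⟨fun p hp => (mem_pr hp).1, fun p hp => lt_of_lt_of_le hu (mem_pr hp).2.1, ?_⟩
  intro p hp q hq
  have hp0 : (0 : ℝ) < p := by exact_mod_cast (mem_pr hp).1.pos
  unfold tt
  rw [div_lt_div_iff_of_pos_right hlY, Real.log_lt_log_iff hp0
    (by exact_mod_cast (mem_pr hq).1.pos)]
  exact Nat.cast_lt

lemma tt_nonneg (Y : ℕ) (hY : 2 ≤ Y) (p : ℕ) : 0 ≤ tt Y p := by
  have hY2 : (2 : ℝ) ≤ Y := by exact_mod_cast hY
  have hlY : 0 < Real.log Y := Real.log_pos (by linarith)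
  unfold tt
  exact div_nonneg (Real.log_natCast_nonneg p) hlY.le

lemma supp_le (Y : ℕ) (hY : 2 ≤ Y) (u v : ℝ) (hu : 0 < u) (τ ζ : ℝ) (hτ : 0 ≤ τ) (T : Finset ℕ)
    (hT : T ⊆ pr Y u v) (hE : ∏ p ∈ T, p ∈ EE (pr Y u v) (tt Y) τ ζ) :
    ((∏ p ∈ T, p : ℕ) : ℝ) ≤ (Y : ℝ) ^ τ := by
  have hY2 : (2 : ℝ) ≤ Y := by exact_mod_cast hY
  have hlY : 0 < Real.log Y := Real.log_pos (by linarith)
  have hmem : ∀ p ∈ T, p.Prime := fun p hp => (mem_pr (hT hp)).1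
  have h5 := EE_sz _ _ (siz_pr Y hY u v hu) (tt_nonneg Y hY) τ ζ hτ _ hE
  unfold sz at h5
  rw [Nat.primeFactors_prod hmem] at h5
  unfold tt at h5
  rw [← sum_div, div_le_iff₀ hlY] at h5
  have hp0 : ∀ p ∈ T, (p : ℝ) ≠ 0 := by
    intro p hp
    have := (hmem p hp).ne_zero
    exact_mod_cast this
  have h6 : Real.log ((∏ p ∈ T, p : ℕ) : ℝ) = ∑ p ∈ T, Real.log p := by
    push_cast
    rw [Real.log_prod hp0]
  rw [← h6] at h5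
  have hpos : (0 : ℝ) < ((∏ p ∈ T, p : ℕ) : ℝ) := by
    have : 0 < ∏ p ∈ T, p := prod_pos fun p hp => (hmem p hp).pos
    exact_mod_cast this
  rw [← Real.log_le_log_iff hpos (by positivity), Real.log_rpow (by linarith)]
  exact h5

open Classical in
/-- the linear sieve on rough numbers -/
theorem ls2 {A0 : ℝ} {F f : ℝ → ℝ} (hSF : SF A0 F f) (τ ζ ε₁ η' : ℝ) (h2 : 2 * ζ < τ)
    (hτ : τ ≤ 1) (hε₁ : 0 < ε₁) (hεζ : ε₁ ≤ ζ) (hη' : 0 < η') : ∃ η : ℝ, 0 < η ∧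
      ∀ (Y : ℕ), 2 ≤ Y →
        (∃ cL : Finset ℕ → ℝ, (∀ T, |cL T| ≤ 1) ∧
          (∀ T ⊆ pr Y ε₁ ζ, cL T ≠ 0 → ((∏ p ∈ T, p : ℕ) : ℝ) ≤ (Y : ℝ) ^ τ) ∧
          (∀ N : ℕ, VV (pr Y ε₁ ζ) cL (fun p => if p ∣ N then 1 else 0) ≤
            (if ∀ p ∈ pr Y ε₁ ζ, ¬ p ∣ N then 1 else 0)) ∧
          ∀ g : ℕ → ℝ, (∀ p ∈ pr Y ε₁ ζ, 0 ≤ g p) → Mer (pr Y ε₁ ζ) (tt Y) g ε₁ ζ η →
            ε₁ / ζ * f (τ / ζ) - η' ≤ VV (pr Y ε₁ ζ) cL g) ∧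
        ∀ σ : ℝ, ζ ≤ σ → σ ≤ 1 → ∃ cU : Finset ℕ → ℝ, (∀ T, |cU T| ≤ 1) ∧
          (∀ T ⊆ pr Y ε₁ ζ, cU T ≠ 0 → ((∏ p ∈ T, p : ℕ) : ℝ) ≤ (Y : ℝ) ^ σ) ∧
          (∀ N : ℕ, (if ∀ p ∈ pr Y ε₁ ζ, ¬ p ∣ N then 1 else 0) ≤
            VV (pr Y ε₁ ζ) cU (fun p => if p ∣ N then 1 else 0)) ∧
          ∀ g : ℕ → ℝ, (∀ p ∈ pr Y ε₁ ζ, 0 ≤ g p) → Mer (pr Y ε₁ ζ) (tt Y) g ε₁ ζ η →
            VV (pr Y ε₁ ζ) cU g ≤ ε₁ / ζ * F (σ / ζ) + η' := by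
  have hζ : 0 < ζ := by linarith
  have hτ0 : 0 < τ := by linarith
  obtain ⟨K, hK⟩ := exists_nat_ge (1 / ε₁)
  have hε1 : ε₁ ≤ 1 := by linarith
  obtain ⟨η, hη, H⟩ := Pool.Agent.W505.DC.MT Pool.Agent.W505.DC.MI A0 F f hSF ε₁ η' K hε₁ hε1 hη'
  have hKτ : ∀ σ : ℝ, σ ≤ 1 → σ ≤ (K + 2) * ε₁ := by
    intro σ hσ
    rw [div_le_iff₀ hε₁] at hK
    nlinarith
  refine ⟨η, hη, fun Y hY => ⟨?_, ?_⟩⟩
  · have hsiz := siz_pr Y hY ε₁ ζ hε₁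
    refine ⟨lc (pr Y ε₁ ζ) (tt Y) K false τ ζ, ?_, ?_, ?_, ?_⟩
    · exact fun T => lc_le _ _ hsiz K false τ ζ hτ0.le (fun _ => h2.le) T
    · intro T hT hne
      exact supp_le Y hY ε₁ ζ hε₁ τ ζ hτ0.le T hT
        (lc_EE _ _ hsiz K false τ ζ hτ0.le (fun _ => h2.le) T hne)
    · intro N
      exact (lc_ind _ _ hsiz K τ ζ hτ0.le h2.le (fun p hp => (mem_pr hp).2.2.1) N).1
    · intro g hg hM
      have h7 := H (pr Y ε₁ ζ) (tt Y) g ζ (by linarith) hg (fun p hp => (mem_pr hp).2.1) hM K le_rfl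
        τ ζ (hKτ τ hτ) hεζ le_rfl (by linarith) hτ
      rw [lc_V _ _ hsiz K false τ ζ hτ0.le (fun _ => h2.le)]
      exact h7.2 h2.le
  · intro σ hσ1 hσ2
    have hσ0 : 0 ≤ σ := by linarith
    have hsiz := siz_pr Y hY ε₁ ζ hε₁
    refine ⟨lc (pr Y ε₁ ζ) (tt Y) K true σ ζ, ?_, ?_, ?_, ?_⟩
    · exact fun T => lc_le _ _ hsiz K true σ ζ hσ0 (fun h => by simp at h) T
    · intro T hT hne
      exact supp_le Y hY ε₁ ζ hε₁ σ ζ hσ0 T hT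
        (lc_EE _ _ hsiz K true σ ζ hσ0 (fun h => by simp at h) T hne)
    · intro N
      exact lc_upper _ _ hsiz K σ ζ hσ0 (fun p hp => (mem_pr hp).2.2.1) N
    · intro g hg hM
      have h7 := H (pr Y ε₁ ζ) (tt Y) g ζ (by linarith) hg (fun p hp => (mem_pr hp).2.1) hM K le_rfl
        σ ζ (hKτ σ hσ2) hεζ le_rfl hσ1 hσ2
      rw [lc_V _ _ hsiz K true σ ζ hσ0 (fun h => by simp at h)]
      exact h7.1

end Pool.Agent.Y677.KU
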