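import Pool.Agent.Y677.KU.LinNarrow

set_option autoImplicit false

/-!
# Numbers with at most `r` prime factors in residue classes: the exponent `4 / (3 r + 1)`
-/

open Finset Filter Topology

namespace Pool.Agent.Y677.KU

open Pool.Agent.TH977.PW (N)
open Pool.Agent.Y677.RSZ (InProg Outside)

/-- the numerical conditions of the weighted sieve with `s = 3 r + 1` -/
lemma cond_r (r : ℕ) (θ : ℝ) (hr : 2 ≤ r) (h1 : 4 / (3 * r + 1) < θ) : 4 < θ * (3 * r + 1) ∧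
    1 < θ * r - (r - 1) / ((3 * r + 1 : ℕ) : ℝ) ∧ 2 < θ * ((3 * r + 1 : ℕ) : ℝ) ∧ 0 < θ := by
  have hr2 : (2 : ℝ) ≤ r := by exact_mod_cast hr
  have hθ : 0 < θ := lt_trans (by positivity) h1
  have h4 : 4 < θ * (3 * r + 1) := by
    rw [div_lt_iff₀ (by positivity)] at h1
    exact h1
  refine ⟨h4, ?_, ?_, hθ⟩
  · push_cast
    have h6 : ((r : ℝ) - 1) / (3 * r + 1) = r * (4 / (3 * r + 1)) - 1 := by
      field_simp
      ring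
    rw [h6]
    nlinarith
  · push_cast
    linarith

/-- The `n ≡ a (mod q)` all of whose prime factors are larger than `n ^ (1 / s)`. -/
def Rl (q a s : ℕ) : Set ℕ :=
  {n | n ≡ a [MOD q] ∧ ∀ p : ℕ, p.Prime → p ∣ n → (n : ℝ) ^ (1 / (s : ℝ)) < (p : ℝ)}

/-- The `n ≡ a (mod q)` with at most `r` prime factors, all larger than `n ^ (1 / (3 r + 1))`. -/
def Pl (q a r : ℕ) : Set ℕ := {n | n ∈ Rl q a (3 * r + 1) ∧ n.primeFactorsList.length ≤ r}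

theorem pl_lower (r : ℕ) (θ : ℝ) (hr : 2 ≤ r) (h1 : 4 / (3 * r + 1) < θ) (h2 : θ ≤ 1) :
    ∃ κ : ℝ, 0 < κ ∧ ∀ᶠ x : ℕ in atTop, ∀ q a y : ℕ, 1 ≤ q → Nat.Coprime a q →
      (q : ℝ) * (x : ℝ) ^ θ ≤ y → y ≤ x →
      κ * y / (Nat.totient q * Real.log x) ≤ N (Pl q a r) x (x + y) := by
  obtain ⟨h4, h5, h6, hθ⟩ := cond_r r θ hr h1
  obtain ⟨κ, hκ, h⟩ := lin_lower r (3 * r + 1) θ hθ h2 h4 h5 h6
  refine ⟨κ, hκ, ?_⟩
  filter_upwards [h] with x hx a b y ha hb hy hyx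
  refine (hx a b y ha hb hy hyx).trans (Nat.cast_le.2 ?_)
  exact Pool.Agent.TH977.PW.N_mono _ _ _ _ fun n _ _ hn => ⟨⟨hn.1, hn.2.1⟩, hn.2.2⟩

theorem pl_exists (r : ℕ) (θ : ℝ) (hr : 2 ≤ r) (h1 : 4 / (3 * r + 1) < θ) (h2 : θ ≤ 1) (l : ℕ) :
    ∃ B : ℕ, ∀ᶠ x : ℕ in atTop, ∀ q a y : ℕ, 1 ≤ q → Nat.Coprime a q →
      (q : ℝ) * (x : ℝ) ^ θ ≤ y → y ≤ x →
      ∃ u d : ℕ, 1 ≤ d ∧ (d : ℝ) ≤ q * Real.log x ^ B ∧
        ∀ i < l, u + i * d ∈ Pl q a r ∧ x < u + i * d ∧ u + i * d ≤ x + y := by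
  obtain ⟨h4, h5, h6, hθ⟩ := cond_r r θ hr h1
  obtain ⟨B, hB⟩ := lin_exists r (3 * r + 1) (by omega) θ hθ h2 h4 h5 h6 l
  refine ⟨B, ?_⟩
  filter_upwards [hB] with x hx a b y ha hb hy hyx
  obtain ⟨u, d, h7, h8, h9⟩ := hx a b y ha hb hy hyx
  refine ⟨u, d, h7, h8, fun i hi => ?_⟩
  obtain ⟨h10, h11⟩ := h9 i hi
  exact ⟨⟨⟨h10.1, h10.2.1⟩, h10.2.2⟩, h11⟩

theorem pl_hered (s : ℕ) (hs : 1 ≤ s) (θ : ℝ) (hθ : 0 < θ) (l : ℕ) (hl : 2 ≤ l) (ε : ℝ) (hε : 0 < ε) :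
    ∃ B : ℕ, ∀ᶠ x : ℕ in atTop, ∀ q a y : ℕ, 1 ≤ q → Nat.Coprime a q →
      (q : ℝ) * (x : ℝ) ^ θ ≤ y → y ≤ x → ∀ A : Set ℕ, A ⊆ Rl q a s →
        (N (Outside A l (q * Real.log x ^ B) x (x + y)) x (x + y) : ℝ) ≤
          ε * y / (Nat.totient q * Real.log x) := by
  obtain ⟨B, hB⟩ := lin_hered s hs θ hθ l hl ε hε
  refine ⟨B, ?_⟩
  filter_upwards [hB] with x hx a b y ha hb hy hyx A hA
  exact hx a b y ha hb hy hyx A (fun n hn => (hA hn).1) (fun n hn => (hA hn).2)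

/-- a prime is in these sets -/
lemma prime_mem (q a s p : ℕ) (hs : 2 ≤ s) (hp : p.Prime) (hpa : p ≡ a [MOD q]) : p ∈ Rl q a s := by
  refine ⟨hpa, fun l hl hlp => ?_⟩
  have h1 : l = p := (Nat.prime_dvd_prime_iff_eq hl hp).1 hlp
  rw [h1]
  have h2 : (2 : ℝ) ≤ s := by exact_mod_cast hs
  have hp1 : (1 : ℝ) < p := by exact_mod_cast hp.one_lt
  calc (p : ℝ) ^ (1 / (s : ℝ)) < (p : ℝ) ^ (1 : ℝ) := by
        apply Real.rpow_lt_rpow_of_exponent_lt hp1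
        rw [div_lt_one (by linarith)]
        linarith
    _ = p := Real.rpow_one _

lemma prime_mem_P (q a r p : ℕ) (hr : 1 ≤ r) (hp : p.Prime) (hpa : p ≡ a [MOD q]) : p ∈ Pl q a r :=
  ⟨prime_mem q a (3 * r + 1) p (by omega) hp hpa, by
    rw [Nat.primeFactorsList_prime hp]
    exact hr⟩

end Pool.Agent.Y677.KU
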