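import Pool.Agent.Y677.KU.LinV

set_option autoImplicit false

/-!
# Numbers with few prime factors in arithmetic progressions, uniformly in the modulus
-/

open Finset Filter Topology

namespace Pool.Agent.Y677.KU

open Pool.Agent.W23.DC Pool.Agent.Y882

open Classical in
/-- few values are divisible by the square of a medium prime -/
theorem sq_lin (ζ β c : ℝ) (hζ : 0 < ζ) (hβ : β < 1) (hc : 0 < c) :
    ∀ᶠ L : ℕ in atTop, ∀ q a M : ℕ, Nat.Coprime a q →
      (((Ioc M (M + L)).filter (fun m => ∃ p ∈ pr L ζ β, p ^ 2 ∣ a + q * m)).card : ℝ) ≤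
        c * L / Real.log L := by
  have e1 := log_sq_le (3 * 2) c ζ hc hζ
  have e2 := log_sq_le 2 c (1 - β) hc (by linarith)
  filter_upwards [e1, e2, eventually_ge_atTop 3] with L e1 e2 hL3 q a M haq
  have hL3r : (3 : ℝ) ≤ L := by exact_mod_cast hL3
  have hL0 : (0 : ℝ) < L := by linarith
  have hl1 : 1 ≤ Real.log L := by
    rw [Real.le_log_iff_exp_le (by linarith)]
    linarith [Real.exp_one_lt_d9]
  have hl0 : 0 < Real.log L := by linarith
  -- each prime
  have hp : ∀ p ∈ pr L ζ β, p.Prime ∧ (L : ℝ) ^ ζ ≤ p ∧ (p : ℝ) < (L : ℝ) ^ β ∧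
      (((Ioc M (M + L)).filter (fun m => p ^ 2 ∣ a + q * m)).card : ℝ) ≤
        L / (L : ℝ) ^ ζ * (1 / p) + 1 := by
    intro p hp
    rw [mem_pr'] at hp
    obtain ⟨hq1, hqp, hq3, hq4⟩ := hp
    have hq5 := tt_mul_log L (by omega) p hqp.pos
    have hL1 : (1 : ℝ) < L := by linarith
    have hq6 : (L : ℝ) ^ ζ ≤ p := by
      rw [hq5]
      exact Real.rpow_le_rpow_of_exponent_le hL1.le hq3
    have hq7 : (p : ℝ) < (L : ℝ) ^ β := by
      rw [hq5]
      exact Real.rpow_lt_rpow_of_exponent_lt hL1 hq4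
    refine ⟨hqp, hq6, hq7, ?_⟩
    have hp0 : (0 : ℝ) < p := by exact_mod_cast hqp.pos
    by_cases hpq : p ∣ q
    · have h2 : (Ioc M (M + L)).filter (fun m => p ^ 2 ∣ a + q * m) = ∅ := by
        apply filter_eq_empty_iff.2
        intro m _ hd
        have h3 : p ∣ a + q * m := (dvd_pow_self p two_ne_zero).trans hd
        have h4 : p ∣ a := (Nat.dvd_add_left (hpq.mul_right m)).1 h3
        have h5 : p ∣ Nat.gcd a q := Nat.dvd_gcd h4 hpq
        rw [haq] at h5
        exact hqp.one_lt.ne' (Nat.dvd_one.1 h5)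
      rw [h2, card_empty, Nat.cast_zero]
      positivity
    · have hcop : Nat.Coprime q (p ^ 2) :=
        Nat.Coprime.pow_right 2 ((Nat.Prime.coprime_iff_not_dvd hqp).2 hpq).symm
      have h1 := cnt_lin a q (p ^ 2) (pow_pos hqp.pos 2) hcop M L
      have h3 := (abs_le.1 h1).2
      have h4 : (L : ℝ) / ((p ^ 2 : ℕ) : ℝ) ≤ L / (L : ℝ) ^ ζ * (1 / p) := by
        push_cast
        calc (L : ℝ) / (p : ℝ) ^ 2 = (L : ℝ) / p * (1 / p) := by
              field_simp
          _ ≤ L / (L : ℝ) ^ ζ * (1 / p) := by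
              gcongr
      linarith
  have hcover : (Ioc M (M + L)).filter (fun m => ∃ p ∈ pr L ζ β, p ^ 2 ∣ a + q * m) ⊆
      (pr L ζ β).biUnion (fun p => (Ioc M (M + L)).filter (fun m => p ^ 2 ∣ a + q * m)) := by
    intro n hn
    rw [mem_filter] at hn
    obtain ⟨h1, p, h2, h3⟩ := hn
    rw [mem_biUnion]
    exact ⟨p, h2, mem_filter.2 ⟨h1, h3⟩⟩
  have h1 : (((Ioc M (M + L)).filter (fun m => ∃ p ∈ pr L ζ β, p ^ 2 ∣ a + q * m)).card : ℝ) ≤
      ∑ p ∈ pr L ζ β, (L / (L : ℝ) ^ ζ * (1 / p) + 1) := by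
    have h2 := (card_le_card hcover).trans card_biUnion_le
    have h3 : (((Ioc M (M + L)).filter (fun m => ∃ p ∈ pr L ζ β, p ^ 2 ∣ a + q * m)).card : ℝ) ≤
        ∑ p ∈ pr L ζ β, (((Ioc M (M + L)).filter (fun m => p ^ 2 ∣ a + q * m)).card : ℝ) := by
      exact_mod_cast h2
    exact h3.trans (sum_le_sum fun p hpm => (hp p hpm).2.2.2)
  refine h1.trans ?_
  rw [sum_add_distrib, ← mul_sum, sum_const, nsmul_eq_mul, mul_one]
  have h2 : ∑ p ∈ pr L ζ β, 1 / (p : ℝ) ≤ 3 * Real.log L := by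
    have h3 : ∑ p ∈ pr L ζ β, 1 / (p : ℝ) ≤ ∑ n ∈ Ico 1 (L + 1), 1 / (n : ℝ) := by
      apply sum_le_sum_of_subset_of_nonneg
      · intro p hpm
        have := (mem_pr'.1 hpm).1
        rw [mem_Ico]
        omega
      · intro n _ _
        positivity
    have h4 := harm_le 1 (L + 1) le_rfl (by omega)
    have h5 : Real.log ((L + 1 : ℕ) : ℝ) ≤ 2 * Real.log L := by
      rw [← Real.log_rpow hL0]
      apply Real.log_le_log (by positivity)
      push_cast
      rw [Real.rpow_two]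
      nlinarith
    linarith
  have h3 : ((pr L ζ β).card : ℝ) ≤ (L : ℝ) ^ β := by
    have h4 : (pr L ζ β).card ≤ (Icc 1 ⌊(L : ℝ) ^ β⌋₊).card := by
      apply card_le_card
      intro p hpm
      have h5 := hp p hpm
      rw [mem_Icc]
      exact ⟨h5.1.one_le, Nat.le_floor h5.2.2.1.le⟩
    rw [Nat.card_Icc, Nat.add_sub_cancel] at h4
    have h5 : ((pr L ζ β).card : ℝ) ≤ (⌊(L : ℝ) ^ β⌋₊ : ℝ) := by exact_mod_cast h4
    exact h5.trans (Nat.floor_le (by positivity))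
  have hLζ : 0 < (L : ℝ) ^ ζ := by positivity
  have h4 : L / (L : ℝ) ^ ζ * ∑ p ∈ pr L ζ β, 1 / (p : ℝ) ≤ c / 2 * L / Real.log L := by
    calc L / (L : ℝ) ^ ζ * ∑ p ∈ pr L ζ β, 1 / (p : ℝ) ≤
          L / (L : ℝ) ^ ζ * (3 * Real.log L) := by gcongr
      _ = (3 * 2 * Real.log L ^ 2) * (L / (2 * (L : ℝ) ^ ζ * Real.log L)) := by
          field_simp
      _ ≤ (c * (L : ℝ) ^ ζ) * (L / (2 * (L : ℝ) ^ ζ * Real.log L)) := by gcongr
      _ = _ := by field_simp
  have h5 : ((pr L ζ β).card : ℝ) ≤ c / 2 * L / Real.log L := by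
    have h6 : (L : ℝ) ^ (1 - β) = L / (L : ℝ) ^ β := by
      rw [Real.rpow_sub hL0, Real.rpow_one]
    rw [h6] at e2
    have hLβ : 0 < (L : ℝ) ^ β := by positivity
    rw [le_div_iff₀ hl0]
    calc ((pr L ζ β).card : ℝ) * Real.log L ≤ (L : ℝ) ^ β * Real.log L := by gcongr
      _ ≤ (L : ℝ) ^ β * Real.log L ^ 2 := by
          apply mul_le_mul_of_nonneg_left _ (by positivity)
          nlinarith
      _ = (2 * Real.log L ^ 2) * ((L : ℝ) ^ β / 2) := by ring
      _ ≤ (c * (L / (L : ℝ) ^ β)) * ((L : ℝ) ^ β / 2) := by gcongr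
      _ = _ := by field_simp
  have h6 : c * L / Real.log L = c / 2 * L / Real.log L + c / 2 * L / Real.log L := by
    field_simp
    ring
  rw [h6]
  exact add_le_add h4 h5

open Classical in
/-- **Numbers with few prime factors in arithmetic progressions.** -/
theorem kuhn_lin (θ ζ : ℝ) (hθ : 0 < θ) (hζ4 : 1 / 4 ≤ ζ) (hζ2 : ζ < 1 / 2) (r : ℕ)
    (hr : 1 < θ * (ζ + r * (1 - ζ))) (hr1 : 1 ≤ r) :
    ∃ κ : ℝ, 0 < κ ∧ ∀ᶠ x : ℕ in atTop, ∀ q a M L : ℕ, 1 ≤ q → Nat.Coprime a q →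
      (x : ℝ) ^ θ ≤ L → a + q * (M + L) ≤ 4 * x →
      κ * (q / Nat.totient q) * L / Real.log x ≤ (((Ioc M (M + L)).filter (fun m =>
        (∀ p : ℕ, p.Prime → p ∣ a + q * m → (L : ℝ) ^ ζ ≤ p) ∧
        (a + q * m).primeFactorsList.length ≤ r)).card : ℝ) := by
  have hrr : (1 : ℝ) ≤ r := by exact_mod_cast hr1
  obtain ⟨β, hβ1, hβ2, hβ3⟩ : ∃ β : ℝ, ζ ≤ β ∧ ζ + β < 1 ∧ 1 < θ * (ζ + r * β) := by
    have h1 : (1 / θ - ζ) / r < 1 - ζ := by
      rw [div_lt_iff₀ (by linarith)]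
      have : 1 / θ < ζ + r * (1 - ζ) := by
        rw [div_lt_iff₀ hθ]
        linarith
      linarith
    obtain ⟨β, h2, h3⟩ := exists_between (max_lt h1 (show ζ < 1 - ζ by linarith))
    refine ⟨β, ((le_max_right _ _).trans_lt h2).le, by linarith, ?_⟩
    have h4 := (le_max_left _ _).trans_lt h2
    rw [div_lt_iff₀ (by linarith)] at h4
    have h5 : 1 / θ < ζ + r * β := by linarith
    rw [div_lt_iff₀ hθ] at h5
    linarith
  have hζ0 : 0 < ζ := by linarith
  have hβ0 : 0 < β := by linarith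
  obtain ⟨c, hc, hlow⟩ := lower_lin ζ β (2 / θ) hζ4 hζ2 hβ1 hβ2
  have hsq := sq_lin ζ β (c / 2) hζ0 (by linarith) (by positivity)
  obtain ⟨L0, hL0⟩ := eventually_atTop.1 (hlow.and (hsq.and (eventually_ge_atTop 3)))
  refine ⟨c / 4, by positivity, ?_⟩
  have hXr : Tendsto (fun X : ℕ => (X : ℝ)) atTop atTop := tendsto_natCast_atTop_atTop
  have e1 := ((tendsto_rpow_atTop hθ).comp hXr).eventually_ge_atTop ((L0 : ℝ) + 3)
  have e2 := ((tendsto_rpow_atTop (show 0 < θ * (ζ + r * β) - 1 by linarith)).comp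
    hXr).eventually_gt_atTop 4
  filter_upwards [e1, e2, eventually_ge_atTop 4] with X e1 e2 hX4 q a M Y hq1 haq hXY hsize
  simp only [Function.comp] at e1 e2
  have hX4r : (4 : ℝ) ≤ X := by exact_mod_cast hX4
  have hX0 : (0 : ℝ) < X := by linarith
  have hYr : (L0 : ℝ) + 3 ≤ Y := e1.trans hXY
  have hYL : L0 ≤ Y := by
    have : (L0 : ℝ) ≤ Y := by linarith
    exact_mod_cast this
  obtain ⟨f1, f2, hY3⟩ := hL0 Y hYL
  have hY3r : (3 : ℝ) ≤ Y := by exact_mod_cast hY3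
  have hY0 : (0 : ℝ) < Y := by linarith
  have hY1 : (1 : ℝ) < Y := by linarith
  have hq4 : q ≤ 4 * X := by
    have : q * 1 ≤ q * (M + Y) := Nat.mul_le_mul_left q (by omega)
    omega
  have hY4 : Y ≤ 4 * X := by
    have : 1 * (M + Y) ≤ q * (M + Y) := Nat.mul_le_mul_right _ hq1
    omega
  have hqY : (q : ℝ) ≤ (Y : ℝ) ^ (2 / θ) := by
    calc (q : ℝ) ≤ 4 * X := by exact_mod_cast hq4
      _ ≤ (X : ℝ) ^ (2 : ℝ) := by
          rw [Real.rpow_two]
          nlinarith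
      _ = ((X : ℝ) ^ θ) ^ (2 / θ) := by
          rw [← Real.rpow_mul hX0.le, mul_div_cancel₀ _ hθ.ne']
      _ ≤ (Y : ℝ) ^ (2 / θ) := Real.rpow_le_rpow (by positivity) hXY (by positivity)
  have g1 := f1 q hq1 hqY a haq M
  have g2 := f2 q a M haq
  have hlY : 0 < Real.log Y := Real.log_pos hY1
  have hlX : Real.log Y ≤ 2 * Real.log X := by
    rw [← Real.log_rpow hX0, Real.rpow_two]
    apply Real.log_le_log hY0
    have : (Y : ℝ) ≤ 4 * X := by exact_mod_cast hY4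
    nlinarith
  have hsub : (Ioc M (M + Y)).filter (fun m => (∀ p ∈ PZ Y ζ, ¬ p ∣ a + q * m) ∧
        ((pr Y ζ β).filter (fun p => p ∣ a + q * m)).card ≤ 1) ⊆
      (Ioc M (M + Y)).filter (fun m =>
        (∀ p : ℕ, p.Prime → p ∣ a + q * m → (Y : ℝ) ^ ζ ≤ p) ∧
        (a + q * m).primeFactorsList.length ≤ r) ∪
      (Ioc M (M + Y)).filter (fun m => ∃ p ∈ pr Y ζ β, p ^ 2 ∣ a + q * m) := by
    intro m hn
    rw [mem_filter, mem_Ioc] at hn
    obtain ⟨⟨hn1, hn2⟩, hn3, hn4⟩ := hn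
    rw [mem_union, mem_filter, mem_filter, mem_Ioc]
    by_cases hs : ∃ p ∈ pr Y ζ β, p ^ 2 ∣ a + q * m
    · right
      exact ⟨⟨hn1, hn2⟩, hs⟩
    · left
      have hbig : ∀ p : ℕ, p.Prime → p ∣ a + q * m → (Y : ℝ) ^ ζ ≤ p := by
        intro p hp hpn
        by_cases hpY : p ≤ Y
        · by_contra hcon
          rw [not_le] at hcon
          apply hn3 p _ hpn
          rw [mem_PZ]
          refine ⟨⟨hp.one_le, hpY⟩, hp, ?_⟩
          rw [tt_mul_log Y (by omega) p hp.pos] at hcon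
          exact (Real.rpow_lt_rpow_left_iff hY1).1 hcon
        · rw [not_le] at hpY
          calc (Y : ℝ) ^ ζ ≤ (Y : ℝ) ^ (1 : ℝ) :=
                Real.rpow_le_rpow_of_exponent_le hY1.le (by linarith)
            _ = Y := Real.rpow_one _
            _ ≤ p := by exact_mod_cast hpY.le
      refine ⟨⟨hn1, hn2⟩, hbig, ?_⟩
      by_contra hlen
      rw [not_le] at hlen
      have hmem : ∀ p : ℕ, p.Prime → p ∣ a + q * m → (p : ℝ) < (Y : ℝ) ^ β → p ∈ pr Y ζ β := by
        intro p hp hpn hpb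
        have h1 := hbig p hp hpn
        rw [mem_pr']
        have hqe := tt_mul_log Y (by omega) p hp.pos
        rw [hqe] at h1 hpb
        have h2 := (Real.rpow_le_rpow_left_iff hY1).1 h1
        have h3 := (Real.rpow_lt_rpow_left_iff hY1).1 hpb
        refine ⟨⟨hp.one_le, ?_⟩, hp, h2, h3⟩
        have h4 : (p : ℝ) ≤ Y := by
          rw [hqe]
          calc (Y : ℝ) ^ (tt Y p) ≤ (Y : ℝ) ^ (1 : ℝ) :=
                Real.rpow_le_rpow_of_exponent_le hY1.le (by linarith)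
            _ = Y := Real.rpow_one _
        exact_mod_cast h4
      have hne : a + q * m ≠ 0 := by
        have : 0 < q * m := Nat.mul_pos hq1 (by omega)
        omega
      have h1 := struct (a + q * m) r hne ((Y : ℝ) ^ ζ) ((Y : ℝ) ^ β)
        (Real.one_le_rpow hY1.le (by linarith)) (Real.rpow_le_rpow_of_exponent_le hY1.le hβ1)
        hbig (by
          intro p p' hp hp' hpn hpn' hpb hpb'
          have h5 : p ∈ (pr Y ζ β).filter (fun p => p ∣ a + q * m) :=
            mem_filter.2 ⟨hmem p hp hpn hpb, hpn⟩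
          have h6 : p' ∈ (pr Y ζ β).filter (fun p => p ∣ a + q * m) :=
            mem_filter.2 ⟨hmem p' hp' hpn' hpb', hpn'⟩
          exact card_le_one.1 hn4 p h5 p' h6) (by
          intro p hp hpb hpn
          exact hs ⟨p, hmem p hp (dvd_trans (dvd_pow_self p two_ne_zero) hpn) hpb, hpn⟩) hlen
      have h4 : ((a + q * m : ℕ) : ℝ) ≤ 4 * X := by
        have h5 : q * m ≤ q * (M + Y) := Nat.mul_le_mul_left q hn2
        have h6 : a + q * m ≤ 4 * X := by omega
        exact_mod_cast h6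
      have h5 : (X : ℝ) ^ (θ * (ζ + r * β)) ≤ (Y : ℝ) ^ ζ * ((Y : ℝ) ^ β) ^ r := by
        rw [← Real.rpow_natCast, ← Real.rpow_mul hY0.le, ← Real.rpow_add hY0, Real.rpow_mul hX0.le,
          mul_comm β]
        exact Real.rpow_le_rpow (by positivity) hXY (by positivity)
      have h6 : 4 * (X : ℝ) < (X : ℝ) ^ (θ * (ζ + r * β)) := by
        have h7 : (X : ℝ) ^ (θ * (ζ + r * β)) =
            (X : ℝ) ^ (θ * (ζ + r * β) - 1) * (X : ℝ) ^ (1 : ℝ) := by
          rw [← Real.rpow_add hX0, sub_add_cancel]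
        rw [h7, Real.rpow_one]
        exact mul_lt_mul_of_pos_right e2 hX0
      linarith
  have h1 := (card_le_card hsub).trans (card_union_le _ _)
  have h2 : (((Ioc M (M + Y)).filter (fun m => (∀ p ∈ PZ Y ζ, ¬ p ∣ a + q * m) ∧
        ((pr Y ζ β).filter (fun p => p ∣ a + q * m)).card ≤ 1)).card : ℝ) ≤
      (((Ioc M (M + Y)).filter (fun m =>
        (∀ p : ℕ, p.Prime → p ∣ a + q * m → (Y : ℝ) ^ ζ ≤ p) ∧
        (a + q * m).primeFactorsList.length ≤ r)).card : ℝ) +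
      (((Ioc M (M + Y)).filter (fun m => ∃ p ∈ pr Y ζ β, p ^ 2 ∣ a + q * m)).card : ℝ) := by
    exact_mod_cast h1
  have hφ0 : (0 : ℝ) < Nat.totient q := by exact_mod_cast Nat.totient_pos.2 (by omega)
  have hq0 : (0 : ℝ) < q := by exact_mod_cast (by omega : 0 < q)
  have hφq : (1 : ℝ) ≤ q / Nat.totient q := by
    rw [le_div_iff₀ hφ0, one_mul]
    exact_mod_cast Nat.totient_le q
  have hlX0 : 0 < Real.log X := by linarith
  have h3 : c / 4 * (q / Nat.totient q) * Y / Real.log X ≤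
      c / 2 * (q / Nat.totient q) * Y / Real.log Y := by
    rw [div_le_div_iff₀ hlX0 hlY]
    have h4 : 0 ≤ c / 4 * (q / Nat.totient q) * Y := by positivity
    calc c / 4 * (q / Nat.totient q) * Y * Real.log Y ≤
          c / 4 * (q / Nat.totient q) * Y * (2 * Real.log X) := mul_le_mul_of_nonneg_left hlX h4
      _ = _ := by ring
  have h4 : c * (q / Nat.totient q) * Y / Real.log Y = c / 2 * (q / Nat.totient q) * Y / Real.log Y +
      c / 2 * (q / Nat.totient q) * Y / Real.log Y := by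
    field_simp
    ring
  have h5 : c / 2 * Y / Real.log Y ≤ c / 2 * (q / Nat.totient q) * Y / Real.log Y := by
    apply div_le_div_of_nonneg_right _ hlY.le
    nlinarith [mul_nonneg (mul_nonneg (by positivity : (0:ℝ) ≤ c / 2) hY0.le)
      (sub_nonneg.2 hφq)]
  linarith

end Pool.Agent.Y677.KU
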