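import Pool.Agent.Y677.KU.LinCor

set_option autoImplicit false

/-!
# Numbers with few prime factors in residue classes: closed intervals
-/

open Finset Filter Topology

namespace Pool.Agent.Y677.KU

open Pool.Agent.TH977.PW (N)
open Pool.Agent.Y677.RSZ (InProg Outside)

/-- `m` is a term of an `l`-term arithmetic progression in `A` with difference at most `D`. -/
def InPr (A : Set ℕ) (l : ℕ) (D : ℝ) (m : ℕ) : Prop :=
  ∃ u d : ℕ, 1 ≤ d ∧ (d : ℝ) ≤ D ∧ (∀ i < l, u + i * d ∈ A) ∧ ∃ i < l, m = u + i * d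

lemma N_le_ncard (A : Set ℕ) (x y : ℕ) : N A x (x + y) ≤ (A ∩ Set.Icc x (x + y)).ncard := by
  classical
  unfold Pool.Agent.TH977.PW.N
  rw [← Set.ncard_coe_finset]
  apply Set.ncard_le_ncard _ ((Set.finite_Icc x (x + y)).subset Set.inter_subset_right)
  intro m hm
  rw [mem_coe, mem_filter, mem_Ioc] at hm
  exact ⟨hm.2, hm.1.1.le, hm.1.2⟩

theorem icc_lower (r : ℕ) (θ : ℝ) (hr : 2 ≤ r) (h1 : 4 / (3 * r + 1) < θ) (h2 : θ ≤ 1) :
    ∃ κ : ℝ, 0 < κ ∧ ∀ᶠ x : ℕ in atTop, ∀ q a y : ℕ, 1 ≤ q → Nat.Coprime a q →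
      (q : ℝ) * (x : ℝ) ^ θ ≤ y → y ≤ x →
      κ * y / (Nat.totient q * Real.log x) ≤ (Pl q a r ∩ Set.Icc x (x + y)).ncard := by
  obtain ⟨κ, hκ, h⟩ := pl_lower r θ hr h1 h2
  refine ⟨κ, hκ, ?_⟩
  filter_upwards [h] with x hx q a y hq ha hy hyx
  exact (hx q a y hq ha hy hyx).trans (Nat.cast_le.2 (N_le_ncard _ _ _))

theorem icc_exists (r : ℕ) (θ : ℝ) (hr : 2 ≤ r) (h1 : 4 / (3 * r + 1) < θ) (h2 : θ ≤ 1) (l : ℕ) :
    ∃ B : ℕ, ∀ᶠ x : ℕ in atTop, ∀ q a y : ℕ, 1 ≤ q → Nat.Coprime a q →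
      (q : ℝ) * (x : ℝ) ^ θ ≤ y → y ≤ x →
      ∃ u d : ℕ, 1 ≤ d ∧ (d : ℝ) ≤ q * Real.log x ^ B ∧
        ∀ i < l, u + i * d ∈ Pl q a r ∧ x < u + i * d ∧ u + i * d ≤ x + y :=
  pl_exists r θ hr h1 h2 l

theorem icc_hered (s : ℕ) (hs : 1 ≤ s) (θ : ℝ) (hθ : 0 < θ) (l : ℕ) (hl : 2 ≤ l) (ε : ℝ) (hε : 0 < ε) :
    ∃ B : ℕ, ∀ᶠ x : ℕ in atTop, ∀ q a y : ℕ, 1 ≤ q → Nat.Coprime a q →
      (q : ℝ) * (x : ℝ) ^ θ ≤ y → y ≤ x → ∀ T : Set ℕ, T ⊆ Rl q a s ∩ Set.Icc x (x + y) →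
        (({m | m ∈ T ∧ ¬ InPr T l (q * Real.log x ^ B) m}.ncard : ℕ) : ℝ) ≤
          ε * y / (Nat.totient q * Real.log x) := by
  classical
  obtain ⟨B, hB⟩ := pl_hered s hs θ hθ l hl (ε / 2) (by positivity)
  refine ⟨B, ?_⟩
  have hXr : Tendsto (fun X : ℕ => (X : ℝ)) atTop atTop := tendsto_natCast_atTop_atTop
  have hlog := Real.tendsto_log_atTop.comp hXr
  have hlp : Tendsto (fun X : ℕ => Real.log X / (X : ℝ) ^ θ) atTop (𝓝 0) :=
    ((isLittleO_log_rpow_atTop hθ).tendsto_div_nhds_zero).comp hXr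
  filter_upwards [hB, eventually_ge_atTop 3, hlog.eventually_ge_atTop 1,
    hlp.eventually_lt_const (show 0 < ε / 2 by positivity)] with x hx hx3 hl1 hlx q a y hq ha hy hyx T hT
  simp only [Function.comp] at hl1
  have hx3r : (3 : ℝ) ≤ x := by exact_mod_cast hx3
  have hx0 : (0 : ℝ) < x := by linarith
  have hq0 : (1 : ℝ) ≤ q := by exact_mod_cast hq
  have hφ0 : (0 : ℝ) < Nat.totient q := by exact_mod_cast Nat.totient_pos.2 (by omega)
  have hφq : (Nat.totient q : ℝ) ≤ q := by exact_mod_cast Nat.totient_le q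
  have hpos : 0 < (x : ℝ) ^ θ := Real.rpow_pos_of_pos hx0 θ
  have h1 := hx q a y hq ha hy hyx T (fun n hn => (hT hn).1)
  -- one element is absorbed
  have h2 : (1 : ℝ) ≤ ε / 2 * y / (Nat.totient q * Real.log x) := by
    rw [le_div_iff₀ (by positivity), one_mul]
    rw [div_lt_iff₀ hpos] at hlx
    calc (Nat.totient q : ℝ) * Real.log x ≤ q * (ε / 2 * (x : ℝ) ^ θ) := by
          apply mul_le_mul hφq hlx.le (by linarith) (by linarith)
      _ = ε / 2 * (q * (x : ℝ) ^ θ) := by ring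
      _ ≤ ε / 2 * y := mul_le_mul_of_nonneg_left hy (by positivity)
  -- the set
  have h3 : {m | m ∈ T ∧ ¬ InPr T l (q * Real.log x ^ B) m} ⊆
      insert x (((Ioc x (x + y)).filter (fun m => m ∈ Outside T l (q * Real.log x ^ B) x (x + y)) :
        Finset ℕ) : Set ℕ) := by
    rintro m ⟨hm, hout⟩
    rw [Set.mem_insert_iff]
    by_cases hmx : m = x
    · exact Or.inl hmx
    right
    have hmI := (hT hm).2
    rw [Set.mem_Icc] at hmI
    rw [mem_coe, mem_filter, mem_Ioc]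
    refine ⟨⟨by omega, hmI.2⟩, hm, ?_⟩
    rintro ⟨u, d, g1, g2, g3, g4⟩
    exact hout ⟨u, d, g1, g2, fun i hi => (g3 i hi).1, g4⟩
  have h4 := Set.ncard_le_ncard h3 ((Finset.finite_toSet _).insert x)
  have h5 := (Set.ncard_insert_le x (((Ioc x (x + y)).filter
    (fun m => m ∈ Outside T l (q * Real.log x ^ B) x (x + y)) : Finset ℕ) : Set ℕ))
  rw [Set.ncard_coe_finset] at h5
  have h6 : (({m | m ∈ T ∧ ¬ InPr T l (q * Real.log x ^ B) m}.ncard : ℕ) : ℝ) ≤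
      (N (Outside T l (q * Real.log x ^ B) x (x + y)) x (x + y) : ℝ) + 1 := by
    have := h4.trans h5
    unfold Pool.Agent.TH977.PW.N
    exact_mod_cast this
  have h7 : ε * y / (Nat.totient q * Real.log x) = ε / 2 * y / (Nat.totient q * Real.log x) +
      ε / 2 * y / (Nat.totient q * Real.log x) := by ring
  rw [h7]
  linarith

end Pool.Agent.Y677.KU
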