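import Pool.Agent.Y677.KU.PolyFin

set_option autoImplicit false

/-!
# Kuhn's weighted linear sieve for linear forms `a + q m`, uniformly in `a` and `q`
-/

open Finset Filter Topology

namespace Pool.Agent.Y677.KU

open Pool.Agent.W23.DC Pool.Agent.Y882

/-- the densities of the values of `a + q m` -/
noncomputable def hq (q p : ℕ) : ℝ := if p ∣ q then 0 else 1 / (p : ℝ)

/-- the solutions of `d ∣ a + q m` form a residue class -/
lemma class_lin (a q d : ℕ) (hd : 0 < d) (hqd : Nat.Coprime q d) :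
    ∃ r0 : ℕ, r0 < d ∧ ∀ m : ℕ, d ∣ a + q * m ↔ m % d = r0 := by
  have : NeZero d := ⟨hd.ne'⟩
  set u : (ZMod d)ˣ := ZMod.unitOfCoprime q hqd with hu
  have huq : (u : ZMod d) = (q : ZMod d) := ZMod.coe_unitOfCoprime q hqd
  set c : ZMod d := -(a : ZMod d) * ((u⁻¹ : (ZMod d)ˣ) : ZMod d) with hc
  refine ⟨c.val, ZMod.val_lt c, fun m => ?_⟩
  rw [← ZMod.natCast_eq_zero_iff]
  push_cast
  have h1 : ((a : ZMod d) + (q : ZMod d) * (m : ZMod d) = 0) ↔ (m : ZMod d) = c := by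
    rw [hc, ← huq]
    constructor
    · intro h
      have h2 : (m : ZMod d) = ((u⁻¹ : (ZMod d)ˣ) : ZMod d) * ((u : ZMod d) * m) := by
        rw [← mul_assoc, Units.inv_mul, one_mul]
      rw [h2, eq_neg_of_add_eq_zero_right h]
      ring
    · intro h
      rw [h]
      have h2 : (u : ZMod d) * (-(a : ZMod d) * ((u⁻¹ : (ZMod d)ˣ) : ZMod d)) =
          -(a : ZMod d) * ((u : ZMod d) * ((u⁻¹ : (ZMod d)ˣ) : ZMod d)) := by ring
      rw [h2, Units.mul_inv]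
      ring
  rw [h1]
  have h3 : c = ((c.val : ℕ) : ZMod d) := (ZMod.natCast_zmod_val c).symm
  constructor
  · intro h
    rw [h3] at h
    have h4 := (ZMod.natCast_eq_natCast_iff' m c.val d).1 h
    rw [h4, Nat.mod_eq_of_lt (ZMod.val_lt c)]
  · intro h
    rw [h3]
    apply (ZMod.natCast_eq_natCast_iff' m c.val d).2
    rw [h, Nat.mod_eq_of_lt (ZMod.val_lt c)]

open Classical in
lemma cnt_lin (a q d : ℕ) (hd : 0 < d) (hqd : Nat.Coprime q d) (M L : ℕ) :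
    |(((Ioc M (M + L)).filter (fun m => d ∣ a + q * m)).card : ℝ) - L / d| ≤ 1 := by
  obtain ⟨r0, hr0, h⟩ := class_lin a q d hd hqd
  have h1 : (Ioc M (M + L)).filter (fun m => d ∣ a + q * m) =
      (Ioc M (M + L)).filter (fun m => m % d = r0) := by
    apply filter_congr
    intro m _
    exact h m
  rw [h1]
  exact card_class M L d r0 hd hr0

lemma er_lin (a q : ℕ) (haq : Nat.Coprime a q) (M L : ℕ) (T : Finset ℕ) (hT : ∀ p ∈ T, p.Prime) :
    Er (Ioc M (M + L)) (fun m => a + q * m) L (hq q) T ≤ 1 := by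
  classical
  unfold Er
  by_cases h : ∃ p ∈ T, p ∣ q
  · obtain ⟨p, hp, hpq⟩ := h
    have h1 : ∏ p ∈ T, hq q p = 0 := by
      apply prod_eq_zero hp
      unfold hq
      rw [if_pos hpq]
    have h2 : (Ioc M (M + L)).filter (fun m => (∏ p ∈ T, p) ∣ a + q * m) = ∅ := by
      apply filter_eq_empty_iff.2
      intro m _ hd
      have h3 : p ∣ a + q * m := (dvd_prod_of_mem (fun p => p) hp).trans hd
      have h4 : p ∣ a := (Nat.dvd_add_left (hpq.mul_right m)).1 h3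
      have h5 : p ∣ Nat.gcd a q := Nat.dvd_gcd h4 hpq
      rw [haq] at h5
      exact (hT p hp).one_lt.ne' (Nat.dvd_one.1 h5)
    have h6 : |((((Ioc M (M + L)).filter (fun m => (∏ p ∈ T, p) ∣ a + q * m)).card : ℕ) : ℝ) -
        L * ∏ p ∈ T, hq q p| ≤ 1 := by
      rw [h1, h2]
      simp
    convert h6 using 6
  · push Not at h
    have hd : 0 < ∏ p ∈ T, p := Finset.prod_pos fun p hp => (hT p hp).pos
    have hcop : Nat.Coprime q (∏ p ∈ T, p) := by
      apply Nat.Coprime.prod_right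
      intro p hp
      exact ((Nat.Prime.coprime_iff_not_dvd (hT p hp)).2 (h p hp)).symm
    have h1 := cnt_lin a q _ hd hcop M L
    have h2 : ∏ p ∈ T, hq q p = 1 / ((∏ p ∈ T, p : ℕ) : ℝ) := by
      push_cast
      rw [one_div, ← prod_inv_distrib]
      apply prod_congr rfl
      intro p hp
      unfold hq
      rw [if_neg (h p hp), one_div]
    rw [h2]
    have h3 : (L : ℝ) * (1 / ((∏ p ∈ T, p : ℕ) : ℝ)) = L / ((∏ p ∈ T, p : ℕ) : ℝ) := by ring
    rw [h3]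
    convert h1 using 6

lemma card_T_le (P : Finset ℕ) (D : ℝ) (hP : ∀ p ∈ P, p.Prime) (hD : 1 ≤ D) :
    ((P.powerset.filter (fun T => ((∏ p ∈ T, p : ℕ) : ℝ) ≤ D)).card : ℝ) ≤ D := by
  have h3 : (P.powerset.filter (fun T => ((∏ p ∈ T, p : ℕ) : ℝ) ≤ D)).card ≤
      (Icc 1 ⌊D⌋₊).card := by
    apply card_le_card_of_injOn (fun T => ∏ p ∈ T, p)
    · intro T hT
      rw [mem_coe, mem_filter, mem_powerset] at hT
      rw [mem_coe, mem_Icc]
      exact ⟨Finset.prod_pos fun p hp => (hP p (hT.1 hp)).pos, Nat.le_floor hT.2⟩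
    · intro T hT T' hT' he
      rw [mem_coe, mem_filter, mem_powerset] at hT hT'
      simp only at he
      rw [← Nat.primeFactors_prod (fun p hp => hP p (hT.1 hp)), he,
        Nat.primeFactors_prod (fun p hp => hP p (hT'.1 hp))]
  rw [Nat.card_Icc, Nat.add_sub_cancel] at h3
  have h4 : ((P.powerset.filter (fun T => ((∏ p ∈ T, p : ℕ) : ℝ) ≤ D)).card : ℝ) ≤ (⌊D⌋₊ : ℝ) := by
    exact_mod_cast h3
  exact h4.trans (Nat.floor_le (by linarith))

/-- few prime divisors of a number are large -/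
lemma few_large (Y q : ℕ) (hY : 2 ≤ Y) (hq : 1 ≤ q) (e lam : ℝ) (he : 0 < e)
    (hqY : (q : ℝ) ≤ (Y : ℝ) ^ lam) (S : Finset ℕ) (hS : ∀ p ∈ S, p ∣ q ∧ p.Prime ∧ (Y : ℝ) ^ e ≤ p) :
    (S.card : ℝ) ≤ lam / e := by
  have hY1 : (1 : ℝ) < Y := by exact_mod_cast hY
  have h1 : ∏ p ∈ S, p ∣ q := Finset.prod_primes_dvd q (fun p hp => (hS p hp).2.1.prime)
    (fun p hp => (hS p hp).1)
  have h2 : ((∏ p ∈ S, p : ℕ) : ℝ) ≤ q := by exact_mod_cast Nat.le_of_dvd (by omega) h1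
  have h3 : ((Y : ℝ) ^ e) ^ S.card ≤ ((∏ p ∈ S, p : ℕ) : ℝ) := by
    push_cast
    rw [← prod_const]
    exact Finset.prod_le_prod (fun p _ => by positivity) (fun p hp => (hS p hp).2.2)
  have h4 : (Y : ℝ) ^ (e * S.card) ≤ (Y : ℝ) ^ lam := by
    rw [Real.rpow_mul (by linarith), Real.rpow_natCast]
    exact h3.trans (h2.trans hqY)
  have h5 := (Real.rpow_le_rpow_left_iff hY1).1 h4
  rw [le_div_iff₀ he]
  linarith

/-- **Mertens' formula in windows, primes not dividing `q`** -/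
theorem mer_lin (ε₁ β η lam : ℝ) (hε₁ : 0 < ε₁) (hβ : β ≤ 1) (hη : 0 < η) :
    ∃ Y0 : ℕ, ∀ Y : ℕ, Y0 ≤ Y → ∀ q : ℕ, 1 ≤ q → (q : ℝ) ≤ (Y : ℝ) ^ lam →
      Mer (pr Y ε₁ β) (tt Y) (hq q) ε₁ β η := by
  have havg : Tendsto (fun N : ℕ => (∑ p ∈ (range (N + 1)).filter Nat.Prime, (1 : ℝ)) /
      (Nat.primeCounting N : ℝ)) atTop (𝓝 1) := by
    apply tendsto_const_nhds.congr'
    filter_upwards [eventually_ge_atTop 2] with N hN
    have hcard : ∑ p ∈ (range (N + 1)).filter Nat.Prime, (1 : ℝ) = Nat.primeCounting N := by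
      rw [sum_const, nsmul_eq_mul, mul_one]
      congr 1
      rw [Nat.primeCounting, Nat.primeCounting', Nat.count_eq_card_filter_range]
    rw [hcard, div_self]
    have h5 : Nat.primeCounting 2 ≤ Nat.primeCounting N := Nat.monotone_primeCounting hN
    have h6 : Nat.primeCounting 2 = 1 := by decide
    have h7 : Nat.primeCounting N ≠ 0 := by omega
    exact_mod_cast h7
  obtain ⟨Y1, hM⟩ := mer_of_avg (fun _ => (1 : ℝ)) havg ε₁ β (η / 2) hε₁ hβ (by linarith)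
  have ev : ∀ᶠ Y : ℕ in atTop, |lam| / ε₁ * (2 / η) + 1 ≤ (Y : ℝ) ^ ε₁ :=
    (tendsto_natCast_atTop_atTop (R := ℝ)).eventually
      ((tendsto_rpow_atTop hε₁).eventually_ge_atTop _)
  obtain ⟨Y2, hY2⟩ := eventually_atTop.1 (ev.and (eventually_ge_atTop 2))
  refine ⟨max Y1 Y2, fun Y hY q hq1 hqY => ?_⟩
  obtain ⟨e1, e2⟩ := hY2 Y ((le_max_right _ _).trans hY)
  intro a b ha hab hb
  have h1 := hM Y ((le_max_left _ _).trans hY) a b ha hab hb
  set F := (pr Y ε₁ β).filter (fun p => a ≤ tt Y p ∧ tt Y p < b) with hF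
  have hpY : ∀ p ∈ F, p.Prime ∧ (Y : ℝ) ^ ε₁ ≤ p := by
    intro p hp
    rw [hF, mem_filter, mem_pr'] at hp
    refine ⟨hp.1.2.1, ?_⟩
    rw [tt_mul_log Y e2 p hp.1.2.1.pos]
    have hY1 : (1 : ℝ) < Y := by exact_mod_cast e2
    exact Real.rpow_le_rpow_of_exponent_le hY1.le hp.1.2.2.1
  have hdiff : ∑ p ∈ F, 1 / (p : ℝ) - ∑ p ∈ F, hq q p = ∑ p ∈ F.filter (fun p => p ∣ q), 1 / (p : ℝ) := by
    have h9 : ∑ p ∈ F.filter (fun p => p ∣ q), 1 / (p : ℝ) =
        ∑ p ∈ F, (if p ∣ q then 1 / (p : ℝ) else 0) := sum_filter _ _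
    rw [h9, ← sum_sub_distrib]
    apply sum_congr rfl
    intro p _
    unfold hq
    split_ifs <;> simp
  have hYe : 0 < (Y : ℝ) ^ ε₁ := by
    have : (0 : ℝ) < Y := by exact_mod_cast (by omega : 0 < Y)
    positivity
  have h2 : ∑ p ∈ F.filter (fun p => p ∣ q), 1 / (p : ℝ) ≤ η / 2 := by
    have h3 : ∑ p ∈ F.filter (fun p => p ∣ q), 1 / (p : ℝ) ≤
        ∑ p ∈ F.filter (fun p => p ∣ q), 1 / (Y : ℝ) ^ ε₁ := by
      apply sum_le_sum
      intro p hp
      exact one_div_le_one_div_of_le hYe (hpY p (mem_filter.1 hp).1).2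
    rw [sum_const, nsmul_eq_mul] at h3
    have h4 := few_large Y q e2 hq1 ε₁ lam hε₁ hqY (F.filter (fun p => p ∣ q)) (by
      intro p hp
      rw [mem_filter] at hp
      exact ⟨hp.2, (hpY p hp.1).1, (hpY p hp.1).2⟩)
    have h5 : lam / ε₁ ≤ |lam| / ε₁ := div_le_div_of_nonneg_right (le_abs_self _) hε₁.le
    refine h3.trans ?_
    rw [mul_one_div, div_le_iff₀ hYe]
    have h6 : |lam| / ε₁ * (2 / η) ≤ (Y : ℝ) ^ ε₁ := by linarith
    calc ((F.filter (fun p => p ∣ q)).card : ℝ) ≤ |lam| / ε₁ := h4.trans h5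
      _ = η / 2 * (|lam| / ε₁ * (2 / η)) := by field_simp
      _ ≤ η / 2 * (Y : ℝ) ^ ε₁ := mul_le_mul_of_nonneg_left h6 (by linarith)
  have h3 : 0 ≤ ∑ p ∈ F.filter (fun p => p ∣ q), 1 / (p : ℝ) := sum_nonneg fun p _ => by positivity
  have h4 := abs_le.1 h1
  rw [abs_le]
  constructor <;> linarith [h4.1, h4.2]

end Pool.Agent.Y677.KU
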