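import Pool.Agent.Y677.KU.LinU
import Pool.Agent.W123.RP.Mert

set_option autoImplicit false

/-!
# Kuhn's weighted linear sieve for linear forms `a + q m`: the sieve product and the lower bound
-/

open Finset Filter Topology

namespace Pool.Agent.Y677.KU

open Pool.Agent.W23.DC Pool.Agent.Y882
open Pool.Agent.W123.RP Pool.Agent.H373R2.T7

/-- the factor `∏ (1 - 1 / p)` over the prime divisors -/
lemma phi_prod (q : ℕ) (hq : 1 ≤ q) :
    (Nat.totient q : ℝ) / q = ∏ p ∈ q.primeFactors, (1 - 1 / (p : ℝ)) := by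
  have h1 := Nat.totient_eq_mul_prod_factors q
  have h2 : ((Nat.totient q : ℚ) : ℝ) = ((q * ∏ p ∈ q.primeFactors, (1 - (p : ℚ)⁻¹) : ℚ) : ℝ) := by
    rw [h1]
  push_cast at h2
  have hq0 : (q : ℝ) ≠ 0 := by
    have : q ≠ 0 := by omega
    exact_mod_cast this
  rw [h2, mul_comm, mul_div_assoc, div_self hq0, mul_one]
  simp only [one_div]

lemma fac01 (p : ℕ) (hp : p.Prime) : 1 / 2 ≤ 1 - 1 / (p : ℝ) ∧ 1 - 1 / (p : ℝ) ≤ 1 := by
  have h2 : (2 : ℝ) ≤ p := by exact_mod_cast hp.two_le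
  have h3 : 1 / (p : ℝ) ≤ 1 / 2 := one_div_le_one_div_of_le (by norm_num) h2
  have h4 : 0 ≤ 1 / (p : ℝ) := by positivity
  constructor <;> linarith

/-- the product over the primes that do not divide `q` -/
noncomputable def Wq (S : Finset ℕ) (q : ℕ) : ℝ := ∏ p ∈ S, (1 - hq q p)

lemma Wq_mul (S : Finset ℕ) (q : ℕ) :
    Wq S q * ∏ p ∈ S.filter (fun p => p ∣ q), (1 - 1 / (p : ℝ)) = ∏ p ∈ S, (1 - 1 / (p : ℝ)) := by
  unfold Wq
  rw [prod_filter, ← prod_mul_distrib]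
  apply prod_congr rfl
  intro p _
  unfold hq
  split_ifs <;> simp

/-- upper bound -/
lemma Wq_upper (S : Finset ℕ) (hS : ∀ p ∈ S, p.Prime) (q : ℕ) (hq : 1 ≤ q) :
    Wq S q * ((Nat.totient q : ℝ) / q) ≤ ∏ p ∈ S, (1 - 1 / (p : ℝ)) := by
  rw [phi_prod q hq, ← Wq_mul S q]
  apply mul_le_mul_of_nonneg_left
  · have hsub : S.filter (fun p => p ∣ q) ⊆ q.primeFactors := by
      intro p hp
      rw [mem_filter] at hp
      exact Nat.mem_primeFactors.2 ⟨hS p hp.1, hp.2, by omega⟩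
    rw [← prod_sdiff hsub]
    have h1 : ∏ p ∈ q.primeFactors \ S.filter (fun p => p ∣ q), (1 - 1 / (p : ℝ)) ≤ 1 := by
      apply Finset.prod_le_one
      · intro p hp
        have := (fac01 p (Nat.prime_of_mem_primeFactors (mem_sdiff.1 hp).1)).1
        linarith
      · intro p hp
        exact (fac01 p (Nat.prime_of_mem_primeFactors (mem_sdiff.1 hp).1)).2
    have h2 : 0 ≤ ∏ p ∈ S.filter (fun p => p ∣ q), (1 - 1 / (p : ℝ)) := by
      apply Finset.prod_nonneg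
      intro p hp
      have := (fac01 p (hS p (mem_filter.1 hp).1)).1
      linarith
    calc _ ≤ 1 * ∏ p ∈ S.filter (fun p => p ∣ q), (1 - 1 / (p : ℝ)) :=
          mul_le_mul_of_nonneg_right h1 h2
      _ = _ := one_mul _
  · unfold Wq
    apply Finset.prod_nonneg
    intro p hp
    unfold KU.hq
    split_ifs
    · norm_num
    · have := (fac01 p (hS p hp)).1
      linarith

/-- lower bound -/
lemma Wq_lower (ε₁ lam : ℝ) (hε₁ : 0 < ε₁) (he1 : ε₁ ≤ 1) : ∃ c : ℝ, 0 < c ∧ ∀ Y q : ℕ, 2 ≤ Y → 1 ≤ q →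
    (q : ℝ) ≤ (Y : ℝ) ^ lam → c / Real.log Y ≤ Wq (PZ Y ε₁) q * ((Nat.totient q : ℝ) / q) := by
  obtain ⟨c, C, hc, hC, hV⟩ := Vz_bounds
  obtain ⟨k, hk⟩ := exists_nat_ge (lam / ε₁)
  refine ⟨c * (1 / 2) ^ k, by positivity, fun Y q hY hq1 hqY => ?_⟩
  have hY1 : (1 : ℝ) < Y := by exact_mod_cast hY
  have hl : 0 < Real.log Y := Real.log_pos hY1
  have h1 := (hV Y hY).1
  have hsubz : PZ Y ε₁ ⊆ pz Y := by
    intro p hp
    rw [mem_PZ] at hp
    exact mem_pz.2 ⟨hp.1.2, hp.2.1⟩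
  have h2 : Vz Y ≤ ∏ p ∈ PZ Y ε₁, (1 - 1 / (p : ℝ)) := by
    unfold Vz
    rw [← prod_sdiff hsubz]
    have h3 : ∏ p ∈ pz Y \ PZ Y ε₁, (1 - 1 / (p : ℝ)) ≤ 1 := by
      apply Finset.prod_le_one
      · intro p hp
        have := (fac01 p (mem_pz.1 (mem_sdiff.1 hp).1).2).1
        linarith
      · intro p hp
        exact (fac01 p (mem_pz.1 (mem_sdiff.1 hp).1).2).2
    have h4 : 0 ≤ ∏ p ∈ PZ Y ε₁, (1 - 1 / (p : ℝ)) := by
      apply Finset.prod_nonneg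
      intro p hp
      have := (fac01 p (mem_PZ.1 hp).2.1).1
      linarith
    calc _ ≤ 1 * ∏ p ∈ PZ Y ε₁, (1 - 1 / (p : ℝ)) := mul_le_mul_of_nonneg_right h3 h4
      _ = _ := one_mul _
  rw [phi_prod q hq1]
  set A := q.primeFactors.filter (fun p => p ∈ PZ Y ε₁) with hA
  set B := q.primeFactors.filter (fun p => p ∉ PZ Y ε₁) with hB
  have hAB : ∏ p ∈ q.primeFactors, (1 - 1 / (p : ℝ)) =
      (∏ p ∈ A, (1 - 1 / (p : ℝ))) * ∏ p ∈ B, (1 - 1 / (p : ℝ)) :=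
    (prod_filter_mul_prod_filter_not _ _ _).symm
  have hAe : A = (PZ Y ε₁).filter (fun p => p ∣ q) := by
    ext p
    rw [hA, mem_filter, mem_filter, Nat.mem_primeFactors]
    constructor
    · rintro ⟨⟨_, h4, _⟩, h5⟩
      exact ⟨h5, h4⟩
    · rintro ⟨h4, h5⟩
      exact ⟨⟨(mem_PZ.1 h4).2.1, h5, by omega⟩, h4⟩
  rw [hAB, ← mul_assoc, hAe, Wq_mul]
  have hBc : (B.card : ℝ) ≤ k := by
    refine (few_large Y q hY hq1 ε₁ lam hε₁ hqY B ?_).trans hk
    intro p hp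
    rw [hB, mem_filter, Nat.mem_primeFactors] at hp
    refine ⟨hp.1.2.1, hp.1.1, ?_⟩
    by_cases hpY : p ≤ Y
    · rw [tt_mul_log Y hY p hp.1.1.pos]
      apply Real.rpow_le_rpow_of_exponent_le hY1.le
      by_contra hcon
      rw [not_le] at hcon
      exact hp.2 (mem_PZ.2 ⟨⟨hp.1.1.one_le, hpY⟩, hp.1.1, hcon⟩)
    · rw [not_le] at hpY
      calc (Y : ℝ) ^ ε₁ ≤ (Y : ℝ) ^ (1 : ℝ) := Real.rpow_le_rpow_of_exponent_le hY1.le he1
        _ = Y := Real.rpow_one _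
        _ ≤ p := by exact_mod_cast hpY.le
  have hBc' : B.card ≤ k := by exact_mod_cast hBc
  have hBp : (1 / 2 : ℝ) ^ k ≤ ∏ p ∈ B, (1 - 1 / (p : ℝ)) := by
    calc (1 / 2 : ℝ) ^ k ≤ (1 / 2) ^ B.card := pow_le_pow_of_le_one (by norm_num) (by norm_num) hBc'
      _ = ∏ p ∈ B, (1 / 2 : ℝ) := by rw [prod_const]
      _ ≤ _ := by
        apply Finset.prod_le_prod
        · intro p _
          norm_num
        · intro p hp
          exact (fac01 p (Nat.prime_of_mem_primeFactors (mem_filter.1 hp).1)).1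
  calc c * (1 / 2) ^ k / Real.log Y = (c / Real.log Y) * (1 / 2) ^ k := by ring
    _ ≤ (∏ p ∈ PZ Y ε₁, (1 - 1 / (p : ℝ))) * ∏ p ∈ B, (1 - 1 / (p : ℝ)) :=
        mul_le_mul (h1.trans h2) hBp (by positivity) (le_trans (by positivity) (h1.trans h2))

lemma cond_hq (q L : ℕ) (ε₁ β η₁ : ℝ) (hM : Mer (pr L ε₁ β) (tt L) (hq q) ε₁ β η₁) :
    Cond 1 L ε₁ β η₁ (hq q) where
  nn := fun p _ => by
    unfold hq
    split_ifs <;> positivity
  le1 := fun p hp => by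
    have h := (fac01 p (mem_PZ.1 hp).2.1).1
    unfold hq
    split_ifs
    · norm_num
    · linarith
  leκ := fun p hp _ => by
    have hpp := (mem_PZ.1 hp).2.1
    have hp0 : (2 : ℝ) ≤ p := by exact_mod_cast hpp.two_le
    unfold hq
    push_cast
    split_ifs
    · exact div_nonneg zero_le_one (by linarith)
    · exact one_div_le_one_div_of_le (by linarith) (by linarith)
  mer := hM

open Classical in
/-- **Kuhn's weights for linear forms** -/
theorem lower_lin (ζ β lam : ℝ) (h4 : 1 / 4 ≤ ζ) (h2 : ζ < 1 / 2) (hζβ : ζ ≤ β) (hβ : ζ + β < 1) :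
    ∃ c : ℝ, 0 < c ∧ ∀ᶠ L : ℕ in atTop, ∀ q : ℕ, 1 ≤ q → (q : ℝ) ≤ (L : ℝ) ^ lam →
      ∀ a : ℕ, Nat.Coprime a q → ∀ M : ℕ, c * (q / Nat.totient q) * L / Real.log L ≤
      (((Ioc M (M + L)).filter (fun m => (∀ p ∈ PZ L ζ, ¬ p ∣ a + q * m) ∧
        ((pr L ζ β).filter (fun p => p ∣ a + q * m)).card ≤ 1)).card : ℝ) := by
  obtain ⟨τ, hτ1, hτ2⟩ : ∃ τ : ℝ, max (2 * ζ) (ζ + β) < τ ∧ τ < 1 :=
    exists_between (max_lt (by linarith) hβ)
  have hτa : 2 * ζ < τ := (le_max_left _ _).trans_lt hτ1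
  have hτb : ζ + β < τ := (le_max_right _ _).trans_lt hτ1
  obtain ⟨δ, hδ0, hδ⟩ : ∃ δ : ℝ, 0 < δ ∧ τ + δ = 1 - δ := ⟨(1 - τ) / 2, by linarith, by ring⟩
  have hδ1 : δ < 1 := by linarith
  obtain ⟨ε₁, η₁, c₀, hε₁, hε₁ζ, hη₁, hc₀, Y0, hkuhn⟩ := kuhn 1 τ ζ β δ (by linarith) hτa
    (by linarith) hτ2.le hζβ hτb hδ0
  obtain ⟨Y1, hM⟩ := mer_lin ε₁ β η₁ lam hε₁ (by linarith) hη₁
  obtain ⟨v, hv, hV⟩ := Wq_lower ε₁ lam hε₁ (by linarith)
  refine ⟨c₀ * v / 2, by positivity, ?_⟩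
  have ev := log_sq_le 12 (c₀ * v) δ (by positivity) hδ0
  filter_upwards [ev, eventually_ge_atTop (max (max Y0 Y1) 3)] with L e1 e2 q hq1 hqL a haq M
  have hL3 : 3 ≤ L := (le_max_right _ _).trans e2
  have hLY0 : Y0 ≤ L := (le_max_left _ _).trans ((le_max_left _ _).trans e2)
  have hLY1 : Y1 ≤ L := (le_max_right _ _).trans ((le_max_left _ _).trans e2)
  have hL3r : (3 : ℝ) ≤ L := by exact_mod_cast hL3
  have hL0 : (0 : ℝ) < L := by linarith
  have hl0 : 0 < Real.log L := Real.log_pos (by linarith)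
  have hφ0 : (0 : ℝ) < Nat.totient q := by exact_mod_cast Nat.totient_pos.2 (by omega)
  have hq0 : (0 : ℝ) < q := by exact_mod_cast (by omega : 0 < q)
  have hφq : (1 : ℝ) ≤ q / Nat.totient q := by
    rw [le_div_iff₀ hφ0, one_mul]
    exact_mod_cast Nat.totient_le q
  have hcond : Cond 1 L ε₁ β η₁ (hq q) := cond_hq q L ε₁ β η₁ (hM L hLY1 q hq1 hqL)
  have h5 := hkuhn L hLY0 (Ioc M (M + L)) (fun m => a + q * m) L (hq q) (Nat.cast_nonneg _) hcond
  refine le_trans ?_ h5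
  have h6 := hV L q (by omega) hq1 hqL
  have h6' : v / Real.log L * (q / Nat.totient q) ≤ ∏ p ∈ PZ L ε₁, (1 - hq q p) := by
    have h7 := mul_le_mul_of_nonneg_right h6 (show (0 : ℝ) ≤ q / Nat.totient q by positivity)
    refine h7.trans (le_of_eq ?_)
    unfold Wq
    field_simp
  have h7 : ∑ T ∈ (PZ L β).powerset.filter (fun T => ((∏ p ∈ T, p : ℕ) : ℝ) ≤ (L : ℝ) ^ (τ + δ)),
      Er (Ioc M (M + L)) (fun m => a + q * m) L (hq q) T ≤ (L : ℝ) ^ (τ + δ) := by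
    calc _ ≤ ∑ T ∈ (PZ L β).powerset.filter
          (fun T => ((∏ p ∈ T, p : ℕ) : ℝ) ≤ (L : ℝ) ^ (τ + δ)), (1 : ℝ) := by
          apply sum_le_sum
          intro T hT
          rw [mem_filter, mem_powerset] at hT
          exact er_lin a q haq M L T (fun p hp => (mem_PZ.1 (hT.1 hp)).2.1)
      _ = ((PZ L β).powerset.filter
          (fun T => ((∏ p ∈ T, p : ℕ) : ℝ) ≤ (L : ℝ) ^ (τ + δ))).card := by
          rw [sum_const, nsmul_eq_mul, mul_one]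
      _ ≤ (L : ℝ) ^ (τ + δ) := card_T_le (PZ L β) _ (fun p hp => (mem_PZ.1 hp).2.1)
          (Real.one_le_rpow (by linarith) (by linarith))
  have h8 : (L : ℝ) ^ (τ + δ) = L / (L : ℝ) ^ δ := by
    rw [hδ, Real.rpow_sub hL0, Real.rpow_one]
  rw [h8] at h7
  have h9 : c₀ * L * (v / Real.log L * (q / Nat.totient q)) ≤ c₀ * L * ∏ p ∈ PZ L ε₁, (1 - hq q p) :=
    mul_le_mul_of_nonneg_left h6' (by positivity)
  rw [← h8] at h7
  have h10 : 6 * Real.log L * ∑ T ∈ (PZ L β).powerset.filter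
      (fun T => ((∏ p ∈ T, p : ℕ) : ℝ) ≤ (L : ℝ) ^ (τ + δ)),
        Er (Ioc M (M + L)) (fun m => a + q * m) L (hq q) T ≤ 6 * Real.log L * (L / (L : ℝ) ^ δ) := by
    rw [h8] at h7 ⊢
    exact mul_le_mul_of_nonneg_left h7 (by positivity)
  have h11 : 6 * Real.log L * (L / (L : ℝ) ^ δ) ≤ c₀ * v / 2 * L / Real.log L := by
    have hp : 0 < (L : ℝ) ^ δ := by positivity
    rw [le_div_iff₀ hl0]
    calc 6 * Real.log L * (L / (L : ℝ) ^ δ) * Real.log L =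
          (12 * Real.log L ^ 2) * (L / 2 / (L : ℝ) ^ δ) := by
          field_simp
          ring
      _ ≤ (c₀ * v * (L : ℝ) ^ δ) * (L / 2 / (L : ℝ) ^ δ) :=
          mul_le_mul_of_nonneg_right e1 (by positivity)
      _ = _ := by
          field_simp
  have h12 : c₀ * v / 2 * L / Real.log L ≤ c₀ * v / 2 * L / Real.log L * (q / Nat.totient q) :=
    le_mul_of_one_le_right (by positivity) hφq
  have h13 : c₀ * L * (v / Real.log L * (q / Nat.totient q)) =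
      c₀ * v / 2 * (q / Nat.totient q) * L / Real.log L +
        c₀ * v / 2 * L / Real.log L * (q / Nat.totient q) := by
    field_simp
    ring
  linarith

end Pool.Agent.Y677.KU
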