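import Pool.Agent.Y677.KU.Roots
import Pool.Agent.W123.RU.PolyV
import Pool.Agent.Y882.PX.Ro

set_option autoImplicit false

/-!
# Counting the multiples among polynomial values
-/

open Polynomial Finset Filter Topology

namespace Pool.Agent.Y677.KU

open Pool.Agent.W23.DC Pool.Agent.Y882
open Pool.Agent.H474R2.PG (rho)

/-- the average number of roots modulo `p` is one -/
theorem avg_rho (f : ℤ[X]) (hf : Irreducible f) (hd : 0 < f.natDegree) :
    Tendsto (fun N : ℕ => (∑ p ∈ (range (N + 1)).filter Nat.Prime, (rho f p : ℝ)) /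
      (Nat.primeCounting N : ℝ)) atTop (𝓝 1) := by
  obtain ⟨K1, iF1, iN1, B1, h1⟩ := Pool.Agent.H474R2.PG.homs_le_rho f hf hd
  obtain ⟨K2, iF2, iN2, B2, h2⟩ := Pool.Agent.H474R2.GE.rho_le_homs f hf hd
  have t1 := Pool.Agent.H484R2.pit K1
  have t2 := Pool.Agent.H484R2.pit K2
  have hpi : Tendsto (fun N : ℕ => (Nat.primeCounting N : ℝ)) atTop atTop :=
    Pool.Agent.H484R2.primeCounting_tendsto_real
  set C1 : ℝ := ∑ p ∈ (range (B1 + 1)).filter Nat.Prime, (Nat.card (NumberField.RingOfIntegers K1 →+* ZMod p) : ℝ)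
    with hC1
  set C2 : ℝ := ∑ p ∈ (range (B2 + 1)).filter Nat.Prime, (rho f p : ℝ) with hC2
  have hz1 : Tendsto (fun N : ℕ => C1 / (Nat.primeCounting N : ℝ)) atTop (𝓝 0) :=
    hpi.const_div_atTop C1
  have hz2 : Tendsto (fun N : ℕ => C2 / (Nat.primeCounting N : ℝ)) atTop (𝓝 0) :=
    hpi.const_div_atTop C2
  have l1 := t1.sub hz1
  have l2 := t2.add hz2
  rw [sub_zero] at l1
  rw [add_zero] at l2
  refine tendsto_of_tendsto_of_tendsto_of_le_of_le l1 l2 ?_ ?_
  · intro N
    show _ / _ - C1 / _ ≤ _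
    rw [← sub_div]
    apply div_le_div_of_nonneg_right _ (Nat.cast_nonneg _)
    have h3 : ∀ p ∈ (range (N + 1)).filter Nat.Prime,
        (Nat.card (NumberField.RingOfIntegers K1 →+* ZMod p) : ℝ) -
          (if p ≤ B1 then (Nat.card (NumberField.RingOfIntegers K1 →+* ZMod p) : ℝ) else 0) ≤
          rho f p := by
      intro p hp
      rw [mem_filter] at hp
      split_ifs with h
      · rw [sub_self]
        exact Nat.cast_nonneg _
      · rw [sub_zero]
        exact_mod_cast h1 p hp.2 (by omega)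
    have h4 := sum_le_sum h3
    rw [sum_sub_distrib, ← sum_filter] at h4
    refine le_trans ?_ h4
    apply sub_le_sub_left
    apply sum_le_sum_of_subset_of_nonneg
    · intro p hp
      rw [mem_filter, mem_filter] at hp
      rw [mem_filter, mem_range]
      exact ⟨by omega, hp.1.2⟩
    · intro p _ _
      exact Nat.cast_nonneg _
  · intro N
    show _ ≤ _ / _ + C2 / _
    rw [← add_div]
    apply div_le_div_of_nonneg_right _ (Nat.cast_nonneg _)
    have h3 : ∀ p ∈ (range (N + 1)).filter Nat.Prime, (rho f p : ℝ) ≤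
        (Nat.card (NumberField.RingOfIntegers K2 →+* ZMod p) : ℝ) +
          (if p ≤ B2 then (rho f p : ℝ) else 0) := by
      intro p hp
      rw [mem_filter] at hp
      split_ifs with h
      · have : (0 : ℝ) ≤ (Nat.card (NumberField.RingOfIntegers K2 →+* ZMod p) : ℝ) := Nat.cast_nonneg _
        linarith
      · rw [add_zero]
        exact_mod_cast h2 p hp.2 (by omega)
    have h4 := sum_le_sum h3
    rw [sum_add_distrib, ← sum_filter] at h4
    refine h4.trans ?_
    apply add_le_add_right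
    apply sum_le_sum_of_subset_of_nonneg
    · intro p hp
      rw [mem_filter, mem_filter] at hp
      rw [mem_filter, mem_range]
      exact ⟨by omega, hp.1.2⟩
    · intro p _ _
      exact Nat.cast_nonneg _

/-- one residue class in an interval -/
lemma card_class (X L d r : ℕ) (hd : 0 < d) (hr : r < d) :
    |(((Ioc X (X + L)).filter (fun n => n % d = r)).card : ℝ) - L / d| ≤ 1 := by
  have h1 := Nat.Ioc_filter_modEq_card X (X + L) hd r
  have h2 : (Ioc X (X + L)).filter (fun n => n % d = r) =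
      (Ioc X (X + L)).filter (fun n => n ≡ r [MOD d]) := by
    apply filter_congr
    intro n _
    unfold Nat.ModEq
    rw [Nat.mod_eq_of_lt hr]
  rw [h2]
  set x : ℚ := (X - r : ℚ) / d with hx
  have h3 : (((X + L : ℕ) : ℚ) - r) / d = x + (L : ℚ) / d := by
    rw [hx]
    push_cast
    ring
  rw [h3] at h1
  have hd0 : (0 : ℚ) < d := by exact_mod_cast hd
  have hL : (0 : ℚ) ≤ (L : ℚ) / d := by positivity
  have h4 : ⌊x⌋ ≤ ⌊x + (L : ℚ) / d⌋ := Int.floor_le_floor (by linarith)
  rw [max_eq_left (by linarith)] at h1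
  have h5 : ((((Ioc X (X + L)).filter (fun n => n ≡ r [MOD d])).card : ℤ) : ℚ) =
      (⌊x + (L : ℚ) / d⌋ : ℚ) - (⌊x⌋ : ℚ) := by
    rw [h1]
    push_cast
    rfl
  have a1 := Int.floor_le x
  have a2 := Int.lt_floor_add_one x
  have a3 := Int.floor_le (x + (L : ℚ) / d)
  have a4 := Int.lt_floor_add_one (x + (L : ℚ) / d)
  have h6 : |((((Ioc X (X + L)).filter (fun n => n ≡ r [MOD d])).card : ℤ) : ℚ) - (L : ℚ) / d| ≤ 1 := by
    rw [h5, abs_le]
    constructor <;> linarith
  have h7 : ((|((((Ioc X (X + L)).filter (fun n => n ≡ r [MOD d])).card : ℤ) : ℚ) - (L : ℚ) / d| : ℚ) : ℝ) ≤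
      ((1 : ℚ) : ℝ) := by exact_mod_cast h6
  push_cast at h7
  exact h7

open Classical in
/-- the multiples of `d` among the values in an interval -/
lemma cnt_bound (f : ℤ[X]) (X L d : ℕ) (hd : 0 < d) :
    |(((Ioc X (X + L)).filter (fun n : ℕ => (d : ℤ) ∣ f.eval (n : ℤ))).card : ℝ) -
      L * (rho f d / d)| ≤ rho f d := by
  set A : Finset ℕ := (range d).filter (fun a : ℕ => (d : ℤ) ∣ f.eval (a : ℤ)) with hA
  have hAc : A.card = rho f d := rfl
  have h1 : (Ioc X (X + L)).filter (fun n : ℕ => (d : ℤ) ∣ f.eval (n : ℤ)) =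
      A.biUnion (fun a => (Ioc X (X + L)).filter (fun n => n % d = a)) := by
    ext n
    rw [mem_filter, mem_biUnion]
    constructor
    · rintro ⟨h2, h3⟩
      refine ⟨n % d, ?_, mem_filter.2 ⟨h2, rfl⟩⟩
      rw [hA, mem_filter, mem_range]
      exact ⟨Nat.mod_lt _ hd, (Pool.Agent.W123.RU.Poly.per1 f d n).1 h3⟩
    · rintro ⟨a, ha, hn⟩
      rw [mem_filter] at hn
      rw [hA, mem_filter] at ha
      refine ⟨hn.1, (Pool.Agent.W123.RU.Poly.per1 f d n).2 ?_⟩
      rw [hn.2]
      exact ha.2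
  have h2 : ((Ioc X (X + L)).filter (fun n : ℕ => (d : ℤ) ∣ f.eval (n : ℤ))).card =
      ∑ a ∈ A, ((Ioc X (X + L)).filter (fun n => n % d = a)).card := by
    rw [h1, card_biUnion]
    intro a _ b _ hab
    rw [Function.onFun, disjoint_left]
    intro n hn hn'
    rw [mem_filter] at hn hn'
    exact hab (hn.2.symm.trans hn'.2)
  rw [h2, ← hAc]
  push_cast
  have h3 : (L : ℝ) * ((A.card : ℝ) / d) = ∑ a ∈ A, (L : ℝ) / d := by
    rw [sum_const, nsmul_eq_mul]
    ring
  rw [h3, ← sum_sub_distrib]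
  refine (abs_sum_le_sum_abs _ _).trans ?_
  calc ∑ a ∈ A, |(((Ioc X (X + L)).filter (fun n => n % d = a)).card : ℝ) - L / d| ≤
      ∑ a ∈ A, (1 : ℝ) := by
        apply sum_le_sum
        intro a ha
        rw [hA, mem_filter, mem_range] at ha
        exact card_class X L d a hd ha.1
    _ = A.card := by rw [sum_const, nsmul_eq_mul, mul_one]

lemma rho_prod (f : ℤ[X]) (T : Finset ℕ) (hT : ∀ p ∈ T, p.Prime) :
    rho f (∏ p ∈ T, p) = ∏ p ∈ T, rho f p := by
  classical
  have h := Pool.Agent.Y882.PX.ro_prod f 0 T hT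
  have e : ∀ q : ℕ, Pool.Agent.Y882.PX.ro f 0 q = rho f q := by
    intro q
    unfold Pool.Agent.Y882.PX.ro
    rw [C_0, add_zero]
    rfl
  simp only [e] at h
  exact h

/-- a bound for the number of roots modulo all primes -/
lemma rho_bd (f : ℤ[X]) (hf : f ≠ 0) : ∃ K : ℕ, 1 ≤ K ∧ ∀ p : ℕ, p.Prime → rho f p ≤ K := by
  obtain ⟨B, hB⟩ := Pool.Agent.H474R2.PG.rho_le f hf
  refine ⟨1 + B + f.natDegree, by omega, fun p hp => ?_⟩
  by_cases h : B < p
  · have := hB p hp h
    omega
  · have h1 : rho f p ≤ p := by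
      unfold rho
      refine (card_filter_le _ _).trans ?_
      rw [card_range]
    omega

end Pool.Agent.Y677.KU
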