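import Pool.Agent.Y677.KU.PolySq

set_option autoImplicit false

/-!
# Almost prime values of irreducible polynomials in short intervals, explicit numbers of prime factors
-/

open Polynomial Finset Filter Topology

namespace Pool.Agent.Y677.KU

open Pool.Agent.W23.DC Pool.Agent.Y882
open Pool.Agent.H474R2.PG (rho)
open Pool.Agent.W123.RU Pool.Agent.W123.RU.Poly

lemma pow_le_prod (b : ℝ) (hb : 0 ≤ b) (l : List ℕ) (h : ∀ x ∈ l, b ≤ (x : ℝ)) :
    b ^ l.length ≤ (l.prod : ℝ) := by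
  induction l with
  | nil => simp
  | cons x l ih =>
    rw [List.length_cons, List.prod_cons, pow_succ, mul_comm, Nat.cast_mul]
    exact mul_le_mul (h x (by simp)) (ih (fun y hy => h y (by simp [hy]))) (by positivity)
      (hb.trans (h x (by simp)))

lemma pow_len_le (b : ℝ) (hb : 0 ≤ b) (M : ℕ) (hM : M ≠ 0)
    (h : ∀ p : ℕ, p.Prime → p ∣ M → b ≤ (p : ℝ)) : b ^ M.primeFactorsList.length ≤ (M : ℝ) := by
  have h1 := pow_le_prod b hb M.primeFactorsList (fun x hx =>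
    h x (Nat.prime_of_mem_primeFactorsList hx) (Nat.dvd_of_mem_primeFactorsList hx))
  rwa [Nat.prod_primeFactorsList hM] at h1

/-- a number with one medium prime factor and otherwise large prime factors -/
lemma struct (N r : ℕ) (hN : N ≠ 0) (a b : ℝ) (ha : 1 ≤ a) (hab : a ≤ b)
    (h1 : ∀ p : ℕ, p.Prime → p ∣ N → a ≤ (p : ℝ))
    (h2 : ∀ p q : ℕ, p.Prime → q.Prime → p ∣ N → q ∣ N → (p : ℝ) < b → (q : ℝ) < b → p = q)
    (h3 : ∀ q : ℕ, q.Prime → (q : ℝ) < b → ¬ q ^ 2 ∣ N)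
    (hr : r + 1 ≤ N.primeFactorsList.length) : a * b ^ r ≤ (N : ℝ) := by
  have hb1 : 1 ≤ b := ha.trans hab
  by_cases hq : ∃ q : ℕ, q.Prime ∧ q ∣ N ∧ (q : ℝ) < b
  · obtain ⟨q, hqp, hqN, hqb⟩ := hq
    obtain ⟨M, hM⟩ := hqN
    have hM0 : M ≠ 0 := by
      rintro rfl
      exact hN (by rw [hM, mul_zero])
    have hlen : N.primeFactorsList.length = M.primeFactorsList.length + 1 := by
      rw [hM, (Nat.perm_primeFactorsList_mul hqp.ne_zero hM0).length_eq, List.length_append,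
        Nat.primeFactorsList_prime hqp, List.length_singleton, add_comm]
    have hMb := pow_len_le b (by linarith) M hM0 (by
      intro p hp hpM
      by_contra hcon
      rw [not_le] at hcon
      have hpN : p ∣ N := by
        rw [hM]
        exact dvd_mul_of_dvd_right hpM q
      have hpq : p = q := h2 p q hp hqp hpN (by rw [hM]; exact dvd_mul_right q M) hcon hqb
      subst hpq
      apply h3 p hp hcon
      rw [hM, sq]
      exact mul_dvd_mul_left p hpM)
    have h4 : b ^ r ≤ b ^ M.primeFactorsList.length := pow_le_pow_right₀ hb1 (by omega)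
    have h5 : a ≤ q := h1 q hqp (by rw [hM]; exact dvd_mul_right q M)
    rw [hM]
    push_cast
    exact mul_le_mul h5 (h4.trans hMb) (by positivity) (by positivity)
  · push Not at hq
    have hNb := pow_len_le b (by linarith) N hN (fun p hp hpN => hq p hp hpN)
    calc a * b ^ r ≤ b * b ^ r := mul_le_mul_of_nonneg_right hab (by positivity)
      _ = b ^ (r + 1) := by rw [pow_succ, mul_comm]
      _ ≤ b ^ N.primeFactorsList.length := pow_le_pow_right₀ hb1 hr
      _ ≤ N := hNb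

lemma size_bound (f : ℤ[X]) : ∃ C : ℝ, 1 ≤ C ∧ ∀ n : ℕ, 1 ≤ n →
    (G f n : ℝ) ≤ C * (n : ℝ) ^ f.natDegree := by
  refine ⟨1 + ∑ i ∈ range (f.natDegree + 1), |(f.coeff i : ℝ)|, ?_, fun n hn => ?_⟩
  · have : 0 ≤ ∑ i ∈ range (f.natDegree + 1), |(f.coeff i : ℝ)| := sum_nonneg fun i _ => abs_nonneg _
    linarith
  · have hn' : (1 : ℝ) ≤ n := by exact_mod_cast hn
    have h1 : (G f n : ℝ) = |((f.eval (n : ℤ) : ℤ) : ℝ)| := by
      unfold G
      rw [Nat.cast_natAbs, Int.cast_abs]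
    rw [h1, eval_eq_sum_range]
    push_cast
    refine (abs_sum_le_sum_abs _ _).trans ?_
    rw [add_mul, one_mul, sum_mul]
    have h2 : ∑ i ∈ range (f.natDegree + 1), |(f.coeff i : ℝ) * (n : ℝ) ^ i| ≤
        ∑ i ∈ range (f.natDegree + 1), |(f.coeff i : ℝ)| * (n : ℝ) ^ f.natDegree := by
      apply sum_le_sum
      intro i hi
      rw [mem_range] at hi
      rw [abs_mul, abs_of_nonneg (show (0 : ℝ) ≤ (n : ℝ) ^ i by positivity)]
      exact mul_le_mul_of_nonneg_left (pow_le_pow_right₀ hn' (by omega)) (abs_nonneg _)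
    have h3 : (0 : ℝ) ≤ (n : ℝ) ^ f.natDegree := by positivity
    linarith

lemma ne_zero_ev (P : ℤ[X]) (hP : P ≠ 0) : ∃ n₀ : ℕ, ∀ n : ℕ, n₀ ≤ n → G P n ≠ 0 := by
  refine ⟨(P.roots.toFinset.sup Int.natAbs) + 1, fun n hn h0 => ?_⟩
  have h1 : (n : ℤ) ∈ P.roots.toFinset := by
    rw [Multiset.mem_toFinset, mem_roots hP]
    exact Int.natAbs_eq_zero.1 h0
  have h2 : Int.natAbs (n : ℤ) ≤ P.roots.toFinset.sup Int.natAbs := Finset.le_sup h1
  rw [Int.natAbs_natCast] at h2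
  omega

open Classical in
/-- **Almost prime values of an irreducible polynomial in short intervals.** -/
theorem kuhn_poly (f : ℤ[X]) (hf : Poly.Sys (fun _ : Fin 1 => f)) (θ ζ : ℝ) (hθ : 0 < θ)
    (hζ4 : 1 / 4 ≤ ζ) (hζ2 : ζ < 1 / 2) (r : ℕ)
    (hr : (f.natDegree : ℝ) < θ * (ζ + r * (1 - ζ))) (hr1 : 1 ≤ r) :
    ∃ κ : ℝ, 0 < κ ∧ ∀ᶠ X : ℕ in atTop, ∀ Y : ℕ, (X : ℝ) ^ θ ≤ Y → Y ≤ X →
      κ * Y / Real.log X ≤ (((Ioc X (X + Y)).filter (fun n =>
        (∀ p : ℕ, p.Prime → p ∣ G f n → (Y : ℝ) ^ ζ ≤ p) ∧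
        (G f n).primeFactorsList.length ≤ r)).card : ℝ) := by
  have hrr : (1 : ℝ) ≤ r := by exact_mod_cast hr1
  obtain ⟨g, hg⟩ : ∃ g, g = f.natDegree := ⟨_, rfl⟩
  rw [← hg] at hr
  -- the second parameter
  obtain ⟨β, hβ1, hβ2, hβ3⟩ : ∃ β : ℝ, ζ ≤ β ∧ ζ + β < 1 ∧ (g : ℝ) < θ * (ζ + r * β) := by
    have h1 : ((g : ℝ) / θ - ζ) / r < 1 - ζ := by
      rw [div_lt_iff₀ (by linarith)]
      have : (g : ℝ) / θ < ζ + r * (1 - ζ) := by
        rw [div_lt_iff₀ hθ]
        linarith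
      linarith
    obtain ⟨β, h2, h3⟩ := exists_between (max_lt h1 (show ζ < 1 - ζ by linarith))
    refine ⟨β, ((le_max_right _ _).trans_lt h2).le, by linarith, ?_⟩
    have h4 := (le_max_left _ _).trans_lt h2
    rw [div_lt_iff₀ (by linarith)] at h4
    have h5 : (g : ℝ) / θ < ζ + r * β := by linarith
    rw [div_lt_iff₀ hθ] at h5
    linarith
  have hζ0 : 0 < ζ := by linarith
  have hβ0 : 0 < β := by linarith
  obtain ⟨c, hc, hlow⟩ := lower1 f hf ζ β hζ4 hζ2 hβ1 hβ2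
  have hsq := sq_few f (hf.irr 0) (hf.deg 0) ζ β (c / 2) (by linarith) (by linarith) (by positivity)
  obtain ⟨C, hC1, hC⟩ := size_bound f
  rw [← hg] at hC
  obtain ⟨n₀, hn₀⟩ := ne_zero_ev f (hf.irr 0).ne_zero
  obtain ⟨L0, hL0⟩ := eventually_atTop.1 (hlow.and (hsq.and (eventually_ge_atTop 3)))
  refine ⟨c / 2, by positivity, ?_⟩
  have hXr : Tendsto (fun X : ℕ => (X : ℝ)) atTop atTop := tendsto_natCast_atTop_atTop
  have e1 := ((tendsto_rpow_atTop hθ).comp hXr).eventually_ge_atTop ((L0 : ℝ) + 3)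
  have e2 := ((tendsto_rpow_atTop (show 0 < θ * (ζ + r * β) - g by linarith)).comp
    hXr).eventually_gt_atTop (C * 2 ^ g)
  filter_upwards [e1, e2, eventually_ge_atTop (n₀ + 3)] with X e1 e2 e3 Y hXY hYX
  simp only [Function.comp] at e1 e2
  have hX3 : 3 ≤ X := by omega
  have hX3r : (3 : ℝ) ≤ X := by exact_mod_cast hX3
  have hX0 : (0 : ℝ) < X := by linarith
  have hYr : (L0 : ℝ) + 3 ≤ Y := e1.trans hXY
  have hYL : L0 ≤ Y := by
    have : (L0 : ℝ) ≤ Y := by linarith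
    exact_mod_cast this
  obtain ⟨f1, f2, hY3⟩ := hL0 Y hYL
  have hY3r : (3 : ℝ) ≤ Y := by exact_mod_cast hY3
  have hY0 : (0 : ℝ) < Y := by linarith
  have hY1 : (1 : ℝ) < Y := by linarith
  have g1 := f1 X
  have g2 := f2 X
  have hlY : 0 < Real.log Y := Real.log_pos hY1
  have hlX : Real.log Y ≤ Real.log X := Real.log_le_log hY0 (by exact_mod_cast hYX)
  have hsub : (Ioc X (X + Y)).filter (fun n => (∀ p ∈ PZ Y ζ, ¬ p ∣ G f n) ∧
        ((pr Y ζ β).filter (fun q => q ∣ G f n)).card ≤ 1) ⊆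
      (Ioc X (X + Y)).filter (fun n =>
        (∀ p : ℕ, p.Prime → p ∣ G f n → (Y : ℝ) ^ ζ ≤ p) ∧
        (G f n).primeFactorsList.length ≤ r) ∪
      (Ioc X (X + Y)).filter (fun n => ∃ q ∈ pr Y ζ β, q ^ 2 ∣ G f n) := by
    intro n hn
    rw [mem_filter, mem_Ioc] at hn
    obtain ⟨⟨hn1, hn2⟩, hn3, hn4⟩ := hn
    rw [mem_union, mem_filter, mem_filter, mem_Ioc]
    by_cases hs : ∃ q ∈ pr Y ζ β, q ^ 2 ∣ G f n
    · right
      exact ⟨⟨hn1, hn2⟩, hs⟩
    · left
      have hbig : ∀ p : ℕ, p.Prime → p ∣ G f n → (Y : ℝ) ^ ζ ≤ p := by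
        intro p hp hpn
        by_cases hpY : p ≤ Y
        · by_contra hcon
          rw [not_le] at hcon
          apply hn3 p _ hpn
          rw [mem_PZ]
          refine ⟨⟨hp.one_le, hpY⟩, hp, ?_⟩
          rw [tt_mul_log Y (by omega) p hp.pos] at hcon
          exact (Real.rpow_lt_rpow_left_iff hY1).1 hcon
        · rw [not_le] at hpY
          calc (Y : ℝ) ^ ζ ≤ (Y : ℝ) ^ (1 : ℝ) :=
                Real.rpow_le_rpow_of_exponent_le hY1.le (by linarith)
            _ = Y := Real.rpow_one _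
            _ ≤ p := by exact_mod_cast hpY.le
      refine ⟨⟨hn1, hn2⟩, hbig, ?_⟩
      by_contra hlen
      rw [not_le] at hlen
      have hmem : ∀ q : ℕ, q.Prime → q ∣ G f n → (q : ℝ) < (Y : ℝ) ^ β → q ∈ pr Y ζ β := by
        intro q hq hqn hqb
        have h1 := hbig q hq hqn
        rw [mem_pr']
        have hqe := tt_mul_log Y (by omega) q hq.pos
        rw [hqe] at h1 hqb
        have h2 := (Real.rpow_le_rpow_left_iff hY1).1 h1
        have h3 := (Real.rpow_lt_rpow_left_iff hY1).1 hqb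
        refine ⟨⟨hq.one_le, ?_⟩, hq, h2, h3⟩
        have h4 : (q : ℝ) ≤ Y := by
          rw [hqe]
          calc (Y : ℝ) ^ (tt Y q) ≤ (Y : ℝ) ^ (1 : ℝ) :=
                Real.rpow_le_rpow_of_exponent_le hY1.le (by linarith)
            _ = Y := Real.rpow_one _
        exact_mod_cast h4
      have h1 := struct (G f n) r (hn₀ n (by omega)) ((Y : ℝ) ^ ζ) ((Y : ℝ) ^ β)
        (Real.one_le_rpow hY1.le (by linarith)) (Real.rpow_le_rpow_of_exponent_le hY1.le hβ1)
        hbig (by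
          intro p q hp hq hpn hqn hpb hqb
          have h5 : p ∈ (pr Y ζ β).filter (fun q => q ∣ G f n) :=
            mem_filter.2 ⟨hmem p hp hpn hpb, hpn⟩
          have h6 : q ∈ (pr Y ζ β).filter (fun q => q ∣ G f n) :=
            mem_filter.2 ⟨hmem q hq hqn hqb, hqn⟩
          exact card_le_one.1 hn4 p h5 q h6) (by
          intro q hq hqb hqn
          exact hs ⟨q, hmem q hq (dvd_trans (dvd_pow_self q two_ne_zero) hqn) hqb, hqn⟩) hlen
      have h2 := hC n (by omega)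
      have h3 : (n : ℝ) ≤ 2 * X := by
        have : n ≤ 2 * X := by omega
        exact_mod_cast this
      have h4 : (G f n : ℝ) ≤ C * 2 ^ g * (X : ℝ) ^ (g : ℝ) := by
        calc (G f n : ℝ) ≤ C * (n : ℝ) ^ g := h2
          _ ≤ C * (2 * X) ^ g := by gcongr
          _ = C * 2 ^ g * (X : ℝ) ^ g := by rw [mul_pow]; ring
          _ = _ := by rw [Real.rpow_natCast]
      have h5 : (X : ℝ) ^ (θ * (ζ + r * β)) ≤ (Y : ℝ) ^ ζ * ((Y : ℝ) ^ β) ^ r := by
        rw [← Real.rpow_natCast, ← Real.rpow_mul hY0.le, ← Real.rpow_add hY0, Real.rpow_mul hX0.le,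
          mul_comm β]
        exact Real.rpow_le_rpow (by positivity) hXY (by positivity)
      have h6 : C * 2 ^ g * (X : ℝ) ^ (g : ℝ) < (X : ℝ) ^ (θ * (ζ + r * β)) := by
        have h7 : (X : ℝ) ^ (θ * (ζ + r * β)) =
            (X : ℝ) ^ (θ * (ζ + r * β) - g) * (X : ℝ) ^ (g : ℝ) := by
          rw [← Real.rpow_add hX0, sub_add_cancel]
        rw [h7]
        exact mul_lt_mul_of_pos_right e2 (by positivity)
      linarith
  have h1 := (card_le_card hsub).trans (card_union_le _ _)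
  have h2 : (((Ioc X (X + Y)).filter (fun n => (∀ p ∈ PZ Y ζ, ¬ p ∣ G f n) ∧
        ((pr Y ζ β).filter (fun q => q ∣ G f n)).card ≤ 1)).card : ℝ) ≤
      (((Ioc X (X + Y)).filter (fun n =>
        (∀ p : ℕ, p.Prime → p ∣ G f n → (Y : ℝ) ^ ζ ≤ p) ∧
        (G f n).primeFactorsList.length ≤ r)).card : ℝ) +
      (((Ioc X (X + Y)).filter (fun n => ∃ q ∈ pr Y ζ β, q ^ 2 ∣ G f n)).card : ℝ) := by
    exact_mod_cast h1
  have h3 : c / 2 * Y / Real.log X ≤ c / 2 * Y / Real.log Y :=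
    div_le_div_of_nonneg_left (by positivity) hlY hlX
  have h4 : c * Y / Real.log Y = c / 2 * Y / Real.log Y + c / 2 * Y / Real.log Y := by
    field_simp
    ring
  linarith

end Pool.Agent.Y677.KU
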