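import Pool.Agent.Y677.KU.PolyCount
import Pool.Agent.Y677.KU.Kuhn
import Pool.Agent.TH977.PW.Final

set_option autoImplicit false

/-!
# Kuhn's weighted linear sieve for an irreducible polynomial in short intervals
-/

open Polynomial Finset Filter Topology

namespace Pool.Agent.Y677.KU

open Pool.Agent.W23.DC Pool.Agent.Y882
open Pool.Agent.H474R2.PG (rho)
open Pool.Agent.W123.RU Pool.Agent.W123.RU.Poly

/-- the absolute value of a polynomial -/
def G (f : ℤ[X]) (n : ℕ) : ℕ := (f.eval (n : ℤ)).natAbs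

/-- the densities -/
noncomputable def hh (f : ℤ[X]) (p : ℕ) : ℝ := (rho f p : ℝ) / p

lemma dvd_G (f : ℤ[X]) (d n : ℕ) : d ∣ G f n ↔ (d : ℤ) ∣ f.eval (n : ℤ) := by
  unfold G
  exact Int.natCast_dvd.symm

lemma er_le (f : ℤ[X]) (X L : ℕ) (T : Finset ℕ) (hT : ∀ p ∈ T, p.Prime) (K : ℕ)
    (hK : ∀ p : ℕ, p.Prime → rho f p ≤ K) :
    Er (Ioc X (X + L)) (G f) L (hh f) T ≤ (K : ℝ) ^ T.card := by
  classical
  have hd : 0 < ∏ p ∈ T, p := Finset.prod_pos fun p hp => (hT p hp).pos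
  have h1 := cnt_bound f X L (∏ p ∈ T, p) hd
  have h2 : (Ioc X (X + L)).filter (fun n => (∏ p ∈ T, p) ∣ G f n) =
      (Ioc X (X + L)).filter (fun n : ℕ => ((∏ p ∈ T, p : ℕ) : ℤ) ∣ f.eval (n : ℤ)) := by
    apply filter_congr
    intro n _
    exact dvd_G f _ n
  have h3 : ∏ p ∈ T, hh f p = (rho f (∏ p ∈ T, p) : ℝ) / ((∏ p ∈ T, p : ℕ) : ℝ) := by
    rw [rho_prod f T hT]
    push_cast
    rw [← prod_div_distrib]
    rfl
  unfold Er
  rw [h3]
  have h4 : (rho f (∏ p ∈ T, p) : ℝ) ≤ (K : ℝ) ^ T.card := by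
    rw [rho_prod f T hT]
    push_cast
    rw [← prod_const]
    apply Finset.prod_le_prod
    · intro p _
      exact Nat.cast_nonneg _
    · intro p hp
      exact_mod_cast hK p (hT p hp)
  rw [← h2] at h1
  refine le_trans (le_of_eq ?_) (h1.trans h4)
  congr!

lemma er_sum (f : ℤ[X]) (hf : f ≠ 0) (η : ℝ) (hη : 0 < η) :
    ∃ C : ℝ, 1 ≤ C ∧ ∀ (X L : ℕ) (P : Finset ℕ) (D : ℝ), (∀ p ∈ P, p.Prime) → 1 ≤ D →
      ∑ T ∈ P.powerset.filter (fun T => ((∏ p ∈ T, p : ℕ) : ℝ) ≤ D),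
        Er (Ioc X (X + L)) (G f) L (hh f) T ≤ C * D ^ (1 + η) := by
  obtain ⟨K, hK1, hK⟩ := rho_bd f hf
  obtain ⟨C, hC1, hC⟩ := Pool.Agent.Y882.PX.pow_card_le K η hη
  refine ⟨C, hC1, fun X L P D hP hD => ?_⟩
  have h1 : ∀ T ∈ P.powerset.filter (fun T => ((∏ p ∈ T, p : ℕ) : ℝ) ≤ D),
      Er (Ioc X (X + L)) (G f) L (hh f) T ≤ C * D ^ η := by
    intro T hT
    rw [mem_filter, mem_powerset] at hT
    have hTp : ∀ p ∈ T, p.Prime := fun p hp => hP p (hT.1 hp)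
    refine (er_le f X L T hTp K hK).trans ((hC T hTp).trans ?_)
    apply mul_le_mul_of_nonneg_left _ (by linarith)
    exact Real.rpow_le_rpow (Nat.cast_nonneg _) hT.2 hη.le
  refine (sum_le_sum h1).trans ?_
  rw [sum_const, nsmul_eq_mul]
  have h2 : ((P.powerset.filter (fun T => ((∏ p ∈ T, p : ℕ) : ℝ) ≤ D)).card : ℝ) ≤ D := by
    have h3 : (P.powerset.filter (fun T => ((∏ p ∈ T, p : ℕ) : ℝ) ≤ D)).card ≤
        (Icc 1 ⌊D⌋₊).card := by
      apply card_le_card_of_injOn (fun T => ∏ p ∈ T, p)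
      · intro T hT
        rw [mem_coe, mem_filter, mem_powerset] at hT
        rw [mem_coe, mem_Icc]
        exact ⟨Finset.prod_pos fun p hp => (hP p (hT.1 hp)).pos, Nat.le_floor hT.2⟩
      · intro T hT T' hT' he
        rw [mem_coe, mem_filter, mem_powerset] at hT hT'
        simp only at he
        rw [← Nat.primeFactors_prod (fun p hp => hP p (hT.1 hp)), he,
          Nat.primeFactors_prod (fun p hp => hP p (hT'.1 hp))]
    rw [Nat.card_Icc, Nat.add_sub_cancel] at h3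
    have h4 : ((P.powerset.filter (fun T => ((∏ p ∈ T, p : ℕ) : ℝ) ≤ D)).card : ℝ) ≤ (⌊D⌋₊ : ℝ) := by
      exact_mod_cast h3
    exact h4.trans (Nat.floor_le (by linarith))
  have hC0 : 0 ≤ C * D ^ η := by positivity
  calc _ ≤ D * (C * D ^ η) := mul_le_mul_of_nonneg_right h2 hC0
    _ = C * D ^ (1 + η) := by
        rw [Real.rpow_add (by linarith), Real.rpow_one]
        ring

open Pool.Agent.W123.RP Pool.Agent.H373R2.T7

/-- the sieve product -/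
lemma V_ge (f : ℤ[X]) (hf : Poly.Sys (fun _ : Fin 1 => f)) : ∃ v : ℝ, 0 < v ∧ ∀ L : ℕ, 3 ≤ L →
    ∀ ε₁ : ℝ, v / Real.log L ≤ ∏ p ∈ PZ L ε₁, (1 - hh f p) := by
  classical
  obtain ⟨v, Cv, hv, hCv, hV⟩ := V_bounds (fun _ : Fin 1 => f) hf
  refine ⟨v, hv, fun L hL ε₁ => ?_⟩
  have h1 := (hV L hL).1
  rw [Fintype.card_fin, pow_one] at h1
  refine h1.trans ?_
  have hnu : ∀ p : ℕ, nuB (Q (fun _ : Fin 1 => f)) p = rho f p := by
    intro p
    unfold nuB rho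
    congr 1
    apply filter_congr
    intro r _
    unfold Q
    simp
  unfold Vq
  have hsub : PZ L ε₁ ⊆ pz L := by
    intro p hp
    rw [mem_PZ] at hp
    exact mem_pz.2 ⟨hp.1.2, hp.2.1⟩
  rw [← prod_sdiff hsub]
  have hfac : ∀ p : ℕ, p.Prime → 0 ≤ 1 - hh f p ∧ 1 - hh f p ≤ 1 := by
    intro p hp
    have hp0 : (0 : ℝ) < p := by exact_mod_cast hp.pos
    have h2 : rho f p ≤ p := by
      unfold rho
      refine (card_filter_le _ _).trans ?_
      rw [card_range]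
    have h3 : hh f p ≤ 1 := by
      unfold hh
      rw [div_le_one hp0]
      exact_mod_cast h2
    have h4 : 0 ≤ hh f p := by
      unfold hh
      positivity
    exact ⟨by linarith, by linarith⟩
  have e1 : ∏ p ∈ PZ L ε₁, (1 - (nuB (Q (fun _ : Fin 1 => f)) p : ℝ) / p) =
      ∏ p ∈ PZ L ε₁, (1 - hh f p) := by
    apply prod_congr rfl
    intro p _
    rw [hnu]
    rfl
  rw [e1]
  have e2 : ∏ p ∈ pz L \ PZ L ε₁, (1 - (nuB (Q (fun _ : Fin 1 => f)) p : ℝ) / p) ≤ 1 := by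
    apply Finset.prod_le_one
    · intro p hp
      rw [hnu]
      exact (hfac p (mem_pz.1 (mem_sdiff.1 hp).1).2).1
    · intro p hp
      rw [hnu]
      exact (hfac p (mem_pz.1 (mem_sdiff.1 hp).1).2).2
  have e3 : 0 ≤ ∏ p ∈ PZ L ε₁, (1 - hh f p) := by
    apply Finset.prod_nonneg
    intro p hp
    exact (hfac p (mem_PZ.1 hp).2.1).1
  calc _ ≤ 1 * ∏ p ∈ PZ L ε₁, (1 - hh f p) := mul_le_mul_of_nonneg_right e2 e3
    _ = _ := one_mul _

/-- powers of logarithms against powers -/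
lemma log_sq_le (A B a : ℝ) (hB : 0 < B) (ha : 0 < a) :
    ∀ᶠ L : ℕ in atTop, A * Real.log L ^ 2 ≤ B * (L : ℝ) ^ a := by
  have h1 := (isLittleO_log_rpow_rpow_atTop (2 : ℝ) ha).def (show 0 < B / (|A| + 1) by positivity)
  have h2 := (tendsto_natCast_atTop_atTop (R := ℝ)).eventually h1
  filter_upwards [h2, eventually_ge_atTop 1] with L h2 h3
  have h3r : (1 : ℝ) ≤ L := by exact_mod_cast h3
  have hl : 0 ≤ Real.log L := Real.log_nonneg h3r
  rw [Real.norm_of_nonneg (Real.rpow_nonneg hl _), Real.norm_of_nonneg (by positivity),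
    Real.rpow_two] at h2
  have hA : 0 < |A| + 1 := by positivity
  calc A * Real.log L ^ 2 ≤ (|A| + 1) * Real.log L ^ 2 :=
        mul_le_mul_of_nonneg_right (by linarith [le_abs_self A]) (by positivity)
    _ ≤ (|A| + 1) * (B / (|A| + 1) * (L : ℝ) ^ a) := mul_le_mul_of_nonneg_left h2 hA.le
    _ = B * (L : ℝ) ^ a := by
        field_simp

lemma cond_hh (f : ℤ[X]) (K : ℕ) (hKb : ∀ p : ℕ, p.Prime → rho f p ≤ K) (L : ℕ) (ε₁ β η₁ : ℝ)
    (hM : Mer (pr L ε₁ β) (tt L) (hh f) ε₁ β η₁) : Cond K L ε₁ β η₁ (hh f) where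
  nn := fun p _ => by
    unfold hh
    positivity
  le1 := fun p hp => by
    have hpp := (mem_PZ.1 hp).2.1
    have hp0 : (0 : ℝ) < p := by exact_mod_cast hpp.pos
    have h2 : rho f p ≤ p := by
      unfold rho
      refine (card_filter_le _ _).trans ?_
      rw [card_range]
    unfold hh
    rw [div_le_one hp0]
    exact_mod_cast h2
  leκ := fun p hp _ => by
    have hpp := (mem_PZ.1 hp).2.1
    have hp0 : (2 : ℝ) ≤ p := by exact_mod_cast hpp.two_le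
    unfold hh
    have h2 : (rho f p : ℝ) ≤ K := by exact_mod_cast hKb p hpp
    calc (rho f p : ℝ) / p ≤ K / p := div_le_div_of_nonneg_right h2 (by linarith)
      _ ≤ K / ((p : ℝ) - 1) := div_le_div_of_nonneg_left (Nat.cast_nonneg _) (by linarith) (by linarith)
  mer := hM

open Classical in
/-- **Kuhn's weights for one polynomial** -/
theorem lower1 (f : ℤ[X]) (hf : Poly.Sys (fun _ : Fin 1 => f)) (ζ β : ℝ) (h4 : 1 / 4 ≤ ζ)
    (h2 : ζ < 1 / 2) (hζβ : ζ ≤ β) (hβ : ζ + β < 1) :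
    ∃ c : ℝ, 0 < c ∧ ∀ᶠ L : ℕ in atTop, ∀ X : ℕ, c * L / Real.log L ≤
      (((Ioc X (X + L)).filter (fun n => (∀ p ∈ PZ L ζ, ¬ p ∣ G f n) ∧
        ((pr L ζ β).filter (fun q => q ∣ G f n)).card ≤ 1)).card : ℝ) := by
  have hf0 : f ≠ 0 := (hf.irr 0).ne_zero
  obtain ⟨τ, hτ1, hτ2⟩ : ∃ τ : ℝ, max (2 * ζ) (ζ + β) < τ ∧ τ < 1 :=
    exists_between (max_lt (by linarith) hβ)
  have hτa : 2 * ζ < τ := (le_max_left _ _).trans_lt hτ1
  have hτb : ζ + β < τ := (le_max_right _ _).trans_lt hτ1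
  obtain ⟨δ, hδ0, hδ⟩ : ∃ δ : ℝ, 0 < δ ∧ τ + δ = 1 - δ := ⟨(1 - τ) / 2, by linarith, by ring⟩
  have hδ1 : δ < 1 := by linarith
  obtain ⟨K, hK1, hKb⟩ := rho_bd f hf0
  obtain ⟨ε₁, η₁, c₀, hε₁, hε₁ζ, hη₁, hc₀, Y0, hkuhn⟩ := kuhn K τ ζ β δ (by linarith) hτa
    (by linarith) hτ2.le hζβ hτb hδ0
  obtain ⟨Y1, hM⟩ := mer_of_avg (fun p => (rho f p : ℝ)) (avg_rho f (hf.irr 0) (hf.deg 0)) ε₁ β η₁
    hε₁ (by linarith) hη₁
  obtain ⟨C, hC1, hC⟩ := er_sum f hf0 δ hδ0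
  obtain ⟨v, hv, hV⟩ := V_ge f hf
  refine ⟨c₀ * v / 2, by positivity, ?_⟩
  have ev := log_sq_le (12 * C) (c₀ * v) (δ ^ 2) (by positivity) (by positivity)
  filter_upwards [ev, eventually_ge_atTop (max (max Y0 Y1) 3)] with L e1 e2 X
  have hL3 : 3 ≤ L := (le_max_right _ _).trans e2
  have hLY0 : Y0 ≤ L := (le_max_left _ _).trans ((le_max_left _ _).trans e2)
  have hLY1 : Y1 ≤ L := (le_max_right _ _).trans ((le_max_left _ _).trans e2)
  have hL3r : (3 : ℝ) ≤ L := by exact_mod_cast hL3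
  have hL0 : (0 : ℝ) < L := by linarith
  have hl0 : 0 < Real.log L := Real.log_pos (by linarith)
  have hcond : Cond K L ε₁ β η₁ (hh f) := cond_hh f K hKb L ε₁ β η₁ (hM L hLY1)
  have h5 := hkuhn L hLY0 (Ioc X (X + L)) (G f) L (hh f) (Nat.cast_nonneg _) hcond
  refine le_trans ?_ h5
  have h6 := hV L hL3 ε₁
  have h7 := hC X L (PZ L β) ((L : ℝ) ^ (τ + δ)) (fun p hp => (mem_PZ.1 hp).2.1)
    (Real.one_le_rpow (by linarith) (by linarith))
  have h8 : ((L : ℝ) ^ (τ + δ)) ^ (1 + δ) = L / (L : ℝ) ^ (δ ^ 2) := by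
    rw [hδ, ← Real.rpow_mul hL0.le, show (1 - δ) * (1 + δ) = 1 - δ ^ 2 by ring,
      Real.rpow_sub hL0, Real.rpow_one]
  rw [h8] at h7
  have h9 : c₀ * L * (v / Real.log L) ≤ c₀ * L * ∏ p ∈ PZ L ε₁, (1 - hh f p) :=
    mul_le_mul_of_nonneg_left h6 (by positivity)
  have h10 : 6 * Real.log L * ∑ T ∈ (PZ L β).powerset.filter
      (fun T => ((∏ p ∈ T, p : ℕ) : ℝ) ≤ (L : ℝ) ^ (τ + δ)),
        Er (Ioc X (X + L)) (G f) L (hh f) T ≤ 6 * Real.log L * (C * (L / (L : ℝ) ^ (δ ^ 2))) :=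
    mul_le_mul_of_nonneg_left h7 (by positivity)
  have h11 : 6 * Real.log L * (C * (L / (L : ℝ) ^ (δ ^ 2))) ≤ c₀ * v / 2 * L / Real.log L := by
    have hp : 0 < (L : ℝ) ^ (δ ^ 2) := by positivity
    rw [le_div_iff₀ hl0]
    calc 6 * Real.log L * (C * (L / (L : ℝ) ^ (δ ^ 2))) * Real.log L =
          (12 * C * Real.log L ^ 2) * (L / 2 / (L : ℝ) ^ (δ ^ 2)) := by
          field_simp
          ring
      _ ≤ (c₀ * v * (L : ℝ) ^ (δ ^ 2)) * (L / 2 / (L : ℝ) ^ (δ ^ 2)) :=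
          mul_le_mul_of_nonneg_right e1 (by positivity)
      _ = _ := by
          field_simp
  have h12 : c₀ * L * (v / Real.log L) = c₀ * v / 2 * L / Real.log L + c₀ * v / 2 * L / Real.log L := by
    field_simp
    ring
  linarith

end Pool.Agent.Y677.KU
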