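import Pool.Agent.Y677.KU.PolyLower

set_option autoImplicit false

/-!
# Removing the values divisible by the square of a medium prime
-/

open Polynomial Finset Filter Topology

namespace Pool.Agent.Y677.KU

open Pool.Agent.W23.DC Pool.Agent.Y882
open Pool.Agent.H474R2.PG (rho)
open Pool.Agent.W123.RU Pool.Agent.W123.RU.Poly

/-- a relation between a polynomial and its derivative -/
theorem exists_bezout (P : ℤ[X]) (hP : (P.map (Int.castRingHom ℚ)).Separable) :
    ∃ (A B : ℤ[X]) (N : ℤ), N ≠ 0 ∧ A * P + B * derivative P = C N := by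
  obtain ⟨a, b, hab⟩ := hP
  obtain ⟨m, hm0, hm⟩ := IsLocalization.integerNormalization_spec (nonZeroDivisors ℤ) a
  obtain ⟨n, hn0, hn⟩ := IsLocalization.integerNormalization_spec (nonZeroDivisors ℤ) b
  set A := IsLocalization.integerNormalization (nonZeroDivisors ℤ) a
  set B := IsLocalization.integerNormalization (nonZeroDivisors ℤ) b
  have hc : algebraMap ℤ ℚ = Int.castRingHom ℚ := RingHom.ext_int _ _
  rw [hc] at hm hn
  refine ⟨C n * A, C m * B, n * m,
    mul_ne_zero (nonZeroDivisors.ne_zero hn0) (nonZeroDivisors.ne_zero hm0), ?_⟩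
  apply Polynomial.map_injective (Int.castRingHom ℚ) Int.cast_injective
  simp only [Polynomial.map_add, Polynomial.map_mul, Polynomial.map_C, hm, hn,
    ← Polynomial.derivative_map]
  rw [derivative_map] at hab
  have e1 : m • a = C ((Int.castRingHom ℚ) m) * a := by
    rw [← Int.cast_smul_eq_zsmul ℚ, smul_eq_C_mul]
    simp
  have e2 : n • b = C ((Int.castRingHom ℚ) n) * b := by
    rw [← Int.cast_smul_eq_zsmul ℚ, smul_eq_C_mul]
    simp
  rw [e1, e2, map_mul, C_mul]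
  rw [← derivative_map] at hab
  calc _ = C ((Int.castRingHom ℚ) n) * C ((Int.castRingHom ℚ) m) *
      (a * P.map (Int.castRingHom ℚ) + b * derivative (P.map (Int.castRingHom ℚ))) := by ring
    _ = _ := by rw [hab, mul_one]

/-- roots modulo the square of a large prime are determined modulo the prime -/
theorem sq_unique (f : ℤ[X]) (hf : Irreducible f) (hd : 0 < f.natDegree) : ∃ N0 : ℕ, ∀ q : ℕ,
    q.Prime → N0 < q → ∀ a b : ℤ, ((q ^ 2 : ℕ) : ℤ) ∣ f.eval a → ((q ^ 2 : ℕ) : ℤ) ∣ f.eval b →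
      (q : ℤ) ∣ b - a → ((q ^ 2 : ℕ) : ℤ) ∣ b - a := by
  have hprim : f.IsPrimitive := hf.isPrimitive (by omega)
  have hirrQ : Irreducible (f.map (Int.castRingHom ℚ)) :=
    (IsPrimitive.Int.irreducible_iff_irreducible_map_cast hprim).1 hf
  obtain ⟨A, B, N, hN, hAB⟩ := exists_bezout f hirrQ.separable
  refine ⟨N.natAbs, fun q hq hqN a b ha hb hab => ?_⟩
  obtain ⟨t, ht⟩ := hab
  obtain ⟨k, hk⟩ := f.binomExpansion a (q * t)
  have hba : b = a + q * t := by linarith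
  have hqd : ¬ (q : ℤ) ∣ (derivative f).eval a := by
    intro h
    have h1 := congrArg (Polynomial.eval a) hAB
    rw [eval_add, eval_mul, eval_mul, eval_C] at h1
    have h2 : (q : ℤ) ∣ f.eval a := by
      refine dvd_trans ?_ ha
      exact_mod_cast dvd_pow_self q two_ne_zero
    have h3 : (q : ℤ) ∣ N := by
      rw [← h1]
      exact dvd_add (dvd_mul_of_dvd_right h2 _) (dvd_mul_of_dvd_right h _)
    have h4 : q ≤ N.natAbs := Nat.le_of_dvd (Int.natAbs_pos.2 hN) (Int.natCast_dvd.1 h3)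
    omega
  rw [hba] at hb
  have hk' : f.eval (a + q * t) = f.eval a + (derivative f).eval a * (q * t) + k * (q * t) ^ 2 := hk
  rw [hk'] at hb
  push_cast at ha hb ⊢
  have h5 : (q : ℤ) ^ 2 ∣ (derivative f).eval a * (q * t) := by
    have h6 : (derivative f).eval a * (q * t) = (f.eval a + (derivative f).eval a * (q * t) +
        k * (q * t) ^ 2) - f.eval a - (q : ℤ) ^ 2 * (k * t ^ 2) := by ring
    rw [h6]
    exact dvd_sub (dvd_sub hb ha) (dvd_mul_right _ _)
  have hq0 : (q : ℤ) ≠ 0 := by exact_mod_cast hq.ne_zero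
  have h7 : (q : ℤ) ∣ (derivative f).eval a * t := by
    have h8 : (q : ℤ) * q ∣ q * ((derivative f).eval a * t) := by
      have : (q : ℤ) * ((derivative f).eval a * t) = (derivative f).eval a * (q * t) := by ring
      rw [this, ← sq]
      exact h5
    exact (mul_dvd_mul_iff_left hq0).1 h8
  have h8 : (q : ℤ) ∣ t := by
    rcases (Nat.prime_iff_prime_int.1 hq).dvd_or_dvd h7 with h | h
    · exact absurd h hqd
    · exact h
  rw [hba, sq]
  have : a + q * t - a = q * t := by ring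
  rw [this]
  exact mul_dvd_mul_left _ h8

theorem rho_sq_le (f : ℤ[X]) (hf : Irreducible f) (hd : 0 < f.natDegree) : ∃ N0 : ℕ, ∀ q : ℕ,
    q.Prime → N0 < q → rho f (q ^ 2) ≤ rho f q := by
  obtain ⟨N0, h⟩ := sq_unique f hf hd
  refine ⟨N0, fun q hq hqN => ?_⟩
  unfold rho
  apply card_le_card_of_injOn (fun r => r % q)
  · intro r hr
    rw [mem_coe, mem_filter, mem_range] at hr
    rw [mem_coe, mem_filter, mem_range]
    refine ⟨Nat.mod_lt _ hq.pos, ?_⟩
    refine (Pool.Agent.W123.RU.Poly.per1 f q r).1 (dvd_trans ?_ hr.2)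
    exact_mod_cast dvd_pow_self q two_ne_zero
  · intro r hr s hs he
    rw [mem_coe, mem_filter, mem_range] at hr hs
    simp only at he
    have h1 : (q : ℤ) ∣ (s : ℤ) - r := by
      have := (Nat.modEq_iff_dvd (n := q) (a := r) (b := s)).1 he
      exact this
    have h2 := h q hq hqN r s hr.2 hs.2 h1
    have h3 : r ≡ s [MOD q ^ 2] := (Nat.modEq_iff_dvd).2 h2
    unfold Nat.ModEq at h3
    rwa [Nat.mod_eq_of_lt hr.1, Nat.mod_eq_of_lt hs.1] at h3

open Classical in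
/-- few values are divisible by the square of a medium prime -/
theorem sq_few (f : ℤ[X]) (hf : Irreducible f) (hd : 0 < f.natDegree) (ζ β c : ℝ) (hζ : 0 < ζ)
    (hβ : β < 1) (hc : 0 < c) :
    ∀ᶠ L : ℕ in atTop, ∀ X : ℕ,
      (((Ioc X (X + L)).filter (fun n => ∃ q ∈ pr L ζ β, q ^ 2 ∣ G f n)).card : ℝ) ≤
        c * L / Real.log L := by
  obtain ⟨N0, hN0⟩ := rho_sq_le f hf hd
  obtain ⟨K, hK1, hK⟩ := rho_bd f hf.ne_zero
  have e1 := log_sq_le (3 * (2 * K)) c ζ hc hζ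
  have e2 := log_sq_le (2 * K) c (1 - β) hc (by linarith)
  have e3 : ∀ᶠ L : ℕ in atTop, (N0 : ℝ) + 1 ≤ (L : ℝ) ^ ζ :=
    (tendsto_natCast_atTop_atTop (R := ℝ)).eventually
      ((tendsto_rpow_atTop hζ).eventually_ge_atTop _)
  filter_upwards [e1, e2, e3, eventually_ge_atTop 3] with L e1 e2 e3 hL3 X
  have hL3r : (3 : ℝ) ≤ L := by exact_mod_cast hL3
  have hL0 : (0 : ℝ) < L := by linarith
  have hl1 : 1 ≤ Real.log L := by
    rw [Real.le_log_iff_exp_le (by linarith)]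
    linarith [Real.exp_one_lt_d9]
  have hl0 : 0 < Real.log L := by linarith
  -- each prime
  have hq : ∀ q ∈ pr L ζ β, q.Prime ∧ (L : ℝ) ^ ζ ≤ q ∧ (q : ℝ) < (L : ℝ) ^ β ∧
      (((Ioc X (X + L)).filter (fun n => q ^ 2 ∣ G f n)).card : ℝ) ≤ K * (L / (L : ℝ) ^ ζ * (1 / q)) + K := by
    intro q hq
    rw [mem_pr'] at hq
    obtain ⟨hq1, hqp, hq3, hq4⟩ := hq
    have hq5 := tt_mul_log L (by omega) q hqp.pos
    have hL1 : (1 : ℝ) < L := by linarith
    have hq6 : (L : ℝ) ^ ζ ≤ q := by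
      rw [hq5]
      exact Real.rpow_le_rpow_of_exponent_le hL1.le hq3
    have hq7 : (q : ℝ) < (L : ℝ) ^ β := by
      rw [hq5]
      exact Real.rpow_lt_rpow_of_exponent_lt hL1 hq4
    refine ⟨hqp, hq6, hq7, ?_⟩
    have hNq : N0 < q := by
      have : (N0 : ℝ) < q := by linarith
      exact_mod_cast this
    have hr : (rho f (q ^ 2) : ℝ) ≤ K := by
      exact_mod_cast (hN0 q hqp hNq).trans (hK q hqp)
    have h1 := cnt_bound f X L (q ^ 2) (pow_pos hqp.pos 2)
    have h2 : ((Ioc X (X + L)).filter (fun n => q ^ 2 ∣ G f n)) =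
        (Ioc X (X + L)).filter (fun n : ℕ => ((q ^ 2 : ℕ) : ℤ) ∣ f.eval (n : ℤ)) := by
      apply filter_congr
      intro n _
      exact dvd_G f _ n
    rw [h2]
    have h3 := (abs_le.1 h1).2
    have hq0 : (0 : ℝ) < q := by exact_mod_cast hqp.pos
    have h4 : (L : ℝ) * ((rho f (q ^ 2) : ℝ) / ((q ^ 2 : ℕ) : ℝ)) ≤ K * (L / (L : ℝ) ^ ζ * (1 / q)) := by
      push_cast
      calc (L : ℝ) * ((rho f (q ^ 2) : ℝ) / (q : ℝ) ^ 2) ≤ L * (K / (q : ℝ) ^ 2) := by gcongr
        _ = (K : ℝ) * ((L : ℝ) / q * (1 / q)) := by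
            field_simp
        _ ≤ (K : ℝ) * (L / (L : ℝ) ^ ζ * (1 / q)) := by
            gcongr
    have h5 : (((Ioc X (X + L)).filter (fun n : ℕ => ((q ^ 2 : ℕ) : ℤ) ∣ f.eval (n : ℤ))).card : ℝ) ≤
        L * ((rho f (q ^ 2) : ℝ) / ((q ^ 2 : ℕ) : ℝ)) + rho f (q ^ 2) := by
      linarith
    exact h5.trans (add_le_add h4 hr)
  have hcover : (Ioc X (X + L)).filter (fun n => ∃ q ∈ pr L ζ β, q ^ 2 ∣ G f n) ⊆
      (pr L ζ β).biUnion (fun q => (Ioc X (X + L)).filter (fun n => q ^ 2 ∣ G f n)) := by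
    intro n hn
    rw [mem_filter] at hn
    obtain ⟨h1, q, h2, h3⟩ := hn
    rw [mem_biUnion]
    exact ⟨q, h2, mem_filter.2 ⟨h1, h3⟩⟩
  have h1 : (((Ioc X (X + L)).filter (fun n => ∃ q ∈ pr L ζ β, q ^ 2 ∣ G f n)).card : ℝ) ≤
      ∑ q ∈ pr L ζ β, (K * (L / (L : ℝ) ^ ζ * (1 / q)) + K) := by
    have h2 := (card_le_card hcover).trans card_biUnion_le
    have h3 : (((Ioc X (X + L)).filter (fun n => ∃ q ∈ pr L ζ β, q ^ 2 ∣ G f n)).card : ℝ) ≤
        ∑ q ∈ pr L ζ β, (((Ioc X (X + L)).filter (fun n => q ^ 2 ∣ G f n)).card : ℝ) := by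
      exact_mod_cast h2
    exact h3.trans (sum_le_sum fun q hqm => (hq q hqm).2.2.2)
  refine h1.trans ?_
  rw [sum_add_distrib, ← mul_sum, ← mul_sum, sum_const, nsmul_eq_mul]
  have h2 : ∑ q ∈ pr L ζ β, 1 / (q : ℝ) ≤ 3 * Real.log L := by
    have h3 : ∑ q ∈ pr L ζ β, 1 / (q : ℝ) ≤ ∑ n ∈ Ico 1 (L + 1), 1 / (n : ℝ) := by
      apply sum_le_sum_of_subset_of_nonneg
      · intro q hqm
        have := (mem_pr'.1 hqm).1
        rw [mem_Ico]
        omega
      · intro n _ _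
        positivity
    have h4 := harm_le 1 (L + 1) le_rfl (by omega)
    have h5 : Real.log ((L + 1 : ℕ) : ℝ) ≤ 2 * Real.log L := by
      rw [← Real.log_rpow hL0]
      apply Real.log_le_log (by positivity)
      push_cast
      rw [Real.rpow_two]
      nlinarith
    linarith
  have h3 : ((pr L ζ β).card : ℝ) ≤ (L : ℝ) ^ β := by
    have h4 : (pr L ζ β).card ≤ (Icc 1 ⌊(L : ℝ) ^ β⌋₊).card := by
      apply card_le_card
      intro q hqm
      have h5 := hq q hqm
      rw [mem_Icc]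
      exact ⟨h5.1.one_le, Nat.le_floor h5.2.2.1.le⟩
    rw [Nat.card_Icc, Nat.add_sub_cancel] at h4
    have h5 : ((pr L ζ β).card : ℝ) ≤ (⌊(L : ℝ) ^ β⌋₊ : ℝ) := by exact_mod_cast h4
    exact h5.trans (Nat.floor_le (by positivity))
  have hK0 : (0 : ℝ) ≤ K := Nat.cast_nonneg _
  have hLζ : 0 < (L : ℝ) ^ ζ := by positivity
  have h4 : K * (L / (L : ℝ) ^ ζ * ∑ q ∈ pr L ζ β, 1 / (q : ℝ)) ≤ c / 2 * L / Real.log L := by
    calc (K : ℝ) * (L / (L : ℝ) ^ ζ * ∑ q ∈ pr L ζ β, 1 / (q : ℝ)) ≤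
          (K : ℝ) * (L / (L : ℝ) ^ ζ * (3 * Real.log L)) := by gcongr
      _ = (3 * (2 * K) * Real.log L ^ 2) * (L / (2 * (L : ℝ) ^ ζ * Real.log L)) := by
          field_simp
      _ ≤ (c * (L : ℝ) ^ ζ) * (L / (2 * (L : ℝ) ^ ζ * Real.log L)) := by gcongr
      _ = _ := by field_simp
  have h5 : ((pr L ζ β).card : ℝ) * K ≤ c / 2 * L / Real.log L := by
    have h6 : (L : ℝ) ^ (1 - β) = L / (L : ℝ) ^ β := by
      rw [Real.rpow_sub hL0, Real.rpow_one]
    rw [h6] at e2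
    have hLβ : 0 < (L : ℝ) ^ β := by positivity
    rw [le_div_iff₀ hl0]
    calc ((pr L ζ β).card : ℝ) * K * Real.log L ≤ (L : ℝ) ^ β * K * Real.log L := by gcongr
      _ ≤ (L : ℝ) ^ β * K * Real.log L ^ 2 := by
          apply mul_le_mul_of_nonneg_left _ (by positivity)
          nlinarith
      _ = (2 * K * Real.log L ^ 2) * ((L : ℝ) ^ β / 2) := by ring
      _ ≤ (c * (L / (L : ℝ) ^ β)) * ((L : ℝ) ^ β / 2) := by gcongr
      _ = _ := by field_simp
  have h6 : c * L / Real.log L = c / 2 * L / Real.log L + c / 2 * L / Real.log L := by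
    field_simp
    ring
  rw [h6]
  exact add_le_add h4 h5

end Pool.Agent.Y677.KU
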