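import Pool.Agent.Y175.PW.Quad
import Pool.Agent.Y175.PW.Cubic
import Pool.Agent.Y677.RSZ.FinQuad
import Pool.Agent.Y677.KU.NarrowEx

set_option autoImplicit false

/-!
# Narrow progressions with explicit numbers of prime factors: quadratic and cubic polynomials
-/

namespace Pool.Agent.Y677.KU

open Polynomial Finset Filter
open Pool.Agent.TH977.PW (N)
open Pool.Agent.Y677.RSZ (InProg Outside)

/-- one admissible quadratic polynomial -/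
theorem quad_explicit (a b c : ℤ) (ha : 0 < a)
    (hg : ∀ p : ℕ, p.Prime → ¬ ((p : ℤ) ∣ a ∧ (p : ℤ) ∣ b ∧ (p : ℤ) ∣ c))
    (hD : ¬ IsSquare (b ^ 2 - 4 * a * c)) (hpar : ¬ (Even (a + b) ∧ Even c))
    (r s : ℕ) (hs : 2 ≤ s) (R Al : Set ℕ) (hAR : Al ⊆ R)
    (hR : ∀ m ∈ R, ∀ p : ℕ, p.Prime → (p : ℤ) ∣ a * (m : ℤ) ^ 2 + b * m + c →
      (m : ℝ) ^ (1 / (s : ℝ)) < (p : ℝ))
    (hAl : ∀ m : ℕ, (∀ p : ℕ, p.Prime → (p : ℤ) ∣ a * (m : ℤ) ^ 2 + b * m + c →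
      (m : ℝ) ^ (1 / (s : ℝ)) < (p : ℝ)) →
      (a * (m : ℤ) ^ 2 + b * m + c).natAbs.primeFactorsList.length ≤ r → m ∈ Al) :
    (∀ θ : ℝ, 0 < θ → θ ≤ 1 → 8 < θ * (3 * r + 1) → 2 < θ * r - (r - 1) / s → 2 < θ * s →
      (∃ κ : ℝ, 0 < κ ∧ ∀ᶠ X : ℕ in atTop, ∀ Y : ℕ, (X : ℝ) ^ θ ≤ Y → Y ≤ X →
        κ * Y / Real.log X ≤ N Al X (X + Y)) ∧
      ∀ l : ℕ, ∃ B : ℕ, ∀ᶠ X : ℕ in atTop, ∀ Y : ℕ, (X : ℝ) ^ θ ≤ Y → Y ≤ X →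
        ∃ u d : ℕ, 1 ≤ d ∧ (d : ℝ) ≤ Real.log X ^ B ∧
          ∀ i < l, u + i * d ∈ Al ∧ X < u + i * d ∧ u + i * d ≤ X + Y) ∧
    ∀ θ : ℝ, 0 < θ → ∀ l : ℕ, 2 ≤ l → ∀ ε : ℝ, 0 < ε → ∃ B : ℕ, ∀ᶠ X : ℕ in atTop, ∀ Y : ℕ,
      (X : ℝ) ^ θ ≤ Y → Y ≤ X → ∀ A : Set ℕ, A ⊆ R →
        (N (Outside A l (Real.log X ^ B) X (X + Y)) X (X + Y) : ℝ) ≤ ε * Y / Real.log X := by
  have hdeg := Pool.Agent.TH464.PW.quad_deg a b c ha.ne'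
  obtain ⟨h1, h2⟩ := narrow_explicit (Pool.Agent.TH464.PW.quad a b c)
    { irr := fun _ => Pool.Agent.TH464.PW.quad_irr a b c ha.ne' hg hD
      deg := fun _ => by rw [hdeg]; norm_num
      lead := fun _ => by rw [Pool.Agent.TH464.PW.quad_lead a b c ha.ne']; exact ha
      inj := Function.injective_of_subsingleton _
      adm := fun p hp => by
        obtain ⟨m, hm⟩ := Pool.Agent.TH464.PW.quad_adm a b c hg hpar p hp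
        exact ⟨m, fun _ => hm⟩ } r s hs R Al hAR
    (fun m hm i p hp hd => hR m hm p hp (by rwa [Pool.Agent.TH464.PW.quad_eval] at hd))
    (fun m h1 h2 => hAl m (fun p hp hd => h1 0 p hp (by rwa [Pool.Agent.TH464.PW.quad_eval])) (by
      have := h2 0
      rwa [Pool.Agent.TH464.PW.quad_eval] at this))
  refine ⟨fun θ h3 h4 h5 h6 h7 => h1 θ h3 h4 (by rw [hdeg]; push_cast; linarith)
    (by rw [hdeg]; push_cast; linarith) h7, h2⟩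

/-- the polynomials `m ^ 3 + k` -/
theorem cub_explicit (k : ℤ) (hk : ∀ a : ℤ, k ≠ a ^ 3)
    (r s : ℕ) (hs : 2 ≤ s) (R Al : Set ℕ) (hAR : Al ⊆ R)
    (hR : ∀ m ∈ R, ∀ p : ℕ, p.Prime → (p : ℤ) ∣ (m : ℤ) ^ 3 + k →
      (m : ℝ) ^ (1 / (s : ℝ)) < (p : ℝ))
    (hAl : ∀ m : ℕ, (∀ p : ℕ, p.Prime → (p : ℤ) ∣ (m : ℤ) ^ 3 + k →
      (m : ℝ) ^ (1 / (s : ℝ)) < (p : ℝ)) →
      ((m : ℤ) ^ 3 + k).natAbs.primeFactorsList.length ≤ r → m ∈ Al) :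
    (∀ θ : ℝ, 0 < θ → θ ≤ 1 → 12 < θ * (3 * r + 1) → 3 < θ * r - (r - 1) / s → 2 < θ * s →
      (∃ κ : ℝ, 0 < κ ∧ ∀ᶠ X : ℕ in atTop, ∀ Y : ℕ, (X : ℝ) ^ θ ≤ Y → Y ≤ X →
        κ * Y / Real.log X ≤ N Al X (X + Y)) ∧
      ∀ l : ℕ, ∃ B : ℕ, ∀ᶠ X : ℕ in atTop, ∀ Y : ℕ, (X : ℝ) ^ θ ≤ Y → Y ≤ X →
        ∃ u d : ℕ, 1 ≤ d ∧ (d : ℝ) ≤ Real.log X ^ B ∧
          ∀ i < l, u + i * d ∈ Al ∧ X < u + i * d ∧ u + i * d ≤ X + Y) ∧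
    ∀ θ : ℝ, 0 < θ → ∀ l : ℕ, 2 ≤ l → ∀ ε : ℝ, 0 < ε → ∃ B : ℕ, ∀ᶠ X : ℕ in atTop, ∀ Y : ℕ,
      (X : ℝ) ^ θ ≤ Y → Y ≤ X → ∀ A : Set ℕ, A ⊆ R →
        (N (Outside A l (Real.log X ^ B) X (X + Y)) X (X + Y) : ℝ) ≤ ε * Y / Real.log X := by
  have hdeg : (Pool.Agent.Y175.PW.cub k).natDegree = 3 := by
    unfold Pool.Agent.Y175.PW.cub
    compute_degree!
  obtain ⟨h1, h2⟩ := narrow_explicit (Pool.Agent.Y175.PW.cub k)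
    (Pool.Agent.Y175.PW.sys_cub hk) r s hs R Al hAR
    (fun m hm i p hp hd => hR m hm p hp (by rwa [Pool.Agent.Y175.PW.cub_eval] at hd))
    (fun m h1 h2 => hAl m (fun p hp hd => h1 0 p hp (by rwa [Pool.Agent.Y175.PW.cub_eval])) (by
      have := h2 0
      rwa [Pool.Agent.Y175.PW.cub_eval] at this))
  refine ⟨fun θ h3 h4 h5 h6 h7 => h1 θ h3 h4 (by rw [hdeg]; push_cast; linarith)
    (by rw [hdeg]; push_cast; linarith) h7, h2⟩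

end Pool.Agent.Y677.KU
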