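import Pool.Agent.Y677.KU.Kuhn
import Pool.Agent.H484R2.Pit
import Pool.Agent.H474R2.GE.RhoHoms
import Pool.Agent.H474R2.PG.HomsRho
import Pool.Agent.W378.DC.MP
import Pool.Agent.Helper923.PNT

set_option autoImplicit false

/-!
# Mertens' formula in windows for the number of roots of an irreducible polynomial
-/

open Finset Filter Topology

namespace Pool.Agent.Y677.KU

open Pool.Agent.W23.DC Pool.Agent.Y882
open Pool.Agent.H474R2.PG (rho)

/-- the sum over the primes below `n` -/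
noncomputable def Dsum (r : ℕ → ℝ) (n : ℕ) : ℝ := ∑ p ∈ (range n).filter Nat.Prime, r p

lemma Dsum_succ (r : ℕ → ℝ) (n : ℕ) :
    Dsum r (n + 1) - Dsum r n = if n.Prime then r n else 0 := by
  unfold Dsum
  rw [sum_filter, sum_filter, sum_range_succ]
  ring

/-- partial summation -/
lemma abel (r : ℕ → ℝ) (u v : ℕ) (hu : 1 ≤ u) (huv : u ≤ v) :
    ∑ p ∈ (Ico u v).filter Nat.Prime, r p / p = Dsum r v / v - Dsum r u / u +
      ∑ n ∈ Ico u v, Dsum r (n + 1) * (1 / (n : ℝ) - 1 / ((n : ℝ) + 1)) := by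
  induction v, huv using Nat.le_induction with
  | base => simp
  | succ v hv ih =>
    have hv0 : (v : ℝ) ≠ 0 := by
      have : v ≠ 0 := by omega
      exact_mod_cast this
    have hv1 : (v : ℝ) + 1 ≠ 0 := by positivity
    have h2 := Dsum_succ r v
    rw [sum_filter, Finset.sum_Ico_succ_top hv, ← sum_filter, ih, Finset.sum_Ico_succ_top hv]
    have h3 : (if Nat.Prime v then r v / (v : ℝ) else 0) = (Dsum r (v + 1) - Dsum r v) / v := by
      rw [h2]
      split_ifs <;> simp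
    rw [h3]
    push_cast
    field_simp
    ring

lemma harm_le (u v : ℕ) (hu : 1 ≤ u) (huv : u ≤ v) :
    ∑ n ∈ Ico u v, 1 / (n : ℝ) ≤ 1 + Real.log v := by
  have hv : 1 ≤ v := hu.trans huv
  have h1 : ∑ n ∈ Ico u v, 1 / (n : ℝ) ≤ ∑ n ∈ Icc 1 v, 1 / (n : ℝ) := by
    apply sum_le_sum_of_subset_of_nonneg
    · intro n hn
      rw [mem_Ico] at hn
      rw [mem_Icc]
      omega
    · intro n _ _
      positivity
  have h2 := harmonic_le_one_add_log v
  rw [harmonic_eq_sum_Icc] at h2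
  push_cast at h2
  refine h1.trans ?_
  simpa [one_div] using h2

/-- the sum over a window -/
lemma window (r : ℕ → ℝ) (δ : ℝ) (hδ : 0 ≤ δ) (n₀ : ℕ)
    (hr : ∀ n : ℕ, n₀ ≤ n → |Dsum r n| ≤ δ * n / Real.log n) (u v : ℕ) (hu3 : 3 ≤ u)
    (hu : n₀ ≤ u) (huv : u ≤ v) :
    |∑ p ∈ (Ico u v).filter Nat.Prime, r p / p| ≤ δ * (3 + Real.log v) / Real.log u := by
  have hu1 : (1 : ℝ) < u := by
    have : 1 < u := by omega
    exact_mod_cast this
  have hlu : 0 < Real.log u := Real.log_pos hu1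
  have hmono : ∀ n : ℕ, u ≤ n → Real.log u ≤ Real.log n := fun n hn =>
    Real.log_le_log (by linarith) (by exact_mod_cast hn)
  have hD : ∀ n : ℕ, u ≤ n → |Dsum r n| ≤ δ * n / Real.log u := by
    intro n hn
    refine (hr n (hu.trans hn)).trans ?_
    apply div_le_div_of_nonneg_left (by positivity) hlu (hmono n hn)
  rw [abel r u v (by omega) huv]
  have h1 : |Dsum r v / v| ≤ δ / Real.log u := by
    have hv0 : (0 : ℝ) < v := by
      have : 0 < v := by omega
      exact_mod_cast this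
    rw [abs_div, abs_of_pos hv0, div_le_iff₀ hv0]
    refine (hD v huv).trans (le_of_eq ?_)
    ring
  have h2 : |Dsum r u / u| ≤ δ / Real.log u := by
    rw [abs_div, abs_of_pos (show (0 : ℝ) < u by linarith), div_le_iff₀ (by linarith)]
    refine (hD u le_rfl).trans (le_of_eq ?_)
    ring
  have h3 : |∑ n ∈ Ico u v, Dsum r (n + 1) * (1 / (n : ℝ) - 1 / ((n : ℝ) + 1))| ≤
      δ / Real.log u * (1 + Real.log v) := by
    refine (abs_sum_le_sum_abs _ _).trans ?_
    refine le_trans ?_ (mul_le_mul_of_nonneg_left (harm_le u v (by omega) huv)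
      (div_nonneg hδ hlu.le))
    rw [mul_sum]
    apply sum_le_sum
    intro n hn
    rw [mem_Ico] at hn
    have hn0 : (0 : ℝ) < n := by
      have : 0 < n := by omega
      exact_mod_cast this
    have h4 : 1 / (n : ℝ) - 1 / ((n : ℝ) + 1) = 1 / (n * ((n : ℝ) + 1)) := by
      field_simp
      ring
    rw [h4, abs_mul, abs_of_pos (show 0 < 1 / ((n : ℝ) * ((n : ℝ) + 1)) by positivity)]
    have h5 := hD (n + 1) (by omega)
    push_cast at h5
    calc |Dsum r (n + 1)| * (1 / (n * ((n : ℝ) + 1)))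
        ≤ (δ * ((n : ℝ) + 1) / Real.log u) * (1 / (n * ((n : ℝ) + 1))) :=
          mul_le_mul_of_nonneg_right h5 (by positivity)
      _ = δ / Real.log u * (1 / (n : ℝ)) := by
          have : Real.log u ≠ 0 := hlu.ne'
          field_simp
  have h6 : δ * (3 + Real.log v) / Real.log u =
      δ / Real.log u + δ / Real.log u + δ / Real.log u * (1 + Real.log v) := by
    have : Real.log u ≠ 0 := hlu.ne'
    field_simp
    ring
  rw [h6]
  calc |Dsum r v / v - Dsum r u / u + ∑ n ∈ Ico u v, Dsum r (n + 1) * (1 / (n : ℝ) - 1 / ((n : ℝ) + 1))|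
      ≤ |Dsum r v / v - Dsum r u / u| +
        |∑ n ∈ Ico u v, Dsum r (n + 1) * (1 / (n : ℝ) - 1 / ((n : ℝ) + 1))| := abs_add_le _ _
    _ ≤ (|Dsum r v / v| + |Dsum r u / u|) + _ := add_le_add_left (abs_sub _ _) _
    _ ≤ _ := by linarith

/-- the primes of a window -/
lemma pr_eq (Y : ℕ) (hY : 2 ≤ Y) (a b : ℝ) (hb : b ≤ 1) :
    pr Y a b = (Ico ⌈(Y : ℝ) ^ a⌉₊ ⌈(Y : ℝ) ^ b⌉₊).filter Nat.Prime := by
  have hYr : (2 : ℝ) ≤ Y := by exact_mod_cast hY
  have hlY : 0 < Real.log Y := Real.log_pos (by linarith)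
  ext p
  rw [mem_pr', mem_filter, mem_Ico, Nat.ceil_le, Nat.lt_ceil]
  constructor
  · rintro ⟨h1, h2, h3, h4⟩
    refine ⟨⟨?_, (tt_lt Y p b hY h2.pos).1 h4⟩, h2⟩
    by_contra h5
    push Not at h5
    linarith [(tt_lt Y p a hY h2.pos).2 h5]
  · rintro ⟨⟨h1, h2⟩, h3⟩
    have h4 : (p : ℝ) ≤ Y := by
      refine h2.le.trans ?_
      calc (Y : ℝ) ^ b ≤ (Y : ℝ) ^ (1 : ℝ) := Real.rpow_le_rpow_of_exponent_le (by linarith) hb
        _ = Y := Real.rpow_one _
    refine ⟨⟨h3.pos, by exact_mod_cast h4⟩, h3, ?_, (tt_lt Y p b hY h3.pos).2 h2⟩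
    by_contra h5
    push Not at h5
    linarith [(tt_lt Y p a hY h3.pos).1 h5]

/-- **Mertens' formula in windows** for weights with average one -/
theorem mer_of_avg (r : ℕ → ℝ) (hr : Tendsto (fun N : ℕ =>
      (∑ p ∈ (range (N + 1)).filter Nat.Prime, r p) / (Nat.primeCounting N : ℝ)) atTop (𝓝 1))
    (ε₁ β η : ℝ) (hε₁ : 0 < ε₁) (hβ : β ≤ 1) (hη : 0 < η) :
    ∃ Y0 : ℕ, ∀ Y : ℕ, Y0 ≤ Y → Mer (pr Y ε₁ β) (tt Y) (fun p => r p / p) ε₁ β η := by
  -- the discrepancy
  obtain ⟨δ, hδ0, hδ⟩ : ∃ δ : ℝ, 0 < δ ∧ δ * 8 / ε₁ ≤ η / 3 :=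
    ⟨η * ε₁ / 24, by positivity, by
      apply le_of_eq
      field_simp
      norm_num⟩
  have hpi : Tendsto (fun N : ℕ => (Nat.primeCounting N : ℝ) * Real.log N / N) atTop (𝓝 1) := by
    have := Pool.Agent.Helper923.PNT.pi_tendsto.comp (tendsto_natCast_atTop_atTop (R := ℝ))
    refine this.congr fun N => ?_
    simp only [Function.comp, Nat.floor_natCast]
  have hev : ∀ᶠ N : ℕ in atTop,
      |Dsum (fun p => r p - 1) (N + 1)| ≤ δ * ((N + 1 : ℕ) : ℝ) / Real.log ((N + 1 : ℕ) : ℝ) := by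
    have h1 := hr.eventually (Metric.ball_mem_nhds (1 : ℝ) (show 0 < δ / 4 by positivity))
    have h2 := hpi.eventually (Metric.ball_mem_nhds (1 : ℝ) (show (0 : ℝ) < 1 by norm_num))
    filter_upwards [h1, h2, eventually_ge_atTop 3] with N h1 h2 h3
    rw [Real.dist_eq] at h1 h2
    have h3r : (3 : ℝ) ≤ N := by exact_mod_cast h3
    have hlN : 0 < Real.log N := Real.log_pos (by linarith)
    have hpi0 : (0 : ℝ) < Nat.primeCounting N := by
      have : 0 < Nat.primeCounting N := by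
        have h5 : Nat.primeCounting 2 ≤ Nat.primeCounting N := Nat.monotone_primeCounting (by omega)
        have h6 : Nat.primeCounting 2 = 1 := by decide
        omega
      exact_mod_cast this
    have hcard : ∑ p ∈ (range (N + 1)).filter Nat.Prime, (1 : ℝ) = Nat.primeCounting N := by
      rw [sum_const, nsmul_eq_mul, mul_one]
      congr 1
      rw [Nat.primeCounting, Nat.primeCounting', Nat.count_eq_card_filter_range]
    have h5 : Dsum (fun p => r p - 1) (N + 1) =
        ((∑ p ∈ (range (N + 1)).filter Nat.Prime, r p) / (Nat.primeCounting N : ℝ) - 1) *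
          (Nat.primeCounting N : ℝ) := by
      unfold Dsum
      rw [sum_sub_distrib, hcard]
      field_simp
    rw [h5, abs_mul, abs_of_pos hpi0]
    have h6 : (Nat.primeCounting N : ℝ) ≤ 2 * N / Real.log N := by
      have h7 := (abs_lt.1 h2).2
      have h8 : (Nat.primeCounting N : ℝ) * Real.log N / N ≤ 2 := by linarith
      rw [div_le_iff₀ (by linarith)] at h8
      rw [le_div_iff₀ hlN]
      exact h8
    have h9 : Real.log ((N + 1 : ℕ) : ℝ) ≤ 2 * Real.log N := by
      rw [← Real.log_rpow (by linarith)]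
      apply Real.log_le_log (by positivity)
      push_cast
      rw [Real.rpow_two]
      nlinarith
    have hlN1 : 0 < Real.log ((N + 1 : ℕ) : ℝ) := Real.log_pos (by push_cast; linarith)
    calc |(∑ p ∈ (range (N + 1)).filter Nat.Prime, r p) / (Nat.primeCounting N : ℝ) - 1| *
          (Nat.primeCounting N : ℝ) ≤ (δ / 4) * (2 * N / Real.log N) :=
          mul_le_mul h1.le h6 hpi0.le (by positivity)
      _ = δ * N / (2 * Real.log N) := by
          field_simp
          ring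
      _ ≤ δ * N / Real.log ((N + 1 : ℕ) : ℝ) := by
          apply div_le_div_of_nonneg_left (by positivity) hlN1 h9
      _ ≤ δ * ((N + 1 : ℕ) : ℝ) / Real.log ((N + 1 : ℕ) : ℝ) := by
          apply div_le_div_of_nonneg_right _ hlN1.le
          push_cast
          nlinarith
  obtain ⟨N1, hN1⟩ := eventually_atTop.1 hev
  have hD : ∀ n : ℕ, N1 + 1 ≤ n →
      |Dsum (fun p => r p - 1) n| ≤ δ * n / Real.log n := by
    intro n hn
    obtain ⟨m, rfl⟩ : ∃ m, n = m + 1 := ⟨n - 1, by omega⟩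
    exact hN1 m (by omega)
  obtain ⟨N2, hN2⟩ := Pool.Agent.W378.DC.MP ε₁ (η / 3) hε₁ (by positivity)
  have ev1 : ∀ᶠ Y : ℕ in atTop, max ((N1 : ℝ) + 4) (3 / η + 2) ≤ (Y : ℝ) ^ ε₁ :=
    tendsto_natCast_atTop_atTop.eventually ((tendsto_rpow_atTop hε₁).eventually_ge_atTop _)
  obtain ⟨N3, hN3⟩ := eventually_atTop.1 (ev1.and (eventually_ge_atTop 3))
  refine ⟨max N2 N3, fun Y hY => ?_⟩
  obtain ⟨e1, e2⟩ := hN3 Y ((le_max_right _ _).trans hY)
  have hYr : (3 : ℝ) ≤ Y := by exact_mod_cast e2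
  have hlY1 : 1 ≤ Real.log Y := by
    rw [Real.le_log_iff_exp_le (by linarith)]
    linarith [Real.exp_one_lt_d9]
  have hlY : 0 < Real.log Y := by linarith
  intro a b ha hab hb
  have hfil : (pr Y ε₁ β).filter (fun p => a ≤ tt Y p ∧ tt Y p < b) = pr Y a b := by
    ext p
    rw [mem_filter, mem_pr', mem_pr']
    constructor
    · rintro ⟨⟨h3, h4, h5, h6⟩, h7⟩
      exact ⟨h3, h4, h7.1, h7.2⟩
    · rintro ⟨h3, h4, h5, h6⟩
      exact ⟨⟨h3, h4, ha.trans h5, h6.trans_le hb⟩, h5, h6⟩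
  rw [hfil]
  set u : ℕ := ⌈(Y : ℝ) ^ a⌉₊ with hu
  set v : ℕ := ⌈(Y : ℝ) ^ b⌉₊ with hv
  have hYa : (Y : ℝ) ^ ε₁ ≤ (Y : ℝ) ^ a := Real.rpow_le_rpow_of_exponent_le (by linarith) ha
  have huY : (Y : ℝ) ^ a ≤ u := Nat.le_ceil _
  have hu4 : (N1 : ℝ) + 4 ≤ u := (le_max_left _ _).trans (e1.trans (hYa.trans huY))
  have huη : 3 / η + 2 ≤ u := (le_max_right _ _).trans (e1.trans (hYa.trans huY))
  have hu4' : N1 + 4 ≤ u := by exact_mod_cast hu4
  have huv : u ≤ v := Nat.ceil_mono (Real.rpow_le_rpow_of_exponent_le (by linarith) hab)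
  have hvY : (v : ℝ) ≤ Y := by
    have h1 : v ≤ Y := by
      rw [hv, Nat.ceil_le]
      calc (Y : ℝ) ^ b ≤ (Y : ℝ) ^ (1 : ℝ) :=
            Real.rpow_le_rpow_of_exponent_le (by linarith) (hb.trans hβ)
        _ = Y := Real.rpow_one _
    exact_mod_cast h1
  have hlu : ε₁ * Real.log Y ≤ Real.log u := by
    have h1 : Real.log ((Y : ℝ) ^ ε₁) ≤ Real.log u :=
      Real.log_le_log (by positivity) (hYa.trans huY)
    rwa [Real.log_rpow (by linarith)] at h1
  -- the three parts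
  have hpr := pr_eq Y (by omega) a b (hb.trans hβ)
  have hw := window (fun p => r p - 1) δ hδ0.le (N1 + 1) hD u v (by omega) (by omega) huv
  have hw2 : δ * (3 + Real.log v) / Real.log u ≤ η / 3 := by
    have hv0 : (0 : ℝ) < v := by
      have : 0 < v := by omega
      exact_mod_cast this
    have h1 : Real.log v ≤ Real.log Y := Real.log_le_log hv0 hvY
    have h2 : 0 < ε₁ * Real.log Y := by positivity
    calc δ * (3 + Real.log v) / Real.log u ≤ δ * (4 * Real.log Y) / (ε₁ * Real.log Y) := by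
          apply div_le_div₀ (by positivity) _ h2 hlu
          apply mul_le_mul_of_nonneg_left _ hδ0.le
          linarith
      _ = δ * 4 / ε₁ := by field_simp
      _ ≤ δ * 8 / ε₁ := by
          apply div_le_div_of_nonneg_right _ hε₁.le
          linarith
      _ ≤ η / 3 := hδ
  have hm := hN2 Y ((le_max_left _ _).trans hY) a b ha hab (hb.trans hβ)
  have hdiff : 0 ≤ ∑ p ∈ pr Y a b, (1 / ((p : ℝ) - 1) - 1 / (p : ℝ)) ∧
      ∑ p ∈ pr Y a b, (1 / ((p : ℝ) - 1) - 1 / (p : ℝ)) ≤ η / 3 := by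
    rw [hpr]
    have h1 : ∀ w : ℕ, u ≤ w → ∑ n ∈ Ico u w, (1 / ((n : ℝ) - 1) - 1 / (n : ℝ)) =
        1 / ((u : ℝ) - 1) - 1 / ((w : ℝ) - 1) := by
      intro w hw
      induction w, hw using Nat.le_induction with
      | base => simp
      | succ w hw ih =>
        rw [Finset.sum_Ico_succ_top hw, ih]
        push_cast
        ring
    have hnn : ∀ n ∈ Ico u v, 0 ≤ 1 / ((n : ℝ) - 1) - 1 / (n : ℝ) := by
      intro n hn
      rw [mem_Ico] at hn
      have h2 : (2 : ℝ) ≤ n := by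
        have : 2 ≤ n := by omega
        exact_mod_cast this
      have : 1 / (n : ℝ) ≤ 1 / ((n : ℝ) - 1) := one_div_le_one_div_of_le (by linarith) (by linarith)
      linarith
    constructor
    · exact sum_nonneg fun n hn => hnn n (mem_filter.1 hn).1
    · calc ∑ p ∈ (Ico u v).filter Nat.Prime, (1 / ((p : ℝ) - 1) - 1 / (p : ℝ))
          ≤ ∑ n ∈ Ico u v, (1 / ((n : ℝ) - 1) - 1 / (n : ℝ)) :=
            sum_le_sum_of_subset_of_nonneg (filter_subset _ _) fun n hn _ => hnn n hn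
        _ = 1 / ((u : ℝ) - 1) - 1 / ((v : ℝ) - 1) := h1 v huv
        _ ≤ 1 / ((u : ℝ) - 1) := by
            have h2 : (2 : ℝ) ≤ v := by
              have : 2 ≤ v := by omega
              exact_mod_cast this
            have : 0 ≤ 1 / ((v : ℝ) - 1) := div_nonneg zero_le_one (by linarith)
            linarith
        _ ≤ η / 3 := by
            have h3 : 3 / η ≤ (u : ℝ) - 1 := by linarith
            have h4 : 0 < 3 / η := by positivity
            calc 1 / ((u : ℝ) - 1) ≤ 1 / (3 / η) := one_div_le_one_div_of_le h4 h3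
              _ = η / 3 := by rw [one_div_div]
  have hsplit : ∑ p ∈ pr Y a b, r p / p = ∑ p ∈ (Ico u v).filter Nat.Prime, (r p - 1) / p +
      ∑ p ∈ pr Y a b, 1 / ((p : ℝ) - 1) - ∑ p ∈ pr Y a b, (1 / ((p : ℝ) - 1) - 1 / (p : ℝ)) := by
    rw [← hpr, ← sum_add_distrib, ← sum_sub_distrib]
    apply sum_congr rfl
    intro p _
    ring
  rw [hsplit]
  have h1 := abs_le.1 (hw.trans hw2)
  have h2 := abs_le.1 hm
  rw [abs_le]
  constructor <;> linarith [h1.1, h1.2, h2.1, h2.2, hdiff.1, hdiff.2]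

end Pool.Agent.Y677.KU
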