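import Pool.Agent.TH464.PW.Quad
import Pool.Agent.Y677.KU.ApFam

set_option autoImplicit false

/-!
# The polynomials `n ^ 2 + c`
-/

open Polynomial Finset Filter Topology

namespace Pool.Agent.Y677.KU

open Pool.Agent.W123.RU Pool.Agent.W123.RU.Poly
open Pool.Agent.TH464.PW (quad quad_eval quad_deg quad_lead quad_irr quad_adm)

/-- the polynomial `X ^ 2 + c` -/
noncomputable def sqF (c : ℕ) : ℤ[X] := quad 1 0 c

lemma sqF_deg (c : ℕ) : (sqF c).natDegree = 2 := quad_deg 1 0 c one_ne_zero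

lemma sqF_eval (c n : ℕ) : (sqF c).eval (n : ℤ) = ((n ^ 2 + c : ℕ) : ℤ) := by
  unfold sqF
  rw [quad_eval]
  push_cast
  ring

lemma sqF_sys (c : ℕ) (hc : 1 ≤ c) : Poly.Sys (fun _ : Fin 1 => sqF c) := by
  have hg : ∀ p : ℕ, p.Prime → ¬ ((p : ℤ) ∣ 1 ∧ (p : ℤ) ∣ 0 ∧ (p : ℤ) ∣ (c : ℤ)) := by
    rintro p hp ⟨h, _⟩
    have : p ∣ 1 := by exact_mod_cast h
    exact hp.one_lt.ne' (Nat.dvd_one.1 this)
  exact
    { irr := fun _ => quad_irr 1 0 c one_ne_zero hg (by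
        rintro ⟨t, ht⟩
        have h1 : (1 : ℤ) ≤ c := by exact_mod_cast hc
        nlinarith [mul_self_nonneg t])
      deg := fun _ => by rw [sqF_deg]; norm_num
      lead := fun _ => by
        unfold sqF
        rw [quad_lead 1 0 c one_ne_zero]
        norm_num
      inj := Function.injective_of_subsingleton _
      adm := fun p hp => by
        obtain ⟨m, hm⟩ := quad_adm 1 0 c hg (by
          rintro ⟨h, _⟩
          rw [Int.even_iff] at h
          norm_num at h) p hp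
        exact ⟨m, fun _ => hm⟩ }

lemma sqF_cop (c a Q : ℕ) (h : ∀ p : ℕ, p.Prime → p ∣ Q → ¬ p ∣ a ^ 2 + c) : Cop (sqF c) a Q := by
  intro p hp hpQ hd
  rw [sqF_eval] at hd
  exact h p hp hpQ (by exact_mod_cast hd)

lemma mem_Ra_sqF (c a Q s m : ℕ) : m ∈ Ra (sqF c) a Q s ↔ ∀ p : ℕ, p.Prime →
    p ∣ (a + Q * m) ^ 2 + c → ((a + Q * m : ℕ) : ℝ) ^ (1 / (s : ℝ)) < (p : ℝ) := by
  unfold Ra
  rw [Set.mem_setOf_eq]
  constructor
  · intro h p hp hd
    exact h p hp (by rw [sqF_eval]; exact_mod_cast hd)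
  · intro h p hp hd
    rw [sqF_eval] at hd
    exact h p hp (by exact_mod_cast hd)

lemma mem_Pa_sqF (c a Q r s m : ℕ) : m ∈ Pa (sqF c) a Q r s ↔ m ∈ Ra (sqF c) a Q s ∧
    ((a + Q * m) ^ 2 + c).primeFactorsList.length ≤ r := by
  unfold Pa
  rw [Set.mem_setOf_eq, sqF_eval, Int.natAbs_natCast]

/-- a prime value has only a large prime factor -/
lemma rough_of_prime_sq (x c s : ℕ) (hx : 1 ≤ x) (hs : 1 ≤ s) (hq : (x ^ 2 + c).Prime) :
    ∀ p : ℕ, p.Prime → p ∣ x ^ 2 + c → (x : ℝ) ^ (1 / (s : ℝ)) < (p : ℝ) := by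
  intro p hp hd
  have h1 : p = x ^ 2 + c := (Nat.prime_dvd_prime_iff_eq hp hq).1 hd
  have hx1 : (1 : ℝ) ≤ x := by exact_mod_cast hx
  have hs1 : (1 : ℝ) ≤ s := by exact_mod_cast hs
  have h2 : (x : ℝ) ^ (1 / (s : ℝ)) ≤ x := by
    calc (x : ℝ) ^ (1 / (s : ℝ)) ≤ (x : ℝ) ^ (1 : ℝ) := by
          apply Real.rpow_le_rpow_of_exponent_le hx1
          rw [div_le_one (by linarith)]
          exact hs1
      _ = x := Real.rpow_one _
  have h3 : x < x ^ 2 + c := by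
    rcases Nat.lt_or_ge x 2 with h | h
    · have hx' : x = 1 := by omega
      subst hx'
      have := hq.two_le
      omega
    · have : x < x ^ 2 := by nlinarith
      omega
  rw [h1]
  have h4 : (x : ℝ) < ((x ^ 2 + c : ℕ) : ℝ) := by exact_mod_cast h3
  linarith

end Pool.Agent.Y677.KU
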