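import Pool.Agent.Y677.KU.LinNarrow

set_option autoImplicit false

/-!
# Numbers with at most three prime factors in short intervals, modulus one
-/

open Finset Filter Topology

namespace Pool.Agent.Y677.KU

open Pool.Agent.TH977.PW (N)
open Pool.Agent.Y677.RSZ (InProg Outside)

/-- lower bound, modulus one -/
theorem one_lower (r s : ℕ) (θ : ℝ) (hθ : 0 < θ) (hθ1 : θ ≤ 1) (h1 : 4 < θ * (3 * r + 1))
    (h2 : 1 < θ * r - (r - 1) / s) (h3 : 2 < θ * s) :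
    ∃ κ : ℝ, 0 < κ ∧ ∀ᶠ x : ℕ in atTop, ∀ y : ℕ, (x : ℝ) ^ θ ≤ y → y ≤ x →
      κ * y / Real.log x ≤ N {n | (∀ p : ℕ, p.Prime → p ∣ n → (n : ℝ) ^ (1 / (s : ℝ)) < (p : ℝ)) ∧
          n.primeFactorsList.length ≤ r} x (x + y) := by
  obtain ⟨κ, hκ, h⟩ := lin_lower r s θ hθ hθ1 h1 h2 h3
  refine ⟨κ, hκ, ?_⟩
  filter_upwards [h] with x hx y hy hyx
  have h7 := hx 1 0 y le_rfl (Nat.coprime_one_right 0) (by simpa using hy) hyx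
  rw [Nat.totient_one, Nat.cast_one, one_mul] at h7
  refine h7.trans (Nat.cast_le.2 ?_)
  exact Pool.Agent.TH977.PW.N_mono _ _ _ _ fun n _ _ hn => hn.2

/-- the hereditary statement, modulus one -/
theorem one_hered (s : ℕ) (hs : 1 ≤ s) (θ : ℝ) (hθ : 0 < θ) (l : ℕ) (hl : 2 ≤ l) (ε : ℝ) (hε : 0 < ε) :
    ∃ B : ℕ, ∀ᶠ x : ℕ in atTop, ∀ y : ℕ, (x : ℝ) ^ θ ≤ y → y ≤ x → ∀ A : Set ℕ,
      (∀ n ∈ A, ∀ p : ℕ, p.Prime → p ∣ n → (n : ℝ) ^ (1 / (s : ℝ)) < (p : ℝ)) →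
        (N (Outside A l (Real.log x ^ B) x (x + y)) x (x + y) : ℝ) ≤ ε * y / Real.log x := by
  obtain ⟨B, hB⟩ := lin_hered s hs θ hθ l hl ε hε
  refine ⟨B, ?_⟩
  filter_upwards [hB] with x hx y hy hyx A hA
  have h7 := hx 1 0 y le_rfl (Nat.coprime_one_right 0) (by simpa using hy) hyx A
    (fun n _ => Nat.modEq_one) (fun n hn => hA n hn)
  rwa [Nat.totient_one, Nat.cast_one, one_mul, one_mul] at h7

/-- the existence of narrow progressions, modulus one -/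
theorem one_exists (r s : ℕ) (hs : 1 ≤ s) (θ : ℝ) (hθ : 0 < θ) (hθ1 : θ ≤ 1)
    (h1 : 4 < θ * (3 * r + 1)) (h2 : 1 < θ * r - (r - 1) / s) (h3 : 2 < θ * s) (l : ℕ) :
    ∃ B : ℕ, ∀ᶠ x : ℕ in atTop, ∀ y : ℕ, (x : ℝ) ^ θ ≤ y → y ≤ x →
      ∃ u d : ℕ, 1 ≤ d ∧ (d : ℝ) ≤ Real.log x ^ B ∧ ∀ i < l, u + i * d ∈ {n |
        (∀ p : ℕ, p.Prime → p ∣ n → (n : ℝ) ^ (1 / (s : ℝ)) < (p : ℝ)) ∧
          n.primeFactorsList.length ≤ r} ∧ x < u + i * d ∧ u + i * d ≤ x + y := by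
  obtain ⟨B, hB⟩ := lin_exists r s hs θ hθ hθ1 h1 h2 h3 l
  refine ⟨B, ?_⟩
  filter_upwards [hB] with x hx y hy hyx
  obtain ⟨u, d, h7, h8, h9⟩ := hx 1 0 y le_rfl (Nat.coprime_one_right 0) (by simpa using hy) hyx
  refine ⟨u, d, h7, by simpa using h8, fun i hi => ?_⟩
  obtain ⟨h10, h11⟩ := h9 i hi
  exact ⟨h10.2, h11⟩

/-- a smaller bound for the difference: more elements are outside -/
lemma Outside_mono (A : Set ℕ) (l : ℕ) (D D' : ℝ) (hD : D ≤ D') (a b a' b' : ℕ) (ha : a' ≤ a) (hb : b ≤ b') :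
    Outside A l D' a' b' ⊆ Outside A l D a b := by
  rintro m ⟨h1, h2⟩
  refine ⟨h1, fun ⟨u, d, h3, h4, h5, h6⟩ => h2 ⟨u, d, h3, h4.trans hD, fun i hi => ?_, h6⟩⟩
  obtain ⟨h7, h8, h9⟩ := h5 i hi
  exact ⟨h7, by omega, by omega⟩

end Pool.Agent.Y677.KU
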