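import Pool.Agent.Y677.KU.KuhnM

set_option autoImplicit false

/-!
# Two-sided universal weights of the linear sieve, all sufficiently small `ε₁`
-/

open Finset Filter

namespace Pool.Agent.Y677.KU

open Pool.Agent.W23.DC Pool.Agent.Y882

open Classical in
theorem twoE (κ : ℕ) (τ ζ δ β η : ℝ) (hζ : 0 < ζ) (h2 : 2 * ζ < τ) (hτ : τ ≤ 1) (hδ : 0 < δ)
    (hβ : 0 < β) (hη : 0 < η) {A0 : ℝ} {F f : ℝ → ℝ} (hSF : SF A0 F f) (hf : 0 < f (τ / ζ)) :
    ∃ ε₀ : ℝ, 0 < ε₀ ∧ ε₀ ≤ ζ ∧ ∀ ε₁ : ℝ, 0 < ε₁ → ε₁ ≤ ε₀ → ∃ η₁ : ℝ, 0 < η₁ ∧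
      ∃ Y0 : ℕ, ∀ Y : ℕ, Y0 ≤ Y →
      (∃ c : Finset ℕ → ℝ, (∀ T, |c T| ≤ 5 * Real.log Y) ∧
        (∀ T ⊆ PZ Y ζ, c T ≠ 0 → ((∏ p ∈ T, p : ℕ) : ℝ) ≤ (Y : ℝ) ^ (τ + δ)) ∧
        (∀ N : ℕ, VV (PZ Y ζ) c (fun p => if p ∣ N then 1 else 0) ≤
          (if ∀ p ∈ PZ Y ζ, ¬ p ∣ N then 1 else 0)) ∧
        ∀ h : ℕ → ℝ, Cond κ Y ε₁ ζ η₁ h →
          ε₁ / ζ * (f (τ / ζ) - η) * ∏ p ∈ PZ Y ε₁, (1 - h p) ≤ VV (PZ Y ζ) c h) ∧
      ∀ σ : ℝ, ζ ≤ σ → σ ≤ 1 → ∃ c : Finset ℕ → ℝ, (∀ T, |c T| ≤ 1) ∧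
        (∀ T ⊆ PZ Y ζ, c T ≠ 0 → ((∏ p ∈ T, p : ℕ) : ℝ) ≤ (Y : ℝ) ^ (σ + δ)) ∧
        (∀ N : ℕ, (if ∀ p ∈ PZ Y ζ, ¬ p ∣ N then 1 else 0) ≤
          VV (PZ Y ζ) c (fun p => if p ∣ N then 1 else 0)) ∧
        ∀ h : ℕ → ℝ, Cond κ Y ε₁ ζ η₁ h →
          VV (PZ Y ζ) c h ≤ ε₁ / ζ * (F (σ / ζ) + η) * ∏ p ∈ PZ Y ε₁, (1 - h p) := by
  obtain ⟨C, hC1, HF⟩ := flw
  have hτ0 : 0 < τ := by linarith
  -- a bound for F
  obtain ⟨M, hM1, hM⟩ : ∃ M : ℝ, 1 ≤ M ∧ ∀ s : ℝ, 1 ≤ s → s ≤ 1 / ζ → F s ≤ M := by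
    obtain ⟨M, hM⟩ := (isCompact_Icc (a := (1 : ℝ)) (b := 1 / ζ)).exists_bound_of_continuousOn
      (hSF.cF.mono (fun x hx => hx.1))
    refine ⟨max M 1, le_max_right _ _, fun s h1 h2 => ?_⟩
    exact (le_trans (le_abs_self _) (hM s ⟨h1, h2⟩)).trans (le_max_left _ _)
  have hFlev : ∀ σ : ℝ, ζ ≤ σ → σ ≤ 1 → 1 ≤ F (σ / ζ) ∧ F (σ / ζ) ≤ M := by
    intro σ h3 h4
    have h5 : 1 ≤ σ / ζ := by rwa [le_div_iff₀ hζ, one_mul]
    exact ⟨hSF.F1 _ h5, hM _ h5 (div_le_div_of_nonneg_right h4 hζ.le)⟩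
  obtain ⟨μ, hμ0, hμη, hμf⟩ : ∃ μ : ℝ, 0 < μ ∧ μ ≤ η / 4 ∧ μ ≤ f (τ / ζ) :=
    ⟨min (η / 4) (f (τ / ζ)), lt_min (by linarith) hf, min_le_left _ _, min_le_right _ _⟩
  obtain ⟨b, hb1, hb2⟩ : ∃ b : ℕ, C * (κ + 1) ≤ b ∧ 2 * (1 / 2 : ℝ) ^ b * (M + η) ≤ η / 2 := by
    obtain ⟨m, hm⟩ := exists_pow_lt_of_lt_one (show 0 < η / (4 * (M + η)) by positivity)
      (show (1 / 2 : ℝ) < 1 by norm_num)
    refine ⟨max m (C * (κ + 1)), le_max_right _ _, ?_⟩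
    have h6 : (1 / 2 : ℝ) ^ (max m (C * (κ + 1))) ≤ (1 / 2) ^ m :=
      pow_le_pow_of_le_one (by norm_num) (by norm_num) (le_max_left _ _)
    have h7 := h6.trans hm.le
    rw [le_div_iff₀ (by positivity)] at h7
    linarith
  have hb0 : 1 ≤ b := le_trans (Nat.mul_pos hC1 (by omega)) hb1
  have hCb : (1 : ℝ) ≤ C * b := by
    have : 1 ≤ C * b := Nat.mul_pos hC1 (by omega)
    exact_mod_cast this
  refine ⟨min (min ζ β) (δ / (4 * (C * b))),
    lt_min (lt_min hζ hβ) (div_pos (by linarith) (by linarith)),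
    (min_le_left _ _).trans (min_le_left _ _), fun ε₁ hε0 hle => ?_⟩
  have hεζ : ε₁ ≤ ζ := hle.trans ((min_le_left _ _).trans (min_le_left _ _))
  have hεb : 2 * ε₁ * (C * b) ≤ δ / 2 := by
    have h6 : ε₁ ≤ δ / (4 * (C * b)) := hle.trans (min_le_right _ _)
    rw [le_div_iff₀ (by linarith)] at h6
    linarith
  have hζ2 : ζ < 1 / 2 := by linarith
  obtain ⟨η₁, hη₁, HL'⟩ := ls2 hSF τ ζ ε₁ (ε₁ / ζ * μ) h2 hτ hε0 hεζ (by positivity)
  obtain ⟨Y2, hJ⟩ := exJ ε₁ hε0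
  set z0 : ℕ := C * (κ + 1) with hz0
  set B : ℕ := ∏ p ∈ (Icc 1 z0), p with hB
  have hB1 : 1 ≤ B := by
    rw [hB]
    exact Nat.pos_of_ne_zero (prod_ne_zero_iff.2 fun p hp => by
      have := (mem_Icc.1 hp).1
      omega)
  have ev1 : ∀ᶠ Y : ℕ in atTop, (B : ℝ) ≤ (Y : ℝ) ^ (δ / 2) :=
    tendsto_natCast_atTop_atTop.eventually
      ((tendsto_rpow_atTop (by linarith)).eventually_ge_atTop _)
  obtain ⟨Y3, hY3⟩ := eventually_atTop.1 (ev1.and (eventually_ge_atTop 3))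
  refine ⟨η₁, hη₁, max Y2 Y3, ?_⟩
  intro Y hY
  have hYY2 : Y2 ≤ Y := (le_max_left _ _).trans hY
  obtain ⟨e1, e4⟩ := hY3 Y ((le_max_right _ _).trans hY)
  obtain ⟨J, hJ1, hJ2⟩ := hJ Y hYY2
  have hYr : (3 : ℝ) ≤ Y := by exact_mod_cast e4
  have hY1r : (1 : ℝ) ≤ Y := by linarith
  have hlY1 : 1 ≤ Real.log Y := by
    rw [Real.le_log_iff_exp_le (by linarith)]
    linarith [Real.exp_one_lt_d9]
  have hlY : 0 < Real.log Y := by linarith
  have hlog2 : 0.69 < Real.log 2 := by linarith [Real.log_two_gt_d9]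
  -- size of J
  have hJlog : (2 : ℝ) ^ J * Real.log 2 ≤ 2 * ε₁ * Real.log Y := by
    have h6 := Real.log_le_log (by positivity) hJ2
    rw [Real.log_rpow (by linarith), Real.log_pow] at h6
    push_cast at h6
    exact h6
  have hJc : (J : ℝ) + 3 ≤ 5 * Real.log Y := by
    have h6 : (J : ℝ) ≤ 2 ^ J := by exact_mod_cast Nat.lt_two_pow_self.le
    have h7 : (2 : ℝ) ^ J * 0.69 ≤ 2 * ε₁ * Real.log Y := by
      refine le_trans ?_ hJlog
      apply mul_le_mul_of_nonneg_left hlog2.le (by positivity)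
    have h8 : ε₁ * Real.log Y ≤ 1 / 2 * Real.log Y := by
      apply mul_le_mul_of_nonneg_right _ hlY.le
      linarith
    nlinarith
  -- the three sets of primes
  set P0 : Finset ℕ := (PZ Y ε₁).filter (fun p => p ≤ z0) with hP0
  set P1 : Finset ℕ := (PZ Y ε₁).filter (fun p => ¬ p ≤ z0) with hP1
  set P2 : Finset ℕ := pr Y ε₁ ζ with hP2
  have hQ : P0 ∪ P1 = PZ Y ε₁ := filter_union_filter_not_eq _ _
  have hd01 : Disjoint P0 P1 := disjoint_filter_filter_not _ _ _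
  have hPZ : ∀ p, p ∈ PZ Y ε₁ → p.Prime ∧ p ≤ Y ∧ (p : ℝ) < (Y : ℝ) ^ ε₁ := by
    intro p hp
    unfold PZ at hp
    rw [mem_filter, mem_Icc] at hp
    exact ⟨hp.2.1, hp.1.2, (tt_lt Y p ε₁ (by omega) hp.2.1.pos).1 hp.2.2⟩
  have hd2 : Disjoint (PZ Y ε₁) P2 := by
    rw [disjoint_left]
    intro p hp hp'
    unfold PZ at hp
    rw [hP2] at hp'
    unfold pr at hp'
    rw [mem_filter] at hp hp'
    linarith [hp.2.2, hp'.2.2.1]
  have hPall : PZ Y ε₁ ∪ P2 = PZ Y ζ := by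
    ext p
    rw [mem_union, hP2]
    unfold PZ pr
    rw [mem_filter, mem_filter, mem_filter]
    constructor
    · rintro (⟨h6, h7, h8⟩ | ⟨h6, h7, h8, h9⟩)
      · exact ⟨h6, h7, h8.trans_le hεζ⟩
      · exact ⟨h6, h7, h9⟩
    · rintro ⟨h6, h7, h8⟩
      rcases lt_or_ge (tt Y p) ε₁ with h9 | h9
      · exact Or.inl ⟨h6, h7, h9⟩
      · exact Or.inr ⟨h6, h7, h9, h8⟩
  have hlt2 : ∀ p ∈ PZ Y ε₁, p < 2 ^ 2 ^ J := by
    intro p hp
    have h6 := (hPZ p hp).2.2.trans_le hJ1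
    exact_mod_cast h6
  -- the weights
  obtain ⟨cU, cL, g1, g2, g3, g4⟩ := HF κ b J z0 P1 hb1 le_rfl (by
    intro p hp
    rw [hP1, mem_filter] at hp
    exact ⟨(hPZ p hp.1).1, by omega, (hlt2 p hp.1).le⟩)
  obtain ⟨⟨yL, kL1, kL2, kL3, kL4⟩, HU⟩ := HL' Y (by omega)
  set W : (Finset ℕ → ℝ) → (Finset ℕ → ℝ) → Finset ℕ → ℝ := fun α β T =>
    (fun U => (-1) ^ (U ∩ P0).card * α (U ∩ P1)) (T ∩ PZ Y ε₁) * β (T ∩ P2) with hW
  have hVW : ∀ (α β : Finset ℕ → ℝ) (h : ℕ → ℝ), VV (PZ Y ζ) (W α β) h =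
      (∏ p ∈ P0, (1 - h p)) * VV P1 α h * VV P2 β h := by
    intro α β h
    rw [← hPall]
    have h6 := VV_union (PZ Y ε₁) P2 hd2 (fun U => (-1) ^ (U ∩ P0).card * α (U ∩ P1)) β h
    simp only [hW]
    rw [h6]
    congr 1
    have h7 := VV_union P0 P1 hd01 (fun U => (-1) ^ U.card) α h
    rw [VV_mu, hQ] at h7
    exact h7
  have hWle : ∀ (α β : Finset ℕ → ℝ) (T : Finset ℕ), |W α β T| =
      |α ((T ∩ PZ Y ε₁) ∩ P1)| * |β (T ∩ P2)| := by
    intro α β T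
    simp only [hW]
    rw [abs_mul, abs_mul, abs_neg_one_pow, one_mul]
  -- general facts
  have hW1 : ∀ (α β : Finset ℕ → ℝ) (T : Finset ℕ), W α β T ≠ 0 →
      α ((T ∩ PZ Y ε₁) ∩ P1) ≠ 0 ∧ β (T ∩ P2) ≠ 0 := by
    intro α β T hne
    simp only [hW] at hne
    exact ⟨fun h => hne (by rw [h]; ring), fun h => hne (by rw [h]; ring)⟩
  have hsupp : ∀ (σ : ℝ) (T : Finset ℕ), T ⊆ PZ Y ζ →
      (∏ p ∈ (T ∩ PZ Y ε₁) ∩ P1, p ≤ (2 ^ 2 ^ J) ^ (C * b)) →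
      (((∏ p ∈ T ∩ P2, p : ℕ) : ℝ) ≤ (Y : ℝ) ^ σ) →
      ((∏ p ∈ T, p : ℕ) : ℝ) ≤ (Y : ℝ) ^ (σ + δ) := by
    intro σ T hT h6 h7
    have h8 : T = ((T ∩ P0) ∪ ((T ∩ PZ Y ε₁) ∩ P1)) ∪ (T ∩ P2) := by
      ext p
      simp only [mem_union, mem_inter]
      constructor
      · intro hp
        have h9 := hT hp
        rw [← hPall, mem_union] at h9
        rcases h9 with h9 | h9
        · have h10 := h9
          rw [← hQ, mem_union] at h10
          rcases h10 with h10 | h10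
          · exact Or.inl (Or.inl ⟨hp, h10⟩)
          · exact Or.inl (Or.inr ⟨⟨hp, h9⟩, h10⟩)
        · exact Or.inr ⟨hp, h9⟩
      · rintro ((h | h) | h)
        · exact h.1
        · exact h.1.1
        · exact h.1
    have hpos : ∀ S ⊆ T, 1 ≤ ∏ p ∈ S, p := by
      intro S hS
      refine Nat.pos_of_ne_zero (prod_ne_zero_iff.2 fun p hp => ?_)
      have := hT (hS hp)
      unfold PZ at this
      rw [mem_filter] at this
      exact this.2.1.ne_zero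
    have h9 : ∏ p ∈ T, p ≤ ((∏ p ∈ T ∩ P0, p) * ∏ p ∈ (T ∩ PZ Y ε₁) ∩ P1, p) *
        ∏ p ∈ T ∩ P2, p := by
      conv_lhs => rw [h8]
      have u1 : ∏ p ∈ ((T ∩ P0) ∪ ((T ∩ PZ Y ε₁) ∩ P1)) ∪ (T ∩ P2), p ≤
          (∏ p ∈ ((T ∩ P0) ∪ ((T ∩ PZ Y ε₁) ∩ P1)), p) * ∏ p ∈ (T ∩ P2), p := by
        rw [← prod_union_inter]
        apply Nat.le_mul_of_pos_right
        exact hpos _ (inter_subset_right.trans inter_subset_left)
      have u2 : ∏ p ∈ ((T ∩ P0) ∪ ((T ∩ PZ Y ε₁) ∩ P1)), p ≤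
          (∏ p ∈ (T ∩ P0), p) * ∏ p ∈ ((T ∩ PZ Y ε₁) ∩ P1), p := by
        rw [← prod_union_inter]
        apply Nat.le_mul_of_pos_right
        exact hpos _ (inter_subset_left.trans inter_subset_left)
      exact u1.trans (Nat.mul_le_mul_right _ u2)
    have h10 : ∏ p ∈ T ∩ P0, p ≤ B := by
      rw [hB]
      apply prod_le_prod_of_subset_of_one_le'
      · intro p hp
        have h11 := (mem_inter.1 hp).2
        rw [hP0, mem_filter] at h11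
        exact mem_Icc.2 ⟨(hPZ p h11.1).1.pos, h11.2⟩
      · intro p hp _
        exact (mem_Icc.1 hp).1
    have h11 : ((∏ p ∈ T, p : ℕ) : ℝ) ≤ ((B : ℝ) * ((2 : ℝ) ^ 2 ^ J) ^ (C * b)) *
        ((∏ p ∈ T ∩ P2, p : ℕ) : ℝ) := by
      have h12 : ∏ p ∈ T, p ≤ (B * (2 ^ 2 ^ J) ^ (C * b)) * ∏ p ∈ T ∩ P2, p :=
        h9.trans (Nat.mul_le_mul_right _ (Nat.mul_le_mul h10 h6))
      exact_mod_cast h12
    refine h11.trans ?_
    calc ((B : ℝ) * ((2 : ℝ) ^ 2 ^ J) ^ (C * b)) * ((∏ p ∈ T ∩ P2, p : ℕ) : ℝ) ≤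
        ((Y : ℝ) ^ (δ / 2) * ((Y : ℝ) ^ (2 * ε₁)) ^ (C * b)) * (Y : ℝ) ^ σ := by
          gcongr
      _ ≤ ((Y : ℝ) ^ (δ / 2) * (Y : ℝ) ^ (δ / 2)) * (Y : ℝ) ^ σ := by
          gcongr
          rw [← Real.rpow_natCast, ← Real.rpow_mul (by linarith)]
          apply Real.rpow_le_rpow_of_exponent_le hY1r
          push_cast
          exact hεb
      _ = (Y : ℝ) ^ (σ + δ) := by
          rw [← Real.rpow_add (by linarith), ← Real.rpow_add (by linarith)]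
          congr 1
          ring
  have hX0 : ∀ N : ℕ, ∏ p ∈ P0, (1 - (fun p => if p ∣ N then (1 : ℝ) else 0) p) =
      if ∀ p ∈ P0, ¬ p ∣ N then 1 else 0 := by
    intro N
    have : ∀ p ∈ P0, 1 - (fun p => if p ∣ N then (1 : ℝ) else 0) p = if ¬ p ∣ N then 1 else 0 := by
      intro p _
      simp only
      split_ifs <;> norm_num
    rw [prod_congr rfl this, Finset.prod_ite_zero]
    simp
  have hxyall : ∀ N : ℕ, (if ∀ p ∈ P0, ¬ p ∣ N then (1 : ℝ) else 0) *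
      ((if ∀ p ∈ P1, ¬ p ∣ N then 1 else 0) * (if ∀ p ∈ P2, ¬ p ∣ N then 1 else 0)) =
      if ∀ p ∈ PZ Y ζ, ¬ p ∣ N then (1 : ℝ) else 0 := by
    intro N
    by_cases hc0 : ∀ p ∈ P0, ¬ p ∣ N
    · by_cases hc1 : ∀ p ∈ P1, ¬ p ∣ N
      · by_cases hc2 : ∀ p ∈ P2, ¬ p ∣ N
        · rw [if_pos hc0, if_pos hc1, if_pos hc2, if_pos, mul_one, mul_one]
          intro p hp
          rw [← hPall, ← hQ, mem_union, mem_union] at hp
          rcases hp with (hp | hp) | hp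
          · exact hc0 p hp
          · exact hc1 p hp
          · exact hc2 p hp
        · rw [if_neg hc2, mul_zero, mul_zero, if_neg]
          intro hc
          apply hc2
          intro p hp
          exact hc p (by rw [← hPall]; exact mem_union_right _ hp)
      · rw [if_neg hc1, zero_mul, mul_zero, if_neg]
        intro hc
        apply hc1
        intro p hp
        exact hc p (by rw [← hPall, ← hQ]; exact mem_union_left _ (mem_union_right _ hp))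
    · rw [if_neg hc0, zero_mul, if_neg]
      intro hc
      apply hc0
      intro p hp
      exact hc p (by rw [← hPall, ← hQ]; exact mem_union_left _ (mem_union_left _ hp))
  have hzκ : κ ≤ z0 := by
    rw [hz0]
    calc κ ≤ 1 * (κ + 1) := by omega
      _ ≤ C * (κ + 1) := Nat.mul_le_mul_right _ hC1
  have hsub1 : ∀ p ∈ PZ Y ε₁, p ∈ PZ Y ζ := fun p hp => by
    rw [← hPall]; exact mem_union_left _ hp
  have hgn0 : ∀ h : ℕ → ℝ, Cond κ Y ε₁ ζ η₁ h → ∀ p ∈ P1, 0 ≤ h p ∧ h p ≤ (κ : ℝ) / ((p : ℝ) - 1) := by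
    intro h hh p hp
    rw [hP1, mem_filter] at hp
    exact ⟨hh.nn p (hsub1 p hp.1), hh.leκ p hp.1 (by omega)⟩
  have hgn2 : ∀ h : ℕ → ℝ, Cond κ Y ε₁ ζ η₁ h → ∀ p ∈ P2, 0 ≤ h p := by
    intro h hh p hp
    exact hh.nn p (by rw [← hPall]; exact mem_union_right _ hp)
  have hVV : ∀ h : ℕ → ℝ, ∏ p ∈ PZ Y ε₁, (1 - h p) =
      (∏ p ∈ P0, (1 - h p)) * ∏ p ∈ P1, (1 - h p) := by
    intro h
    rw [← hQ, prod_union hd01]
  have hV0 : ∀ h : ℕ → ℝ, Cond κ Y ε₁ ζ η₁ h → 0 ≤ ∏ p ∈ P0, (1 - h p) := fun h hh =>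
    prod_nonneg fun p hp => by
      have := hh.le1 p (by rw [← hQ]; exact mem_union_left _ hp)
      linarith
  have hV1 : ∀ h : ℕ → ℝ, Cond κ Y ε₁ ζ η₁ h → 0 ≤ ∏ p ∈ P1, (1 - h p) := fun h hh =>
    prod_nonneg fun p hp => by
      have := hh.le1 p (by rw [← hQ]; exact mem_union_right _ hp)
      linarith
  have hεζ0 : 0 < ε₁ / ζ := by positivity
  have hb3 : 2 * (1 / 2 : ℝ) ^ b * M ≤ η / 2 := by
    refine le_trans ?_ hb2
    apply mul_le_mul_of_nonneg_left (by linarith) (by positivity)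
  constructor
  · -- the lower bound weights
    obtain ⟨yU, k1, k2, k3, k4⟩ := HU τ (by linarith) hτ
    refine ⟨fun T => W cL yU T + W cU yL T - W cU yU T, ?_, ?_, ?_, ?_⟩
    · intro T
      have h6 := hWle cL yU T
      have h7 := hWle cU yL T
      have h8 := hWle cU yU T
      set U1 := (T ∩ PZ Y ε₁) ∩ P1
      set U2 := T ∩ P2
      have h9 : |W cL yU T| ≤ J + 1 := by
        rw [h6]
        calc |cL U1| * |yU U2| ≤ (J + 1) * 1 := by
              apply mul_le_mul (g1 U1).2 (k1 U2) (abs_nonneg _) (by positivity)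
          _ = J + 1 := mul_one _
      have h10 : |W cU yL T| ≤ 1 := by
        rw [h7]
        calc |cU U1| * |yL U2| ≤ 1 * 1 := by
              apply mul_le_mul (g1 U1).1 (kL1 U2) (abs_nonneg _) (by positivity)
          _ = 1 := mul_one _
      have h11 : |W cU yU T| ≤ 1 := by
        rw [h8]
        calc |cU U1| * |yU U2| ≤ 1 * 1 := by
              apply mul_le_mul (g1 U1).1 (k1 U2) (abs_nonneg _) (by positivity)
          _ = 1 := mul_one _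
      calc |W cL yU T + W cU yL T - W cU yU T| ≤ |W cL yU T + W cU yL T| + |W cU yU T| := abs_sub _ _
        _ ≤ |W cL yU T| + |W cU yL T| + |W cU yU T| := by
            have := abs_add_le (W cL yU T) (W cU yL T)
            linarith
        _ ≤ 5 * Real.log Y := by linarith
    · intro T hT hne
      have hne3 : W cL yU T ≠ 0 ∨ W cU yL T ≠ 0 ∨ W cU yU T ≠ 0 := by
        by_contra hc
        push Not at hc
        apply hne
        show W cL yU T + W cU yL T - W cU yU T = 0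
        rw [hc.1, hc.2.1, hc.2.2]
        ring
      have hsubP2 : T ∩ P2 ⊆ P2 := inter_subset_right
      rcases hne3 with h | h | h
      · obtain ⟨h3, h4⟩ := hW1 _ _ _ h
        exact hsupp τ T hT (g2 _ inter_subset_right (Or.inr h3)) (k2 _ hsubP2 h4)
      · obtain ⟨h3, h4⟩ := hW1 _ _ _ h
        exact hsupp τ T hT (g2 _ inter_subset_right (Or.inl h3)) (kL2 _ hsubP2 h4)
      · obtain ⟨h3, h4⟩ := hW1 _ _ _ h
        exact hsupp τ T hT (g2 _ inter_subset_right (Or.inl h3)) (k2 _ hsubP2 h4)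
    · intro N
      rw [VV_sub, VV_add, hVW, hVW, hVW, hX0 N, ← hxyall N]
      obtain ⟨a1, a2⟩ := g3 N
      have a3 := kL3 N
      have a4 := k3 N
      set h : ℕ → ℝ := fun p => if p ∣ N then 1 else 0 with hh
      set x : ℝ := if ∀ p ∈ P1, ¬ p ∣ N then 1 else 0 with hx
      set y : ℝ := if ∀ p ∈ P2, ¬ p ∣ N then 1 else 0 with hy
      have hx0 : 0 ≤ x := by rw [hx]; split_ifs <;> norm_num
      have hy0 : 0 ≤ y := by rw [hy]; split_ifs <;> norm_num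
      set L := VV P1 cL h
      set U := VV P1 cU h
      set l := VV P2 yL h
      set u := VV P2 yU h
      have key : L * u + U * l - U * u ≤ x * y := by
        have b1 : 0 ≤ (U - x) * (u - l) := mul_nonneg (by linarith) (by linarith)
        have b2 : 0 ≤ x * (y - l) := mul_nonneg hx0 (by linarith)
        have b3 : 0 ≤ (x - L) * u := mul_nonneg (by linarith) (by linarith)
        nlinarith
      have hz : (0 : ℝ) ≤ if ∀ p ∈ P0, ¬ p ∣ N then (1 : ℝ) else 0 := by split_ifs <;> norm_num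
      have := mul_le_mul_of_nonneg_left key hz
      linarith
    · intro h hh
      rw [VV_sub, VV_add, hVW, hVW, hVW]
      obtain ⟨a1, a2, a3, a4⟩ := g4 h (hgn0 h hh)
      have a5 := kL4 h (hgn2 h hh) hh.mer
      have a6 := k4 h (hgn2 h hh) hh.mer
      rw [hVV h]
      have hV0' := hV0 h hh
      have hV1' := hV1 h hh
      set V0 := ∏ p ∈ P0, (1 - h p)
      set V1 := ∏ p ∈ P1, (1 - h p)
      set L := VV P1 cL h
      set U := VV P1 cU h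
      set l := VV P2 yL h
      set u := VV P2 yU h
      obtain ⟨hF1, hF2⟩ := hFlev τ (by linarith) hτ
      have key : V1 * (ε₁ / ζ * (f (τ / ζ) - η)) ≤ L * u + U * l - U * u := by
        have hl0 : 0 ≤ ε₁ / ζ * f (τ / ζ) - ε₁ / ζ * μ := by
          rw [← mul_sub]
          exact mul_nonneg hεζ0.le (by linarith)
        have b1 : V1 * (ε₁ / ζ * f (τ / ζ) - ε₁ / ζ * μ) ≤ U * l :=
          mul_le_mul a3 a5 hl0 (hV1'.trans a3)
        have b2 : (U - L) * u ≤ (U - L) * (ε₁ / ζ * F (τ / ζ) + ε₁ / ζ * μ) :=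
          mul_le_mul_of_nonneg_left a6 (by linarith)
        have b3 : (U - L) * (ε₁ / ζ * F (τ / ζ) + ε₁ / ζ * μ) ≤
            (2 * (1 / 2) ^ b * V1) * (ε₁ / ζ * F (τ / ζ) + ε₁ / ζ * μ) := by
          apply mul_le_mul_of_nonneg_right _ (by positivity)
          linarith
        have b4 : (2 * (1 / 2) ^ b * V1) * (ε₁ / ζ * F (τ / ζ) + ε₁ / ζ * μ) ≤
            V1 * (ε₁ / ζ * (η / 2)) := by
          calc (2 * (1 / 2) ^ b * V1) * (ε₁ / ζ * F (τ / ζ) + ε₁ / ζ * μ) =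
              V1 * (ε₁ / ζ * (2 * (1 / 2) ^ b * (F (τ / ζ) + μ))) := by ring
            _ ≤ V1 * (ε₁ / ζ * (2 * (1 / 2) ^ b * (M + η))) := by
                gcongr
                linarith
            _ ≤ V1 * (ε₁ / ζ * (η / 2)) := by gcongr
        have b5 : V1 * (ε₁ / ζ * (f (τ / ζ) - η)) ≤
            V1 * (ε₁ / ζ * f (τ / ζ) - ε₁ / ζ * μ) - V1 * (ε₁ / ζ * (η / 2)) := by
          rw [← mul_sub]
          apply mul_le_mul_of_nonneg_left _ hV1'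
          have : 0 ≤ ε₁ / ζ * (η / 2 - μ) := mul_nonneg hεζ0.le (by linarith)
          nlinarith
        nlinarith
      calc ε₁ / ζ * (f (τ / ζ) - η) * (V0 * V1) = V0 * (V1 * (ε₁ / ζ * (f (τ / ζ) - η))) := by ring
        _ ≤ V0 * (L * u + U * l - U * u) := mul_le_mul_of_nonneg_left key hV0'
        _ = V0 * L * u + V0 * U * l - V0 * U * u := by ring
  · -- the upper bound weights
    intro σ hσ1 hσ2
    obtain ⟨yU, k1, k2, k3, k4⟩ := HU σ hσ1 hσ2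
    refine ⟨W cU yU, ?_, ?_, ?_, ?_⟩
    · intro T
      rw [hWle cU yU T]
      calc |cU ((T ∩ PZ Y ε₁) ∩ P1)| * |yU (T ∩ P2)| ≤ 1 * 1 := by
            apply mul_le_mul (g1 _).1 (k1 _) (abs_nonneg _) (by positivity)
        _ = 1 := mul_one _
    · intro T hT hne
      obtain ⟨h3, h4⟩ := hW1 _ _ _ hne
      exact hsupp σ T hT (g2 _ inter_subset_right (Or.inl h3)) (k2 _ inter_subset_right h4)
    · intro N
      rw [hVW, hX0 N, ← hxyall N]
      obtain ⟨a1, a2⟩ := g3 N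
      have a4 := k3 N
      set x : ℝ := if ∀ p ∈ P1, ¬ p ∣ N then 1 else 0 with hx
      set y : ℝ := if ∀ p ∈ P2, ¬ p ∣ N then 1 else 0 with hy
      have hx0 : 0 ≤ x := by rw [hx]; split_ifs <;> norm_num
      have hy0 : 0 ≤ y := by rw [hy]; split_ifs <;> norm_num
      have hz : (0 : ℝ) ≤ if ∀ p ∈ P0, ¬ p ∣ N then (1 : ℝ) else 0 := by split_ifs <;> norm_num
      rw [mul_assoc]
      exact mul_le_mul_of_nonneg_left (mul_le_mul a2 a4 hy0 (hx0.trans a2)) hz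
    · intro h hh
      rw [hVW, hVV h]
      obtain ⟨a1, a2, a3, a4⟩ := g4 h (hgn0 h hh)
      have a6 := k4 h (hgn2 h hh) hh.mer
      have hV0' := hV0 h hh
      have hV1' := hV1 h hh
      set V0 := ∏ p ∈ P0, (1 - h p)
      set V1 := ∏ p ∈ P1, (1 - h p)
      set U := VV P1 cU h
      set u := VV P2 yU h
      obtain ⟨hF1, hF2⟩ := hFlev σ hσ1 hσ2
      have hU0 : 0 ≤ U := hV1'.trans a3
      have hbb : (0 : ℝ) ≤ (1 / 2 : ℝ) ^ b := by positivity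
      have key : U * u ≤ V1 * (ε₁ / ζ * (F (σ / ζ) + η)) := by
        calc U * u ≤ U * (ε₁ / ζ * F (σ / ζ) + ε₁ / ζ * μ) := mul_le_mul_of_nonneg_left a6 hU0
          _ ≤ ((1 + (1 / 2) ^ b) * V1) * (ε₁ / ζ * F (σ / ζ) + ε₁ / ζ * μ) := by
              apply mul_le_mul_of_nonneg_right a4 (by positivity)
          _ = V1 * (ε₁ / ζ * (F (σ / ζ) + μ + (1 / 2) ^ b * (F (σ / ζ) + μ))) := by ring
          _ ≤ V1 * (ε₁ / ζ * (F (σ / ζ) + η)) := by
              have h9 : (1 / 2 : ℝ) ^ b * (F (σ / ζ) + μ) ≤ η / 4 := by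
                have h10 : (1 / 2 : ℝ) ^ b * (F (σ / ζ) + μ) ≤ (1 / 2 : ℝ) ^ b * (M + η) := by
                  apply mul_le_mul_of_nonneg_left _ hbb
                  linarith
                linarith
              exact mul_le_mul_of_nonneg_left (mul_le_mul_of_nonneg_left (by linarith) hεζ0.le) hV1'
      calc V0 * U * u = V0 * (U * u) := by ring
        _ ≤ V0 * (V1 * (ε₁ / ζ * (F (σ / ζ) + η))) := mul_le_mul_of_nonneg_left key hV0'
        _ = ε₁ / ζ * (F (σ / ζ) + η) * (V0 * V1) := by ring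

end Pool.Agent.Y677.KU
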